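import Pool.Agent.RDS.Stmts

/-!
# Random digit sets: the elementary asymptotics
-/

set_option autoImplicit false

namespace Pool.Agent.RDS

open Filter Topology

namespace AS

/-- the variable `L ^ (1/100)` -/
noncomputable def Y (L : ℕ) : ℝ := (L : ℝ) ^ ((1 : ℝ) / 100)

lemma Y_pow (L : ℕ) : Y L ^ 100 = (L : ℝ) := by
  unfold Y
  rw [← Real.rpow_natCast, ← Real.rpow_mul (Nat.cast_nonneg L)]
  norm_num

lemma Y_tendsto : Tendsto Y atTop atTop :=
  (tendsto_rpow_atTop (by norm_num : (0 : ℝ) < 1 / 100)).comp tendsto_natCast_atTop_atTop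

noncomputable def Mf (L : ℕ) : ℕ := ⌊Y L⌋₊ + 1
noncomputable def sf (L : ℕ) : ℕ := ⌈Y L ^ 95⌉₊
noncomputable def s1f (L : ℕ) : ℕ := ⌊Y L ^ 99⌋₊

/-- the bound for the first term -/
noncomputable def gf (k : ℕ) : ℝ := (k : ℝ) ^ 200 * (11 ^ k / (Nat.factorial k : ℝ))

lemma gf_tendsto : Tendsto gf atTop (𝓝 0) := by
  have h1 : ∀ᶠ k : ℕ in atTop, (k : ℝ) ^ 200 ≤ 2 ^ k := by
    have h := (isLittleO_pow_const_const_pow_of_one_lt (R := ℝ) 200
      (by norm_num : (1 : ℝ) < 2)).bound (by norm_num : (0 : ℝ) < 1)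
    filter_upwards [h] with k hk
    rw [one_mul, Real.norm_eq_abs, Real.norm_eq_abs, abs_of_nonneg (by positivity),
      abs_of_nonneg (by positivity)] at hk
    exact hk
  have h2 : Tendsto (fun k : ℕ => (22 : ℝ) ^ k / (Nat.factorial k : ℝ)) atTop (𝓝 0) :=
    FloorSemiring.tendsto_pow_div_factorial_atTop 22
  refine squeeze_zero' (Eventually.of_forall fun k => by unfold gf; positivity) ?_ h2
  filter_upwards [h1] with k hk
  unfold gf
  rw [← mul_div_assoc]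
  have h3 : (0 : ℝ) < (Nat.factorial k : ℝ) := by exact_mod_cast Nat.factorial_pos k
  rw [div_le_div_iff_of_pos_right h3]
  calc (k : ℝ) ^ 200 * 11 ^ k ≤ 2 ^ k * 11 ^ k := by gcongr
    _ = 22 ^ k := by rw [← mul_pow]; norm_num

noncomputable def df (L : ℕ) : ℝ :=
  20 * gf (Mf L + 1) + 3 / Y L ^ 10 + (4 * Real.exp (-Y L) + 400 * Real.exp (-Y L))

lemma Mf_tendsto : Tendsto (fun L => Mf L + 1) atTop atTop := by
  have h1 : Tendsto (fun L => ⌊Y L⌋₊) atTop atTop := tendsto_nat_floor_atTop.comp Y_tendsto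
  refine tendsto_atTop_mono (fun L => ?_) h1
  unfold Mf
  omega

lemma df_tendsto : Tendsto df atTop (𝓝 0) := by
  have h1 : Tendsto (fun L => gf (Mf L + 1)) atTop (𝓝 0) := gf_tendsto.comp Mf_tendsto
  have h2 : Tendsto (fun L => 3 / Y L ^ 10) atTop (𝓝 0) :=
    ((tendsto_pow_atTop (by norm_num : (10 : ℕ) ≠ 0)).comp Y_tendsto).const_div_atTop 3
  have h3 : Tendsto (fun L => Real.exp (-Y L)) atTop (𝓝 0) :=
    Real.tendsto_exp_neg_atTop_nhds_zero.comp Y_tendsto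
  have h4 := ((h1.const_mul 20).add h2).add ((h3.const_mul 4).add (h3.const_mul 400))
  have e : (20 * 0 + 0 + (4 * 0 + 400 * 0) : ℝ) = 0 := by norm_num
  rw [e] at h4
  exact h4

/-- the bounds for one large `y` -/
lemma pw (L : ℕ) (y : ℝ) (hy : y = Y L) (h0 : 2000 ≤ y) (hlog : Real.log y ≤ y / 20000) :
    1 ≤ Mf L ∧ Mf L + 1 ≤ L ∧ 1 ≤ sf L ∧ 4 * sf L ≤ L ∧ 4 * s1f L ≤ L ∧ (1 : ℝ) ≤ y ^ 10 ∧
    144 * y ^ 10 * (Mf L : ℝ) ^ 2 ≤ ((sf L : ℝ) / L) ^ 6 * L ∧
    20 * (L : ℝ) ^ 2 * (11 ^ (Mf L + 1) / (Nat.factorial (Mf L + 1) : ℝ)) + 3 / y ^ 10 +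
      (4 * (L : ℝ) ^ s1f L * Real.exp (-((L : ℝ) / 96)) +
      400 * (L : ℝ) ^ 2 * (L : ℝ) ^ sf L * Real.exp (-((s1f L : ℝ) / (96 * Mf L)))) ≤ df L := by
  have hL : (L : ℝ) = y ^ 100 := by rw [hy, Y_pow]
  have hy0 : (0 : ℝ) < y := by linarith
  have hy1 : (1 : ℝ) ≤ y := by linarith
  have hLp : (0 : ℝ) < L := by rw [hL]; positivity
  have hlogL : Real.log L = 100 * Real.log y := by
    rw [hL, Real.log_pow]; norm_num
  have hlogy : 0 ≤ Real.log y := Real.log_nonneg hy1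
  have hM1 : y < Mf L := by
    have := Nat.lt_floor_add_one y
    unfold Mf
    rw [← hy]
    push_cast
    exact this
  have hM2 : (Mf L : ℝ) ≤ y + 1 := by
    have := Nat.floor_le hy0.le
    unfold Mf
    rw [← hy]
    push_cast
    linarith
  have hs1 : y ^ 95 ≤ (sf L : ℝ) := by
    unfold sf
    rw [← hy]
    exact Nat.le_ceil _
  have hs2 : (sf L : ℝ) ≤ y ^ 95 + 1 := by
    unfold sf
    rw [← hy]
    exact (Nat.ceil_lt_add_one (by positivity)).le
  have ht1 : (s1f L : ℝ) ≤ y ^ 99 := by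
    unfold s1f
    rw [← hy]
    exact Nat.floor_le (by positivity)
  have ht2 : y ^ 99 - 1 ≤ (s1f L : ℝ) := by
    unfold s1f
    rw [← hy]
    have := Nat.lt_floor_add_one (y ^ 99)
    linarith
  have hp1 : ∀ n : ℕ, (1 : ℝ) ≤ y ^ n := fun n => one_le_pow₀ hy1
  have h95 : y ^ 96 = y ^ 95 * y := pow_succ y 95
  have h100 : y ^ 100 = y ^ 99 * y := pow_succ y 99
  have h100' : y ^ 100 = y ^ 95 * y ^ 5 := by rw [← pow_add]
  have h5 : (2000 : ℝ) ≤ y ^ 5 := by
    calc (2000 : ℝ) ≤ y := h0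
      _ = y ^ 1 := (pow_one y).symm
      _ ≤ y ^ 5 := pow_le_pow_right₀ hy1 (by norm_num)
  have h99 : (2000 : ℝ) ≤ y ^ 99 := by
    calc (2000 : ℝ) ≤ y := h0
      _ = y ^ 1 := (pow_one y).symm
      _ ≤ y ^ 99 := pow_le_pow_right₀ hy1 (by norm_num)
  refine ⟨by unfold Mf; omega, ?_, ?_, ?_, ?_, hp1 10, ?_, ?_⟩
  · have h1 : ((Mf L + 1 : ℕ) : ℝ) ≤ L := by
      push_cast
      rw [hL, h100]
      nlinarith [h99, hM2]
    exact_mod_cast h1
  · have h1 : (0 : ℝ) < sf L := by linarith [hp1 95]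
    exact_mod_cast h1
  · have h1 : ((4 * sf L : ℕ) : ℝ) ≤ L := by
      push_cast
      rw [hL, h100']
      nlinarith [hp1 95, hs2]
    exact_mod_cast h1
  · have h1 : ((4 * s1f L : ℕ) : ℝ) ≤ L := by
      push_cast
      rw [hL, h100]
      nlinarith [hp1 99, ht1]
    exact_mod_cast h1
  · have h1 : (y ^ 5)⁻¹ ≤ (sf L : ℝ) / L := by
      rw [hL, h100', inv_eq_one_div, div_le_div_iff₀ (by positivity) (by positivity), one_mul]
      exact mul_le_mul_of_nonneg_right hs1 (by positivity)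
    have h2 : ((y ^ 5)⁻¹) ^ 6 * (L : ℝ) ≤ ((sf L : ℝ) / L) ^ 6 * L := by
      gcongr
    have h3 : ((y ^ 5)⁻¹) ^ 6 * (L : ℝ) = y ^ 70 := by
      rw [hL]
      have : y ^ 100 = (y ^ 5) ^ 6 * y ^ 70 := by rw [← pow_mul, ← pow_add]
      rw [this, ← mul_assoc, ← mul_pow, inv_mul_cancel₀ (by positivity), one_pow, one_mul]
    have h4 : 144 * y ^ 10 * (Mf L : ℝ) ^ 2 ≤ 144 * y ^ 10 * (2 * y) ^ 2 := by
      have : (Mf L : ℝ) ≤ 2 * y := by linarith
      gcongr
    have h6 : (2000 : ℝ) ≤ y ^ 58 := by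
      calc (2000 : ℝ) ≤ y := h0
        _ = y ^ 1 := (pow_one y).symm
        _ ≤ y ^ 58 := pow_le_pow_right₀ hy1 (by norm_num)
    have h5 : 144 * y ^ 10 * (2 * y) ^ 2 ≤ y ^ 70 := by
      have e1 : 144 * y ^ 10 * (2 * y) ^ 2 = 576 * y ^ 12 := by ring
      have e2 : y ^ 70 = y ^ 58 * y ^ 12 := by rw [← pow_add]
      rw [e1, e2]
      have := hp1 12
      nlinarith
    linarith
  · -- the four terms
    have a1 : 20 * (L : ℝ) ^ 2 * (11 ^ (Mf L + 1) / (Nat.factorial (Mf L + 1) : ℝ)) ≤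
        20 * gf (Mf L + 1) := by
      unfold gf
      rw [mul_assoc]
      have h1 : (L : ℝ) ^ 2 ≤ ((Mf L + 1 : ℕ) : ℝ) ^ 200 := by
        rw [hL, ← pow_mul]
        have h2 : y ≤ ((Mf L + 1 : ℕ) : ℝ) := by push_cast; linarith
        exact pow_le_pow_left₀ hy0.le h2 _
      gcongr
    have a2 : 4 * (L : ℝ) ^ s1f L * Real.exp (-((L : ℝ) / 96)) ≤ 4 * Real.exp (-Y L) := by
      rw [mul_assoc]
      refine mul_le_mul_of_nonneg_left ?_ (by norm_num)
      rw [← Real.exp_log (pow_pos hLp (s1f L)), ← Real.exp_add, Real.log_pow, hlogL, ← hy]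
      apply Real.exp_le_exp.2
      have h1 : (s1f L : ℝ) * (100 * Real.log y) ≤ y ^ 99 * (100 * (y / 20000)) := by
        gcongr
      have h2 : y ^ 99 * (100 * (y / 20000)) = y ^ 100 / 200 := by rw [h100]; ring
      rw [hL]
      have h3 : y ≤ y ^ 100 / 200 := by
        have h4 : (2000 : ℝ) ≤ y ^ 99 := by
          calc (2000 : ℝ) ≤ y := h0
            _ = y ^ 1 := (pow_one y).symm
            _ ≤ y ^ 99 := pow_le_pow_right₀ hy1 (by norm_num)
        rw [h100]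
        nlinarith
      have h5 : y ^ 100 / 200 + y ^ 100 / 200 ≤ y ^ 100 / 96 := by
        have := hp1 100
        linarith
      linarith
    have a3 : 400 * (L : ℝ) ^ 2 * (L : ℝ) ^ sf L * Real.exp (-((s1f L : ℝ) / (96 * Mf L))) ≤
        400 * Real.exp (-Y L) := by
      rw [mul_assoc, mul_assoc]
      refine mul_le_mul_of_nonneg_left ?_ (by norm_num)
      rw [← mul_assoc, ← pow_add, ← Real.exp_log (pow_pos hLp (2 + sf L)), ← Real.exp_add,
        Real.log_pow, hlogL, ← hy]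
      apply Real.exp_le_exp.2
      have h1 : ((2 + sf L : ℕ) : ℝ) * (100 * Real.log y) ≤
          (4 * y ^ 95) * (100 * (y / 20000)) := by
        have : ((2 + sf L : ℕ) : ℝ) ≤ 4 * y ^ 95 := by
          push_cast
          linarith [hp1 95]
        gcongr
      have h2 : (4 * y ^ 95) * (100 * (y / 20000)) = y ^ 96 / 50 := by rw [h95]; ring
      have h3 : y ^ 98 / 384 ≤ (s1f L : ℝ) / (96 * Mf L) := by
        have hMp : (0 : ℝ) < 96 * Mf L := by linarith
        rw [div_le_div_iff₀ (by norm_num) hMp]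
        have h4 : y ^ 98 * (96 * (Mf L : ℝ)) ≤ y ^ 98 * (96 * (2 * y)) := by
          have : (Mf L : ℝ) ≤ 2 * y := by linarith
          gcongr
        have h5 : y ^ 98 * (96 * (2 * y)) = 192 * y ^ 99 := by ring
        have h6 : 192 * y ^ 99 ≤ (s1f L : ℝ) * 384 := by
          linarith [h99]
        linarith
      have h4 : y ^ 96 / 50 - y ^ 98 / 384 ≤ -y := by
        have e1 : y ^ 98 = y ^ 96 * y ^ 2 := by rw [← pow_add]
        have e2 : y ^ 96 = y ^ 95 * y := pow_succ y 95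
        have h7 : (1 : ℝ) ≤ y ^ 2 / 384 - 1 / 50 := by nlinarith
        have h8 : y ≤ y ^ 96 := by
          rw [e2]
          have := hp1 95
          nlinarith
        have h9 : y ^ 96 ≤ y ^ 96 * (y ^ 2 / 384 - 1 / 50) := by
          have := hp1 96
          nlinarith
        rw [e1]
        linarith
      linarith
    have a4 : (3 : ℝ) / y ^ 10 = 3 / Y L ^ 10 := by rw [hy]
    unfold df
    rw [a4]
    linarith

end AS

theorem AS_thm : Stmt_AS := by
  refine ⟨AS.Mf, AS.sf, AS.s1f, fun L => AS.Y L ^ 10, AS.df, AS.df_tendsto, ?_⟩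
  have h1 : ∀ᶠ L : ℕ in atTop, 2000 ≤ AS.Y L := AS.Y_tendsto.eventually_ge_atTop 2000
  have h2 : ∀ᶠ y : ℝ in atTop, Real.log y ≤ y / 20000 := by
    have h := Real.isLittleO_log_id_atTop.bound (by norm_num : (0 : ℝ) < 1 / 20000)
    filter_upwards [h, eventually_ge_atTop (1 : ℝ)] with y hy hy1
    rw [Real.norm_eq_abs, Real.norm_eq_abs, id_eq, abs_of_nonneg (Real.log_nonneg hy1),
      abs_of_nonneg (by linarith)] at hy
    linarith
  obtain ⟨L1, hL1⟩ := eventually_atTop.1 (h1.and (AS.Y_tendsto.eventually h2))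
  refine ⟨max 200 L1, le_max_left _ _, fun L hL => ?_⟩
  obtain ⟨h3, h4⟩ := hL1 L ((le_max_right _ _).trans hL)
  exact AS.pw L _ rfl h3 h4

end Pool.Agent.RDS
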