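import Pool.Agent.RDS.Stmts

/-!
# Random digit sets: AUT
-/

set_option autoImplicit false

namespace Pool.Agent.RDS

open MeasureTheory Set

namespace AUTM

variable {L : ℕ} {D : Fin L → ℕ × ℕ}

/-- The autocorrelation of the multiplicity. -/
noncomputable def G (D : Fin L → ℕ × ℕ) (N : ℕ) (t x : ℝ) : ℝ := ∫ y, f D N t y * f D N t (y + x)

theorem integrable_mul (hD : Ok D) (N : ℕ) (t x a b : ℝ) :
    Integrable fun y => f D N t ((L : ℝ) ^ 1 * (y - a)) * f D N t ((L : ℝ) ^ 1 * (y + x - b)) := by
  have h1 : Integrable fun y => (L : ℝ) ^ N * f D N t ((L : ℝ) ^ 1 * (y - a)) :=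
    (integrable_scale hD (integrable_f N t) 1 a).const_mul _
  have hm := measurable_f (D := D) N t
  refine h1.mono' ?_ (Filter.Eventually.of_forall fun y => ?_)
  · exact ((hm.comp (by fun_prop)).mul (hm.comp (by fun_prop))).aestronglyMeasurable
  · rw [Real.norm_eq_abs, abs_of_nonneg (mul_nonneg (f_nonneg _ _ _) (f_nonneg _ _ _)),
      mul_comm]
    exact mul_le_mul_of_nonneg_right (f_le _ _ _) (f_nonneg _ _ _)

theorem integral_mul (hD : Ok D) (N : ℕ) (t x a b : ℝ) :
    ∫ y, f D N t ((L : ℝ) ^ 1 * (y - a)) * f D N t ((L : ℝ) ^ 1 * (y + x - b)) =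
      G D N t (L * x - (L * b - L * a)) / L := by
  have h := integral_scale hD
    (fun z => f D N t z * f D N t (z + (L * x - (L * b - L * a)))) 1 a
  rw [pow_one] at h
  rw [pow_one]
  rw [show G D N t (L * x - (L * b - L * a)) =
    ∫ z, f D N t z * f D N t (z + (L * x - (L * b - L * a))) from rfl, ← h]
  congr 1
  funext y
  congr 2
  ring

theorem pr_one (hD : Ok D) (t : ℝ) (u : Wd L 1) :
    (L : ℝ) * pr D t u = ((D (u 0)).1 : ℝ) + t * ((D (u 0)).2 : ℝ) := by
  have hL := hD.pos
  unfold pr px py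
  simp only [Finset.univ_unique, Fin.default_eq_zero, Fin.isValue, Fin.val_eq_zero, zero_add,
    pow_one, Finset.sum_singleton]
  field_simp

theorem sum_Wd {M : Type*} [AddCommMonoid M] (g : Wd L 1 → M) :
    ∑ u : Wd L 1, g u = ∑ i : Fin L, g (fun _ => i) := by
  refine (Fintype.sum_equiv (Equiv.funUnique (Fin 1) (Fin L)).symm _ _ ?_).symm
  intro p
  rfl

theorem step (hD : Ok D) (N : ℕ) (t x : ℝ) : G D (1 + N) t x = T D t (G D N t) x := by
  have h1 : G D (1 + N) t x = ∑ u : Wd L 1, ∑ u' : Wd L 1,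
      G D N t (L * x - (L * pr D t u' - L * pr D t u)) / L := by
    unfold G
    simp only [f_add hD 1 N, Finset.sum_mul_sum]
    rw [integral_finsetSum _ fun u _ => integrable_finsetSum _ fun u' _ =>
      integrable_mul hD _ _ _ _ _]
    refine Finset.sum_congr rfl fun u _ => ?_
    rw [integral_finsetSum _ fun u' _ => integrable_mul hD _ _ _ _ _]
    exact Finset.sum_congr rfl fun u' _ => integral_mul hD _ _ _ _ _
  rw [h1]
  unfold T
  simp only [sum_Wd, pr_one hD]
  rw [Finset.sum_div, Fintype.sum_prod_type, Finset.sum_comm]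
  refine Finset.sum_congr rfl fun i _ => Finset.sum_congr rfl fun j _ => ?_
  congr 2
  unfold dt dx dy
  push_cast
  ring

theorem base (t x : ℝ) : G D 0 t x = tent t x := by
  have hf : ∀ y, f D 0 t y = (Icc 0 (1 + t)).indicator (fun _ => (1 : ℝ)) y := by
    intro y
    unfold f psq pr px py
    simp
  have h2 : ∀ y, f D 0 t y * f D 0 t (y + x) =
      (Icc (max 0 (-x)) (min (1 + t) (1 + t - x))).indicator (fun _ => (1 : ℝ)) y := by
    intro y
    rw [hf, hf]
    by_cases h : y ∈ Icc 0 (1 + t)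
    · by_cases h' : y + x ∈ Icc 0 (1 + t)
      · rw [indicator_of_mem h, indicator_of_mem h', indicator_of_mem, one_mul]
        exact ⟨max_le h.1 (by linarith [h'.1]), le_min h.2 (by linarith [h'.2])⟩
      · rw [indicator_of_notMem h', mul_zero]
        symm
        apply indicator_of_notMem
        rintro ⟨h3, h4⟩
        exact h' ⟨by linarith [le_max_right 0 (-x)], by linarith [min_le_right (1 + t) (1 + t - x)]⟩
    · rw [indicator_of_notMem h, zero_mul]
      symm
      apply indicator_of_notMem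
      rintro ⟨h3, h4⟩
      exact h ⟨by linarith [le_max_left 0 (-x)], by linarith [min_le_left (1 + t) (1 + t - x)]⟩
  unfold G
  rw [integral_congr_ae (Filter.Eventually.of_forall h2), integral_indicator measurableSet_Icc,
    setIntegral_const, smul_eq_mul, mul_one, Measure.real, Real.volume_Icc, ENNReal.toReal_ofReal']
  unfold tent
  congr 1
  rcases le_total 0 x with h | h
  · rw [max_eq_left (by linarith), min_eq_right (by linarith), abs_of_nonneg h, sub_zero]
  · rw [max_eq_right (by linarith), min_eq_left (by linarith), abs_of_nonpos h]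

theorem key (hD : Ok D) (t : ℝ) (N : ℕ) : ∀ x, G D N t x = (T D t)^[N] (tent t) x := by
  induction N with
  | zero => exact fun x => base t x
  | succ N ih =>
    intro x
    rw [Nat.add_comm, step hD, Nat.add_comm, iter_succ', funext ih]

theorem S_eq (N : ℕ) (t : ℝ) : S D N t = G D N t 0 := by
  unfold S G
  congr 1
  funext y
  rw [add_zero, sq]

theorem G_nonneg (N : ℕ) (t x : ℝ) : 0 ≤ G D N t x :=
  integral_nonneg fun _ => mul_nonneg (f_nonneg _ _ _) (f_nonneg _ _ _)

theorem Phi_le_tent {t : ℝ} (ht : 0 ≤ t) (y : ℝ) : 1 / 4 * Phi y ≤ tent t y := by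
  unfold tent
  by_cases h : 3 / 4 ≤ |y|
  · rw [Phi_eq_zero h, mul_zero]
    exact le_max_right _ _
  · push Not at h
    have h1 := Phi_le_one y
    refine le_trans ?_ (le_max_left _ _)
    linarith

theorem E_le (hD : Ok D) {t : ℝ} (ht : 0 ≤ t) (p : Fin L × Fin L) (N : ℕ) :
    1 / 4 * E D p N t ≤ G D N t (dt D t p) := by
  rw [key hD, E, ← iter_smul]
  exact iter_mono (Phi_le_tent ht) t N _

theorem S_succ (hD : Ok D) (N : ℕ) (t : ℝ) (p : Fin L × Fin L) (hp : p.1 ≠ p.2) :
    S D N t + G D N t (dt D t p) / L ≤ S D (N + 1) t := by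
  classical
  have hL := hD.pos
  rw [S_eq (N + 1), Nat.add_comm N 1, step hD]
  unfold T
  rw [← sub_nonneg]
  have hL0 : (L : ℝ) ≠ 0 := hL.ne'
  have h1 : S D N t + G D N t (dt D t p) / L =
      ((∑ i : Fin L, G D N t ((L : ℝ) * 0 - dt D t (i, i))) +
        G D N t ((L : ℝ) * 0 - dt D t (p.2, p.1))) / L := by
    have h2 : ∀ i : Fin L, G D N t ((L : ℝ) * 0 - dt D t (i, i)) = S D N t := by
      intro i
      rw [S_eq]
      congr 1
      unfold dt dx dy
      simp
    have h3 : (L : ℝ) * 0 - dt D t (p.2, p.1) = dt D t p := by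
      unfold dt dx dy
      push_cast
      ring
    rw [h3, Finset.sum_congr rfl fun i _ => h2 i, Finset.sum_const, Finset.card_univ,
      Fintype.card_fin, nsmul_eq_mul]
    field_simp
  rw [h1, ← sub_div]
  refine div_nonneg ?_ hL.le
  rw [sub_nonneg]
  have h4 : (∑ i : Fin L, G D N t ((L : ℝ) * 0 - dt D t (i, i))) +
      G D N t ((L : ℝ) * 0 - dt D t (p.2, p.1)) =
      ∑ q ∈ insert (p.2, p.1) (Finset.univ.image fun i : Fin L => (i, i)),
        G D N t ((L : ℝ) * 0 - dt D t q) := by
    rw [Finset.sum_insert, Finset.sum_image, add_comm]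
    · intro i _ j _ hij
      exact (Prod.ext_iff.1 hij).1
    · intro h
      rw [Finset.mem_image] at h
      obtain ⟨i, _, hi⟩ := h
      have h5 := Prod.ext_iff.1 hi
      exact hp (h5.2.symm.trans h5.1)
  rw [h4]
  exact Finset.sum_le_sum_of_subset_of_nonneg (Finset.subset_univ _)
    fun q _ _ => G_nonneg _ _ _

end AUTM

theorem AUT_thm : Stmt_AUT := by
  intro L D hD t p ht _ hp N
  have hL := hD.pos
  induction N with
  | zero =>
    simp only [Finset.range_zero, Finset.sum_empty, zero_div]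
    exact S_nonneg _ _
  | succ N ih =>
    rw [Finset.sum_range_succ, add_div]
    refine le_trans ?_ (AUTM.S_succ hD N t p hp)
    have h1 := AUTM.E_le hD ht p N
    have h2 : E D p N t / (4 * L) = (1 / 4 * E D p N t) / L := by
      field_simp
    rw [h2]
    exact add_le_add ih (div_le_div_of_nonneg_right h1 hL.le)

end Pool.Agent.RDS
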