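import Pool.Agent.RDS.Stmts
import Pool.Agent.NCP.Final

/-!
# Random digit sets: module CAP
-/

set_option autoImplicit false

namespace Pool.Agent.RDS

open MeasureTheory Set

namespace CAPM

/-- The conclusion of the general theorem on sets with few components. -/
def Nf : Prop := ∃ C : ℝ, 0 < C ∧
    ∀ (N : ℕ), 1 ≤ N → ∀ (E : Set ℂ) (K : Fin N → Set ℂ) (A θ : ℝ),
      IsCompact E → (∀ i, IsCompact (K i)) → (∀ i, K i ⊆ E) → 1 ≤ A → 0 < θ → θ ≤ 1 →
      (∀ i, IsPreconnected (K i) ∨ θ * Metric.diam (K i) ≤ FCC.gam (K i)) →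
      (∀ z ∈ E, ∃ i, ∃ x ∈ K i, ‖z - x‖ ≤ A * Metric.diam (K i)) →
      ANL.cont1 E ≤ C * A * (√(1 + Real.log N) + 1 / θ) * FCC.gam E ∧
      FCC.Fav E ≤ C * A * (√(1 + Real.log N) + 1 / θ) * FCC.gam E

/-- A closed rectangle. -/
def rect (a b c d : ℝ) : Set ℂ := {z : ℂ | a ≤ z.re ∧ z.re ≤ b ∧ c ≤ z.im ∧ z.im ≤ d}

theorem rect_compact (a b c d : ℝ) : IsCompact (rect a b c d) := by
  have h : rect a b c d = (Icc a b) ×ℂ (Icc c d) := by
    ext z
    simp only [rect, mem_ofPred_eq, Complex.mem_reProdIm, mem_Icc]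
    tauto
  rw [h]
  exact isCompact_Icc.reProdIm isCompact_Icc

theorem rect_convex (a b c d : ℝ) : Convex ℝ (rect a b c d) := by
  intro x hx y hy s t hs ht hst
  obtain ⟨h1, h2, h3, h4⟩ := hx
  obtain ⟨h5, h6, h7, h8⟩ := hy
  have e : ∀ u : ℝ, u = s * u + t * u := fun u => by rw [← add_mul, hst, one_mul]
  simp only [rect, mem_ofPred_eq, Complex.add_re, Complex.add_im, Complex.real_smul,
    Complex.mul_re, Complex.mul_im, Complex.ofReal_re, Complex.ofReal_im, zero_mul, sub_zero,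
    add_zero]
  refine ⟨?_, ?_, ?_, ?_⟩
  · rw [e a]
    exact add_le_add (mul_le_mul_of_nonneg_left h1 hs) (mul_le_mul_of_nonneg_left h5 ht)
  · rw [e b]
    exact add_le_add (mul_le_mul_of_nonneg_left h2 hs) (mul_le_mul_of_nonneg_left h6 ht)
  · rw [e c]
    exact add_le_add (mul_le_mul_of_nonneg_left h3 hs) (mul_le_mul_of_nonneg_left h7 ht)
  · rw [e d]
    exact add_le_add (mul_le_mul_of_nonneg_left h4 hs) (mul_le_mul_of_nonneg_left h8 ht)

theorem core (hNf : Nf) : Stmt_CAP := by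
  intro hGEO hCONT L D hD hinj
  obtain ⟨C, hC, hN⟩ := hNf
  obtain ⟨c, hc, hcont⟩ := hCONT hGEO D hD hinj
  have hL := hD.pos
  have hL1 : (1 : ℝ) ≤ L := by linarith [hD.ge]
  have hlogL : 0 ≤ Real.log L := Real.log_nonneg hL1
  have hq : 0 < √(1 + Real.log L) := Real.sqrt_pos.2 (by linarith)
  refine ⟨c / (2 * C * √(1 + Real.log L)), by positivity, ?_⟩
  intro n hn
  obtain ⟨hgen, -, -, -, hcpt, -, -⟩ := hGEO D hD n
  have hcard : Fintype.card (Wd L n) = L ^ n := by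
    rw [Fintype.card_fun, Fintype.card_fin, Fintype.card_fin]
  let e : Fin (L ^ n) ≃ Wd L n := (Fintype.equivFinOfCardEq hcard).symm
  let K : Fin (L ^ n) → Set ℂ := fun i =>
    rect (px D (e i)) (px D (e i) + 1 / (L : ℝ) ^ n) (py D (e i)) (py D (e i) + 1 / (L : ℝ) ^ n)
  have hgen' : gen D n = ⋃ i, K i := by
    rw [hgen]
    exact (e.surjective.iUnion_comp fun w : Wd L n => {z : ℂ | px D w ≤ z.re ∧
      z.re ≤ px D w + 1 / (L : ℝ) ^ n ∧ py D w ≤ z.im ∧
      z.im ≤ py D w + 1 / (L : ℝ) ^ n}).symm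
  have hNpos : 1 ≤ L ^ n := Nat.one_le_pow _ _ (by have := hD.four; omega)
  have key := (hN (L ^ n) hNpos (gen D n) K 1 1 hcpt (fun i => rect_compact _ _ _ _)
    (fun i => by
      rw [hgen']
      exact subset_iUnion K i)
    le_rfl one_pos le_rfl (fun i => Or.inl (rect_convex _ _ _ _).isPreconnected)
    (fun z hz => by
      rw [hgen'] at hz
      obtain ⟨i, hi⟩ := mem_iUnion.1 hz
      refine ⟨i, z, hi, ?_⟩
      rw [sub_self, norm_zero, one_mul]
      exact Metric.diam_nonneg)).1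
  have h1 := (hcont n).trans key
  rw [mul_one, div_one, Nat.cast_pow, Real.log_pow] at h1
  have hn0 : (0 : ℝ) < n := by exact_mod_cast hn
  have hn1 : (1 : ℝ) ≤ n := by exact_mod_cast hn
  have hsn : 0 < √(n : ℝ) := Real.sqrt_pos.2 hn0
  -- the root
  have h2 : √(1 + n * Real.log L) ≤ √(1 + Real.log L) * √(n : ℝ) := by
    rw [← Real.sqrt_mul (by linarith)]
    exact Real.sqrt_le_sqrt (by nlinarith)
  have h3 : (1 : ℝ) ≤ √(1 + Real.log L) * √(n : ℝ) := by
    have h4 : (1 : ℝ) ≤ √(1 + Real.log L) := Real.one_le_sqrt.2 (by linarith)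
    have h5 : (1 : ℝ) ≤ √(n : ℝ) := Real.one_le_sqrt.2 hn1
    nlinarith
  have hpos : 0 < C * (√(1 + n * Real.log L) + 1) := by positivity
  have hg : 0 < FCC.gam (gen D n) := by
    by_contra h
    push Not at h
    have := mul_nonpos_of_nonneg_of_nonpos hpos.le h
    linarith
  have h6 : c ≤ C * (2 * (√(1 + Real.log L) * √(n : ℝ))) * FCC.gam (gen D n) := by
    refine h1.trans (mul_le_mul_of_nonneg_right (mul_le_mul_of_nonneg_left ?_ hC.le) hg.le)
    linarith
  rw [div_div, div_le_iff₀ (by positivity)]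
  calc c ≤ _ := h6
    _ = _ := by ring

end CAPM

/-- MODULE CAP. -/
theorem CAP_thm : Stmt_CAP := CAPM.core NCP.final

end Pool.Agent.RDS
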