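import Pool.Agent.RDS.Stmts

/-!
# Random digit sets: lower bound for the content
-/

set_option autoImplicit false

namespace Pool.Agent.RDS

open MeasureTheory Set

namespace CONTM

variable {L : ℕ} {D : Fin L → ℕ × ℕ}

/-! ### Corners -/

theorem px_succ {n : ℕ} (w : Wd L (n + 1)) :
    px D w = (((D (w 0)).1 : ℝ) + px D (fun i : Fin n => w i.succ)) / L := by
  unfold px
  rw [Fin.sum_univ_succ, add_div, Finset.sum_div]
  congr 1
  · simp
  · refine Finset.sum_congr rfl fun i _ => ?_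
    rw [Fin.val_succ, div_div, pow_succ (L : ℝ) (i.val + 1)]

theorem py_succ {n : ℕ} (w : Wd L (n + 1)) :
    py D w = (((D (w 0)).2 : ℝ) + py D (fun i : Fin n => w i.succ)) / L := by
  unfold py
  rw [Fin.sum_univ_succ, add_div, Finset.sum_div]
  congr 1
  · simp
  · refine Finset.sum_congr rfl fun i _ => ?_
    rw [Fin.val_succ, div_div, pow_succ (L : ℝ) (i.val + 1)]

/-- the corners as integers -/
def cx (D : Fin L → ℕ × ℕ) {n : ℕ} (w : Wd L n) : ℤ :=
  ∑ i : Fin n, ((D (w i)).1 : ℤ) * (L : ℤ) ^ (n - (i.val + 1))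
def cy (D : Fin L → ℕ × ℕ) {n : ℕ} (w : Wd L n) : ℤ :=
  ∑ i : Fin n, ((D (w i)).2 : ℤ) * (L : ℤ) ^ (n - (i.val + 1))

theorem pow_split (h : Ok D) {n : ℕ} (i : Fin n) (a : ℝ) :
    a * (L : ℝ) ^ (n - (i.val + 1)) = (L : ℝ) ^ n * (a / (L : ℝ) ^ (i.val + 1)) := by
  have h1 : (L : ℝ) ^ n = (L : ℝ) ^ (n - (i.val + 1)) * (L : ℝ) ^ (i.val + 1) := by
    rw [← pow_add]
    congr 1
    have := i.isLt
    omega
  have h2 := (h.pw (i.val + 1)).ne'
  rw [h1]
  field_simp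

theorem cx_eq (h : Ok D) {n : ℕ} (w : Wd L n) : (cx D w : ℝ) = (L : ℝ) ^ n * px D w := by
  unfold cx px
  push_cast
  rw [Finset.mul_sum]
  exact Finset.sum_congr rfl fun i _ => pow_split h i _

theorem cy_eq (h : Ok D) {n : ℕ} (w : Wd L n) : (cy D w : ℝ) = (L : ℝ) ^ n * py D w := by
  unfold cy py
  push_cast
  rw [Finset.mul_sum]
  exact Finset.sum_congr rfl fun i _ => pow_split h i _

theorem nat_eq {a b : ℕ} {x y c : ℝ} (hc : 0 < c) (hx : 0 ≤ x) (hx' : x ≤ 1 - c) (hy : 0 ≤ y)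
    (hy' : y ≤ 1 - c) (h : (a : ℝ) + x = b + y) : a = b := by
  have h1 : (a : ℝ) < b + 1 := by linarith
  have h2 : (b : ℝ) < a + 1 := by linarith
  have h3 : a < b + 1 := by exact_mod_cast h1
  have h4 : b < a + 1 := by exact_mod_cast h2
  omega

theorem inj (h : Ok D) (hi : Function.Injective D) (n : ℕ) : ∀ w v : Wd L n,
    px D w = px D v → py D w = py D v → w = v := by
  induction n with
  | zero => intro w v _ _; exact Subsingleton.elim _ _
  | succ n ih =>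
    intro w v h1 h2
    have hL := h.pos
    have hc : (0 : ℝ) < 1 / (L : ℝ) ^ n := one_div_pos.2 (h.pw n)
    rw [px_succ, px_succ, div_left_inj' hL.ne'] at h1
    rw [py_succ, py_succ, div_left_inj' hL.ne'] at h2
    have h3 := nat_eq hc (px_nonneg _) (px_le h _) (px_nonneg _) (px_le h _) h1
    have h4 := nat_eq hc (py_nonneg _) (py_le h _) (py_nonneg _) (py_le h _) h2
    have h5 : w 0 = v 0 := hi (Prod.ext h3 h4)
    rw [h3] at h1
    rw [h4] at h2
    have h6 := ih _ _ (add_left_cancel h1) (add_left_cancel h2)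
    funext i
    refine Fin.cases h5 (fun j => ?_) i
    exact congrFun h6 j

theorem inj_c (h : Ok D) (hi : Function.Injective D) {n : ℕ} {w v : Wd L n}
    (h1 : cx D w = cx D v) (h2 : cy D w = cy D v) : w = v := by
  have hn := (h.pw n).ne'
  refine inj h hi n w v ?_ ?_
  · have h3 : (cx D w : ℝ) = cx D v := by rw [h1]
    rw [cx_eq h, cx_eq h] at h3
    exact mul_left_cancel₀ hn h3
  · have h3 : (cy D w : ℝ) = cy D v := by rw [h2]
    rw [cy_eq h, cy_eq h] at h3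
    exact mul_left_cancel₀ hn h3

/-! ### Squares -/

/-- the square with the corner `(a, b)` and the side `r` -/
def sqc (a b r : ℝ) : Set ℂ := {z | a ≤ z.re ∧ z.re ≤ a + r ∧ b ≤ z.im ∧ z.im ≤ b + r}

/-- half open squares -/
def sqo (a b r : ℝ) : Set ℂ := {z | a ≤ z.re ∧ z.re < a + r ∧ b ≤ z.im ∧ z.im < b + r}

theorem sqo_eq (a b r : ℝ) : sqo a b r = Complex.measurableEquivRealProd ⁻¹'
    (Ico a (a + r) ×ˢ Ico b (b + r)) := by
  ext z
  simp [sqo, Complex.measurableEquivRealProd_apply, and_assoc]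

theorem sqc_eq (a b r : ℝ) : sqc a b r = Complex.measurableEquivRealProd ⁻¹'
    (Icc a (a + r) ×ˢ Icc b (b + r)) := by
  ext z
  rw [mem_preimage, mem_prod, mem_Icc, mem_Icc]
  simp only [sqc, mem_ofPred_eq, Complex.measurableEquivRealProd_apply]
  tauto

theorem vol_sqc (a b : ℝ) {r : ℝ} (hr : 0 ≤ r) : volume (sqc a b r) = ENNReal.ofReal (r * r) := by
  rw [sqc_eq, Complex.volume_preserving_equiv_real_prod.measure_preimage
    (measurableSet_Icc.prod measurableSet_Icc).nullMeasurableSet, Measure.volume_eq_prod,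
    Measure.prod_prod, Real.volume_Icc, Real.volume_Icc, ← ENNReal.ofReal_mul (by linarith)]
  congr 1
  ring

theorem vol_sqo (a b : ℝ) {r : ℝ} (hr : 0 ≤ r) : volume (sqo a b r) = ENNReal.ofReal (r * r) := by
  rw [sqo_eq, Complex.volume_preserving_equiv_real_prod.measure_preimage
    (measurableSet_Ico.prod measurableSet_Ico).nullMeasurableSet, Measure.volume_eq_prod,
    Measure.prod_prod, Real.volume_Ico, Real.volume_Ico, ← ENNReal.ofReal_mul (by linarith)]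
  congr 1
  ring

theorem meas_sqo (a b r : ℝ) : MeasurableSet (sqo a b r) := by
  rw [sqo_eq]
  exact Complex.measurableEquivRealProd.measurable (measurableSet_Ico.prod measurableSet_Ico)

theorem sqo_sub (a b r : ℝ) : sqo a b r ⊆ sqc a b r :=
  fun _ h => ⟨h.1, h.2.1.le, h.2.2.1, h.2.2.2.le⟩

/-- the square of a word -/
def sw1 (D : Fin L → ℕ × ℕ) {n : ℕ} (w : Wd L n) : Set ℂ := sqc (px D w) (py D w) (1 / (L : ℝ) ^ n)

theorem gen_eq (hG : Stmt_GEO) (h : Ok D) (n : ℕ) : gen D n = ⋃ w : Wd L n, sw1 D w :=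
  (hG D h n).1

theorem sw1_append (h : Ok D) {n m : ℕ} (u : Wd L n) (v : Wd L m) :
    sw1 D (Fin.append u v : Wd L (n + m)) ⊆ sw1 D u := by
  have hn := h.pw n
  have hm := h.pw m
  have key : ∀ a p q : ℝ, 0 ≤ p → p ≤ 1 - 1 / (L : ℝ) ^ m →
      q = a + p / (L : ℝ) ^ n → a ≤ q ∧ q + 1 / (L : ℝ) ^ (n + m) ≤ a + 1 / (L : ℝ) ^ n := by
    intro a p q h1 h2 h3
    have h4 : 0 ≤ p / (L : ℝ) ^ n := div_nonneg h1 hn.le
    have h5 : p / (L : ℝ) ^ n + 1 / (L : ℝ) ^ (n + m) ≤ 1 / (L : ℝ) ^ n := by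
      rw [pow_add, ← one_div_mul_one_div, mul_comm, ← div_eq_mul_one_div, ← add_div]
      exact div_le_div_of_nonneg_right (by linarith) hn.le
    constructor <;> linarith
  have h1 := key _ _ _ (px_nonneg v) (px_le h v) (px_append (D := D) u v)
  have h2 := key _ _ _ (py_nonneg v) (py_le h v) (py_append (D := D) u v)
  rintro z ⟨z1, z2, z3, z4⟩
  exact ⟨h1.1.trans z1, z2.trans h1.2, h2.1.trans z3, z4.trans h2.2⟩

/-! ### The measure of the generation -/

theorem card_mul (h : Ok D) (n : ℕ) :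
    ((L ^ n : ℕ) : ENNReal) * ENNReal.ofReal (1 / (L : ℝ) ^ n * (1 / (L : ℝ) ^ n)) =
      ENNReal.ofReal (1 / (L : ℝ) ^ n) := by
  have hn := (h.pw n).ne'
  rw [← ENNReal.ofReal_natCast, ← ENNReal.ofReal_mul (Nat.cast_nonneg _)]
  congr 1
  push_cast
  field_simp

theorem vol_le (hG : Stmt_GEO) (h : Ok D) (n : ℕ) :
    volume (gen D n) ≤ ENNReal.ofReal (1 / (L : ℝ) ^ n) := by
  rw [gen_eq hG h n]
  refine (measure_iUnion_fintype_le _ _).trans ?_
  have h1 : ∀ w : Wd L n, volume (sw1 D w) = ENNReal.ofReal (1 / (L : ℝ) ^ n * (1 / (L : ℝ) ^ n)) :=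
    fun w => vol_sqc _ _ (one_div_nonneg.2 (h.pw n).le)
  rw [Finset.sum_congr rfl fun w _ => h1 w, Finset.sum_const, Finset.card_univ, card_Wd,
    nsmul_eq_mul, card_mul h n]

theorem int_eq (h : Ok D) {n : ℕ} {a b : ℤ} {p q x : ℝ} (ha : (a : ℝ) = (L : ℝ) ^ n * p)
    (hb : (b : ℝ) = (L : ℝ) ^ n * q) (h1 : p ≤ x) (h2 : x < p + 1 / (L : ℝ) ^ n) (h3 : q ≤ x)
    (h4 : x < q + 1 / (L : ℝ) ^ n) : a = b := by
  have hn := h.pw n
  have e : (L : ℝ) ^ n * (1 / (L : ℝ) ^ n) = 1 := by field_simp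
  have h5 : (L : ℝ) ^ n * p < (L : ℝ) ^ n * q + 1 := by
    rw [← e, ← mul_add]
    exact mul_lt_mul_of_pos_left (by linarith) hn
  have h6 : (L : ℝ) ^ n * q < (L : ℝ) ^ n * p + 1 := by
    rw [← e, ← mul_add]
    exact mul_lt_mul_of_pos_left (by linarith) hn
  rw [← ha, ← hb] at h5 h6
  have h7 : a < b + 1 := by exact_mod_cast h5
  have h8 : b < a + 1 := by exact_mod_cast h6
  omega

theorem le_vol (hG : Stmt_GEO) (h : Ok D) (hi : Function.Injective D) (n : ℕ) :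
    ENNReal.ofReal (1 / (L : ℝ) ^ n) ≤ volume (gen D n) := by
  have hsub : (⋃ w : Wd L n, sqo (px D w) (py D w) (1 / (L : ℝ) ^ n)) ⊆ gen D n := by
    rw [gen_eq hG h n]
    exact iUnion_mono fun w => sqo_sub _ _ _
  refine le_trans ?_ (measure_mono hsub)
  rw [measure_iUnion ?_ fun w => meas_sqo _ _ _, tsum_fintype]
  · have h1 : ∀ w : Wd L n, volume (sqo (px D w) (py D w) (1 / (L : ℝ) ^ n)) =
        ENNReal.ofReal (1 / (L : ℝ) ^ n * (1 / (L : ℝ) ^ n)) :=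
      fun w => vol_sqo _ _ (one_div_nonneg.2 (h.pw n).le)
    rw [Finset.sum_congr rfl fun w _ => h1 w, Finset.sum_const, Finset.card_univ, card_Wd,
      nsmul_eq_mul, card_mul h n]
  · intro w v hwv
    rw [Function.onFun, Set.disjoint_left]
    rintro z ⟨a1, a2, a3, a4⟩ ⟨b1, b2, b3, b4⟩
    exact hwv (inj_c h hi (int_eq h (cx_eq h w) (cx_eq h v) a1 a2 b1 b2)
      (int_eq h (cy_eq h w) (cy_eq h v) a3 a4 b3 b4))

/-! ### Counting -/

theorem mem_four (h : Ok D) {k : ℕ} {a : ℤ} {p x x0 : ℝ} (ha : (a : ℝ) = (L : ℝ) ^ k * p)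
    (h1 : p ≤ x) (h2 : x ≤ p + 1 / (L : ℝ) ^ k) (h3 : |x - x0| ≤ 1 / (L : ℝ) ^ k) :
    a ∈ Finset.Icc (⌊(L : ℝ) ^ k * x0⌋ - 2) (⌊(L : ℝ) ^ k * x0⌋ + 1) := by
  have hk := h.pw k
  have e : (L : ℝ) ^ k * (1 / (L : ℝ) ^ k) = 1 := by field_simp
  obtain ⟨h4, h5⟩ := abs_le.1 h3
  have h6 : (L : ℝ) ^ k * x0 - 2 ≤ a := by
    rw [ha]
    have : (L : ℝ) ^ k * (x0 - 2 * (1 / (L : ℝ) ^ k)) ≤ (L : ℝ) ^ k * p :=
      mul_le_mul_of_nonneg_left (by linarith) hk.le
    have e2 : (L : ℝ) ^ k * (x0 - 2 * (1 / (L : ℝ) ^ k)) =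
        (L : ℝ) ^ k * x0 - 2 * ((L : ℝ) ^ k * (1 / (L : ℝ) ^ k)) := by ring
    rw [e2, e] at this
    linarith
  have h7 : (a : ℝ) ≤ (L : ℝ) ^ k * x0 + 1 := by
    rw [ha]
    have : (L : ℝ) ^ k * p ≤ (L : ℝ) ^ k * (x0 + 1 / (L : ℝ) ^ k) :=
      mul_le_mul_of_nonneg_left (by linarith) hk.le
    rw [mul_add, e] at this
    exact this
  rw [Finset.mem_Icc]
  constructor
  · have h8 := Int.floor_le ((L : ℝ) ^ k * x0)
    have h9 : ((⌊(L : ℝ) ^ k * x0⌋ - 2 : ℤ) : ℝ) ≤ a := by push_cast; linarith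
    exact_mod_cast h9
  · have h8 := Int.lt_floor_add_one ((L : ℝ) ^ k * x0)
    have h9 : (a : ℝ) < ((⌊(L : ℝ) ^ k * x0⌋ + 2 : ℤ) : ℝ) := by push_cast; linarith
    have h10 : a < ⌊(L : ℝ) ^ k * x0⌋ + 2 := by exact_mod_cast h9
    omega

open Classical in
/-- the words whose squares meet `U` -/
noncomputable def mt (D : Fin L → ℕ × ℕ) (U : Set ℂ) (n : ℕ) : Finset (Wd L n) :=
  Finset.univ.filter fun w => (sw1 D w ∩ U).Nonempty

theorem mem_mt {U : Set ℂ} {n : ℕ} {w : Wd L n} : w ∈ mt D U n ↔ (sw1 D w ∩ U).Nonempty := by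
  simp [mt]

theorem card_mt (h : Ok D) (hi : Function.Injective D) {U : Set ℂ} (hb : Bornology.IsBounded U)
    (k : ℕ) (hd : Metric.diam U ≤ 1 / (L : ℝ) ^ k) : (mt D U k).card ≤ 16 := by
  rcases (mt D U k).eq_empty_or_nonempty with he | ⟨w0, hw0⟩
  · rw [he]; simp
  obtain ⟨z0, -, hz0⟩ := mem_mt.1 hw0
  set A := Finset.Icc (⌊(L : ℝ) ^ k * z0.re⌋ - 2) (⌊(L : ℝ) ^ k * z0.re⌋ + 1)
  set B := Finset.Icc (⌊(L : ℝ) ^ k * z0.im⌋ - 2) (⌊(L : ℝ) ^ k * z0.im⌋ + 1)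
  have hAB : (A ×ˢ B).card = 16 := by
    rw [Finset.card_product, Int.card_Icc, Int.card_Icc]
    have e1 : (⌊(L : ℝ) ^ k * z0.re⌋ + 1 + 1 - (⌊(L : ℝ) ^ k * z0.re⌋ - 2)).toNat = 4 := by
      have : ⌊(L : ℝ) ^ k * z0.re⌋ + 1 + 1 - (⌊(L : ℝ) ^ k * z0.re⌋ - 2) = 4 := by ring
      rw [this]; rfl
    have e2 : (⌊(L : ℝ) ^ k * z0.im⌋ + 1 + 1 - (⌊(L : ℝ) ^ k * z0.im⌋ - 2)).toNat = 4 := by
      have : ⌊(L : ℝ) ^ k * z0.im⌋ + 1 + 1 - (⌊(L : ℝ) ^ k * z0.im⌋ - 2) = 4 := by ring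
      rw [this]; rfl
    rw [e1, e2]
  rw [← hAB]
  refine Finset.card_le_card_of_injOn (fun w => (cx D w, cy D w)) ?_ ?_
  · intro w hw
    obtain ⟨z, ⟨z1, z2, z3, z4⟩, hz⟩ := mem_mt.1 (Finset.mem_coe.1 hw)
    have hdist : dist z z0 ≤ 1 / (L : ℝ) ^ k := (Metric.dist_le_diam_of_mem hb hz hz0).trans hd
    have hre : |z.re - z0.re| ≤ 1 / (L : ℝ) ^ k := by
      refine le_trans ?_ hdist
      rw [Complex.dist_eq, ← Complex.sub_re]
      exact Complex.abs_re_le_norm _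
    have him : |z.im - z0.im| ≤ 1 / (L : ℝ) ^ k := by
      refine le_trans ?_ hdist
      rw [Complex.dist_eq, ← Complex.sub_im]
      exact Complex.abs_im_le_norm _
    rw [Finset.mem_coe, Finset.mem_product]
    exact ⟨mem_four h (cx_eq h w) z1 z2 hre, mem_four h (cy_eq h w) z3 z4 him⟩
  · intro w _ v _ hwv
    exact inj_c h hi (congrArg Prod.fst hwv) (congrArg Prod.snd hwv)

theorem card_mt_add (h : Ok D) (U : Set ℂ) (k m : ℕ) :
    (mt D U (k + m)).card ≤ (mt D U k).card * L ^ m := by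
  have e : ((mt D U k) ×ˢ (Finset.univ : Finset (Wd L m))).card = (mt D U k).card * L ^ m := by
    rw [Finset.card_product, Finset.card_univ, card_Wd]
  rw [← e]
  refine Finset.card_le_card_of_injOn (fun w => (Fin.appendEquiv k m).symm w) ?_ ?_
  · intro w hw
    obtain ⟨⟨u, v⟩, rfl⟩ := (Fin.appendEquiv k m).surjective w
    rw [Finset.mem_coe, Finset.mem_product]
    simp only [Equiv.symm_apply_apply, Finset.mem_univ, and_true]
    obtain ⟨z, hz, hz'⟩ := mem_mt.1 (Finset.mem_coe.1 hw)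
    exact mem_mt.2 ⟨z, sw1_append h u v hz, hz'⟩
  · intro w _ v _ hwv
    exact (Fin.appendEquiv k m).symm.injective hwv

theorem vol_inter (hG : Stmt_GEO) (h : Ok D) (U : Set ℂ) (n : ℕ) :
    volume (gen D n ∩ U) ≤
      ENNReal.ofReal ((mt D U n).card * (1 / (L : ℝ) ^ n * (1 / (L : ℝ) ^ n))) := by
  have hsub : gen D n ∩ U ⊆ ⋃ w ∈ mt D U n, sw1 D w := by
    rintro z ⟨hz, hzU⟩
    rw [gen_eq hG h n] at hz
    obtain ⟨w, hw⟩ := mem_iUnion.1 hz
    exact mem_biUnion (mem_mt.2 ⟨z, hw, hzU⟩) hw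
  refine (measure_mono hsub).trans ((measure_biUnion_finset_le _ _).trans ?_)
  have h1 : ∀ w : Wd L n, volume (sw1 D w) = ENNReal.ofReal (1 / (L : ℝ) ^ n * (1 / (L : ℝ) ^ n)) :=
    fun w => vol_sqc _ _ (one_div_nonneg.2 (h.pw n).le)
  rw [Finset.sum_congr rfl fun w _ => h1 w, Finset.sum_const, nsmul_eq_mul,
    ENNReal.ofReal_mul (Nat.cast_nonneg _), ENNReal.ofReal_natCast]

/-! ### The estimate for one set -/

theorem small (U : Set ℂ) (hb : Bornology.IsBounded U) :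
    volume U ≤ ENNReal.ofReal (2 * Metric.diam U * (2 * Metric.diam U)) := by
  rcases U.eq_empty_or_nonempty with rfl | ⟨z0, hz0⟩
  · simp
  have hd : 0 ≤ Metric.diam U := Metric.diam_nonneg
  have hsub : U ⊆ sqc (z0.re - Metric.diam U) (z0.im - Metric.diam U) (2 * Metric.diam U) := by
    intro z hz
    have hdist : dist z z0 ≤ Metric.diam U := Metric.dist_le_diam_of_mem hb hz hz0
    have hre : |z.re - z0.re| ≤ Metric.diam U := by
      refine le_trans ?_ hdist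
      rw [Complex.dist_eq, ← Complex.sub_re]
      exact Complex.abs_re_le_norm _
    have him : |z.im - z0.im| ≤ Metric.diam U := by
      refine le_trans ?_ hdist
      rw [Complex.dist_eq, ← Complex.sub_im]
      exact Complex.abs_im_le_norm _
    obtain ⟨a1, a2⟩ := abs_le.1 hre
    obtain ⟨b1, b2⟩ := abs_le.1 him
    exact ⟨by linarith, by linarith, by linarith, by linarith⟩
  refine (measure_mono hsub).trans ?_
  rw [vol_sqc _ _ (by linarith)]

theorem one_set (hG : Stmt_GEO) (h : Ok D) (hi : Function.Injective D) (n : ℕ) (U : Set ℂ)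
    (hb : Bornology.IsBounded U) :
    volume (gen D n ∩ U) ≤ ENNReal.ofReal (16 * L / (L : ℝ) ^ n * Metric.diam U) := by
  have hL := h.pos
  have hL4 := h.ge
  have hn := h.pw n
  have hd : 0 ≤ Metric.diam U := Metric.diam_nonneg
  set d := Metric.diam U with hdd
  rcases lt_or_ge d (1 / (L : ℝ) ^ n) with h1 | h1
  · refine (measure_mono inter_subset_right).trans ((small U hb).trans ?_)
    rw [← hdd]
    refine ENNReal.ofReal_le_ofReal ?_
    have h2 : d * d ≤ d * (1 / (L : ℝ) ^ n) := mul_le_mul_of_nonneg_left h1.le hd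
    have h3 : 0 ≤ d * (1 / (L : ℝ) ^ n) := mul_nonneg hd (one_div_nonneg.2 hn.le)
    have h4 : 16 * (L : ℝ) / (L : ℝ) ^ n * d = 16 * L * (d * (1 / (L : ℝ) ^ n)) := by ring
    rw [h4]
    have h5 : 4 * (d * (1 / (L : ℝ) ^ n)) ≤ 16 * L * (d * (1 / (L : ℝ) ^ n)) :=
      mul_le_mul_of_nonneg_right (by linarith) h3
    nlinarith
  rcases le_or_gt 1 d with h2 | h2
  · refine (measure_mono inter_subset_left).trans ((vol_le hG h n).trans ?_)
    refine ENNReal.ofReal_le_ofReal ?_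
    have h3 : 16 * (L : ℝ) / (L : ℝ) ^ n * d = 1 / (L : ℝ) ^ n * (16 * L * d) := by ring
    rw [h3]
    refine le_mul_of_one_le_right (one_div_nonneg.2 hn.le) ?_
    nlinarith
  · -- choice of the level
    classical
    have hex : ∃ j : ℕ, 1 / (L : ℝ) ^ j ≤ d := ⟨n, h1⟩
    obtain ⟨j, hj, hjm⟩ : ∃ j : ℕ, 1 / (L : ℝ) ^ j ≤ d ∧ ∀ i < j, ¬1 / (L : ℝ) ^ i ≤ d :=
      ⟨Nat.find hex, Nat.find_spec hex, fun i hi => Nat.find_min hex hi⟩
    have hj0 : j ≠ 0 := by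
      rintro rfl
      rw [pow_zero, div_one] at hj
      linarith
    obtain ⟨k, rfl⟩ := Nat.exists_eq_succ_of_ne_zero hj0
    have hk : d ≤ 1 / (L : ℝ) ^ k := (not_le.1 (hjm k (Nat.lt_succ_self k))).le
    have hkn : k ≤ n := by
      by_contra hkn
      exact hjm n (by omega) h1
    obtain ⟨m, rfl⟩ := Nat.exists_eq_add_of_le hkn
    refine (vol_inter hG h U (k + m)).trans (ENNReal.ofReal_le_ofReal ?_)
    have h3 : (mt D U (k + m)).card ≤ 16 * L ^ m :=
      (card_mt_add h U k m).trans (Nat.mul_le_mul_right _ (card_mt h hi hb k hk))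
    have h4 : ((mt D U (k + m)).card : ℝ) ≤ 16 * (L : ℝ) ^ m := by exact_mod_cast h3
    have hk0 := h.pw k
    have hm0 := h.pw m
    have h5 : 0 ≤ 1 / (L : ℝ) ^ (k + m) := one_div_nonneg.2 hn.le
    calc ((mt D U (k + m)).card : ℝ) * (1 / (L : ℝ) ^ (k + m) * (1 / (L : ℝ) ^ (k + m)))
        ≤ 16 * (L : ℝ) ^ m * (1 / (L : ℝ) ^ (k + m) * (1 / (L : ℝ) ^ (k + m))) :=
          mul_le_mul_of_nonneg_right h4 (mul_nonneg h5 h5)
      _ = 16 * L / (L : ℝ) ^ (k + m) * (1 / (L : ℝ) ^ (k + 1)) := by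
          rw [pow_add, pow_succ]
          field_simp
      _ ≤ 16 * L / (L : ℝ) ^ (k + m) * d :=
          mul_le_mul_of_nonneg_left hj (div_nonneg (by linarith) hn.le)

/-! ### The content -/

theorem cover (hG : Stmt_GEO) (h : Ok D) (hi : Function.Injective D) (n : ℕ) (U : ℕ → Set ℂ)
    (hU : gen D n ⊆ ⋃ i, U i) (hb : ∀ i, Bornology.IsBounded (U i))
    (hs : Summable fun i => Metric.diam (U i)) :
    1 / (16 * (L : ℝ)) ≤ ∑' i, Metric.diam (U i) := by
  have hL := h.pos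
  have hn := h.pw n
  have hc : 0 ≤ 16 * (L : ℝ) / (L : ℝ) ^ n := div_nonneg (by linarith) hn.le
  have h1 : ENNReal.ofReal (1 / (L : ℝ) ^ n) ≤
      ENNReal.ofReal (16 * L / (L : ℝ) ^ n * ∑' i, Metric.diam (U i)) := by
    calc ENNReal.ofReal (1 / (L : ℝ) ^ n) ≤ volume (gen D n) := le_vol hG h hi n
      _ ≤ volume (⋃ i, gen D n ∩ U i) := by
          refine measure_mono fun z hz => ?_
          obtain ⟨i, hzi⟩ := mem_iUnion.1 (hU hz)
          exact mem_iUnion.2 ⟨i, hz, hzi⟩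
      _ ≤ ∑' i, volume (gen D n ∩ U i) := measure_iUnion_le _
      _ ≤ ∑' i, ENNReal.ofReal (16 * L / (L : ℝ) ^ n * Metric.diam (U i)) :=
          ENNReal.tsum_le_tsum fun i => one_set hG h hi n (U i) (hb i)
      _ = ENNReal.ofReal (∑' i, 16 * L / (L : ℝ) ^ n * Metric.diam (U i)) :=
          (ENNReal.ofReal_tsum_of_nonneg (fun i => mul_nonneg hc Metric.diam_nonneg)
            (hs.mul_left _)).symm
      _ = ENNReal.ofReal (16 * L / (L : ℝ) ^ n * ∑' i, Metric.diam (U i)) := by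
          rw [tsum_mul_left]
  have h2 : 0 ≤ ∑' i, Metric.diam (U i) := tsum_nonneg fun i => Metric.diam_nonneg
  have h3 := (ENNReal.ofReal_le_ofReal_iff (mul_nonneg hc h2)).1 h1
  have h4 : 16 * (L : ℝ) / (L : ℝ) ^ n * ∑' i, Metric.diam (U i) =
      1 / (L : ℝ) ^ n * (16 * L * ∑' i, Metric.diam (U i)) := by ring
  rw [h4] at h3
  have h5 : 1 ≤ 16 * (L : ℝ) * ∑' i, Metric.diam (U i) := by
    have := (le_mul_iff_one_le_right (one_div_pos.2 hn)).1 h3
    exact this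
  rw [div_le_iff₀ (by linarith)]
  linarith

end CONTM

open CONTM in
theorem CONT_thm : Stmt_CONT := by
  intro hG L D h hi
  have hL := h.pos
  refine ⟨1 / (16 * (L : ℝ)), one_div_pos.2 (by linarith), fun n => ?_⟩
  unfold ANL.cont1
  refine le_csInf ?_ ?_
  · refine ⟨_, fun i => if i = 0 then gen D n else ∅, ?_, ?_, ?_, rfl⟩
    · intro z hz
      exact mem_iUnion.2 ⟨0, by simpa using hz⟩
    · intro i
      by_cases hi0 : i = 0
      · simp only [hi0, if_true]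
        exact (hG D h n).2.2.2.2.1.isBounded
      · simp only [hi0, if_false]
        exact Bornology.isBounded_empty
    · refine summable_of_ne_finset_zero (s := {0}) fun i hi0 => ?_
      have : i ≠ 0 := by simpa using hi0
      simp [this]
  · rintro s ⟨U, hU, hb, hs, rfl⟩
    exact cover hG h hi n U hU hb hs

end Pool.Agent.RDS
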