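import Pool.Agent.RDS.Basic

/-!
# Random digit sets: statements and proofs

THEOREM. For all but a proportion `o(1)` (as `L → ∞`) of the `L`-element subsets `D` of
`{0, .., L-1}²`, the generations `E_n(D)` of the self-similar set `E = ⋃_{d ∈ D} (E + d)/L` (`L ^ n`
closed squares of side `L ^ (-n)`) satisfy `c Fav(E_n) ≤ n^(-1/2)` and `c n^(-1/2) ≤ γ(E_n)` for all
`n ≥ 1`, with `c = c(D) > 0`; so `γ(E_n) ≥ c² Fav(E_n)`.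

Method. `T φ (x) = (1/L) ∑_{d,d'} φ(L x - (d - d')_t)`, `(x,y)_t = x + t y`, `t ∈ [0,1]`; the second
moment of the multiplicity function of `E_n` in the direction `t` is `S n t = (T^n tent)(0)`. If the
digits have additive energy `≤ K L²`, at most `M` digits in strips of width `6`, and at least `c L`
pairs in each strip of differences, then the increments `T^(r+1) Φ - T^r Φ` have mean square
`≤ C (9K/L)^r` over `(x,t)`, while `T^n Φ ≥ c^n` deterministically. For `144 K M² ≤ c⁶ L` the tail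
estimate `|{t : S N t ≤ y}| ≤ C y / N` follows, and the stopping argument of `FCC`, `FCQ` gives the
mean length of the projections `≤ C n^(-1/2)`. Random digits satisfy the conditions with
`M = L^(1/100)`, `K = L^(1/10)`, `c = L^(-1/20)`.

One module for each `Stmt_...`; a module may use all the facts of `Basic.lean` and, as hypotheses,
the statements which its docstring names (`theorem XXX_thm : Stmt_A → Stmt_B → Stmt_XXX`).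
All constants `C` may depend on `L` and `D` unless said otherwise.
-/

set_option autoImplicit false

namespace Pool.Agent.RDS

open MeasureTheory Set

/-! ### A. The stopping argument (ports of `FCC/STOP`, `FCC/VIT`, `FCC/REC`, `FCQ/DICH2`, `FCQ/INT2`
with `L` in place of the base `4`) -/

/-- STOP. Port of `FCC/STOP.lean`: `cnt` at the level `n + 1` is at most `L` times the one at level
`n` (`L` letters), so over a stopping interval `K ≤ cnt ≤ L K`, `∫_I f² ≤ (L K)² |I| S N` and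
`S N ≤ (L K)² |A| S N + 2 K`. -/
def Stmt_STOP : Prop := ∀ {L : ℕ} (D : Fin L → ℕ × ℕ), Ok D → ∀ (N K : ℕ) (t : ℝ), 0 ≤ t → t ≤ 1 →
  2 ≤ K → 4 * K < S D N t → 1 / (2 * ((L : ℝ) * K) ^ 2) ≤ (volume (A D t N K)).toReal

/-- VIT. Port of `FCC/VIT.lean`. -/
def Stmt_VIT : Prop := ∀ {L : ℕ} (D : Fin L → ℕ × ℕ), Ok D → ∀ (N K : ℕ) (t : ℝ), 0 ≤ t → t ≤ 1 →
  1 ≤ K → ∃ B : Finset (ℕ × ℤ), (∀ b ∈ B, b.1 ≤ N ∧ K ≤ cnt D t b.1 b.2) ∧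
    (B : Set (ℕ × ℤ)).PairwiseDisjoint (Jst L) ∧
    (volume (A D t N K)).toReal ≤ 20 * ∑ b ∈ B, (1 : ℝ) / (L : ℝ) ^ b.1

/-- REC. Port of `FCC/REC.lean`. -/
def Stmt_REC : Prop := ∀ {L : ℕ} (D : Fin L → ℕ × ℕ), Ok D → ∀ (N K : ℕ) (t : ℝ)
  (B : Finset (ℕ × ℤ)), 0 ≤ t → t ≤ 1 → (∀ b ∈ B, b.1 ≤ N ∧ K ≤ cnt D t b.1 b.2) →
  (B : Set (ℕ × ℤ)).PairwiseDisjoint (Jst L) →
  ∃ η : ℝ, K * ∑ b ∈ B, (1 : ℝ) / (L : ℝ) ^ b.1 ≤ η ∧ η ≤ 1 ∧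
    ∀ M : ℕ, len D (N + M) t ≤ 5 * (∑ b ∈ B, (1 : ℝ) / (L : ℝ) ^ b.1) + (1 - η) * len D M t

/-- DICH. Port of `FCQ/DICH2.lean`, from STOP, VIT, REC. For `K = 2^i`, `1 ≤ i ≤ k`:
`σ = ∑ L^(-b.1) ≥ |A|/20 ≥ 1/(40 L² K²)`, `η ≥ K σ`, so `len (N+M) - 5/K ≤
(1 - 1/(40 L² K)) (len M - 5/K)` or `len (N+M) ≤ 5/K`. Scale `i` starts with `len ≤ 10/2^(i-1)` and
needs `44 L² 2^i` steps of `N` generations to come to `≤ 10/2^i`; the sum over `i ≤ k` is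
`≤ 88 L² 2^k`. -/
def Stmt_DICH : Prop := ∀ {L : ℕ} (D : Fin L → ℕ × ℕ), Ok D → ∀ (N k : ℕ) (t : ℝ), 0 ≤ t → t ≤ 1 →
  1 ≤ k → 4 * 2 ^ k < S D N t → ∀ n : ℕ, N * (90 * L ^ 2 * 2 ^ k) ≤ n → len D n t ≤ 10 / 2 ^ k

/-- The tail estimate for the digits `D`. -/
def Tail {L : ℕ} (D : Fin L → ℕ × ℕ) : Prop := ∃ C : ℝ, 0 < C ∧ ∀ (N : ℕ) (y : ℝ), 1 ≤ N → 0 < y →
  volume {t : ℝ | t ∈ Icc (0 : ℝ) 1 ∧ S D N t ≤ y} ≤ ENNReal.ofReal (C * (y / N))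

/-- INT. Port of `FCQ/INT2.lean` (there with `Icc (1/2) 1`, exponent `101/200`), from DICH. For
`4^k ≤ n` take `N = n / (90 L² 2^k)`: `|{len n > 10/2^k}| ≤ |{S N ≤ 4 · 2^k}| ≤ C 4^k/n` (trivial if
`N = 0`). Sum over `k` with `4^k ≤ n`: `∑ 2^(-k) 4^k/n ≤ C/√n`. -/
def Stmt_INT : Prop := Stmt_DICH → ∀ {L : ℕ} (D : Fin L → ℕ × ℕ), Ok D → Tail D →
  ∃ C : ℝ, 0 < C ∧ ∀ n : ℕ, 1 ≤ n → ∫ t in (0 : ℝ)..1, len D n t ≤ C / √n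

/-! ### B. Geometry -/

/-- GEO. The squares. Induction on `n` with `Fin.cons`: `px (cons i w) = (d_i.1 + px w)/L`. The
second part from the first (`py (fl D) w = 1 - 1/L^n - py D w`, geometric series). -/
def Stmt_GEO : Prop := ∀ {L : ℕ} (D : Fin L → ℕ × ℕ), Ok D → ∀ n : ℕ,
  gen D n = (⋃ w : Wd L n, {z : ℂ | px D w ≤ z.re ∧ z.re ≤ px D w + 1 / (L : ℝ) ^ n ∧
    py D w ≤ z.im ∧ z.im ≤ py D w + 1 / (L : ℝ) ^ n}) ∧
  (∀ z : ℂ, z ∈ gen (fl D) n ↔ (⟨z.re, 1 - z.im⟩ : ℂ) ∈ gen D n) ∧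
  (∀ z : ℂ, z ∈ gen (sw D) n ↔ (⟨z.im, z.re⟩ : ℂ) ∈ gen D n) ∧
  (∀ t : ℝ, 0 ≤ t → (fun z : ℂ => z.re + t * z.im) '' gen D n = P D n t) ∧
  IsCompact (gen D n) ∧ Ok (fl D) ∧ Ok (sw D)

/-- FAV. From GEO; compare `FCC/FAVL.lean`. The projection in `FCC.Fav` is `x cos θ + y sin θ`. For
`θ ∈ [0, π/4]` it is `cos θ (x + t y)`, `t = tan θ`, `dθ = dt/(1 + t²)`; for `θ ∈ [π/4, π/2]` it is
`sin θ (y + t x)`, `t = cot θ` (`sw D`); for `θ ∈ [π/2, 3π/4]`: `sin θ (y - t x)`, `t = |cot θ|`, and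
`y - t x = y + t (1 - x) - t` (`fl (sw D)`); for `θ ∈ [3π/4, π]`: `|cos θ| (-x + t y)`, `t = |tan θ|`,
length that of `x - t y = x + t (1 - y) - t` (`fl D`). -/
def Stmt_FAV : Prop := Stmt_GEO → ∀ {L : ℕ} (D : Fin L → ℕ × ℕ), Ok D → ∀ n : ℕ,
  FCC.Fav (gen D n) ≤ (∫ t in (0 : ℝ)..1, len D n t) + (∫ t in (0 : ℝ)..1, len (fl D) n t) +
    (∫ t in (0 : ℝ)..1, len (sw D) n t) + ∫ t in (0 : ℝ)..1, len (fl (sw D)) n t

/-- CONT. Lower bound for the content (for injective `D`, i.e. `L` different digits). Let `μ` be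
the normalised area on `gen D n` (area `L^n L^(-2n) = L^(-n)`: the squares of different words have
different lower left corners in `L^(-n) ℤ²`, so they overlap in null sets). A bounded set `U` of
diameter `d`: if `d ≥ L^(-n)`, take `k ≤ n` with `L^(-k-1) ≤ d ≤ L^(-k)` (or `k = 0` if `d ≥ 1`); `U`
meets at most `9` of the squares of generation `k` if `d ≤ L^(-k)` (corners in `L^(-k) ℤ²`, distinct), each
of `μ`-mass `L^(-k)`, so `μ(U) ≤ 9 L d`; if `d < L^(-n)`: `μ(U) ≤ L^n (2d)² ≤ 4 d`. So `1 = μ(gen D n)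
≤ ∑ μ(U_i) ≤ 9 L ∑ d_i` (closures of the `U_i` for measurability, same diameter). -/
def Stmt_CONT : Prop := Stmt_GEO → ∀ {L : ℕ} (D : Fin L → ℕ × ℕ), Ok D → Function.Injective D →
  ∃ c : ℝ, 0 < c ∧ ∀ n : ℕ, c ≤ ANL.cont1 (gen D n)

/-- CAP. From GEO, CONT and `NCP.final` (`NCP/Final.lean`) with `N = L^n`, the squares as the
compact connected (convex) sets `K_i`, `A = θ = 1`: `c ≤ cont1 ≤ 2 C √(1 + n log L) gam`, and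
`√(1 + n log L) ≤ √(1 + log L) √n`, `√(1 + log N) + 1 ≤ 2 √(1 + log N)`. -/
def Stmt_CAP : Prop := Stmt_GEO → Stmt_CONT → ∀ {L : ℕ} (D : Fin L → ℕ × ℕ), Ok D →
  Function.Injective D → ∃ c : ℝ, 0 < c ∧ ∀ n : ℕ, 1 ≤ n → c / √n ≤ FCC.gam (gen D n)

/-! ### C. The operator -/

/-- AUT. Compare `FCQ/AUT1.lean`. `G_N(x) := ∫ f N y * f N (y + x) dy = (T^N tent)(x)` for all `x`
(induction: `f_add 1 N`), `S N = G_N(0)`. So `S (N+1) = (T G_N)(0) = (1/L) ∑_{i,j} G_N(-dt (i,j))`; the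
`L` pairs `i = j` give `S N`, all the other terms are `≥ 0`, and the pair `(p.2, p.1)` gives
`G_N(dt p)/L`. Finally `tent t ≥ Φ/4` for `t ≥ 0` (`1 - |x| ≥ 1/4` for `|x| ≤ 3/4`), so
`S (N+1) ≥ S N + E p N/(4 L)`; sum. -/
def Stmt_AUT : Prop := ∀ {L : ℕ} (D : Fin L → ℕ × ℕ), Ok D → ∀ (t : ℝ) (p : Fin L × Fin L),
  0 ≤ t → t ≤ 1 → p.1 ≠ p.2 → ∀ N : ℕ, (∑ m ∈ Finset.range N, E D p m t) / (4 * L) ≤ S D N t

open Classical in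
/-- CSH. The number of pairs with a given difference is at most that with difference `0`. With
`n(z) = #{q : (u q, v q) = z}`: `∑_z n(z) n(z + c) ≤ ∑_z (n(z)² + n(z + c)²)/2 = ∑ n(z)²`. (Sum
over pairs: the pairs `(q, q')` with difference `c`; use sums over the finite set of the values.) -/
def Stmt_CSH : Prop := ∀ (ι : Type) [Fintype ι] (u v : ι → ℤ) (a b : ℤ),
  (Finset.univ.filter fun p : ι × ι => u p.1 - u p.2 = a ∧ v p.1 - v p.2 = b).card ≤ eqp u v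

/-- EXP. The iterates, from CSH. Induction, `ι' = ι × (Fin L × Fin L)`, `u' (q, p) = L u q + dx p`,
`v' (q, p) = L v q + dy p`, `T^(r+1) φ = T^r (T φ)` (`iter_succ`). Energy: `u' = u'` for
`((q,p), (q',p'))` means `L (u q - u q') = dx p' - dx p`, of modulus `≤ 2 (L - 1)`, so
`u q - u q' = a`, `dx p' - dx p = L a` with `a ∈ {-1,0,1}`, similarly `v`, `b`: nine cases, each with at
most `eqp u v * eng D` pairs by CSH (twice). -/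
def Stmt_EXP : Prop := Stmt_CSH → ∀ {L : ℕ} (D : Fin L → ℕ × ℕ), Ok D → ∀ r : ℕ,
  ∃ (ι : Type) (_ : Fintype ι) (u v : ι → ℤ),
    (∀ q, |(u q : ℝ)| ≤ (L : ℝ) ^ r - 1) ∧ (∀ q, |(v q : ℝ)| ≤ (L : ℝ) ^ r - 1) ∧
    Fintype.card ι = L ^ (2 * r) ∧
    (∀ (t : ℝ) (φ : ℝ → ℝ) (x : ℝ), (T D t)^[r] φ x =
      (∑ q, φ ((L : ℝ) ^ r * x - ((u q : ℝ) + t * (v q : ℝ)))) / (L : ℝ) ^ r) ∧
    (eqp u v : ℝ) ≤ (9 * (eng D : ℝ)) ^ r

/-- NOD. Deterministic bounds. (1) For `t ∈ [-1,2]`: `T (ind 3) ≤ M ind 3`: `(1/L) #{(i,j) :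
|L x - dt (i,j)| ≤ 3} ≤ (1/L) ∑_j M` by `Deg` (the strip about `L x + (D j)_t`), and `= 0` for `|x| > 3`
because `|dt| ≤ 3 (L - 1)`. Induction `T^n (ind 3) ≤ M^n ind 3`. (2) For `t ∈ [0,1]`, `|x| ≤ 2/3`:
`T (ind (2/3)) x ≥ c` by `Low` with `z = L x`; so `T^n (ind (2/3)) ≥ c^n ind (2/3)`; `Φ ≥ ind (2/3)`. -/
def Stmt_NOD : Prop := ∀ {L : ℕ} (D : Fin L → ℕ × ℕ), Ok D →
  (∀ M : ℕ, Deg D M → ∀ t ∈ Icc (-1 : ℝ) 2, ∀ (n : ℕ) (x : ℝ),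
    (T D t)^[n] (ind 3) x ≤ (M : ℝ) ^ n) ∧
  (∀ c : ℝ, 0 < c → Low D c → ∀ t ∈ Icc (0 : ℝ) 1, ∀ x : ℝ, |x| ≤ 2 / 3 → ∀ n : ℕ,
    c ^ n ≤ (T D t)^[n] Phi x)

/-- PAR. Parseval for trigonometric polynomials over a period; `C = 4 π²`: expand the square,
`∫_x^(x+2π) e^(-i k ω) dω = 0` for integers `k ≠ 0`; what remains is `4π² ∑_{(u,v)(q) = (u,v)(q')}
b q b q' ≤ 4π² β² eqp`. -/
def Stmt_PAR : Prop := ∀ (ι : Type) [Fintype ι] (u v : ι → ℤ) (b : ι → ℝ) (β : ℝ),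
  (∀ q, |b q| ≤ β) →
  (∀ x y : ℝ, Tr u v b (x + 2 * Real.pi) y = Tr u v b x y ∧
    Tr u v b x (y + 2 * Real.pi) = Tr u v b x y) ∧
  (∀ x y : ℝ, ∫⁻ ω in Ioc x (x + 2 * Real.pi), ∫⁻ η in Ioc y (y + 2 * Real.pi),
    ENNReal.ofReal (‖Tr u v b ω η‖ ^ 2) ≤ ENNReal.ofReal (4 * Real.pi ^ 2 * β ^ 2 * eqp u v))

/-- LEMF. The main estimate, `C` absolute. From PAR and `FCQ.PLN_thm` (`FCQ/PLN.lean`). For fixed `t`
the function `y ↦ ∑ b q g t (y - (u q + t v q))` is continuous with compact support and Fourier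
transform `Ft (g t) ω * Tr u v b ω (t ω)`, so its square norm is `≤ ∫ |Ft|² |Tr ω (t ω)|² dω ≤
B² ∫ ω²/(1+ω²)² |Tr ω (t ω)|² dω`. Integrate over `t ∈ [-1,2]` (Tonelli); for `ω ≠ 0` put `η = t ω`:
`∫_{-1}^2 |Tr ω (tω)|² dt = (1/|ω|) ∫ over an interval of length 3|ω| ≤ ((|ω| + 1)/|ω|) H(ω)`,
`H(ω) := ∫_0^{2π} |Tr ω η|² dη` (periodic in `η`; `3|ω|/(2π) + 1 ≤ |ω| + 1` periods). As
`|ω| (|ω| + 1) ≤ 2 (1 + ω²)`, the total is `≤ 2 B² ∫ H(ω)/(1+ω²) dω`; `H` is `2π`-periodic with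
integral `≤ 4π² β² eqp` over a period (PAR), and the sum over the periods `k` of
`sup 1/(1+ω²) ≤ 1/(1 + 4π² k²)` (resp. `k+1` for negative `k`) converges. -/
def Stmt_LEMF : Prop := Stmt_PAR → ∃ C : ℝ, 0 < C ∧ ∀ (ι : Type) [Fintype ι] (u v : ι → ℤ)
  (b : ι → ℝ) (β B R : ℝ) (g : ℝ → ℝ → ℝ), (∀ q, |b q| ≤ β) → 0 ≤ B →
  Continuous (fun q : ℝ × ℝ => g q.1 q.2) →
  (∀ t ∈ Icc (-1 : ℝ) 2, ∀ y, R < |y| → g t y = 0) →
  (∀ t ∈ Icc (-1 : ℝ) 2, ∀ ω, ‖FCQ.Ft (g t) ω‖ ≤ B * |ω| / (1 + ω ^ 2)) →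
  ∫⁻ t in Icc (-1 : ℝ) 2, ∫⁻ y,
      ENNReal.ofReal ((∑ q, b q * g t (y - ((u q : ℝ) + t * (v q : ℝ)))) ^ 2) ≤
    ENNReal.ofReal (C * B ^ 2 * β ^ 2 * eqp u v)

/-- LEMG. Decay of the Fourier transform of a function with mean zero. For `|ω| ≤ 1`:
`|∫ g (e^(-iωx) - 1)| ≤ |ω| ∫ |x| |g| ≤ |ω| B R²`; for `|ω| ≥ 1`: integration by parts, `≤ 2 R B/|ω|`. -/
def Stmt_LEMG : Prop := ∀ (g g' : ℝ → ℝ) (R B : ℝ), 1 ≤ R → 0 ≤ B →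
  (∀ x, HasDerivAt g (g' x) x) → Continuous g' → (∀ x, R < |x| → g x = 0) → (∀ x, |g x| ≤ B) →
  (∀ x, |g' x| ≤ B) → ∫ x, g x = 0 → ∀ ω : ℝ, ‖FCQ.Ft g ω‖ ≤ 4 * R ^ 2 * B * |ω| / (1 + ω ^ 2)

/-- PSI. The functions `p0 = T Φ - Φ`, `p1 = ∂_y p0`, `p2 = ∂_t p0`: derivatives, joint continuity,
support (`|dt| ≤ 3 (L - 1)` for `t ∈ [-1,2]`, so `|L y - dt| > 3` for `|y| > 3`). -/
def Stmt_PSI : Prop := ∀ {L : ℕ} (D : Fin L → ℕ × ℕ), Ok D →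
  (∀ t y : ℝ, HasDerivAt (fun z => p0 D t z) (p1 D t y) y) ∧
  (∀ t y : ℝ, HasDerivAt (fun τ => p0 D τ y) (p2 D t y) t) ∧
  Continuous (fun q : ℝ × ℝ => p0 D q.1 q.2) ∧ Continuous (fun q : ℝ × ℝ => p1 D q.1 q.2) ∧
  Continuous (fun q : ℝ × ℝ => p2 D q.1 q.2) ∧
  (∀ t ∈ Icc (-1 : ℝ) 2, ∀ y, 3 < |y| → p0 D t y = 0 ∧ p1 D t y = 0 ∧ p2 D t y = 0)

/-- PSB. The Fourier transforms of `p0`, `p1`, `p2`, from LEMG, PSI with `R = 3`. The derivatives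
in `y`: `p0' = p1`, `p1' = L ∑ Φ''(L y - dt) - Φ''(y)`, `p2' = ∑ -dy Φ''(L y - dt)` (`Φ` is smooth with
compact support, so `Φ, Φ', Φ''` are bounded); the integrals vanish: `∫ T Φ = ∫ Φ` (`L²` terms
`(1/L)(1/L) ∫ Φ`), and `∫ Φ' = 0`. -/
def Stmt_PSB : Prop := Stmt_LEMG → Stmt_PSI → ∀ {L : ℕ} (D : Fin L → ℕ × ℕ), Ok D →
  ∃ B : ℝ, 0 ≤ B ∧ ∀ t ∈ Icc (-1 : ℝ) 2, ∀ ω : ℝ,
    ‖FCQ.Ft (p0 D t) ω‖ ≤ B * |ω| / (1 + ω ^ 2) ∧ ‖FCQ.Ft (p1 D t) ω‖ ≤ B * |ω| / (1 + ω ^ 2) ∧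
    ‖FCQ.Ft (p2 D t) ω‖ ≤ B * |ω| / (1 + ω ^ 2)

/-- DER. The increments, from PSI: `gr r = T^r (T Φ - Φ)` (`iter_succ`, `iter_sub`) and the formula
for `T^r`; differentiate the finite sum in `t` (chain rule: `p0 D τ (Y - τ v)`, total derivative
`p2 - v p1`, e.g. with the joint differentiability, or directly from
`p0 D t y = (∑ Φ(L y - dt))/L - Φ y`). Support: `iter_zero` with `c = 3`, resp. `c = 2`. -/
def Stmt_DER : Prop := Stmt_PSI → ∀ {L : ℕ} (D : Fin L → ℕ × ℕ), Ok D → ∀ (r : ℕ) (ι : Type)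
  [Fintype ι] (u v : ι → ℤ),
  (∀ (t : ℝ) (φ : ℝ → ℝ) (x : ℝ), (T D t)^[r] φ x =
    (∑ q, φ ((L : ℝ) ^ r * x - ((u q : ℝ) + t * (v q : ℝ)))) / (L : ℝ) ^ r) →
  (∀ x t : ℝ, HasDerivAt (fun τ => gr D r x τ) (dgr D r x t) t) ∧
  (∀ x t : ℝ, gr D r x t =
    (∑ q, p0 D t ((L : ℝ) ^ r * x - ((u q : ℝ) + t * (v q : ℝ)))) / (L : ℝ) ^ r) ∧
  (∀ x t : ℝ, dgr D r x t =
    (∑ q, (p2 D t ((L : ℝ) ^ r * x - ((u q : ℝ) + t * (v q : ℝ))) -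
      (v q : ℝ) * p1 D t ((L : ℝ) ^ r * x - ((u q : ℝ) + t * (v q : ℝ))))) / (L : ℝ) ^ r) ∧
  Continuous (fun q : ℝ × ℝ => gr D r q.1 q.2) ∧ Continuous (fun q : ℝ × ℝ => dgr D r q.1 q.2) ∧
  (∀ x : ℝ, ∀ t ∈ Icc (0 : ℝ) 1, 2 < |x| → gr D r x t = 0)

/-- RATE. From EXP (conclusion, i.e. `Stmt_CSH → Stmt_EXP` applied), DER, LEMF, PSB, PSI.
`∫ gr(x,t)² dx = L^(-r) ∫ (∑_q L^(-r) p0 (Y - ..))² dY`, by LEMF with `b = L^(-r)` in the mean over `t`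
`≤ C B² L^(-3r) eqp ≤ C B² L^(-3r) (9 K L²)^r = C B² (9K/L)^r`. For `dgr / L^r`: the coefficients
`-v q/L^(2r)` for `p1` (modulus `≤ L^(-r)`) and `L^(-2r)` for `p2`; `(a + b)² ≤ 2a² + 2b²`. -/
def Stmt_RATE : Prop := Stmt_CSH → Stmt_EXP → Stmt_PSI → Stmt_DER → Stmt_PAR → Stmt_LEMF →
  Stmt_LEMG → Stmt_PSB → ∀ {L : ℕ} (D : Fin L → ℕ × ℕ) (M : ℕ) (K c : ℝ), Crit D M K c →
  ∃ C : ℝ, 0 < C ∧ ∀ r : ℕ,
    ∫⁻ t in Icc (-1 : ℝ) 2, Nr D r t ≤ ENNReal.ofReal (C * (9 * K / L) ^ r)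

/-- The conclusion of RATE for `D`. -/
def Rat {L : ℕ} (D : Fin L → ℕ × ℕ) (K : ℝ) : Prop := ∃ C : ℝ, 0 < C ∧ ∀ r : ℕ,
  ∫⁻ t in Icc (-1 : ℝ) 2, Nr D r t ≤ ENNReal.ofReal (C * (9 * K / L) ^ r)

/-- STEP. From EXP, DER, NOD, `FCQ.SOB_thm` (compare `FCQ/W3.lean`). Let `x_q(t) = L^n dt p - (u q +
t v q) = α + β t`, `L^n ≤ |β| ≤ L^(n+1)` (as `2 ≤ |dy p| ≤ L - 1`, `|v q| ≤ L^n - 1`). Then
`E (n+r+1) - E (n+r) = L^(-n) ∑_q gr r (x_q(t)) t`. For `t ∈ [0,1]` only the `q` with `|x_q(t)| ≤ 2`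
count (DER); their number is `≤ L^n (T^n (ind 3))(dt p) ≤ L^n M^n` (NOD). Cauchy-Schwarz: the square is
`≤ M^n L^(-n) ∑_q gr r (x_q(t)) t ² `. For fixed `q` let `J = {t ∈ [0,1] : |x_q(t)| ≤ 2}`, an interval of
length `≤ 4/L^n ≤ L^(-r)`; if it is not empty take `t_q ∈ J`, `W = [t_q - L^(-r), t_q + L^(-r)] ⊆ [-1,2]`.
SOB on `W`: `gr(x,t)² ≤ 4 L^r ∫_W (gr(x,τ)² + dgr(x,τ)²/L^(2r)) dτ` for `t ∈ J`; put `x = x_q(t)`,
integrate over `t ∈ J` (slope `≥ L^n`): `≤ 4 L^(r-n) ∫_W Nr(τ) dτ`. Sum over `q`: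
`≤ 4 L^(r-n) ∫_{[-1,2]} Nr(τ) #{q : J_q ≠ ∅, |τ - t_q| ≤ L^(-r)} dτ`. This number is
`≤ 2 L^(2n+1-r) M^n`: for each such `q`, `|x_q(s)| ≤ 3` for `|s - t_q| ≤ L^(-n-1)`, a set of `s` of measure
`2 L^(-n-1)` in `[τ - 2L^(-r), τ + 2L^(-r)] ∩ [-1,2]`, and `#{q : |x_q(s)| ≤ 3} ≤ L^n M^n` for every
`s ∈ [-1,2]`. Total `∫ (E - E)² ≤ M^n L^(-n) · 8 L^(n+1) M^n ∫ Nr`. -/
def Stmt_STEP : Prop := Stmt_CSH → Stmt_EXP → Stmt_PSI → Stmt_DER → Stmt_NOD →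
  ∀ {L : ℕ} (D : Fin L → ℕ × ℕ) (M : ℕ) (K c : ℝ), Crit D M K c → Rat D K →
  ∃ C : ℝ, 0 < C ∧ ∀ p : Fin L × Fin L, 2 ≤ |dy D p| → ∀ n r : ℕ, r + 1 ≤ n →
    ∫⁻ t in Icc (0 : ℝ) 1, ENNReal.ofReal ((E D p (n + r + 1) t - E D p (n + r) t) ^ 2) ≤
      ENNReal.ofReal (C * (M : ℝ) ^ (2 * n) * (9 * K / L) ^ r)

/-- The conclusion of STEP for `D`. -/
def Stp {L : ℕ} (D : Fin L → ℕ × ℕ) (M : ℕ) (K : ℝ) : Prop :=
  ∃ C : ℝ, 0 < C ∧ ∀ p : Fin L × Fin L, 2 ≤ |dy D p| → ∀ n r : ℕ, r + 1 ≤ n →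
    ∫⁻ t in Icc (0 : ℝ) 1, ENNReal.ofReal ((E D p (n + r + 1) t - E D p (n + r) t) ^ 2) ≤
      ENNReal.ofReal (C * (M : ℝ) ^ (2 * n) * (9 * K / L) ^ r)

/-- TLE. The lower tail of the main quantity, from NOD and `Stp`. `bad_k := {t ∈ [0,1] :
2^(-(k+2)) c^k < |E (k+1) t - E k t|}`; Chebyshev: `|bad_k| ≤ 16 · 4^k c^(-2k) ∫ (E (k+1) - E k)²`. For
`k = 2r + 1` take `n = r + 1`, for `k = 2r + 2` take `n = r + 2`: `|bad_k| ≤ 256 C M⁴ c^(-4)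
(144 K M²/(c⁴ L))^r ≤ C' c^(2r) ≤ C'' c^k` by `key` (`k = 0`: trivial). Let `|dt p| ≤ 2/3`, `t` in no `bad_k`,
`k ≥ k0`. Then `E k0 ≥ c^k0` (NOD), for `m ≥ k0`: `|E m - E k0| ≤ ∑ 2^(-(k+2)) c^k ≤ c^k0/2`, for `m < k0`:
`E m ≥ c^m ≥ c^k0`. So the set is contained in `⋃_{k ≥ k0} bad_k`, of measure `≤ C'' ∑ c^k ≤
2 C'' c^k0` (`c ≤ 1/2`). -/
def Stmt_TLE : Prop := Stmt_NOD → ∀ {L : ℕ} (D : Fin L → ℕ × ℕ) (M : ℕ) (K c : ℝ),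
  Crit D M K c → Stp D M K → ∃ C : ℝ, 0 < C ∧ ∀ p : Fin L × Fin L, 2 ≤ |dy D p| → ∀ k0 : ℕ,
    volume {t : ℝ | t ∈ Icc (0 : ℝ) 1 ∧ |dt D t p| ≤ 2 / 3 ∧ ∃ m, E D p m t < c ^ k0 / 2} ≤
      ENNReal.ofReal (C * c ^ k0)

/-- TLS. The tail estimate for the second moment, from AUT, TLE. For every `t ∈ [0,1]` there is a
pair `p` with `2 ≤ |dy p|` (so `p.1 ≠ p.2`) and `|dt p| ≤ 2/3` (`Low` with `z = 0`, `c L > 0`). If
`S N t ≤ y` then by AUT some `m < N` has `E p m t ≤ 4 L y/N =: ε`. If `ε ≥ 1/2` the estimate is trivial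
(`|[0,1]| = 1`); otherwise choose `k0` with `c^(k0+1)/2 ≤ ε < c^k0/2` and sum TLE over the `L²` pairs:
`≤ L² C c^k0 ≤ L² C 2 ε/c`. -/
def Stmt_TLS : Prop := Stmt_AUT → Stmt_NOD → Stmt_TLE → ∀ {L : ℕ} (D : Fin L → ℕ × ℕ) (M : ℕ)
  (K c : ℝ), Crit D M K c → Stp D M K → Tail D

/-- CRI. The criterion: assembly of RATE, STEP, TLS, INT, FAV, CAP for `D`, `fl D`, `sw D`,
`fl (sw D)`. -/
def Stmt_CRI : Prop := ∀ {L : ℕ} (D : Fin L → ℕ × ℕ), Function.Injective D →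
  (∃ M K c, Crit D M K c) → (∃ M K c, Crit (fl D) M K c) → (∃ M K c, Crit (sw D) M K c) →
  (∃ M K c, Crit (fl (sw D)) M K c) → Conc D

/-! ### D. Random digits -/

open Classical in
/-- RC. Counting: for a `k`-subset `J` of `I` the number of the `ω` with `ω i ∈ s` for `i ∈ J` is
`|s|^k |β|^(|I|-k)` (`Fintype.card_piFinset`); union over the `J`. -/
def Stmt_RC : Prop := ∀ (I β : Type) [Fintype I] [Fintype β] (s : Finset β) (k : ℕ),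
  k ≤ Fintype.card I →
  (Finset.univ.filter fun ω : I → β => k ≤ (Finset.univ.filter fun i => ω i ∈ s).card).card ≤
    (Fintype.card I).choose k * s.card ^ k * Fintype.card β ^ (Fintype.card I - k)

/-- RD. Strips with many digits are rare, from RC. If `Deg` fails at `(t, z)`, put `t' = ⌊t L⌋/L`,
`z' = ⌊z⌋`: at least `M + 1` indices have `|x + t' y - z'| ≤ 3 + 1 + 1 = 5`. There are at most `3L + 1`
values of `t'` and, as the strip meets the box, `4L + 7` values of `z'`: at most `20 L²` pairs. For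
each, at most `11 L` points of the box are in the strip (for each `y` an interval of length `10` for the
integer `x`), and RC with `k = M + 1`, `choose L k ≤ L^k/k!` gives
`L^k/k! (11 L)^k L^(2(L-k)) = (11^k/k!) L^(2L)`. -/
def Stmt_RD : Prop := Stmt_RC → ∀ L M : ℕ, 4 ≤ L → M + 1 ≤ L →
  nb L (fun ω => ¬ Deg (dg ω) M) ≤
    20 * (L : ℝ) ^ 2 * (11 ^ (M + 1) / (Nat.factorial (M + 1) : ℝ)) * (L : ℝ) ^ (2 * L)

/-- RE. The mean of the additive energy. `eng = #{(i,j,k,l) : D i - D j = D k - D l}`. The quadruples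
with `i = j, k = l` or `i = k, j = l` are at most `2 L²`. For the other quadruples at most
`L^(2(L-1))` of the `ω` satisfy the equation: if `i = j` it says `D k = D l`, `k ≠ l`; if `i = k` it says
`D j = D l`, `j ≠ l`; if `i ∉ {j, k}`, then given all the `ω i'`, `i' ≠ i`, at most one value of `ω i` is
possible (coefficient `1`, or `2` if `i = l`). -/
def Stmt_RE : Prop := ∀ L : ℕ, 1 ≤ L →
  ∑ ω : Fin L → Fin L × Fin L, (eng (dg ω) : ℝ) ≤ 3 * (L : ℝ) ^ 2 * (L : ℝ) ^ (2 * L)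

/-- RG. The size of the regions. Let `ζ = a.1 + t a.2 - z`; then `L/12 ≤ ζ ≤ (1 + t - 1/12) L` for `a`
in the slab. For an integer `y2` with `0 ≤ ζ - t y2 ≤ L - 1/2` the integer
`y1 = ⌈ζ - t y2 - 1/2⌉ ∈ [0, L-1]` has `|ζ - y1 - t y2| ≤ 1/2`. The `y2 ∈ [0, L-1]` with this property
form an interval: all of them if `t = 0`; otherwise `max(0, (ζ - L + 1/2)/t) ≤ y2 ≤ min(L - 1, ζ/t)`,
and the length is `≥ L/12 - 3/2` (four cases; `L - 1 - (ζ - L + 1/2)/t ≥ -1 + (L/12 - 1/2)/t`). So there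
are at least `L/12 - 5/2` such integers, and at least `L/12 - 11/2 ≥ L/24` with `|a.2 - y2| ≥ 2`. -/
def Stmt_RG : Prop := ∀ (L : ℕ) (t z : ℝ) (a : Fin L × Fin L), 200 ≤ L → 0 ≤ t → t ≤ 1 →
  |z| ≤ 2 / 3 * L + 1 / 16 → a ∈ Sl L z → (L : ℝ) / 24 ≤ ((Rg L t z a).card : ℝ)

open Classical in
/-- RU. The union of the regions, from RG. Take a maximal set `J` of indices in the slab whose
projections `(a i)_t` differ pairwise by more than `1`; every index of the slab is within `1` of one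
of `J`, so `s ≤ M |J|`; the regions of different `j ∈ J` are disjoint. -/
def Stmt_RU : Prop := Stmt_RG → ∀ (L : ℕ) (I : Type) [Fintype I] (a : I → Fin L × Fin L)
  (M s : ℕ) (t z : ℝ), 200 ≤ L → 0 ≤ t → t ≤ 1 → |z| ≤ 2 / 3 * L + 1 / 16 →
  (∀ z' : ℝ, (Finset.univ.filter fun i : I =>
    |((a i).1.val : ℝ) + t * ((a i).2.val : ℝ) - z'| ≤ 3).card ≤ M) →
  s ≤ (Finset.univ.filter fun i : I => a i ∈ Sl L z).card →
  (s : ℝ) * L ≤ 24 * M * ((Finset.univ.filter fun y : Fin L × Fin L =>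
    ∃ i, y ∈ Rg L t z (a i)).card : ℝ)

open Classical in
/-- RS. The slabs contain many digits of the first `h` indices, from RC. `|Sl L z| ≥ L (L/12 - 1) ≥
L²/24`. If less than `s` of the `h` indices hit the slab then at least `h - s` hit the complement:
`≤ choose h (h-s) (23 L²/24)^(h-s) (L²)^s · (L²)^(L-h)`, `choose h (h - s) = choose h s ≤ L^s`. (RC for
the index type `{i : Fin L // i.val < h}` and `Equiv.piEquivPiSubtypeProd`.) -/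
def Stmt_RS : Prop := Stmt_RC → ∀ (L h s : ℕ) (z : ℝ), 200 ≤ L → h ≤ L → s ≤ h →
  nb L (fun ω => (Finset.univ.filter fun i : Fin L => i.val < h ∧ ω i ∈ Sl L z).card < s) ≤
    (L : ℝ) ^ s * (23 / 24) ^ (h - s) * (L : ℝ) ^ (2 * L)

open Classical in
/-- RH. Few pairs for one strip of differences, from RC, RU. Write `ω = (ω_A, ω_B)`, `A` the indices
`< h` (`Equiv.piEquivPiSubtypeProd`). For fixed `ω_A` with the first two properties the union `R` of the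
`Rg (ω i)`, `i ∈ A`, has `|R| ≥ s1 L/(24 M)` (RU; the degree bound for `A` follows from `Deg`), and each
`j ∈ B` with `ω j ∈ R` gives a pair `(i, j)`, for different `j` different pairs. If there are less than `s`
pairs, at least `m - s` of the `m = L - h` indices `j` hit the complement of `R`: at most
`choose m s (L² - |R|)^(m-s) (L²)^s ≤ L^s (1 - s1/(24 M L))^(m-s) (L²)^m` of the `ω_B`, and
`(1 - x)^k ≤ exp (-k x)`. -/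
def Stmt_RH : Prop := Stmt_RC → Stmt_RG → Stmt_RU → ∀ (L h M s s1 : ℕ) (t z : ℝ), 200 ≤ L →
  h + s ≤ L → 1 ≤ M → s1 ≤ L → 0 ≤ t → t ≤ 1 → |z| ≤ 2 / 3 * L + 1 / 16 →
  nb L (fun ω => Deg (dg ω) M ∧
      s1 ≤ (Finset.univ.filter fun i : Fin L => i.val < h ∧ ω i ∈ Sl L z).card ∧
      (Finset.univ.filter fun p : Fin L × Fin L => 2 ≤ |dy (dg ω) p| ∧
        |dt (dg ω) t p - z| ≤ 1 / 2).card < s) ≤
    (L : ℝ) ^ s * Real.exp (-((s1 : ℝ) / (24 * M * L) * ((L : ℝ) - h - s))) * (L : ℝ) ^ (2 * L)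

/-- RL. `Low` fails rarely, from RS, RH. Take `h = L/2` (integer part). If `Low` fails at `(t, z)` put
`t' = ⌊16 L t⌋/(16 L) ∈ [0,1]`, `z' = ⌊16 z⌋/16`: pairs with `|dt t' - z'| ≤ 1/2` satisfy
`|dt t - z| ≤ 1/2 + 1/16 + 1/16 ≤ 2/3`, so there are less than `s` of them. There are at most
`(16 L + 1)(64 L/3 + 3) ≤ 400 L²` pairs `(t', z')`. Either one of the two slabs contains less than `s1` of
the digits `ω i`, `i < h` (RS: `h - s1 ≥ L/4 - 1/2`, `(23/24)^k ≤ exp (-k/24)`), or RH applies: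
`L - h - s ≥ L/4`. -/
def Stmt_RL : Prop := Stmt_RC → Stmt_RG → Stmt_RU → Stmt_RS → Stmt_RH →
  ∀ L M s s1 : ℕ, 200 ≤ L → 1 ≤ M → 1 ≤ s → 4 * s ≤ L → 4 * s1 ≤ L →
  nb L (fun ω => Deg (dg ω) M ∧ ¬ Low (dg ω) ((s : ℝ) / L)) ≤
    (4 * (L : ℝ) ^ s1 * Real.exp (-((L : ℝ) / 96)) +
      400 * (L : ℝ) ^ 2 * (L : ℝ) ^ s * Real.exp (-((s1 : ℝ) / (96 * M)))) * (L : ℝ) ^ (2 * L)

/-- AS. Elementary asymptotics. `M = ⌊L^(1/100)⌋ + 1`, `s = ⌈L^(19/20)⌉`, `s1 = ⌊L^(99/100)⌋`,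
`K = L^(1/10)`, `c = s/L ∈ [L^(-1/20), 1/4]`: `144 K M² ≤ 576 L^(3/25) ≤ L^(7/10) ≤ c⁶ L`;
`s log L ≤ 2 L^(19/20) log L`, `s1/(96 M) ≥ L^(49/50)/400`; `11^k/k! ≤ (11 e/k)^k`. -/
def Stmt_AS : Prop := ∃ (M s s1 : ℕ → ℕ) (K : ℕ → ℝ), ∃ δ : ℕ → ℝ,
  Filter.Tendsto δ Filter.atTop (nhds 0) ∧ ∃ L0 : ℕ, 200 ≤ L0 ∧ ∀ L : ℕ, L0 ≤ L →
    1 ≤ M L ∧ M L + 1 ≤ L ∧ 1 ≤ s L ∧ 4 * s L ≤ L ∧ 4 * s1 L ≤ L ∧ 1 ≤ K L ∧
    144 * K L * (M L : ℝ) ^ 2 ≤ ((s L : ℝ) / L) ^ 6 * L ∧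
    20 * (L : ℝ) ^ 2 * (11 ^ (M L + 1) / (Nat.factorial (M L + 1) : ℝ)) + 3 / K L +
      (4 * (L : ℝ) ^ s1 L * Real.exp (-((L : ℝ) / 96)) +
      400 * (L : ℝ) ^ 2 * (L : ℝ) ^ s L * Real.exp (-((s1 L : ℝ) / (96 * M L)))) ≤ δ L

/-- RND. Almost all choices satisfy the criterion, from RD, RE (Markov: `#{eng > K L²} ≤
(3/K) L^(2L)`), RL, AS with `c = s/L`. -/
def Stmt_RND : Prop := Stmt_RC → Stmt_RG → Stmt_RU → Stmt_RS → Stmt_RH → Stmt_RD → Stmt_RE →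
  Stmt_RL → Stmt_AS →
  Filter.Tendsto (fun L : ℕ => nb L (fun ω => ¬ ∃ M K c, Crit (dg ω) M K c) / (L : ℝ) ^ (2 * L))
    Filter.atTop (nhds 0)

/-- RSY. The reflections act on the choices: `fl (dg ω) = dg (fun i => ((ω i).1, Fin.rev (ω i).2))`,
`sw (dg ω) = dg (fun i => ((ω i).2, (ω i).1))`, and these are bijections of the choices. -/
def Stmt_RSY : Prop := ∀ (L : ℕ) (P : (Fin L → ℕ × ℕ) → Prop),
  nb L (fun ω => P (fl (dg ω))) = nb L (fun ω => P (dg ω)) ∧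
  nb L (fun ω => P (sw (dg ω))) = nb L (fun ω => P (dg ω)) ∧
  nb L (fun ω => P (fl (sw (dg ω)))) = nb L (fun ω => P (dg ω))

open Classical in
/-- RSB. From choices to subsets. Every `D ∈ digitSets L` is the image of exactly `L!` injective
choices, so `#{D bad} L! = #{ω injective, image bad}`, `#digitSets · L! = #{ω injective} =
∏_{i<L} (L² - i) ≥ L^(2L) (1 - ∑ i/L²) ≥ L^(2L)/2`. -/
def Stmt_RSB : Prop := ∀ (L : ℕ) (Q : Finset (ℕ × ℕ) → Prop), 1 ≤ L →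
  (((digitSets L).filter fun D => ¬ Q D).card : ℝ) / ((digitSets L).card : ℝ) ≤
    2 * (nb L (fun ω => Function.Injective (dg ω) ∧ ¬ Q (Finset.univ.image (dg ω)))) /
      (L : ℝ) ^ (2 * L) ∧ 0 < (digitSets L).card

open Classical in
/-- FIN. The theorem, from CRI, RND (conclusion), RSY, RSB: `gens L (image (dg ω)) n = gen (dg ω) n`,
so `Conc (dg ω)` gives `Good`. -/
def Stmt_FIN : Prop := Filter.Tendsto (fun L : ℕ =>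
    (((digitSets L).filter fun D => Good L D).card : ℝ) / ((digitSets L).card : ℝ))
  Filter.atTop (nhds 1)

end Pool.Agent.RDS
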