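import Mathlib
import Pool.Agent.RDS.Stmts

/-!
# `RDS_CSH`: the number of pairs with a given difference is at most the energy
-/

set_option autoImplicit false

namespace Pool.Agent.RDS

namespace CSHM

open Classical in
/-- the fibres -/
noncomputable def N {ι : Type} [Fintype ι] (f : ι → ℤ × ℤ) (z : ℤ × ℤ) : ℕ :=
  (Finset.univ.filter fun q : ι => f q = z).card

theorem N_ne {ι : Type} [Fintype ι] (f : ι → ℤ × ℤ) (z : ℤ × ℤ) (h : N f z ≠ 0) :
    z ∈ Finset.univ.image f := by
  classical
  unfold N at h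
  obtain ⟨q, hq⟩ := Finset.card_ne_zero.1 h
  simp only [Finset.mem_filter, Finset.mem_univ, true_and] at hq
  exact Finset.mem_image.2 ⟨q, Finset.mem_univ _, hq⟩

theorem sum_N {ι : Type} [Fintype ι] (f : ι → ℤ × ℤ) (c : ℤ × ℤ) :
    ∑ q, N f (f q + c) = ∑ z ∈ Finset.univ.image f, N f z * N f (z + c) := by
  classical
  rw [Finset.sum_comp (fun z => N f (z + c)) f]
  refine Finset.sum_congr rfl fun z _ => ?_
  rw [smul_eq_mul]
  rfl

theorem le_N {ι : Type} [Fintype ι] (f : ι → ℤ × ℤ) (c : ℤ × ℤ) :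
    ∑ q, N f (f q + c) ≤ ∑ q, N f (f q) := by
  classical
  have h1 : ∑ q, N f (f q) = ∑ z ∈ Finset.univ.image f, N f z * N f z := by
    have := sum_N f 0
    simpa using this
  have h2 : ∑ z ∈ Finset.univ.image f, N f (z + c) * N f (z + c) ≤
      ∑ z ∈ Finset.univ.image f, N f z * N f z := by
    have h3 : ∑ z ∈ Finset.univ.image f, N f (z + c) * N f (z + c) =
        ∑ w ∈ (Finset.univ.image f).map (addRightEmbedding c), N f w * N f w := by
      rw [Finset.sum_map]
      rfl
    rw [h3]
    refine Finset.sum_le_sum_of_ne_zero fun w _ hw => N_ne f w ?_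
    intro h0
    rw [h0] at hw
    exact hw rfl
  rw [sum_N, h1]
  have h4 : 2 * ∑ z ∈ Finset.univ.image f, N f z * N f (z + c) ≤
      ∑ z ∈ Finset.univ.image f, N f z * N f z +
        ∑ z ∈ Finset.univ.image f, N f (z + c) * N f (z + c) := by
    rw [Finset.mul_sum, ← Finset.sum_add_distrib]
    refine Finset.sum_le_sum fun z _ => ?_
    have := two_mul_le_add_sq (N f z) (N f (z + c))
    nlinarith
  omega

theorem card_N {ι : Type} [Fintype ι] (u v : ι → ℤ) (a b : ℤ) :
    (Finset.univ.filter fun p : ι × ι => u p.1 - u p.2 = a ∧ v p.1 - v p.2 = b).card =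
      ∑ q, N (fun i => (u i, v i)) ((u q, v q) + (a, b)) := by
  classical
  rw [Finset.card_filter, Fintype.sum_prod_type_right]
  refine Finset.sum_congr rfl fun q _ => ?_
  unfold N
  rw [Finset.card_filter]
  refine Finset.sum_congr rfl fun p _ => ?_
  have : (u p - u q = a ∧ v p - v q = b) ↔ ((u p, v p) = ((u q, v q) + (a, b) : ℤ × ℤ)) := by
    rw [Prod.mk_add_mk, Prod.mk.injEq]
    constructor
    · rintro ⟨h1, h2⟩
      constructor <;> omega
    · rintro ⟨h1, h2⟩
      constructor <;> omega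
  simp only [this]

end CSHM

open Classical in
theorem CSH_thm : Stmt_CSH := by
  intro ι _ u v a b
  have h1 := CSHM.card_N u v a b
  have h2 := CSHM.card_N u v 0 0
  have h3 := CSHM.le_N (fun i : ι => (u i, v i)) (a, b)
  have h4 : eqp u v =
      (Finset.univ.filter fun p : ι × ι => u p.1 - u p.2 = 0 ∧ v p.1 - v p.2 = 0).card := by
    unfold eqp
    simp only [sub_eq_zero]
  rw [h4, h1, h2]
  refine h3.trans (le_of_eq ?_)
  refine Finset.sum_congr rfl fun q _ => ?_
  congr 1
  simp

end Pool.Agent.RDS
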