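import Pool.Agent.RDS.Stmts

/-!
# Random digit sets: module DER
-/

set_option autoImplicit false

namespace Pool.Agent.RDS

open MeasureTheory Set Filter Topology

namespace DERM

theorem hasDerivAt_Phi (y : ℝ) : HasDerivAt Phi (deriv Phi y) y :=
  ((contDiff_Phi 1).differentiable (by norm_num) y).hasDerivAt

/-- the total derivative of `p0` along a line -/
theorem hasDerivAt_line {L : ℕ} {D : Fin L → ℕ × ℕ} (hD : Ok D) (Y u v t : ℝ) :
    HasDerivAt (fun τ => p0 D τ (Y - (u + τ * v)))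
      (p2 D t (Y - (u + t * v)) - v * p1 D t (Y - (u + t * v))) t := by
  have hL := hD.pos
  unfold p0 T p1 p2
  have hl : HasDerivAt (fun τ : ℝ => Y - (u + τ * v)) (-v) t := by
    have h3 := (((hasDerivAt_id t).mul_const v).const_add u).const_sub Y
    simpa using h3
  have h1 : HasDerivAt
      (fun τ : ℝ => ∑ p : Fin L × Fin L, Phi ((L : ℝ) * (Y - (u + τ * v)) - dt D τ p))
      (∑ p : Fin L × Fin L, deriv Phi ((L : ℝ) * (Y - (u + t * v)) - dt D t p) *
        ((L : ℝ) * -v - (dy D p : ℝ))) t := by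
    refine HasDerivAt.fun_sum fun p _ => ?_
    have h2 : HasDerivAt (fun τ : ℝ => (L : ℝ) * (Y - (u + τ * v)) - dt D τ p)
        ((L : ℝ) * -v - (dy D p : ℝ)) t := by
      have h4 : HasDerivAt (fun τ : ℝ => dt D τ p) (dy D p : ℝ) t := by
        have h5 := ((hasDerivAt_id t).mul_const (dy D p : ℝ)).const_add (dx D p : ℝ)
        simpa [dt] using h5
      exact (hl.const_mul (L : ℝ)).sub h4
    exact (hasDerivAt_Phi _).comp t h2
  have h6 : HasDerivAt (fun τ : ℝ => Phi (Y - (u + τ * v)))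
      (deriv Phi (Y - (u + t * v)) * -v) t := (hasDerivAt_Phi _).comp t hl
  refine ((h1.div_const (L : ℝ)).sub h6).congr_deriv ?_
  have h7 : ∑ p : Fin L × Fin L, deriv Phi ((L : ℝ) * (Y - (u + t * v)) - dt D t p) *
        ((L : ℝ) * -v - (dy D p : ℝ)) =
      (L : ℝ) * -v * (∑ p : Fin L × Fin L, deriv Phi ((L : ℝ) * (Y - (u + t * v)) - dt D t p)) +
        ∑ p : Fin L × Fin L, -(dy D p : ℝ) * deriv Phi ((L : ℝ) * (Y - (u + t * v)) - dt D t p) := by
    rw [Finset.mul_sum, ← Finset.sum_add_distrib]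
    exact Finset.sum_congr rfl fun p _ => by ring
  rw [h7]
  field_simp
  ring

end DERM

theorem DER_thm : Stmt_DER := by
  intro hP L D hD r ι _ u v h
  have hL := hD.pos
  have hpw := hD.pw r
  obtain ⟨-, -, -, hc1, hc2, -⟩ := hP D hD
  have hgr : ∀ x t : ℝ, gr D r x t =
      (∑ q, p0 D t ((L : ℝ) ^ r * x - ((u q : ℝ) + t * (v q : ℝ)))) / (L : ℝ) ^ r := by
    intro x t
    unfold gr p0
    rw [iter_succ, h, h, ← sub_div, ← Finset.sum_sub_distrib]
  have hd : ∀ x t : ℝ, HasDerivAt (fun τ => gr D r x τ)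
      ((∑ q, (p2 D t ((L : ℝ) ^ r * x - ((u q : ℝ) + t * (v q : ℝ))) -
        (v q : ℝ) * p1 D t ((L : ℝ) ^ r * x - ((u q : ℝ) + t * (v q : ℝ))))) / (L : ℝ) ^ r) t := by
    intro x t
    have h1 : (fun τ => gr D r x τ) = fun τ =>
        (∑ q, p0 D τ ((L : ℝ) ^ r * x - ((u q : ℝ) + τ * (v q : ℝ)))) / (L : ℝ) ^ r :=
      funext fun τ => hgr x τ
    rw [h1]
    refine HasDerivAt.div_const ?_ _
    exact HasDerivAt.fun_sum fun q _ => DERM.hasDerivAt_line hD _ _ _ _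
  have hdgr : ∀ x t : ℝ, dgr D r x t =
      (∑ q, (p2 D t ((L : ℝ) ^ r * x - ((u q : ℝ) + t * (v q : ℝ))) -
        (v q : ℝ) * p1 D t ((L : ℝ) ^ r * x - ((u q : ℝ) + t * (v q : ℝ))))) / (L : ℝ) ^ r :=
    fun x t => (hd x t).deriv
  refine ⟨fun x t => ?_, hgr, hdgr, ?_, ?_, ?_⟩
  · rw [hdgr]
    exact hd x t
  · unfold gr
    have h1 := (continuous_iter_joint (D := D) continuous_Phi (r + 1)).comp
      (f := fun q : ℝ × ℝ => (q.2, q.1)) (by fun_prop)
    have h2 := (continuous_iter_joint (D := D) continuous_Phi r).comp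
      (f := fun q : ℝ × ℝ => (q.2, q.1)) (by fun_prop)
    exact h1.sub h2
  · have h1 : (fun q : ℝ × ℝ => dgr D r q.1 q.2) = fun q : ℝ × ℝ =>
        (∑ j, (p2 D q.2 ((L : ℝ) ^ r * q.1 - ((u j : ℝ) + q.2 * (v j : ℝ))) -
          (v j : ℝ) * p1 D q.2 ((L : ℝ) ^ r * q.1 - ((u j : ℝ) + q.2 * (v j : ℝ))))) /
            (L : ℝ) ^ r := funext fun q => hdgr q.1 q.2
    rw [h1]
    refine Continuous.div_const ?_ _
    refine continuous_finsetSum _ fun j _ => ?_
    have hf : Continuous fun q : ℝ × ℝ =>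
        (q.2, (L : ℝ) ^ r * q.1 - ((u j : ℝ) + q.2 * (v j : ℝ))) := by fun_prop
    exact (hc2.comp hf).sub (continuous_const.mul (hc1.comp hf))
  · intro x t ht hx
    have h0 : 1 + |t| ≤ 2 := by
      rw [abs_of_nonneg ht.1]
      linarith [ht.2]
    have hz : ∀ y : ℝ, 2 < |y| → Phi y = 0 := fun y hy => Phi_eq_zero (by linarith)
    unfold gr
    rw [iter_zero hD h0 hz (r + 1) x hx, iter_zero hD h0 hz r x hx, sub_zero]

end Pool.Agent.RDS
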