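import Pool.Agent.RDS.Stmts

/-!
# EXP: the iterates of the operator as sums over words, and the energy
-/

set_option autoImplicit false

namespace Pool.Agent.RDS

open MeasureTheory Set

namespace EXPM

variable {L : ℕ} {D : Fin L → ℕ × ℕ}

theorem small (hL : 0 < L) {x s : ℤ} (h : (L : ℤ) * x = s) (hs : |s| < 2 * L) :
    x ∈ ({-1, 0, 1} : Finset ℤ) := by
  have h1 := abs_lt.1 hs
  have hL' : (0 : ℤ) < L := by exact_mod_cast hL
  have h2 : x < 2 := by
    by_contra hcon
    have : (L : ℤ) * 2 ≤ L * x := mul_le_mul_of_nonneg_left (by omega) hL'.le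
    linarith
  have h3 : -2 < x := by
    by_contra hcon
    have : (L : ℤ) * x ≤ L * (-2) := mul_le_mul_of_nonneg_left (by omega) hL'.le
    linarith
  have h4 : x = -1 ∨ x = 0 ∨ x = 1 := by omega
  rcases h4 with rfl | rfl | rfl <;> simp

theorem dx_diff (h : Ok D) (p p' : Fin L × Fin L) : |dx D p' - dx D p| < 2 * L := by
  have h1 := h.bx p.1
  have h2 := h.bx p.2
  have h3 := h.bx p'.1
  have h4 := h.bx p'.2
  unfold dx
  rw [abs_lt]
  constructor <;> omega

theorem dy_diff (h : Ok D) (p p' : Fin L × Fin L) : |dy D p' - dy D p| < 2 * L := by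
  have h1 := h.bx p.1
  have h2 := h.bx p.2
  have h3 := h.bx p'.1
  have h4 := h.bx p'.2
  unfold dy
  rw [abs_lt]
  constructor <;> omega

open Classical in
theorem count (hC : Stmt_CSH) (ι : Type) [Fintype ι] (u v : ι → ℤ) (a b : ℤ) :
    (Finset.univ.filter fun p : ι × ι => u p.1 - u p.2 = a ∧ v p.1 - v p.2 = b).card ≤
      eqp u v := by
  have h := hC ι u v a b
  convert h

open Classical in
theorem energy (hC : Stmt_CSH) (h : Ok D) (ι : Type) [Fintype ι] (u v : ι → ℤ) :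
    eqp (ι := ι × (Fin L × Fin L)) (fun q => (L : ℤ) * u q.1 + dx D q.2)
      (fun q => (L : ℤ) * v q.1 + dy D q.2) ≤ 9 * (eqp u v * eng D) := by
  have hL : 0 < L := by
    have := h.four
    omega
  set S : ℤ × ℤ → Finset ((ι × (Fin L × Fin L)) × (ι × (Fin L × Fin L))) := fun c =>
    Finset.univ.filter fun z => (u z.1.1 - u z.2.1 = c.1 ∧ v z.1.1 - v z.2.1 = c.2) ∧
      (dx D z.2.2 - dx D z.1.2 = L * c.1 ∧ dy D z.2.2 - dy D z.1.2 = L * c.2) with hS
  have hcS : ∀ c, (S c).card ≤ eqp u v * eng D := by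
    intro c
    have h1 : (S c).card ≤ ((Finset.univ.filter fun p : ι × ι => u p.1 - u p.2 = c.1 ∧
        v p.1 - v p.2 = c.2) ×ˢ (Finset.univ.filter fun p : (Fin L × Fin L) × (Fin L × Fin L) =>
          dx D p.1 - dx D p.2 = L * c.1 ∧ dy D p.1 - dy D p.2 = L * c.2)).card := by
      apply Finset.card_le_card_of_injOn
        (fun z : (ι × (Fin L × Fin L)) × (ι × (Fin L × Fin L)) =>
          ((z.1.1, z.2.1), (z.2.2, z.1.2)))
      · intro z hz
        rw [hS, Finset.mem_coe, Finset.mem_filter] at hz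
        rw [Finset.mem_coe, Finset.mem_product, Finset.mem_filter, Finset.mem_filter]
        exact ⟨⟨Finset.mem_univ _, hz.2.1⟩, ⟨Finset.mem_univ _, hz.2.2⟩⟩
      · intro z _ z' _ he
        simp only [Prod.mk.injEq] at he
        exact Prod.ext (Prod.ext he.1.1 he.2.2) (Prod.ext he.1.2 he.2.1)
    refine h1.trans ?_
    rw [Finset.card_product]
    exact Nat.mul_le_mul (count hC ι u v c.1 c.2)
      (count hC (Fin L × Fin L) (dx D) (dy D) (L * c.1) (L * c.2))
  have hsub : (Finset.univ.filter fun p : (ι × (Fin L × Fin L)) × (ι × (Fin L × Fin L)) =>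
      (L : ℤ) * u p.1.1 + dx D p.1.2 = L * u p.2.1 + dx D p.2.2 ∧
      (L : ℤ) * v p.1.1 + dy D p.1.2 = L * v p.2.1 + dy D p.2.2) ⊆
      ((({-1, 0, 1} : Finset ℤ) ×ˢ ({-1, 0, 1} : Finset ℤ)).biUnion S) := by
    intro z hz
    rw [Finset.mem_filter] at hz
    obtain ⟨-, h1, h2⟩ := hz
    have e1 : (L : ℤ) * (u z.1.1 - u z.2.1) = dx D z.2.2 - dx D z.1.2 := by
      rw [mul_sub]
      linarith
    have e2 : (L : ℤ) * (v z.1.1 - v z.2.1) = dy D z.2.2 - dy D z.1.2 := by
      rw [mul_sub]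
      linarith
    rw [Finset.mem_biUnion]
    refine ⟨(u z.1.1 - u z.2.1, v z.1.1 - v z.2.1), ?_, ?_⟩
    · rw [Finset.mem_product]
      exact ⟨small hL e1 (dx_diff h _ _), small hL e2 (dy_diff h _ _)⟩
    · rw [hS, Finset.mem_filter]
      exact ⟨Finset.mem_univ _, ⟨rfl, rfl⟩, ⟨e1.symm, e2.symm⟩⟩
  have h3 := (Finset.card_le_card hsub).trans
    (Finset.card_biUnion_le_card_mul _ S (eqp u v * eng D) fun c _ => hcS c)
  have h4 : ((({-1, 0, 1} : Finset ℤ) ×ˢ ({-1, 0, 1} : Finset ℤ))).card = 9 := by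
    rw [Finset.card_product]
    rfl
  rw [h4] at h3
  refine le_trans (le_of_eq ?_) h3
  unfold eqp
  congr 1

end EXPM

open EXPM in
theorem EXP_thm : Stmt_EXP := by
  intro hC L D hD r
  have hL := hD.pos
  induction r with
  | zero =>
    refine ⟨Unit, inferInstance, fun _ => 0, fun _ => 0, fun _ => ?_, fun _ => ?_, ?_, ?_, ?_⟩
    · simp
    · simp
    · simp
    · intro t φ x
      simp
    · unfold eqp
      simp
  | succ r ih =>
    obtain ⟨ι, inst, u, v, hu, hv, hc, hT, hE⟩ := ih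
    have hb : ∀ (w : ℤ) (s : ℤ), |(w : ℝ)| ≤ (L : ℝ) ^ r - 1 → |(s : ℝ)| ≤ L - 1 →
        |(((L : ℤ) * w + s : ℤ) : ℝ)| ≤ (L : ℝ) ^ (r + 1) - 1 := by
      intro w s hw hs
      push_cast
      refine (abs_add_le _ _).trans ?_
      rw [abs_mul, abs_of_pos hL, pow_succ]
      have h1 : (L : ℝ) * |(w : ℝ)| ≤ L * ((L : ℝ) ^ r - 1) := mul_le_mul_of_nonneg_left hw hL.le
      have h2 : (L : ℝ) * ((L : ℝ) ^ r - 1) = (L : ℝ) ^ r * L - L := by ring
      linarith
    refine ⟨ι × (Fin L × Fin L), inferInstance, fun q => (L : ℤ) * u q.1 + dx D q.2,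
      fun q => (L : ℤ) * v q.1 + dy D q.2, fun q => hb _ _ (hu _) (hD.abs_dx _),
      fun q => hb _ _ (hv _) (hD.abs_dy _), ?_, ?_, ?_⟩
    · rw [Fintype.card_prod, Fintype.card_prod, Fintype.card_fin, hc]
      ring
    · intro t φ x
      rw [iter_succ, hT, Fintype.sum_prod_type]
      unfold T
      rw [← Finset.sum_div, div_div, pow_succ, mul_comm (L : ℝ) ((L : ℝ) ^ r)]
      congr 1
      refine Finset.sum_congr rfl fun q _ => Finset.sum_congr rfl fun p _ => ?_
      congr 1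
      unfold dt
      push_cast
      ring
    · have h1 := energy hC hD ι u v
      have h2 : (eqp (ι := ι × (Fin L × Fin L)) (fun q => (L : ℤ) * u q.1 + dx D q.2)
          (fun q => (L : ℤ) * v q.1 + dy D q.2) : ℝ) ≤ 9 * ((eqp u v : ℝ) * (eng D : ℝ)) := by
        exact_mod_cast h1
      refine h2.trans ?_
      have h3 : (eqp u v : ℝ) * (eng D : ℝ) ≤ (9 * (eng D : ℝ)) ^ r * (eng D : ℝ) :=
        mul_le_mul_of_nonneg_right hE (Nat.cast_nonneg _)
      calc 9 * ((eqp u v : ℝ) * (eng D : ℝ)) ≤ 9 * ((9 * (eng D : ℝ)) ^ r * (eng D : ℝ)) := by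
            linarith
        _ = (9 * (eng D : ℝ)) ^ (r + 1) := by
            rw [pow_succ]
            ring

end Pool.Agent.RDS
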