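import Pool.Agent.RDS.Stmts

/-!
# FAV: the Favard length in terms of the lengths of the projections, four ranges of directions
-/

set_option autoImplicit false

namespace Pool.Agent.RDS

open MeasureTheory Set
open scoped Pointwise

namespace FAVM

/-- The projection of `K` to the line of direction `θ`. -/
def Q (K : Set ℂ) (θ : ℝ) : Set ℝ :=
  (fun z : ℂ => z.re * Real.cos θ + z.im * Real.sin θ) '' K

/-- Its length. -/
noncomputable def G (K : Set ℂ) (θ : ℝ) : ℝ := (volume (Q K θ)).toReal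

theorem re_eq (θ : ℝ) (z : ℂ) :
    (z * Complex.exp (-(θ : ℂ) * Complex.I)).re = z.re * Real.cos θ + z.im * Real.sin θ := by
  rw [Complex.mul_re, Complex.exp_re, Complex.exp_im]
  simp

theorem Fav_eq (K : Set ℂ) : FCC.Fav K = ∫ θ in (0 : ℝ)..Real.pi, G K θ := by
  unfold FCC.Fav G
  refine intervalIntegral.integral_congr fun θ _ => ?_
  show (volume ((fun z : ℂ => (z * Complex.exp (-(θ : ℂ) * Complex.I)).re) '' K)).toReal = _
  have h : (fun z : ℂ => (z * Complex.exp (-(θ : ℂ) * Complex.I)).re) =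
      fun z : ℂ => z.re * Real.cos θ + z.im * Real.sin θ := funext fun z => re_eq θ z
  rw [h]
  rfl

theorem vol_refl (c : ℝ) (A : Set ℝ) : volume ((fun u : ℝ => c - u) ⁻¹' A) = volume A := by
  have h : (fun u : ℝ => c - u) ⁻¹' A = (fun u : ℝ => u + -c) ⁻¹' (Neg.neg ⁻¹' A) := by
    ext u
    simp only [mem_preimage]
    have : -(u + -c) = c - u := by ring
    rw [this]
  rw [h, measure_preimage_add_right, Measure.measure_preimage_neg]

theorem G_pi (K : Set ℂ) (θ : ℝ) : G K (θ + Real.pi) = G K θ := by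
  have h : Q K (θ + Real.pi) = (fun u : ℝ => 0 - u) ⁻¹' Q K θ := by
    ext u
    unfold Q
    simp only [mem_image, mem_preimage, Real.cos_add_pi, Real.sin_add_pi]
    constructor
    · rintro ⟨z, hz, rfl⟩
      exact ⟨z, hz, by ring⟩
    · rintro ⟨z, hz, h⟩
      exact ⟨z, hz, by linarith⟩
  unfold G
  rw [h, vol_refl]

variable {L : ℕ} {D : Fin L → ℕ × ℕ}

theorem G_sw (hG : Stmt_GEO) (hD : Ok D) (n : ℕ) (θ : ℝ) :
    G (gen (sw D) n) θ = G (gen D n) (Real.pi / 2 - θ) := by
  obtain ⟨-, -, hs, -, -, -, -⟩ := hG D hD n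
  have h : Q (gen (sw D) n) θ = Q (gen D n) (Real.pi / 2 - θ) := by
    ext u
    unfold Q
    simp only [mem_image, Real.cos_pi_div_two_sub, Real.sin_pi_div_two_sub]
    constructor
    · rintro ⟨z, hz, rfl⟩
      exact ⟨⟨z.im, z.re⟩, (hs z).1 hz, by ring⟩
    · rintro ⟨z, hz, rfl⟩
      exact ⟨⟨z.im, z.re⟩, (hs _).2 hz, by ring⟩
  unfold G
  rw [h]

theorem G_fl (hG : Stmt_GEO) (hD : Ok D) (n : ℕ) (θ : ℝ) :
    G (gen (fl D) n) θ = G (gen D n) (Real.pi - θ) := by
  obtain ⟨-, hs, -, -, -, -, -⟩ := hG D hD n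
  have h : Q (gen (fl D) n) θ = (fun u : ℝ => Real.sin θ - u) ⁻¹' Q (gen D n) (Real.pi - θ) := by
    ext u
    unfold Q
    simp only [mem_image, mem_preimage, Real.cos_pi_sub, Real.sin_pi_sub]
    constructor
    · rintro ⟨z, hz, rfl⟩
      exact ⟨⟨z.re, 1 - z.im⟩, (hs z).1 hz, by ring⟩
    · rintro ⟨z, hz, h⟩
      refine ⟨⟨z.re, 1 - z.im⟩, (hs _).2 ?_, ?_⟩
      · have e : (⟨z.re, 1 - (1 - z.im)⟩ : ℂ) = z := by
          apply Complex.ext
          · rfl
          · show 1 - (1 - z.im) = z.im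
            ring
        show (⟨z.re, 1 - (1 - z.im)⟩ : ℂ) ∈ gen D n
        rw [e]
        exact hz
      · show z.re * Real.cos θ + (1 - z.im) * Real.sin θ = u
        linarith
  unfold G
  rw [h, vol_refl]

theorem G_arctan (hG : Stmt_GEO) (hD : Ok D) (n : ℕ) {t : ℝ} (ht : 0 ≤ t) :
    G (gen D n) (Real.arctan t) = Real.cos (Real.arctan t) * len D n t := by
  have hc : 0 < Real.cos (Real.arctan t) := Real.cos_arctan_pos t
  have hsin : Real.sin (Real.arctan t) = Real.cos (Real.arctan t) * t := by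
    have h1 := Real.tan_arctan t
    rw [Real.tan_eq_sin_div_cos, div_eq_iff hc.ne'] at h1
    rw [h1, mul_comm]
  obtain ⟨-, -, -, hP, -, -, -⟩ := hG D hD n
  have h : Q (gen D n) (Real.arctan t) = Real.cos (Real.arctan t) • P D n t := by
    rw [← hP t ht]
    ext u
    unfold Q
    rw [hsin, mem_smul_set]
    simp only [mem_image, smul_eq_mul]
    constructor
    · rintro ⟨z, hz, rfl⟩
      exact ⟨z.re + t * z.im, ⟨z, hz, rfl⟩, by ring⟩
    · rintro ⟨v, ⟨z, hz, rfl⟩, rfl⟩
      exact ⟨z, hz, by ring⟩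
  unfold G len
  rw [h, Measure.addHaar_smul, ENNReal.toReal_mul]
  congr 1
  rw [Module.finrank_self, pow_one, abs_of_pos hc, ENNReal.toReal_ofReal hc.le]

theorem image_arctan : Real.arctan '' Ioo 0 1 = Ioo 0 (Real.pi / 4) := by
  ext θ
  constructor
  · rintro ⟨t, ⟨h0, h1⟩, rfl⟩
    refine ⟨?_, ?_⟩
    · have := Real.arctan_strictMono h0
      rwa [Real.arctan_zero] at this
    · have := Real.arctan_strictMono h1
      rwa [Real.arctan_one] at this
  · rintro ⟨h0, h1⟩
    have hpi := Real.pi_pos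
    have e : Real.arctan (Real.tan θ) = θ :=
      Real.arctan_tan (by linarith) (by linarith)
    refine ⟨Real.tan θ, ⟨?_, ?_⟩, e⟩
    · rw [← Real.arctan_strictMono.lt_iff_lt, e, Real.arctan_zero]
      exact h0
    · rw [← Real.arctan_strictMono.lt_iff_lt, e, Real.arctan_one]
      exact h1

theorem integrableOn_len (hD : Ok D) (n : ℕ) : IntegrableOn (len D n) (Ioo 0 1) := by
  refine Measure.integrableOn_of_bounded (M := 2) ?_ (measurable_len n).aestronglyMeasurable ?_
  · rw [Real.volume_Ioo]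
    exact ENNReal.ofReal_ne_top
  · filter_upwards [ae_restrict_mem measurableSet_Ioo] with t ht
    rw [Real.norm_eq_abs, abs_of_nonneg (len_nonneg n t)]
    have h1 := len_le hD n ht.1.le
    have h2 := ht.2
    linarith

theorem hderiv (x : ℝ) :
    HasDerivWithinAt Real.arctan (1 / (1 + x ^ 2)) (Ioo 0 1) x :=
  (Real.hasDerivAt_arctan x).hasDerivWithinAt

theorem integrand (hG : Stmt_GEO) (hD : Ok D) (n : ℕ) {t : ℝ} (ht : 0 ≤ t) :
    |1 / (1 + t ^ 2)| • G (gen D n) (Real.arctan t) =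
      (1 / (1 + t ^ 2)) * (Real.cos (Real.arctan t) * len D n t) := by
  rw [G_arctan hG hD n ht, smul_eq_mul, abs_of_nonneg (by positivity)]

theorem le_len (D : Fin L → ℕ × ℕ) (n : ℕ) (t : ℝ) :
    (1 / (1 + t ^ 2)) * (Real.cos (Real.arctan t) * len D n t) ≤ len D n t := by
  have h1 : 1 / (1 + t ^ 2) ≤ 1 := by
    rw [div_le_one (by positivity)]
    nlinarith [sq_nonneg t]
  have h2 : Real.cos (Real.arctan t) * len D n t ≤ len D n t :=
    mul_le_of_le_one_left (len_nonneg n t) (Real.cos_le_one _)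
  have h3 : 0 ≤ Real.cos (Real.arctan t) * len D n t :=
    mul_nonneg (Real.cos_arctan_pos t).le (len_nonneg n t)
  exact (mul_le_of_le_one_left h3 h1).trans h2

theorem nonneg_len (D : Fin L → ℕ × ℕ) (n : ℕ) (t : ℝ) :
    0 ≤ (1 / (1 + t ^ 2)) * (Real.cos (Real.arctan t) * len D n t) :=
  mul_nonneg (by positivity) (mul_nonneg (Real.cos_arctan_pos t).le (len_nonneg n t))

theorem integrableOn_sub (hD : Ok D) (n : ℕ) :
    IntegrableOn (fun t => (1 / (1 + t ^ 2)) * (Real.cos (Real.arctan t) * len D n t))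
      (Ioo 0 1) := by
  refine Integrable.mono' (integrableOn_len hD n) ?_ ?_
  · refine Measurable.aestronglyMeasurable ?_
    have h1 : Measurable fun t : ℝ => 1 / (1 + t ^ 2) := by fun_prop
    have h2 : Measurable fun t : ℝ => Real.cos (Real.arctan t) :=
      Real.measurable_cos.comp Real.measurable_arctan
    exact h1.mul (h2.mul (measurable_len n))
  · refine Filter.Eventually.of_forall fun t => ?_
    rw [Real.norm_eq_abs, abs_of_nonneg (nonneg_len D n t)]
    exact le_len D n t

theorem integrableOn_G (hG : Stmt_GEO) (hD : Ok D) (n : ℕ) :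
    IntegrableOn (G (gen D n)) (Ioo 0 (Real.pi / 4)) := by
  rw [← image_arctan]
  rw [integrableOn_image_iff_integrableOn_abs_deriv_smul measurableSet_Ioo
    (fun x _ => hderiv x) Real.arctan_injective.injOn]
  refine (integrableOn_sub hD n).congr_fun ?_ measurableSet_Ioo
  intro t ht
  exact (integrand hG hD n ht.1.le).symm

theorem integral_G_le (hG : Stmt_GEO) (hD : Ok D) (n : ℕ) :
    ∫ θ in Ioo 0 (Real.pi / 4), G (gen D n) θ ≤ ∫ t in Ioo (0 : ℝ) 1, len D n t := by
  rw [← image_arctan]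
  rw [integral_image_eq_integral_abs_deriv_smul measurableSet_Ioo
    (fun x _ => hderiv x) Real.arctan_injective.injOn]
  rw [setIntegral_congr_fun
    (g := fun t => (1 / (1 + t ^ 2)) * (Real.cos (Real.arctan t) * len D n t))
    measurableSet_Ioo (fun t ht => integrand hG hD n ht.1.le)]
  exact setIntegral_mono (integrableOn_sub hD n) (integrableOn_len hD n) (fun t => le_len D n t)

/-- The first eighth of the circle. -/
theorem main (hG : Stmt_GEO) (hD : Ok D) (n : ℕ) :
    IntervalIntegrable (G (gen D n)) volume 0 (Real.pi / 4) ∧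
      ∫ θ in (0 : ℝ)..(Real.pi / 4), G (gen D n) θ ≤ ∫ t in (0 : ℝ)..1, len D n t := by
  have hpi := Real.pi_pos
  refine ⟨?_, ?_⟩
  · rw [intervalIntegrable_iff_integrableOn_Ioo_of_le (by positivity)]
    exact integrableOn_G hG hD n
  · rw [intervalIntegral.integral_of_le (by positivity), integral_Ioc_eq_integral_Ioo,
      intervalIntegral.integral_of_le zero_le_one, integral_Ioc_eq_integral_Ioo]
    exact integral_G_le hG hD n

end FAVM

open FAVM in
theorem FAV_thm : Stmt_FAV := by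
  intro hG L D hD n
  have hpi := Real.pi_pos
  obtain ⟨-, -, -, -, -, hfl, hsw⟩ := hG D hD n
  obtain ⟨-, -, -, -, -, hfs, -⟩ := hG (sw D) hsw n
  obtain ⟨i1, b1⟩ := FAVM.main hG hD n
  obtain ⟨i2, b2⟩ := FAVM.main hG hsw n
  obtain ⟨i3, b3⟩ := FAVM.main hG hfs n
  obtain ⟨i4, b4⟩ := FAVM.main hG hfl n
  -- the second eighth
  have e2 : (fun x => G (gen (sw D) n) (Real.pi / 2 - x)) = G (gen D n) := by
    funext x
    rw [G_sw hG hD n]
    congr 1
    ring
  have k2 : IntervalIntegrable (G (gen D n)) volume (Real.pi / 4) (Real.pi / 2) := by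
    have h := i2.comp_sub_left (Real.pi / 2)
    rw [e2, show Real.pi / 2 - 0 = Real.pi / 2 by ring,
      show Real.pi / 2 - Real.pi / 4 = Real.pi / 4 by ring] at h
    exact h.symm
  have j2 : ∫ θ in (Real.pi / 4)..(Real.pi / 2), G (gen D n) θ =
      ∫ θ in (0 : ℝ)..(Real.pi / 4), G (gen (sw D) n) θ := by
    have h := intervalIntegral.integral_comp_sub_left (a := Real.pi / 4) (b := Real.pi / 2)
      (G (gen (sw D) n)) (Real.pi / 2)
    rw [e2, show Real.pi / 2 - Real.pi / 2 = 0 by ring,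
      show Real.pi / 2 - Real.pi / 4 = Real.pi / 4 by ring] at h
    exact h
  -- the third eighth
  have e3 : (fun x => G (gen (fl (sw D)) n) (x - Real.pi / 2)) = G (gen D n) := by
    funext x
    rw [G_fl hG hsw n, G_sw hG hD n, ← G_pi]
    congr 1
    ring
  have k3 : IntervalIntegrable (G (gen D n)) volume (Real.pi / 2) (3 * Real.pi / 4) := by
    have h := i3.comp_sub_right (Real.pi / 2)
    rw [e3, show 0 + Real.pi / 2 = Real.pi / 2 by ring,
      show Real.pi / 4 + Real.pi / 2 = 3 * Real.pi / 4 by ring] at h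
    exact h
  have j3 : ∫ θ in (Real.pi / 2)..(3 * Real.pi / 4), G (gen D n) θ =
      ∫ θ in (0 : ℝ)..(Real.pi / 4), G (gen (fl (sw D)) n) θ := by
    have h := intervalIntegral.integral_comp_sub_right (a := Real.pi / 2) (b := 3 * Real.pi / 4)
      (G (gen (fl (sw D)) n)) (Real.pi / 2)
    rw [e3, show Real.pi / 2 - Real.pi / 2 = 0 by ring,
      show 3 * Real.pi / 4 - Real.pi / 2 = Real.pi / 4 by ring] at h
    exact h
  -- the fourth eighth
  have e4 : (fun x => G (gen (fl D) n) (Real.pi - x)) = G (gen D n) := by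
    funext x
    rw [G_fl hG hD n]
    congr 1
    ring
  have k4 : IntervalIntegrable (G (gen D n)) volume (3 * Real.pi / 4) Real.pi := by
    have h := i4.comp_sub_left Real.pi
    rw [e4, show Real.pi - 0 = Real.pi by ring,
      show Real.pi - Real.pi / 4 = 3 * Real.pi / 4 by ring] at h
    exact h.symm
  have j4 : ∫ θ in (3 * Real.pi / 4)..Real.pi, G (gen D n) θ =
      ∫ θ in (0 : ℝ)..(Real.pi / 4), G (gen (fl D) n) θ := by
    have h := intervalIntegral.integral_comp_sub_left (a := 3 * Real.pi / 4) (b := Real.pi)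
      (G (gen (fl D) n)) Real.pi
    rw [e4, show Real.pi - Real.pi = 0 by ring,
      show Real.pi - 3 * Real.pi / 4 = Real.pi / 4 by ring] at h
    exact h
  rw [Fav_eq, ← intervalIntegral.integral_add_adjacent_intervals (i1.trans (k2.trans k3)) k4,
    ← intervalIntegral.integral_add_adjacent_intervals i1 (k2.trans k3),
    ← intervalIntegral.integral_add_adjacent_intervals k2 k3, j2, j3, j4]
  linarith

end Pool.Agent.RDS
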