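import Pool.Agent.RDS.Stmts

/-!
# FIN: the theorem
-/

set_option autoImplicit false

namespace Pool.Agent.RDS

open MeasureTheory Set

namespace FINM

open Classical in
theorem gens_image {L : ℕ} (D : Fin L → ℕ × ℕ) (n : ℕ) :
    gens L (Finset.univ.image D) n = gen D n := by
  induction n with
  | zero => rfl
  | succ n ih =>
    show (⋃ d ∈ Finset.univ.image D,
      (fun z : ℂ => (z + ((d.1 : ℂ) + (d.2 : ℂ) * Complex.I)) / (L : ℂ)) ''
        gens L (Finset.univ.image D) n) = ⋃ i : Fin L,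
      (fun z : ℂ => (z + (((D i).1 : ℂ) + ((D i).2 : ℂ) * Complex.I)) / (L : ℂ)) '' gen D n
    rw [ih]
    ext z
    simp only [mem_iUnion, Finset.mem_image, Finset.mem_univ, true_and, exists_prop]
    constructor
    · rintro ⟨d, ⟨i, rfl⟩, h⟩
      exact ⟨i, h⟩
    · rintro ⟨i, h⟩
      exact ⟨D i, ⟨i, rfl⟩, h⟩

open Classical in
theorem good_of_conc {L : ℕ} (D : Fin L → ℕ × ℕ) (h : Conc D) :
    Good L (Finset.univ.image D) := by
  obtain ⟨c, hc, hn⟩ := h
  refine ⟨c, hc, fun n h1 => ?_⟩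
  rw [gens_image]
  exact hn n h1

theorem nb_mono {L : ℕ} {P Q : (Fin L → Fin L × Fin L) → Prop} (h : ∀ ω, P ω → Q ω) :
    nb L P ≤ nb L Q := by
  classical
  unfold nb
  exact_mod_cast Finset.card_le_card (fun ω hω => by
    rw [Finset.mem_filter] at hω ⊢
    exact ⟨hω.1, h ω hω.2⟩)

theorem card_or {α : Type} [Fintype α] (P Q : α → Prop) (i1 : DecidablePred P)
    (i2 : DecidablePred Q) (i3 : DecidablePred fun a => P a ∨ Q a) :
    (Finset.univ.filter fun a => P a ∨ Q a).card ≤
      (Finset.univ.filter P).card + (Finset.univ.filter Q).card := by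
  classical
  refine (Finset.card_le_card (fun a ha => ?_)).trans
    (Finset.card_union_le (Finset.univ.filter P) (Finset.univ.filter Q))
  rw [Finset.mem_filter] at ha
  rw [Finset.mem_union, Finset.mem_filter, Finset.mem_filter]
  exact ha.2.imp (fun h => ⟨ha.1, h⟩) (fun h => ⟨ha.1, h⟩)

theorem nb_or {L : ℕ} (P Q : (Fin L → Fin L × Fin L) → Prop) :
    nb L (fun ω => P ω ∨ Q ω) ≤ nb L P + nb L Q := by
  unfold nb
  exact_mod_cast card_or P Q _ _ _

theorem nb_nonneg {L : ℕ} (P : (Fin L → Fin L × Fin L) → Prop) : 0 ≤ nb L P := by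
  unfold nb
  exact Nat.cast_nonneg _

end FINM

open FINM in
theorem FIN_thm (hCRI : Stmt_CRI)
    (hRND : Filter.Tendsto (fun L : ℕ => nb L (fun ω => ¬ ∃ M K c, Crit (dg ω) M K c) /
      (L : ℝ) ^ (2 * L)) Filter.atTop (nhds 0))
    (hRSY : Stmt_RSY) (hRSB : Stmt_RSB) : Stmt_FIN := by
  classical
  set δ : ℕ → ℝ := fun L : ℕ => nb L (fun ω => ¬ ∃ M K c, Crit (dg ω) M K c) /
    (L : ℝ) ^ (2 * L) with hδ
  have hbad : ∀ L : ℕ, 1 ≤ L →
      (((digitSets L).filter fun D => ¬ Good L D).card : ℝ) / ((digitSets L).card : ℝ) ≤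
        8 * δ L := by
    intro L hL
    refine (hRSB L (Good L) hL).1.trans ?_
    have hLp : (0 : ℝ) < (L : ℝ) ^ (2 * L) := by
      have : (0 : ℝ) < L := by exact_mod_cast hL
      positivity
    set P : (Fin L → ℕ × ℕ) → Prop := fun D => ¬ ∃ M K c, Crit D M K c with hP
    obtain ⟨s1, s2, s3⟩ := hRSY L P
    have h1 : nb L (fun ω => Function.Injective (dg ω) ∧ ¬ Good L (Finset.univ.image (dg ω))) ≤
        nb L (fun ω => P (dg ω)) + nb L (fun ω => P (fl (dg ω))) + nb L (fun ω => P (sw (dg ω))) +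
          nb L (fun ω => P (fl (sw (dg ω)))) := by
      refine (nb_mono (Q := fun ω => ((P (dg ω) ∨ P (fl (dg ω))) ∨ P (sw (dg ω))) ∨
        P (fl (sw (dg ω)))) ?_).trans ?_
      · rintro ω ⟨hi, hg⟩
        by_contra hcon
        simp only [hP, not_or, not_not] at hcon
        exact hg (good_of_conc _ (hCRI (dg ω) hi hcon.1.1.1 hcon.1.1.2 hcon.1.2 hcon.2))
      · refine (nb_or _ _).trans (add_le_add ((nb_or _ _).trans (add_le_add (nb_or _ _) le_rfl))
          le_rfl)
    rw [s1, s2, s3] at h1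
    have h2 : nb L (fun ω => P (dg ω)) = δ L * (L : ℝ) ^ (2 * L) := by
      rw [hδ]
      field_simp
      rfl
    rw [h2] at h1
    rw [div_le_iff₀ hLp]
    linarith
  have hgood : ∀ L : ℕ, 1 ≤ L → 1 - 8 * δ L ≤
      (((digitSets L).filter fun D => Good L D).card : ℝ) / ((digitSets L).card : ℝ) := by
    intro L hL
    have hpos := (hRSB L (Good L) hL).2
    have hp : (0 : ℝ) < ((digitSets L).card : ℝ) := by exact_mod_cast hpos
    have hsum := Finset.card_filter_add_card_filter_not (s := digitSets L) (fun D => Good L D)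
    have hs : (((digitSets L).filter fun D => Good L D).card : ℝ) +
        (((digitSets L).filter fun D => ¬ Good L D).card : ℝ) = ((digitSets L).card : ℝ) := by
      exact_mod_cast hsum
    have hb := hbad L hL
    rw [div_le_iff₀ hp] at hb
    rw [le_div_iff₀ hp]
    nlinarith
  have hle : ∀ L : ℕ,
      (((digitSets L).filter fun D => Good L D).card : ℝ) / ((digitSets L).card : ℝ) ≤ 1 := by
    intro L
    refine div_le_one_of_le₀ ?_ (Nat.cast_nonneg _)
    exact_mod_cast Finset.card_filter_le _ _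
  have hlim : Filter.Tendsto (fun L : ℕ => 1 - 8 * δ L) Filter.atTop (nhds 1) := by
    have := (hRND.const_mul 8).const_sub 1
    simpa using this
  exact tendsto_of_tendsto_of_tendsto_of_le_of_le' hlim tendsto_const_nhds
    (Filter.eventually_atTop.2 ⟨1, hgood⟩) (Filter.Eventually.of_forall hle)

end Pool.Agent.RDS
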