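import Pool.Agent.RDS.Stmts

/-!
# Random digit sets: the sets and their squares
-/

set_option autoImplicit false

namespace Pool.Agent.RDS

open MeasureTheory Set

namespace GEOM

variable {L : ℕ} {D : Fin L → ℕ × ℕ}

theorem ok_fl (h : Ok D) : Ok (fl D) where
  four := h.four
  bx i := by
    have h1 := h.bx i
    have h2 := h.four
    refine ⟨h1.1, ?_⟩
    show L - 1 - (D i).2 + 1 ≤ L
    omega

theorem ok_sw (h : Ok D) : Ok (sw D) where
  four := h.four
  bx i := ⟨(h.bx i).2, (h.bx i).1⟩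

theorem px_succ {n : ℕ} (w : Wd L (n + 1)) :
    px D w = (((D (w 0)).1 : ℝ) + px D (fun i : Fin n => w i.succ)) / L := by
  unfold px
  rw [Fin.sum_univ_succ, add_div, Finset.sum_div]
  congr 1
  · simp
  · refine Finset.sum_congr rfl fun i _ => ?_
    rw [Fin.val_succ, div_div, pow_succ (L : ℝ) (i.val + 1)]

theorem py_succ {n : ℕ} (w : Wd L (n + 1)) :
    py D w = (((D (w 0)).2 : ℝ) + py D (fun i : Fin n => w i.succ)) / L := by
  unfold py
  rw [Fin.sum_univ_succ, add_div, Finset.sum_div]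
  congr 1
  · simp
  · refine Finset.sum_congr rfl fun i _ => ?_
    rw [Fin.val_succ, div_div, pow_succ (L : ℝ) (i.val + 1)]

theorem px_cons {n : ℕ} (i : Fin L) (w : Wd L n) :
    px D (Fin.cons i w : Wd L (n + 1)) = (((D i).1 : ℝ) + px D w) / L := by
  rw [px_succ]
  rfl

theorem py_cons {n : ℕ} (i : Fin L) (w : Wd L n) :
    py D (Fin.cons i w : Wd L (n + 1)) = (((D i).2 : ℝ) + py D w) / L := by
  rw [py_succ]
  rfl

theorem mem_succ (h : Ok D) (n : ℕ) (z : ℂ) : z ∈ gen D (n + 1) ↔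
    ∃ i : Fin L, (⟨L * z.re - (D i).1, L * z.im - (D i).2⟩ : ℂ) ∈ gen D n := by
  have hL : (L : ℝ) ≠ 0 := h.pos.ne'
  have hLC : (L : ℂ) ≠ 0 := by
    intro h0
    apply hL
    exact_mod_cast h0
  constructor
  · intro hz
    obtain ⟨i, y, hy, hyz⟩ := mem_iUnion.1 hz
    refine ⟨i, ?_⟩
    have e : (L : ℂ) * z = y + (((D i).1 : ℂ) + ((D i).2 : ℂ) * Complex.I) := by
      rw [← hyz]
      show (L : ℂ) * ((y + (((D i).1 : ℂ) + ((D i).2 : ℂ) * Complex.I)) / (L : ℂ)) = _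
      rw [mul_div_cancel₀ _ hLC]
    have e1 := congrArg Complex.re e
    have e2 := congrArg Complex.im e
    simp at e1 e2
    have e3 : (⟨L * z.re - (D i).1, L * z.im - (D i).2⟩ : ℂ) = y := by
      apply Complex.ext
      · show L * z.re - (D i).1 = y.re
        linarith
      · show L * z.im - (D i).2 = y.im
        linarith
    rw [e3]
    exact hy
  · rintro ⟨i, hi⟩
    refine mem_iUnion.2 ⟨i, _, hi, ?_⟩
    show ((⟨L * z.re - (D i).1, L * z.im - (D i).2⟩ : ℂ) +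
      (((D i).1 : ℂ) + ((D i).2 : ℂ) * Complex.I)) / (L : ℂ) = z
    rw [div_eq_iff hLC]
    apply Complex.ext
    · simp
      ring
    · simp
      ring

theorem mem_gen (h : Ok D) (n : ℕ) : ∀ z : ℂ, z ∈ gen D n ↔ ∃ w : Wd L n,
    px D w ≤ z.re ∧ z.re ≤ px D w + 1 / (L : ℝ) ^ n ∧
    py D w ≤ z.im ∧ z.im ≤ py D w + 1 / (L : ℝ) ^ n := by
  have hL : (0 : ℝ) < L := h.pos
  induction n with
  | zero =>
    intro z
    have h0 : ∀ a : Wd L 0, px D a = 0 := fun a => by unfold px; simp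
    have h1 : ∀ a : Wd L 0, py D a = 0 := fun a => by unfold py; simp
    constructor
    · rintro ⟨a1, a2, a3, a4⟩
      refine ⟨fun i => i.elim0, ?_, ?_, ?_, ?_⟩
      · rw [h0]; exact a1
      · rw [h0]; simpa using a2
      · rw [h1]; exact a3
      · rw [h1]; simpa using a4
    · rintro ⟨a, a1, a2, a3, a4⟩
      rw [h0] at a1 a2
      rw [h1] at a3 a4
      exact ⟨a1, by simpa using a2, a3, by simpa using a4⟩
  | succ n ih =>
    intro z
    rw [mem_succ h]
    have e : (1 : ℝ) / (L : ℝ) ^ (n + 1) = (1 / (L : ℝ) ^ n) / L := by rw [pow_succ, div_div]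
    have key : ∀ (i : Fin L) (w : Wd L n),
        (px D w ≤ L * z.re - (D i).1 ∧ L * z.re - (D i).1 ≤ px D w + 1 / (L : ℝ) ^ n ∧
          py D w ≤ L * z.im - (D i).2 ∧ L * z.im - (D i).2 ≤ py D w + 1 / (L : ℝ) ^ n) ↔
        ((((D i).1 : ℝ) + px D w) / L ≤ z.re ∧
          z.re ≤ (((D i).1 : ℝ) + px D w) / L + 1 / (L : ℝ) ^ (n + 1) ∧
          (((D i).2 : ℝ) + py D w) / L ≤ z.im ∧
          z.im ≤ (((D i).2 : ℝ) + py D w) / L + 1 / (L : ℝ) ^ (n + 1)) := by
      intro i w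
      rw [e, ← add_div, ← add_div, div_le_iff₀ hL, le_div_iff₀ hL, div_le_iff₀ hL, le_div_iff₀ hL]
      constructor
      · rintro ⟨b1, b2, b3, b4⟩
        exact ⟨by linarith, by linarith, by linarith, by linarith⟩
      · rintro ⟨b1, b2, b3, b4⟩
        exact ⟨by linarith, by linarith, by linarith, by linarith⟩
    constructor
    · rintro ⟨i, hi⟩
      obtain ⟨w, hw⟩ := (ih _).1 hi
      refine ⟨Fin.cons i w, ?_⟩
      rw [px_cons, py_cons]
      exact (key i w).1 hw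
    · rintro ⟨w, hw⟩
      rw [px_succ, py_succ] at hw
      exact ⟨w 0, (ih _).2 ⟨fun i : Fin n => w i.succ, (key (w 0) _).2 hw⟩⟩

theorem refl_gen (h : Ok D) (n : ℕ) :
    ∀ z : ℂ, z ∈ gen (fl D) n ↔ (⟨z.re, 1 - z.im⟩ : ℂ) ∈ gen D n := by
  induction n with
  | zero =>
    intro z
    constructor
    · rintro ⟨a1, a2, a3, a4⟩
      exact ⟨a1, a2, show (0 : ℝ) ≤ 1 - z.im by linarith, show 1 - z.im ≤ 1 by linarith⟩
    · rintro ⟨a1, a2, a3, a4⟩
      have a3' : (0 : ℝ) ≤ 1 - z.im := a3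
      have a4' : 1 - z.im ≤ 1 := a4
      exact ⟨a1, a2, by linarith, by linarith⟩
  | succ n ih =>
    intro z
    rw [mem_succ (ok_fl h), mem_succ h]
    refine exists_congr fun i => ?_
    rw [ih]
    have h1 := h.bx i
    have h2 : (((fl D i).2 : ℕ) : ℝ) = L - 1 - (D i).2 := by
      show ((L - 1 - (D i).2 : ℕ) : ℝ) = L - 1 - (D i).2
      rw [Nat.cast_sub (by omega), Nat.cast_sub (by omega)]
      push_cast
      ring
    have h3 : (⟨(⟨L * z.re - ((fl D i).1 : ℕ), L * z.im - ((fl D i).2 : ℕ)⟩ : ℂ).re,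
        1 - (⟨L * z.re - ((fl D i).1 : ℕ), L * z.im - ((fl D i).2 : ℕ)⟩ : ℂ).im⟩ : ℂ) =
        ⟨L * (⟨z.re, 1 - z.im⟩ : ℂ).re - ((D i).1 : ℕ),
          L * (⟨z.re, 1 - z.im⟩ : ℂ).im - ((D i).2 : ℕ)⟩ := by
      apply Complex.ext
      · rfl
      · show 1 - (L * z.im - ((fl D i).2 : ℕ)) = L * (1 - z.im) - ((D i).2 : ℕ)
        rw [h2]
        ring
    rw [h3]

theorem swap_gen (h : Ok D) (n : ℕ) :
    ∀ z : ℂ, z ∈ gen (sw D) n ↔ (⟨z.im, z.re⟩ : ℂ) ∈ gen D n := by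
  induction n with
  | zero =>
    intro z
    constructor
    · rintro ⟨a1, a2, a3, a4⟩
      exact ⟨a3, a4, a1, a2⟩
    · rintro ⟨a1, a2, a3, a4⟩
      exact ⟨a3, a4, a1, a2⟩
  | succ n ih =>
    intro z
    rw [mem_succ (ok_sw h), mem_succ h]
    refine exists_congr fun i => ?_
    rw [ih]
    rfl

theorem compact_gen (n : ℕ) : IsCompact (gen D n) := by
  induction n with
  | zero =>
    have h : gen D 0 = Complex.equivRealProdCLM.symm '' (Icc (0 : ℝ) 1 ×ˢ Icc (0 : ℝ) 1) := by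
      ext z
      constructor
      · rintro ⟨h1, h2, h3, h4⟩
        exact ⟨(z.re, z.im), ⟨⟨h1, h2⟩, ⟨h3, h4⟩⟩, Complex.ext rfl rfl⟩
      · rintro ⟨p, ⟨⟨h1, h2⟩, ⟨h3, h4⟩⟩, rfl⟩
        exact ⟨h1, h2, h3, h4⟩
    rw [h]
    exact (isCompact_Icc.prod isCompact_Icc).image Complex.equivRealProdCLM.symm.continuous
  | succ n ih =>
    exact isCompact_iUnion fun i => ih.image (by fun_prop)

theorem proj_gen (h : Ok D) (n : ℕ) (t : ℝ) (ht : 0 ≤ t) :
    (fun z : ℂ => z.re + t * z.im) '' gen D n = P D n t := by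
  have hLn := h.pw n
  have ht1 : 0 < 1 + t := by linarith
  ext u
  constructor
  · rintro ⟨z, hz, rfl⟩
    obtain ⟨w, a1, a2, a3, a4⟩ := (mem_gen h n z).1 hz
    refine mem_iUnion.2 ⟨w, ?_, ?_⟩
    · show px D w + t * py D w ≤ z.re + t * z.im
      have := mul_le_mul_of_nonneg_left a3 ht
      linarith
    · show z.re + t * z.im ≤ px D w + t * py D w + (1 + t) / (L : ℝ) ^ n
      have := mul_le_mul_of_nonneg_left a4 ht
      have e : (1 + t) / (L : ℝ) ^ n = 1 / (L : ℝ) ^ n + t * (1 / (L : ℝ) ^ n) := by ring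
      rw [e]
      linarith
  · intro hu
    obtain ⟨w, h1, h2⟩ := mem_iUnion.1 hu
    have hs0 : 0 ≤ (u - pr D t w) / (1 + t) := div_nonneg (by linarith) ht1.le
    have hs1 : (u - pr D t w) / (1 + t) ≤ 1 / (L : ℝ) ^ n := by
      rw [div_le_iff₀ ht1]
      have : 1 / (L : ℝ) ^ n * (1 + t) = (1 + t) / (L : ℝ) ^ n := by ring
      rw [this]
      linarith
    refine ⟨⟨px D w + (u - pr D t w) / (1 + t), py D w + (u - pr D t w) / (1 + t)⟩,
      (mem_gen h n _).2 ⟨w, ?_, ?_, ?_, ?_⟩, ?_⟩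
    · show px D w ≤ px D w + (u - pr D t w) / (1 + t)
      linarith
    · show px D w + (u - pr D t w) / (1 + t) ≤ px D w + 1 / (L : ℝ) ^ n
      linarith
    · show py D w ≤ py D w + (u - pr D t w) / (1 + t)
      linarith
    · show py D w + (u - pr D t w) / (1 + t) ≤ py D w + 1 / (L : ℝ) ^ n
      linarith
    · show px D w + (u - pr D t w) / (1 + t) + t * (py D w + (u - pr D t w) / (1 + t)) = u
      have hp : pr D t w = px D w + t * py D w := rfl
      have : px D w + (u - pr D t w) / (1 + t) + t * (py D w + (u - pr D t w) / (1 + t)) =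
          px D w + t * py D w + (u - pr D t w) / (1 + t) * (1 + t) := by ring
      rw [this, div_mul_cancel₀ _ ht1.ne', hp]
      ring

end GEOM

open GEOM in
/-- MODULE GEO -/
theorem GEO_thm : Stmt_GEO := by
  intro L D h n
  refine ⟨?_, refl_gen h n, swap_gen h n, fun t ht => proj_gen h n t ht, compact_gen n, ok_fl h,
    ok_sw h⟩
  ext z
  rw [mem_gen h n, mem_iUnion]
  rfl

end Pool.Agent.RDS
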