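import Pool.Agent.RDS.Stmts
import Pool.Agent.FCQ.PLN

/-!
# Random digit sets: the main estimate
-/

set_option autoImplicit false

namespace Pool.Agent.RDS

open MeasureTheory Set

namespace LEMFM

lemma Tr_cont {ι : Type} [Fintype ι] (u v : ι → ℤ) (b : ι → ℝ) :
    Continuous (fun p : ℝ × ℝ => Tr u v b p.1 p.2) := by
  unfold Tr
  fun_prop

/-- The Fourier transform of a translate. -/
lemma Ft_shift (h : ℝ → ℝ) (s ω : ℝ) :
    FCQ.Ft (fun y => h (y - s)) ω =
      FCQ.Ft h ω * Complex.exp (((-(ω * s) : ℝ) : ℂ) * Complex.I) := by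
  unfold FCQ.Ft
  rw [← integral_mul_const, ← integral_add_right_eq_self
    (fun x => ((h (x - s) : ℝ) : ℂ) * Complex.exp (((-(ω * x) : ℝ) : ℂ) * Complex.I)) s]
  refine integral_congr_ae (Filter.Eventually.of_forall fun x => ?_)
  simp only [add_sub_cancel_right]
  rw [mul_assoc, ← Complex.exp_add]
  congr 2
  push_cast
  ring

lemma supp_of {h : ℝ → ℝ} {R : ℝ} (hs : ∀ y, R < |y| → h y = 0) : HasCompactSupport h := by
  refine HasCompactSupport.intro (isCompact_Icc (a := -R) (b := R)) fun x hx => hs x ?_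
  by_contra hn
  rw [not_lt, abs_le] at hn
  exact hx ⟨hn.1, hn.2⟩

/-- The Fourier transform of a sum of translates. -/
lemma Ft_sum {ι : Type} [Fintype ι] (b s : ι → ℝ) (h : ℝ → ℝ) (hc : Continuous h)
    (hs : HasCompactSupport h) (ω : ℝ) :
    FCQ.Ft (fun y => ∑ q, b q * h (y - s q)) ω =
      FCQ.Ft h ω * ∑ q, (b q : ℂ) * Complex.exp (((-(ω * s q) : ℝ) : ℂ) * Complex.I) := by
  have hi : ∀ q, Integrable (fun y : ℝ => (b q : ℂ) * (((h (y - s q) : ℝ) : ℂ) *
      Complex.exp (((-(ω * y) : ℝ) : ℂ) * Complex.I))) := by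
    intro q
    have h1 : Continuous (fun y : ℝ => ((h (y - s q) : ℝ) : ℂ)) :=
      Complex.continuous_ofReal.comp (hc.comp (continuous_id.sub continuous_const))
    have h2 : HasCompactSupport (fun y : ℝ => h (y - s q)) :=
      hs.comp_homeomorph (Homeomorph.subRight (s q))
    have h3 : HasCompactSupport (fun y : ℝ => ((h (y - s q) : ℝ) : ℂ)) :=
      h2.comp_left (g := fun y : ℝ => (y : ℂ)) Complex.ofReal_zero
    exact ((h1.mul (by fun_prop)).integrable_of_hasCompactSupport h3.mul_right).const_mul _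
  have e1 : FCQ.Ft (fun y => ∑ q, b q * h (y - s q)) ω =
      ∑ q, (b q : ℂ) * FCQ.Ft (fun y => h (y - s q)) ω := by
    unfold FCQ.Ft
    have e2 : ∀ q, (b q : ℂ) * ∫ y : ℝ, ((h (y - s q) : ℝ) : ℂ) *
        Complex.exp (((-(ω * y) : ℝ) : ℂ) * Complex.I) =
        ∫ y : ℝ, (b q : ℂ) * (((h (y - s q) : ℝ) : ℂ) *
        Complex.exp (((-(ω * y) : ℝ) : ℂ) * Complex.I)) := fun q => (integral_const_mul _ _).symm
    rw [Finset.sum_congr rfl fun q _ => e2 q, ← integral_finsetSum _ fun q _ => hi q]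
    refine integral_congr_ae (Filter.Eventually.of_forall fun x => ?_)
    simp only
    push_cast
    rw [Finset.sum_mul]
    exact Finset.sum_congr rfl fun q _ => by ring
  rw [e1, Finset.mul_sum]
  refine Finset.sum_congr rfl fun q _ => ?_
  rw [Ft_shift]
  ring

lemma step1 {ι : Type} [Fintype ι] (u v : ι → ℤ) (b : ι → ℝ) (B R t : ℝ) (h : ℝ → ℝ)
    (hc : Continuous h) (hs : ∀ y, R < |y| → h y = 0)
    (hF : ∀ ω, ‖FCQ.Ft h ω‖ ≤ B * |ω| / (1 + ω ^ 2)) :
    ∫⁻ y, ENNReal.ofReal ((∑ q, b q * h (y - ((u q : ℝ) + t * (v q : ℝ)))) ^ 2) ≤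
      ∫⁻ ω, ENNReal.ofReal
        (B ^ 2 * (ω ^ 2 / (1 + ω ^ 2) ^ 2) * ‖Tr u v b ω (t * ω)‖ ^ 2) := by
  have hsc := supp_of hs
  have hFc : Continuous fun y => ∑ q, b q * h (y - ((u q : ℝ) + t * (v q : ℝ))) :=
    continuous_finsetSum _ fun q _ => continuous_const.mul
      (hc.comp (continuous_id.sub continuous_const))
  have hFs : HasCompactSupport fun y => ∑ q, b q * h (y - ((u q : ℝ) + t * (v q : ℝ))) := by
    refine supp_of (R := R + ∑ q, |(u q : ℝ) + t * (v q : ℝ)|) fun y hy => ?_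
    refine Finset.sum_eq_zero fun q _ => ?_
    rw [hs, mul_zero]
    have h1 : |(u q : ℝ) + t * (v q : ℝ)| ≤ ∑ q, |(u q : ℝ) + t * (v q : ℝ)| :=
      Finset.single_le_sum (f := fun q => |(u q : ℝ) + t * (v q : ℝ)|)
        (fun _ _ => abs_nonneg _) (Finset.mem_univ q)
    have h2 := abs_sub_abs_le_abs_sub y ((u q : ℝ) + t * (v q : ℝ))
    linarith
  refine (FCQ.PLN_thm _ hFc hFs).trans ?_
  refine lintegral_mono fun ω => ENNReal.ofReal_le_ofReal ?_
  rw [Ft_sum b (fun q => (u q : ℝ) + t * (v q : ℝ)) h hc hsc ω]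
  have e1 : ∑ q, (b q : ℂ) * Complex.exp (((-(ω * ((u q : ℝ) + t * (v q : ℝ))) : ℝ) : ℂ) *
      Complex.I) = Tr u v b ω (t * ω) := by
    unfold Tr
    refine Finset.sum_congr rfl fun q _ => ?_
    congr 4
    ring
  rw [e1, norm_mul, mul_pow]
  apply mul_le_mul_of_nonneg_right _ (by positivity)
  have h1 := pow_le_pow_left₀ (norm_nonneg _) (hF ω) 2
  refine h1.trans (le_of_eq ?_)
  rw [div_pow, mul_pow, sq_abs, mul_div_assoc]

lemma per0 (h : ℝ → ℝ) (hc : Continuous h) (hp : Function.Periodic h (2 * Real.pi)) (a : ℝ)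
    (N : ℕ) : ∫ x in a..(a + N * (2 * Real.pi)), h x =
      N * ∫ x in (0 : ℝ)..(0 + 2 * Real.pi), h x := by
  induction N with
  | zero => simp
  | succ N ih =>
    have e2 : a + ((N + 1 : ℕ) : ℝ) * (2 * Real.pi) = a + N * (2 * Real.pi) + 2 * Real.pi := by
      push_cast
      ring
    rw [e2, ← intervalIntegral.integral_add_adjacent_intervals
      (hc.intervalIntegrable a (a + N * (2 * Real.pi)))
      (hc.intervalIntegrable (a + N * (2 * Real.pi)) _), ih,
      hp.intervalIntegral_add_eq (a + N * (2 * Real.pi)) 0]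
    push_cast
    ring

lemma per1 (h : ℝ → ℝ) (hc : Continuous h) (h0 : ∀ x, 0 ≤ h x)
    (hp : Function.Periodic h (2 * Real.pi)) (a l : ℝ) (hl : 0 ≤ l) :
    ∫ x in a..(a + l), h x ≤ (l / 3 + 1) * ∫ x in (0 : ℝ)..(0 + 2 * Real.pi), h x := by
  have hpi := Real.pi_gt_three
  have hT : (0 : ℝ) < 2 * Real.pi := by linarith
  set N := ⌈l / (2 * Real.pi)⌉₊ with hN
  have h1 : l ≤ N * (2 * Real.pi) := by
    rw [← div_le_iff₀ hT]
    exact Nat.le_ceil _
  have h2 : (N : ℝ) ≤ l / 3 + 1 := by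
    have h3 : (N : ℝ) ≤ l / (2 * Real.pi) + 1 := (Nat.ceil_lt_add_one (by positivity)).le
    have h4 : l / (2 * Real.pi) ≤ l / 3 := by
      apply div_le_div_of_nonneg_left hl (by norm_num) (by linarith)
    linarith
  have h3 : ∫ x in a..(a + l), h x ≤ ∫ x in a..(a + N * (2 * Real.pi)), h x := by
    apply intervalIntegral.integral_mono_interval le_rfl (by linarith) (by linarith)
    · exact Filter.Eventually.of_forall fun z => h0 z
    · exact hc.intervalIntegrable _ _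
  rw [per0 h hc hp a N] at h3
  refine h3.trans (mul_le_mul_of_nonneg_right h2 ?_)
  exact intervalIntegral.integral_nonneg (by linarith) fun x _ => h0 x

lemma per2 (h : ℝ → ℝ) (hc : Continuous h) (h0 : ∀ x, 0 ≤ h x)
    (hp : Function.Periodic h (2 * Real.pi)) (ω : ℝ) (hω : ω ≠ 0) :
    ∫ t in (-1 : ℝ)..2, h (t * ω) ≤
      (|ω| + 1) / |ω| * ∫ x in (0 : ℝ)..(0 + 2 * Real.pi), h x := by
  rw [intervalIntegral.integral_comp_mul_right (fun z => h z) hω, smul_eq_mul]
  rcases lt_or_gt_of_ne hω with hn | hn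
  · have h1 := per1 h hc h0 hp (2 * ω) (3 * (-ω)) (by linarith)
    have e1 : 2 * ω + 3 * (-ω) = -1 * ω := by ring
    rw [e1] at h1
    rw [intervalIntegral.integral_symm, abs_of_neg hn]
    have e2 : ω⁻¹ * -∫ x in (2 * ω)..(-1 * ω), h x = (-ω)⁻¹ * ∫ x in (2 * ω)..(-1 * ω), h x := by
      rw [inv_neg]
      ring
    rw [e2]
    have h2 : (0 : ℝ) < (-ω)⁻¹ := inv_pos.2 (by linarith)
    have h3 := mul_le_mul_of_nonneg_left h1 h2.le
    refine h3.trans (le_of_eq ?_)
    have hne : -ω ≠ 0 := neg_ne_zero.2 hω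
    field_simp
  · have h1 := per1 h hc h0 hp (-1 * ω) (3 * ω) (by linarith)
    have e1 : -1 * ω + 3 * ω = 2 * ω := by ring
    rw [e1] at h1
    rw [abs_of_pos hn]
    have h2 : (0 : ℝ) < ω⁻¹ := inv_pos.2 hn
    have h3 := mul_le_mul_of_nonneg_left h1 h2.le
    refine h3.trans (le_of_eq ?_)
    field_simp

lemma tint {ι : Type} [Fintype ι] (u v : ι → ℤ) (b : ι → ℝ)
    (hp : ∀ x y : ℝ, Tr u v b x (y + 2 * Real.pi) = Tr u v b x y) (ω : ℝ) (hω : ω ≠ 0) :
    ∫⁻ t in Icc (-1 : ℝ) 2, ENNReal.ofReal (‖Tr u v b ω (t * ω)‖ ^ 2) ≤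
      ENNReal.ofReal ((|ω| + 1) / |ω|) *
        ∫⁻ η in Ioc (0 : ℝ) (0 + 2 * Real.pi), ENNReal.ofReal (‖Tr u v b ω η‖ ^ 2) := by
  have hpi := Real.pi_pos
  have hc : Continuous fun η : ℝ => ‖Tr u v b ω η‖ ^ 2 :=
    (((Tr_cont u v b).comp (Continuous.prodMk_right ω)).norm).pow 2
  have hc2 : Continuous fun t : ℝ => ‖Tr u v b ω (t * ω)‖ ^ 2 :=
    hc.comp (continuous_id.mul continuous_const)
  rw [← ofReal_integral_eq_lintegral_ofReal (hc2.integrableOn_Icc)
      (Filter.Eventually.of_forall fun t => by positivity),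
    ← ofReal_integral_eq_lintegral_ofReal (hc.integrableOn_Ioc)
      (Filter.Eventually.of_forall fun t => by positivity),
    ← ENNReal.ofReal_mul (by positivity)]
  apply ENNReal.ofReal_le_ofReal
  rw [integral_Icc_eq_integral_Ioc, ← intervalIntegral.integral_of_le (by norm_num),
    ← intervalIntegral.integral_of_le (by linarith)]
  exact per2 (fun η => ‖Tr u v b ω η‖ ^ 2) hc (fun x => by positivity)
    (fun x => by simp only [hp]) ω hω

/-- A periodic function against the Cauchy density. -/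
lemma cauchy (Q : ℝ → ENNReal) (hQ : Measurable Q) (X : ENNReal)
    (h : ∀ x : ℝ, ∫⁻ ω in Ioc x (x + 2 * Real.pi), Q ω ≤ X) :
    ∫⁻ ω : ℝ, Q ω * ENNReal.ofReal ((1 + ω ^ 2)⁻¹) ≤ ENNReal.ofReal (81 * Real.pi) * X := by
  have hpi := Real.pi_pos
  have hpi3 := Real.pi_gt_three
  have hpi4 := Real.pi_lt_d2
  set g : ℝ → ENNReal := fun y => ENNReal.ofReal ((1 + y ^ 2)⁻¹) with hg
  have hgm : Measurable g := by
    have : Continuous fun y : ℝ => (1 + y ^ 2)⁻¹ :=
      Continuous.inv₀ (by fun_prop) (fun y => by positivity)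
    exact this.measurable.ennreal_ofReal
  have hgi : ∫⁻ y, g y = ENNReal.ofReal Real.pi := by
    rw [hg, ← ofReal_integral_eq_lintegral_ofReal integrable_inv_one_add_sq
      (Filter.Eventually.of_forall fun y => by positivity), integral_univ_inv_one_add_sq]
  have h1 : ∀ ω : ℝ, Q ω * g ω ≤
      ENNReal.ofReal 81 * ∫⁻ s in Ioc (0 : ℝ) (2 * Real.pi), Q ω * g (ω - s) := by
    intro ω
    have h2 : ∀ s ∈ Ioc (0 : ℝ) (2 * Real.pi), g ω ≤ ENNReal.ofReal 81 * g (ω - s) := by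
      intro s hs
      rw [hg]
      simp only
      rw [← ENNReal.ofReal_mul (by norm_num)]
      apply ENNReal.ofReal_le_ofReal
      rw [← div_eq_mul_inv, inv_eq_one_div, div_le_div_iff₀ (by positivity) (by positivity)]
      have h3 : s ^ 2 ≤ 40 := by
        have h4 : s ≤ 63 / 10 := by linarith [hs.2]
        nlinarith [hs.1]
      nlinarith [sq_nonneg (ω + s), sq_nonneg ω]
    have h3 : Q ω * g ω ≤ ∫⁻ s in Ioc (0 : ℝ) (2 * Real.pi), Q ω * g ω := by
      rw [lintegral_const, Measure.restrict_apply MeasurableSet.univ, univ_inter, Real.volume_Ioc]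
      calc Q ω * g ω = Q ω * g ω * 1 := (mul_one _).symm
        _ ≤ Q ω * g ω * ENNReal.ofReal (2 * Real.pi - 0) := by
            gcongr
            rw [ENNReal.one_le_ofReal]
            linarith
    refine h3.trans ?_
    rw [← lintegral_const_mul' _ _ ENNReal.ofReal_ne_top]
    apply setLIntegral_mono' measurableSet_Ioc
    intro s hs
    calc Q ω * g ω ≤ Q ω * (ENNReal.ofReal 81 * g (ω - s)) := by gcongr; exact h2 s hs
      _ = ENNReal.ofReal 81 * (Q ω * g (ω - s)) := by ring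
  have hm2 : Measurable (Function.uncurry fun ω s : ℝ => Q ω * g (ω - s)) := by
    exact (hQ.comp measurable_fst).mul (hgm.comp (measurable_fst.sub measurable_snd))
  calc ∫⁻ ω : ℝ, Q ω * g ω
      ≤ ∫⁻ ω : ℝ, ENNReal.ofReal 81 * ∫⁻ s in Ioc (0 : ℝ) (2 * Real.pi), Q ω * g (ω - s) :=
        lintegral_mono h1
    _ = ENNReal.ofReal 81 * ∫⁻ ω : ℝ, ∫⁻ s in Ioc (0 : ℝ) (2 * Real.pi), Q ω * g (ω - s) :=
        lintegral_const_mul' _ _ ENNReal.ofReal_ne_top
    _ = ENNReal.ofReal 81 * ∫⁻ s in Ioc (0 : ℝ) (2 * Real.pi), ∫⁻ ω : ℝ, Q ω * g (ω - s) := by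
        rw [lintegral_lintegral_swap hm2.aemeasurable]
    _ = ENNReal.ofReal 81 * ∫⁻ s in Ioc (0 : ℝ) (2 * Real.pi), ∫⁻ y : ℝ, Q (y + s) * g y := by
        congr 1
        apply lintegral_congr
        intro s
        rw [← lintegral_add_right_eq_self (fun ω => Q ω * g (ω - s)) s]
        simp
    _ = ENNReal.ofReal 81 * ∫⁻ y : ℝ, ∫⁻ s in Ioc (0 : ℝ) (2 * Real.pi), Q (y + s) * g y := by
        rw [lintegral_lintegral_swap]
        apply Measurable.aemeasurable
        exact (hQ.comp (measurable_snd.add measurable_fst)).mul (hgm.comp measurable_snd)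
    _ ≤ ENNReal.ofReal 81 * ∫⁻ y : ℝ, X * g y := by
        gcongr with y
        rw [lintegral_mul_const' _ _ ENNReal.ofReal_ne_top]
        gcongr
        refine le_trans (le_of_eq ?_) (h y)
        rw [← lintegral_indicator measurableSet_Ioc, ← lintegral_indicator measurableSet_Ioc,
          ← lintegral_add_left_eq_self ((Ioc y (y + 2 * Real.pi)).indicator fun ω => Q ω) y]
        refine lintegral_congr fun s => ?_
        by_cases hs : s ∈ Ioc (0 : ℝ) (2 * Real.pi)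
        · have hs' : y + s ∈ Ioc y (y + 2 * Real.pi) := ⟨by linarith [hs.1], by linarith [hs.2]⟩
          rw [indicator_of_mem hs, indicator_of_mem hs']
        · have hs' : y + s ∉ Ioc y (y + 2 * Real.pi) := fun h' =>
            hs ⟨by linarith [h'.1], by linarith [h'.2]⟩
          rw [indicator_of_notMem hs, indicator_of_notMem hs']
    _ = ENNReal.ofReal (81 * Real.pi) * X := by
        rw [lintegral_const_mul _ hgm, hgi, ENNReal.ofReal_mul (by norm_num)]
        ring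

end LEMFM

open LEMFM in
theorem LEMF_thm : Stmt_LEMF := by
  intro hPAR
  have hpi := Real.pi_pos
  refine ⟨2 * (81 * Real.pi) * (4 * Real.pi ^ 2), by positivity, ?_⟩
  intro ι _ u v b β B R g hb hB hg hs hF
  obtain ⟨hper, hint⟩ := hPAR ι u v b β hb
  have hp2 : ∀ x y : ℝ, Tr u v b x (y + 2 * Real.pi) = Tr u v b x y := fun x y => (hper x y).2
  have hTc := Tr_cont u v b
  set Q : ℝ → ENNReal := fun ω => ∫⁻ η in Ioc (0 : ℝ) (0 + 2 * Real.pi),
    ENNReal.ofReal (‖Tr u v b ω η‖ ^ 2) with hQ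
  have hQm : Measurable Q := by
    apply Measurable.lintegral_prod_right'
      (f := fun p : ℝ × ℝ => ENNReal.ofReal (‖Tr u v b p.1 p.2‖ ^ 2))
    exact ((hTc.norm.pow 2).measurable).ennreal_ofReal
  have hm : Measurable (Function.uncurry fun t ω : ℝ => ENNReal.ofReal
      (B ^ 2 * (ω ^ 2 / (1 + ω ^ 2) ^ 2) * ‖Tr u v b ω (t * ω)‖ ^ 2)) := by
    apply Measurable.ennreal_ofReal
    apply Continuous.measurable
    refine Continuous.mul (continuous_const.mul
      (Continuous.div (by fun_prop) (by fun_prop) (fun p => by positivity))) ?_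
    exact (hTc.comp (continuous_snd.prodMk (continuous_fst.mul continuous_snd))).norm.pow 2
  calc ∫⁻ t in Icc (-1 : ℝ) 2, ∫⁻ y,
        ENNReal.ofReal ((∑ q, b q * g t (y - ((u q : ℝ) + t * (v q : ℝ)))) ^ 2)
      ≤ ∫⁻ t in Icc (-1 : ℝ) 2, ∫⁻ ω, ENNReal.ofReal
        (B ^ 2 * (ω ^ 2 / (1 + ω ^ 2) ^ 2) * ‖Tr u v b ω (t * ω)‖ ^ 2) := by
        apply setLIntegral_mono' measurableSet_Icc
        intro t ht
        exact step1 u v b B R t (g t) (hg.comp (Continuous.prodMk_right t)) (hs t ht) (hF t ht)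
    _ = ∫⁻ ω, ∫⁻ t in Icc (-1 : ℝ) 2, ENNReal.ofReal
        (B ^ 2 * (ω ^ 2 / (1 + ω ^ 2) ^ 2) * ‖Tr u v b ω (t * ω)‖ ^ 2) := by
        rw [lintegral_lintegral_swap hm.aemeasurable]
    _ ≤ ∫⁻ ω, ENNReal.ofReal (2 * B ^ 2) * (Q ω * ENNReal.ofReal ((1 + ω ^ 2)⁻¹)) := by
        refine lintegral_mono fun ω => ?_
        have hq : 0 ≤ B ^ 2 * (ω ^ 2 / (1 + ω ^ 2) ^ 2) := by positivity
        have e1 : ∀ t : ℝ, ENNReal.ofReal
            (B ^ 2 * (ω ^ 2 / (1 + ω ^ 2) ^ 2) * ‖Tr u v b ω (t * ω)‖ ^ 2) =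
            ENNReal.ofReal (B ^ 2 * (ω ^ 2 / (1 + ω ^ 2) ^ 2)) *
              ENNReal.ofReal (‖Tr u v b ω (t * ω)‖ ^ 2) := fun t => ENNReal.ofReal_mul hq
        simp only [e1]
        rw [lintegral_const_mul' _ _ ENNReal.ofReal_ne_top]
        by_cases hω : ω = 0
        · subst hω
          simp
        · have h1 := mul_le_mul_right (tint u v b hp2 ω hω)
            (ENNReal.ofReal (B ^ 2 * (ω ^ 2 / (1 + ω ^ 2) ^ 2)))
          refine h1.trans ?_
          have hω' : 0 < |ω| := abs_pos.2 hω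
          rw [← mul_assoc, ← ENNReal.ofReal_mul hq]
          have e2 : ENNReal.ofReal (2 * B ^ 2) * (Q ω * ENNReal.ofReal ((1 + ω ^ 2)⁻¹)) =
              ENNReal.ofReal (2 * B ^ 2 * (1 + ω ^ 2)⁻¹) * Q ω := by
            rw [ENNReal.ofReal_mul (p := 2 * B ^ 2) (by positivity)]
            ring
          rw [e2]
          refine mul_le_mul_left (ENNReal.ofReal_le_ofReal ?_) _
          have h3 : B ^ 2 * (ω ^ 2 / (1 + ω ^ 2) ^ 2) * ((|ω| + 1) / |ω|) =
              B ^ 2 * ((|ω| * (|ω| + 1)) / (1 + ω ^ 2) ^ 2) := by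
            rw [← sq_abs ω]
            field_simp
          rw [h3]
          have h4 : (|ω| * (|ω| + 1)) / (1 + ω ^ 2) ^ 2 ≤ 2 * (1 + ω ^ 2)⁻¹ := by
            rw [← div_eq_mul_inv, div_le_div_iff₀ (by positivity) (by positivity)]
            have h5 : |ω| * (|ω| + 1) ≤ 2 * (1 + ω ^ 2) := by
              nlinarith [sq_abs ω, sq_nonneg (|ω| - 1)]
            nlinarith [sq_nonneg ω]
          nlinarith [sq_nonneg B]
    _ = ENNReal.ofReal (2 * B ^ 2) * ∫⁻ ω, Q ω * ENNReal.ofReal ((1 + ω ^ 2)⁻¹) :=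
        lintegral_const_mul' _ _ ENNReal.ofReal_ne_top
    _ ≤ ENNReal.ofReal (2 * B ^ 2) * (ENNReal.ofReal (81 * Real.pi) *
          ENNReal.ofReal (4 * Real.pi ^ 2 * β ^ 2 * eqp u v)) := by
        refine mul_le_mul_right (cauchy Q hQm _ fun x => ?_) _
        exact hint x 0
    _ = ENNReal.ofReal (2 * (81 * Real.pi) * (4 * Real.pi ^ 2) * B ^ 2 * β ^ 2 * eqp u v) := by
        rw [← ENNReal.ofReal_mul (by positivity), ← ENNReal.ofReal_mul (by positivity)]
        congr 1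
        ring

end Pool.Agent.RDS
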