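import Pool.Agent.RDS.Stmts

/-!
# RDS: module NOD, deterministic bounds for the iterates
-/

set_option autoImplicit false

namespace Pool.Agent.RDS

open MeasureTheory Set

namespace NODM

variable {L : ℕ} {D : Fin L → ℕ × ℕ}

theorem T_ind_le (hD : Ok D) {M : ℕ} (hM : Deg D M) {t : ℝ} (ht : t ∈ Icc (-1 : ℝ) 2) (x : ℝ) :
    T D t (ind 3) x ≤ (M : ℝ) := by
  have hL := hD.pos
  unfold T
  rw [div_le_iff₀ hL, Fintype.sum_prod_type_right]
  have h1 : ∀ j : Fin L, ∑ i : Fin L, ind 3 ((L : ℝ) * x - dt D t (i, j)) ≤ (M : ℝ) := by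
    intro j
    have h2 := hM t ht ((L : ℝ) * x + (((D j).1 : ℝ) + t * ((D j).2 : ℝ)))
    refine le_trans ?_ (Nat.cast_le.2 h2)
    rw [Finset.card_filter, Nat.cast_sum]
    refine Finset.sum_le_sum fun i _ => ?_
    have h3 : |(L : ℝ) * x - dt D t (i, j)| = |((D i).1 : ℝ) + t * ((D i).2 : ℝ) -
        ((L : ℝ) * x + (((D j).1 : ℝ) + t * ((D j).2 : ℝ)))| := by
      rw [← abs_neg]
      congr 1
      unfold dt dx dy
      push_cast
      ring
    by_cases h4 : |((D i).1 : ℝ) + t * ((D i).2 : ℝ) -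
        ((L : ℝ) * x + (((D j).1 : ℝ) + t * ((D j).2 : ℝ)))| ≤ 3
    · rw [if_pos h4, ind_of_le (h3.trans_le h4)]
      norm_num
    · rw [if_neg h4, ind_of_lt (h3 ▸ not_le.1 h4)]
      norm_num
  calc ∑ j : Fin L, ∑ i : Fin L, ind 3 ((L : ℝ) * x - dt D t (i, j)) ≤ ∑ _j : Fin L, (M : ℝ) :=
        Finset.sum_le_sum fun j _ => h1 j
    _ = (M : ℝ) * L := by
        rw [Finset.sum_const, Finset.card_univ, Fintype.card_fin, nsmul_eq_mul]
        ring

theorem iter_le (hD : Ok D) {M : ℕ} (hM : Deg D M) {t : ℝ} (ht : t ∈ Icc (-1 : ℝ) 2) (n : ℕ) :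
    ∀ x, (T D t)^[n] (ind 3) x ≤ (M : ℝ) ^ n * ind 3 x := by
  induction n with
  | zero => intro x; simp
  | succ n ih =>
    intro x
    by_cases hx : |x| ≤ 3
    · rw [iter_succ', ind_of_le hx, mul_one]
      calc T D t ((T D t)^[n] (ind 3)) x ≤ T D t (fun y => (M : ℝ) ^ n * ind 3 y) x :=
            T_mono ih t x
        _ = (M : ℝ) ^ n * T D t (ind 3) x := T_smul _ _ t x
        _ ≤ (M : ℝ) ^ n * M := mul_le_mul_of_nonneg_left (T_ind_le hD hM ht x) (by positivity)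
        _ = (M : ℝ) ^ (n + 1) := (pow_succ _ _).symm
    · have hx' := not_le.1 hx
      have habs : |t| ≤ 2 := abs_le.2 ⟨by linarith [ht.1], ht.2⟩
      rw [iter_zero hD (by linarith : 1 + |t| ≤ 3) (fun y hy => ind_of_lt hy) (n + 1) x hx',
        ind_of_lt hx', mul_zero]

theorem le_T_ind (hD : Ok D) {c : ℝ} (hc : Low D c) {t : ℝ} (ht : t ∈ Icc (0 : ℝ) 1) {x : ℝ}
    (hx : |x| ≤ 2 / 3) : c ≤ T D t (ind (2 / 3)) x := by
  have hL := hD.pos
  have hz : |(L : ℝ) * x| ≤ 2 / 3 * L := by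
    rw [abs_mul, abs_of_pos hL]
    nlinarith
  have h1 := hc t ht ((L : ℝ) * x) hz
  unfold T
  rw [le_div_iff₀ hL]
  refine h1.trans ?_
  rw [Finset.card_filter, Nat.cast_sum]
  refine Finset.sum_le_sum fun p _ => ?_
  by_cases h2 : 2 ≤ |dy D p| ∧ |dt D t p - (L : ℝ) * x| ≤ 2 / 3
  · rw [if_pos h2, ind_of_le (by rw [abs_sub_comm]; exact h2.2)]
    norm_num
  · rw [if_neg h2]
    simpa using ind_nonneg (2 / 3) ((L : ℝ) * x - dt D t p)

theorem le_iter (hD : Ok D) {c : ℝ} (hc0 : 0 < c) (hc : Low D c) {t : ℝ}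
    (ht : t ∈ Icc (0 : ℝ) 1) (n : ℕ) :
    ∀ x, c ^ n * ind (2 / 3) x ≤ (T D t)^[n] (ind (2 / 3)) x := by
  induction n with
  | zero => intro x; simp
  | succ n ih =>
    intro x
    by_cases hx : |x| ≤ 2 / 3
    · rw [iter_succ', ind_of_le hx, mul_one]
      calc c ^ (n + 1) = c ^ n * c := pow_succ _ _
        _ ≤ c ^ n * T D t (ind (2 / 3)) x :=
            mul_le_mul_of_nonneg_left (le_T_ind hD hc ht hx) (by positivity)
        _ = T D t (fun y => c ^ n * ind (2 / 3) y) x := (T_smul _ _ t x).symm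
        _ ≤ T D t ((T D t)^[n] (ind (2 / 3))) x := T_mono ih t x
    · rw [ind_of_lt (not_le.1 hx), mul_zero]
      exact iter_nonneg (ind_nonneg _) t (n + 1) x

end NODM

theorem NOD_thm : Stmt_NOD := by
  intro L D hD
  refine ⟨fun M hM t ht n x => ?_, fun c hc0 hc t ht x hx n => ?_⟩
  · refine (NODM.iter_le hD hM ht n x).trans ?_
    exact mul_le_of_le_one_right (by positivity) (ind_le_one _ _)
  · have h1 := NODM.le_iter hD hc0 hc ht n x
    rw [ind_of_le hx, mul_one] at h1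
    exact h1.trans (iter_mono ind_le_Phi t n x)

end Pool.Agent.RDS
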