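import Pool.Agent.RDS.Stmts

/-!
# RDS: module PAR

Parseval's inequality for trigonometric polynomials in two variables over a period.
-/

set_option autoImplicit false

namespace Pool.Agent.RDS.PARM

open MeasureTheory Set

/-- The mean of a cosine over a period. -/
theorem int_cos (x c : ℝ) (l : ℤ) :
    ∫ η in x..(x + 2 * Real.pi), Real.cos (c + η * l) =
      if l = 0 then 2 * Real.pi * Real.cos c else 0 := by
  split_ifs with h
  · subst h
    simp
  · have hl : (l : ℝ) ≠ 0 := by exact_mod_cast h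
    have h1 : ∀ η ∈ uIcc x (x + 2 * Real.pi),
        HasDerivAt (fun η : ℝ => Real.sin (c + η * l) / l) (Real.cos (c + η * l)) η := by
      intro η _
      have h2 : HasDerivAt (fun η : ℝ => c + η * (l : ℝ)) (l : ℝ) η := by
        simpa using ((hasDerivAt_id η).mul_const (l : ℝ)).const_add c
      have h3 := (h2.sin).div_const (l : ℝ)
      have h4 : Real.cos (c + η * (l : ℝ)) * (l : ℝ) / (l : ℝ) = Real.cos (c + η * (l : ℝ)) := by
        field_simp
      rw [h4] at h3
      exact h3
    rw [intervalIntegral.integral_eq_sub_of_hasDerivAt h1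
      ((Continuous.intervalIntegrable (by fun_prop) _ _))]
    have h5 : c + (x + 2 * Real.pi) * (l : ℝ) = (c + x * l) + (l : ℝ) * (2 * Real.pi) := by ring
    rw [h5, Real.sin_add_int_mul_two_pi]
    simp

variable {ι : Type} [Fintype ι]

/-- The square of the modulus. -/
theorem norm_sq (u v : ι → ℤ) (b : ι → ℝ) (x y : ℝ) :
    ‖Tr u v b x y‖ ^ 2 = ∑ p : ι × ι, b p.1 * b p.2 *
      Real.cos (x * ((u p.1 - u p.2 : ℤ) : ℝ) + y * ((v p.1 - v p.2 : ℤ) : ℝ)) := by
  have hre : (Tr u v b x y).re = ∑ q, b q * Real.cos (-(x * u q + y * v q)) := by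
    unfold Tr
    rw [Complex.re_sum]
    refine Finset.sum_congr rfl fun q _ => ?_
    rw [Complex.re_ofReal_mul, Complex.exp_ofReal_mul_I_re]
  have him : (Tr u v b x y).im = ∑ q, b q * Real.sin (-(x * u q + y * v q)) := by
    unfold Tr
    rw [Complex.im_sum]
    refine Finset.sum_congr rfl fun q _ => ?_
    rw [Complex.im_ofReal_mul, Complex.exp_ofReal_mul_I_im]
  rw [Complex.sq_norm, Complex.normSq_apply, hre, him, Finset.sum_mul_sum, Finset.sum_mul_sum,
    ← Finset.sum_add_distrib, Fintype.sum_prod_type]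
  refine Finset.sum_congr rfl fun i _ => ?_
  rw [← Finset.sum_add_distrib]
  refine Finset.sum_congr rfl fun j _ => ?_
  have h : x * ((u i - u j : ℤ) : ℝ) + y * ((v i - v j : ℤ) : ℝ) =
      -(x * u j + y * v j) - -(x * u i + y * v i) := by
    push_cast
    ring
  simp only [h]
  rw [Real.cos_sub]
  ring

/-- The integral in the second variable. -/
theorem int_inner (u v : ι → ℤ) (b : ι → ℝ) (x y : ℝ) :
    ∫ η in y..(y + 2 * Real.pi), ‖Tr u v b x η‖ ^ 2 = ∑ p : ι × ι, b p.1 * b p.2 *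
      (if v p.1 - v p.2 = 0 then 2 * Real.pi * Real.cos (x * ((u p.1 - u p.2 : ℤ) : ℝ)) else 0) := by
  simp only [norm_sq]
  rw [intervalIntegral.integral_finsetSum]
  · refine Finset.sum_congr rfl fun p _ => ?_
    rw [intervalIntegral.integral_const_mul, int_cos]
  · intro p _
    exact Continuous.intervalIntegrable (by fun_prop) _ _

/-- The double integral. -/
theorem int_outer (u v : ι → ℤ) (b : ι → ℝ) (x y : ℝ) :
    ∫ ω in x..(x + 2 * Real.pi), ∫ η in y..(y + 2 * Real.pi), ‖Tr u v b ω η‖ ^ 2 =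
      ∑ p : ι × ι, b p.1 * b p.2 *
      (if v p.1 - v p.2 = 0 then
        (if u p.1 - u p.2 = 0 then 4 * Real.pi ^ 2 else 0) else 0) := by
  simp only [int_inner]
  rw [intervalIntegral.integral_finsetSum]
  · refine Finset.sum_congr rfl fun p _ => ?_
    rw [intervalIntegral.integral_const_mul]
    congr 1
    split_ifs with h1 h2
    · rw [intervalIntegral.integral_const_mul]
      have h3 := int_cos x 0 (u p.1 - u p.2)
      simp only [zero_add] at h3
      rw [h3, if_pos h2]
      simp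
      ring
    · rw [intervalIntegral.integral_const_mul]
      have h3 := int_cos x 0 (u p.1 - u p.2)
      simp only [zero_add] at h3
      rw [h3, if_neg h2]
      simp
    · simp
  · intro p _
    refine Continuous.intervalIntegrable ?_ _ _
    split_ifs
    · fun_prop
    · fun_prop

/-- The bound for the double integral. -/
theorem int_le (u v : ι → ℤ) (b : ι → ℝ) (β : ℝ) (hb : ∀ q, |b q| ≤ β) (x y : ℝ) :
    ∫ ω in x..(x + 2 * Real.pi), ∫ η in y..(y + 2 * Real.pi), ‖Tr u v b ω η‖ ^ 2 ≤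
      4 * Real.pi ^ 2 * β ^ 2 * eqp u v := by
  classical
  rw [int_outer]
  have h1 : (4 * Real.pi ^ 2 * β ^ 2 * eqp u v : ℝ) = ∑ p : ι × ι,
      (if u p.1 = u p.2 ∧ v p.1 = v p.2 then 4 * Real.pi ^ 2 * β ^ 2 else 0) := by
    unfold eqp
    rw [← Finset.sum_filter, Finset.sum_const, nsmul_eq_mul]
    rw [mul_comm]
  rw [h1]
  refine Finset.sum_le_sum fun p _ => ?_
  have hβ : 0 ≤ β := (abs_nonneg _).trans (hb p.1)
  by_cases hv : v p.1 - v p.2 = 0
  · by_cases hu : u p.1 - u p.2 = 0
    · rw [if_pos hv, if_pos hu, if_pos ⟨sub_eq_zero.mp hu, sub_eq_zero.mp hv⟩]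
      have h2 : b p.1 * b p.2 ≤ β ^ 2 := by
        calc b p.1 * b p.2 ≤ |b p.1 * b p.2| := le_abs_self _
          _ = |b p.1| * |b p.2| := abs_mul _ _
          _ ≤ β * β := mul_le_mul (hb _) (hb _) (abs_nonneg _) hβ
          _ = β ^ 2 := by ring
      have h3 : (0 : ℝ) ≤ 4 * Real.pi ^ 2 := by positivity
      nlinarith [mul_le_mul_of_nonneg_right h2 h3]
    · rw [if_pos hv, if_neg hu, mul_zero]
      split_ifs <;> positivity
  · rw [if_neg hv, mul_zero]
    split_ifs <;> positivity

theorem cont2 (u v : ι → ℤ) (b : ι → ℝ) :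
    Continuous (fun q : ℝ × ℝ => ‖Tr u v b q.1 q.2‖ ^ 2) := by
  simp only [norm_sq]
  fun_prop

theorem lint_le (u v : ι → ℤ) (b : ι → ℝ) (β : ℝ) (hb : ∀ q, |b q| ≤ β) (x y : ℝ) :
    ∫⁻ ω in Ioc x (x + 2 * Real.pi), ∫⁻ η in Ioc y (y + 2 * Real.pi),
      ENNReal.ofReal (‖Tr u v b ω η‖ ^ 2) ≤ ENNReal.ofReal (4 * Real.pi ^ 2 * β ^ 2 * eqp u v) := by
  have hx : x ≤ x + 2 * Real.pi := by linarith [Real.pi_pos]
  have hy : y ≤ y + 2 * Real.pi := by linarith [Real.pi_pos]
  have h1 : ∀ ω : ℝ, ∫⁻ η in Ioc y (y + 2 * Real.pi), ENNReal.ofReal (‖Tr u v b ω η‖ ^ 2) =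
      ENNReal.ofReal (∫ η in y..(y + 2 * Real.pi), ‖Tr u v b ω η‖ ^ 2) := by
    intro ω
    rw [intervalIntegral.integral_of_le hy]
    refine (ofReal_integral_eq_lintegral_ofReal ?_ ?_).symm
    · have hc : Continuous (fun η : ℝ => ‖Tr u v b ω η‖ ^ 2) := by
        simp only [norm_sq]
        fun_prop
      exact (hc.intervalIntegrable y (y + 2 * Real.pi)).1
    · exact Filter.Eventually.of_forall fun η => by positivity
  simp only [h1]
  have h2 : ∫⁻ ω in Ioc x (x + 2 * Real.pi),
      ENNReal.ofReal (∫ η in y..(y + 2 * Real.pi), ‖Tr u v b ω η‖ ^ 2) =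
      ENNReal.ofReal (∫ ω in x..(x + 2 * Real.pi), ∫ η in y..(y + 2 * Real.pi),
        ‖Tr u v b ω η‖ ^ 2) := by
    rw [intervalIntegral.integral_of_le hx]
    refine (ofReal_integral_eq_lintegral_ofReal ?_ ?_).symm
    · have hc : Continuous (fun ω : ℝ => ∫ η in y..(y + 2 * Real.pi), ‖Tr u v b ω η‖ ^ 2) := by
        simp only [int_inner]
        refine continuous_finsetSum _ fun p _ => ?_
        refine Continuous.mul continuous_const ?_
        split_ifs
        · fun_prop
        · fun_prop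
      exact (hc.intervalIntegrable x (x + 2 * Real.pi)).1
    · refine Filter.Eventually.of_forall fun ω => ?_
      refine intervalIntegral.integral_nonneg hy fun η _ => ?_
      positivity
  rw [h2]
  exact ENNReal.ofReal_le_ofReal (int_le u v b β hb x y)

end Pool.Agent.RDS.PARM

namespace Pool.Agent.RDS

open MeasureTheory Set

theorem PAR_thm : Stmt_PAR := by
  intro ι _ u v b β hb
  refine ⟨fun x y => ⟨?_, ?_⟩, fun x y => PARM.lint_le u v b β hb x y⟩
  · unfold Tr
    refine Finset.sum_congr rfl fun q _ => ?_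
    congr 1
    have h : (((-((x + 2 * Real.pi) * u q + y * v q) : ℝ) : ℂ) * Complex.I) =
        (((-(x * u q + y * v q) : ℝ) : ℂ) * Complex.I) +
          ((-(u q) : ℤ) : ℂ) * (2 * Real.pi * Complex.I) := by
      push_cast
      ring
    rw [h, Complex.exp_add, Complex.exp_int_mul_two_pi_mul_I, mul_one]
  · unfold Tr
    refine Finset.sum_congr rfl fun q _ => ?_
    congr 1
    have h : (((-(x * u q + (y + 2 * Real.pi) * v q) : ℝ) : ℂ) * Complex.I) =
        (((-(x * u q + y * v q) : ℝ) : ℂ) * Complex.I) +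
          ((-(v q) : ℤ) : ℂ) * (2 * Real.pi * Complex.I) := by
      push_cast
      ring
    rw [h, Complex.exp_add, Complex.exp_int_mul_two_pi_mul_I, mul_one]

end Pool.Agent.RDS
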