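import Pool.Agent.RDS.Stmts

/-!
# Random digit sets: module PSB

The Fourier transforms of `p0`, `p1`, `p2`.
-/

set_option autoImplicit false

namespace Pool.Agent.RDS

open MeasureTheory Set

namespace PSBM

/-- The first derivative of the base function. -/
noncomputable def F1 : ℝ → ℝ := deriv Phi

/-- The second derivative of the base function. -/
noncomputable def F2 : ℝ → ℝ := deriv F1

theorem contDiff_F1 : ContDiff ℝ 1 F1 := by
  have h : ContDiff ℝ (1 + 1 : ℕ∞) Phi := contDiff_Phi _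
  have h2 : ContDiff ℝ ((1 : ℕ∞) + 1) Phi := by exact_mod_cast h
  exact (contDiff_succ_iff_deriv.1 h2).2.2

theorem cont_F1 : Continuous F1 := contDiff_F1.continuous

theorem cont_F2 : Continuous F2 := contDiff_F1.continuous_deriv le_rfl

theorem cs_F1 : HasCompactSupport F1 := hasCompactSupport_Phi.deriv

theorem cs_F2 : HasCompactSupport F2 := cs_F1.deriv

theorem der_Phi (x : ℝ) : HasDerivAt Phi (F1 x) x :=
  (((contDiff_Phi 1).differentiable (by norm_num)) x).hasDerivAt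

theorem der_F1 (x : ℝ) : HasDerivAt F1 (F2 x) x :=
  ((contDiff_F1.differentiable (by norm_num)) x).hasDerivAt

theorem bdd : ∃ C : ℝ, 0 ≤ C ∧ ∀ x, |Phi x| ≤ C ∧ |F1 x| ≤ C ∧ |F2 x| ≤ C := by
  obtain ⟨a, ha⟩ := continuous_Phi.bounded_above_of_compact_support hasCompactSupport_Phi
  obtain ⟨b, hb⟩ := cont_F1.bounded_above_of_compact_support cs_F1
  obtain ⟨c, hc⟩ := cont_F2.bounded_above_of_compact_support cs_F2
  have h1 := (norm_nonneg _).trans (ha 0)
  have h2 := (norm_nonneg _).trans (hb 0)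
  have h3 := (norm_nonneg _).trans (hc 0)
  refine ⟨a + b + c, by linarith, fun x => ?_⟩
  have h4 := ha x
  have h5 := hb x
  have h6 := hc x
  rw [Real.norm_eq_abs] at h4 h5 h6
  exact ⟨by linarith, by linarith, by linarith⟩

theorem int_F1 : ∫ x, F1 x = 0 :=
  integral_eq_zero_of_hasDerivAt_of_integrable der_Phi
    (cont_F1.integrable_of_hasCompactSupport cs_F1)
    (continuous_Phi.integrable_of_hasCompactSupport hasCompactSupport_Phi)

variable {L : ℕ} {D : Fin L → ℕ × ℕ}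

/-- The scaled translates. -/
theorem int_tr (h : Ok D) (g : ℝ → ℝ) (a : ℝ) : ∫ x, g ((L : ℝ) * x - a) = (∫ x, g x) / L := by
  have h1 := integral_scale h g 1 (a / L)
  rw [pow_one] at h1
  rw [← h1]
  refine integral_congr_ae (Filter.Eventually.of_forall fun x => ?_)
  have := h.pos
  show g _ = g _
  congr 1
  field_simp

theorem integrable_tr (h : Ok D) {g : ℝ → ℝ} (hg : Integrable g) (a : ℝ) :
    Integrable fun x => g ((L : ℝ) * x - a) := by
  have h1 := integrable_scale h hg 1 (a / L)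
  rw [pow_one] at h1
  refine h1.congr (Filter.Eventually.of_forall fun x => ?_)
  have := h.pos
  show g _ = g _
  congr 1
  field_simp

theorem card_pairs : ((Finset.univ : Finset (Fin L × Fin L)).card : ℝ) = (L : ℝ) ^ 2 := by
  rw [Finset.card_univ, Fintype.card_prod, Fintype.card_fin]
  push_cast
  ring

/-- A sum over the pairs of bounded terms. -/
theorem sum_le {φ : Fin L × Fin L → ℝ} {C : ℝ} (h : ∀ p, |φ p| ≤ C) :
    |∑ p, φ p| ≤ (L : ℝ) ^ 2 * C := by
  refine (Finset.abs_sum_le_sum_abs _ _).trans ?_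
  refine (Finset.sum_le_sum fun p _ => h p).trans ?_
  rw [Finset.sum_const, nsmul_eq_mul, card_pairs]

theorem der_tr {g g' : ℝ → ℝ} (h : ∀ x, HasDerivAt g (g' x) x) (a x : ℝ) :
    HasDerivAt (fun y => g ((L : ℝ) * y - a)) ((L : ℝ) * g' ((L : ℝ) * x - a)) x := by
  have h1 : HasDerivAt (fun y : ℝ => (L : ℝ) * y - a) ((L : ℝ) * 1) x :=
    ((hasDerivAt_id x).const_mul (L : ℝ)).sub_const a
  have h2 := (h ((L : ℝ) * x - a)).comp x h1
  rw [mul_one, mul_comm] at h2
  exact h2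

/-- The derivative of `p1` in `y`. -/
noncomputable def q1 (D : Fin L → ℕ × ℕ) (t y : ℝ) : ℝ :=
  (∑ p : Fin L × Fin L, (L : ℝ) * F2 ((L : ℝ) * y - dt D t p)) - F2 y

/-- The derivative of `p2` in `y`. -/
noncomputable def q2 (D : Fin L → ℕ × ℕ) (t y : ℝ) : ℝ :=
  (∑ p : Fin L × Fin L, -(dy D p : ℝ) * ((L : ℝ) * F2 ((L : ℝ) * y - dt D t p))) / (L : ℝ)

theorem p1_eq (t y : ℝ) : p1 D t y =
    (∑ p : Fin L × Fin L, F1 ((L : ℝ) * y - dt D t p)) - F1 y := rfl

theorem p2_eq (t y : ℝ) : p2 D t y =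
    (∑ p : Fin L × Fin L, -(dy D p : ℝ) * F1 ((L : ℝ) * y - dt D t p)) / (L : ℝ) := rfl

theorem p0_eq (t y : ℝ) : p0 D t y =
    (∑ p : Fin L × Fin L, Phi ((L : ℝ) * y - dt D t p)) / (L : ℝ) - Phi y := rfl

theorem der_p1 (t y : ℝ) : HasDerivAt (fun z => p1 D t z) (q1 D t y) y := by
  have h1 : HasDerivAt (fun z => ∑ p : Fin L × Fin L, F1 ((L : ℝ) * z - dt D t p))
      (∑ p : Fin L × Fin L, (L : ℝ) * F2 ((L : ℝ) * y - dt D t p)) y :=
    HasDerivAt.fun_sum fun p _ => der_tr der_F1 (dt D t p) y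
  exact h1.sub (der_F1 y)

theorem der_p2 (t y : ℝ) : HasDerivAt (fun z => p2 D t z) (q2 D t y) y := by
  have h1 : HasDerivAt (fun z => ∑ p : Fin L × Fin L, -(dy D p : ℝ) * F1 ((L : ℝ) * z - dt D t p))
      (∑ p : Fin L × Fin L, -(dy D p : ℝ) * ((L : ℝ) * F2 ((L : ℝ) * y - dt D t p))) y :=
    HasDerivAt.fun_sum fun p _ => (der_tr der_F1 (dt D t p) y).const_mul _
  exact h1.div_const _

theorem cont_q1 (t : ℝ) : Continuous (q1 D t) := by
  unfold q1
  refine (continuous_finsetSum _ fun p _ => ?_).sub cont_F2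
  exact continuous_const.mul (cont_F2.comp (by fun_prop))

theorem cont_q2 (t : ℝ) : Continuous (q2 D t) := by
  unfold q2
  refine (continuous_finsetSum _ fun p _ => ?_).div_const _
  exact continuous_const.mul (continuous_const.mul (cont_F2.comp (by fun_prop)))

theorem int_p0 (h : Ok D) (t : ℝ) : ∫ x, p0 D t x = 0 := by
  have hL := h.pos
  have hP : Integrable Phi :=
    continuous_Phi.integrable_of_hasCompactSupport hasCompactSupport_Phi
  have h0 : ∀ p ∈ (Finset.univ : Finset (Fin L × Fin L)),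
      Integrable fun x => Phi ((L : ℝ) * x - dt D t p) := fun p _ => integrable_tr h hP _
  have h1 : ∫ x, p0 D t x = ∫ x, ((∑ p : Fin L × Fin L, Phi ((L : ℝ) * x - dt D t p)) / (L : ℝ) -
      Phi x) := rfl
  rw [h1, integral_sub ((integrable_finsetSum _ h0).div_const _) hP, integral_div,
    integral_finsetSum _ h0]
  have h2 : ∀ p ∈ (Finset.univ : Finset (Fin L × Fin L)),
      ∫ x, Phi ((L : ℝ) * x - dt D t p) = (∫ x, Phi x) / L := fun p _ => int_tr h Phi _
  rw [Finset.sum_congr rfl h2, Finset.sum_const, nsmul_eq_mul, card_pairs]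
  field_simp
  ring

theorem int_p1 (h : Ok D) (t : ℝ) : ∫ x, p1 D t x = 0 := by
  have hP : Integrable F1 := cont_F1.integrable_of_hasCompactSupport cs_F1
  have h0 : ∀ p ∈ (Finset.univ : Finset (Fin L × Fin L)),
      Integrable fun x => F1 ((L : ℝ) * x - dt D t p) := fun p _ => integrable_tr h hP _
  have h1 : ∫ x, p1 D t x = ∫ x, ((∑ p : Fin L × Fin L, F1 ((L : ℝ) * x - dt D t p)) -
      F1 x) := rfl
  rw [h1, integral_sub (integrable_finsetSum _ h0) hP, integral_finsetSum _ h0]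
  have h2 : ∀ p ∈ (Finset.univ : Finset (Fin L × Fin L)),
      ∫ x, F1 ((L : ℝ) * x - dt D t p) = 0 := fun p _ => by
    rw [int_tr h F1 _, int_F1, zero_div]
  rw [Finset.sum_congr rfl h2, Finset.sum_const_zero, int_F1, sub_zero]

theorem int_p2 (h : Ok D) (t : ℝ) : ∫ x, p2 D t x = 0 := by
  have hP : Integrable F1 := cont_F1.integrable_of_hasCompactSupport cs_F1
  have h0 : ∀ p ∈ (Finset.univ : Finset (Fin L × Fin L)),
      Integrable fun x => -(dy D p : ℝ) * F1 ((L : ℝ) * x - dt D t p) :=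
    fun p _ => (integrable_tr h hP _).const_mul _
  have h1 : ∫ x, p2 D t x =
      ∫ x, (∑ p : Fin L × Fin L, -(dy D p : ℝ) * F1 ((L : ℝ) * x - dt D t p)) / (L : ℝ) := rfl
  rw [h1, integral_div, integral_finsetSum _ h0]
  have h2 : ∀ p ∈ (Finset.univ : Finset (Fin L × Fin L)),
      ∫ x, -(dy D p : ℝ) * F1 ((L : ℝ) * x - dt D t p) = 0 := fun p _ => by
    rw [integral_const_mul, int_tr h F1 _, int_F1, zero_div, mul_zero]
  rw [Finset.sum_congr rfl h2, Finset.sum_const_zero, zero_div]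

end PSBM

open PSBM in
theorem PSB_thm : Stmt_LEMG → Stmt_PSI → Stmt_PSB := by
  intro hG hP _ _ L D hD
  obtain ⟨C, hC0, hC⟩ := bdd
  obtain ⟨d0, -, -, c1, -, sup⟩ := hP D hD
  have hL := hD.ge
  have hL0 := hD.pos
  set B : ℝ := ((L : ℝ) ^ 3 + 1) * C with hB
  have hB0 : 0 ≤ B := by positivity
  have hL3 : (L : ℝ) ^ 2 ≤ (L : ℝ) ^ 3 := by nlinarith [sq_nonneg (L : ℝ)]
  have hL1 : (L : ℝ) ≤ (L : ℝ) ^ 2 := by nlinarith
  have m3 : (L : ℝ) ^ 2 * C ≤ (L : ℝ) ^ 3 * C := mul_le_mul_of_nonneg_right hL3 hC0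
  have m2 : (L : ℝ) * C ≤ (L : ℝ) ^ 2 * C := mul_le_mul_of_nonneg_right hL1 hC0
  have hBe : B = (L : ℝ) ^ 3 * C + C := by rw [hB]; ring
  refine ⟨36 * B, by positivity, fun t ht ω => ?_⟩
  have fin : ∀ g g' : ℝ → ℝ, (∀ x, HasDerivAt g (g' x) x) → Continuous g' →
      (∀ x, 3 < |x| → g x = 0) → (∀ x, |g x| ≤ B) → (∀ x, |g' x| ≤ B) → ∫ x, g x = 0 →
      ‖FCQ.Ft g ω‖ ≤ 36 * B * |ω| / (1 + ω ^ 2) := by
    intro g g' a1 a2 a3 a4 a5 a6
    have := hG g g' 3 B (by norm_num) hB0 a1 a2 a3 a4 a5 a6 ω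
    norm_num at this
    exact this
  have dyb : ∀ p : Fin L × Fin L, |(dy D p : ℝ)| ≤ L := fun p => by
    have := hD.abs_dy p
    linarith
  have b0 : ∀ x, |p0 D t x| ≤ B := by
    intro x
    rw [p0_eq]
    refine (abs_sub _ _).trans ?_
    rw [abs_div, abs_of_pos hL0]
    have h1 := sum_le (L := L) (φ := fun p => Phi ((L : ℝ) * x - dt D t p)) fun p => (hC _).1
    have h2 : |∑ p : Fin L × Fin L, Phi ((L : ℝ) * x - dt D t p)| / (L : ℝ) ≤ (L : ℝ) * C := by
      rw [div_le_iff₀ hL0]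
      calc _ ≤ (L : ℝ) ^ 2 * C := h1
        _ = _ := by ring
    have h3 := (hC x).1
    linarith
  have b1 : ∀ x, |p1 D t x| ≤ B := by
    intro x
    rw [p1_eq]
    refine (abs_sub _ _).trans ?_
    have h1 := sum_le (L := L) (φ := fun p => F1 ((L : ℝ) * x - dt D t p)) fun p => (hC _).2.1
    have h3 := (hC x).2.1
    linarith
  have b1' : ∀ x, |q1 D t x| ≤ B := by
    intro x
    unfold q1
    refine (abs_sub _ _).trans ?_
    have h1 := sum_le (L := L) (φ := fun p => (L : ℝ) * F2 ((L : ℝ) * x - dt D t p))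
      (C := L * C) fun p => by
        show |(L : ℝ) * F2 ((L : ℝ) * x - dt D t p)| ≤ L * C
        rw [abs_mul, abs_of_pos hL0]
        exact mul_le_mul_of_nonneg_left (hC _).2.2 hL0.le
    have h3 := (hC x).2.2
    have h4 : (L : ℝ) ^ 2 * (L * C) = (L : ℝ) ^ 3 * C := by ring
    rw [h4] at h1
    linarith
  have b2 : ∀ x, |p2 D t x| ≤ B := by
    intro x
    rw [p2_eq, abs_div, abs_of_pos hL0, div_le_iff₀ hL0]
    have h1 := sum_le (L := L) (φ := fun p => -(dy D p : ℝ) * F1 ((L : ℝ) * x - dt D t p))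
      (C := L * C) fun p => by
        show |-(dy D p : ℝ) * F1 ((L : ℝ) * x - dt D t p)| ≤ L * C
        rw [abs_mul, abs_neg]
        exact mul_le_mul (dyb p) (hC _).2.1 (abs_nonneg _) hL0.le
    refine h1.trans ?_
    have h5 : (L : ℝ) ^ 2 * (L * C) = ((L : ℝ) ^ 2 * C) * L := by ring
    rw [h5]
    refine mul_le_mul_of_nonneg_right ?_ hL0.le
    linarith
  have b2' : ∀ x, |q2 D t x| ≤ B := by
    intro x
    unfold q2
    rw [abs_div, abs_of_pos hL0, div_le_iff₀ hL0]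
    have h1 := sum_le (L := L) (φ := fun p => -(dy D p : ℝ) *
      ((L : ℝ) * F2 ((L : ℝ) * x - dt D t p))) (C := L * (L * C)) fun p => by
        show |-(dy D p : ℝ) * ((L : ℝ) * F2 ((L : ℝ) * x - dt D t p))| ≤ L * (L * C)
        rw [abs_mul, abs_neg, abs_mul, abs_of_pos hL0]
        exact mul_le_mul (dyb p) (mul_le_mul_of_nonneg_left (hC _).2.2 hL0.le) (by positivity)
          hL0.le
    refine h1.trans ?_
    have h5 : (L : ℝ) ^ 2 * (L * (L * C)) = ((L : ℝ) ^ 3 * C) * L := by ring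
    rw [h5]
    refine mul_le_mul_of_nonneg_right ?_ hL0.le
    linarith
  have cp1 : Continuous (p1 D t) :=
    c1.comp (f := fun y : ℝ => (t, y)) (by fun_prop)
  refine ⟨?_, ?_, ?_⟩
  · exact fin (p0 D t) (p1 D t) (fun x => d0 t x) cp1 (fun x hx => (sup t ht x hx).1) b0 b1
      (int_p0 hD t)
  · exact fin (p1 D t) (q1 D t) (fun x => der_p1 t x) (cont_q1 t)
      (fun x hx => (sup t ht x hx).2.1) b1 b1' (int_p1 hD t)
  · exact fin (p2 D t) (q2 D t) (fun x => der_p2 t x) (cont_q2 t)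
      (fun x hx => (sup t ht x hx).2.2) b2 b2' (int_p2 hD t)

end Pool.Agent.RDS
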