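import Pool.Agent.RDS.Stmts

/-!
# RDS, module RC: counting (helper48)
-/

set_option autoImplicit false

namespace Pool.Agent.RDS

theorem RC_thm : Stmt_RC := by
  classical
  intro I β _ _ s k hk
  have h1 : (Finset.univ.filter fun ω : I → β =>
      k ≤ (Finset.univ.filter fun i => ω i ∈ s).card) ⊆
      (Finset.powersetCard k (Finset.univ : Finset I)).biUnion fun J =>
        Fintype.piFinset fun i => if i ∈ J then s else Finset.univ := by
    intro ω hω
    rw [Finset.mem_filter] at hω
    obtain ⟨J, hJ, hJc⟩ := Finset.exists_subset_card_eq hω.2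
    rw [Finset.mem_biUnion]
    refine ⟨J, Finset.mem_powersetCard.2 ⟨Finset.subset_univ _, hJc⟩, ?_⟩
    rw [Fintype.mem_piFinset]
    intro i
    by_cases hi : i ∈ J
    · rw [if_pos hi]
      exact (Finset.mem_filter.1 (hJ hi)).2
    · rw [if_neg hi]
      exact Finset.mem_univ _
  have h2 : ∀ J ∈ Finset.powersetCard k (Finset.univ : Finset I),
      (Fintype.piFinset fun i => if i ∈ J then s else (Finset.univ : Finset β)).card ≤
        s.card ^ k * Fintype.card β ^ (Fintype.card I - k) := by
    intro J hJ
    have hJc := (Finset.mem_powersetCard.1 hJ).2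
    rw [Fintype.card_piFinset]
    have h3 : ∀ i, (if i ∈ J then s else (Finset.univ : Finset β)).card =
        if i ∈ J then s.card else Fintype.card β := by
      intro i
      by_cases hi : i ∈ J
      · rw [if_pos hi, if_pos hi]
      · rw [if_neg hi, if_neg hi, Finset.card_univ]
    rw [Finset.prod_congr rfl fun i _ => h3 i, Finset.prod_ite, Finset.prod_const,
      Finset.prod_const]
    have h4 : (Finset.univ.filter fun i => i ∈ J) = J := by
      ext i
      simp
    have h5 : (Finset.univ.filter fun i => i ∉ J) = Jᶜ := by
      ext i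
      simp
    rw [h4, h5, Finset.card_compl, hJc]
  refine le_trans ?_ (le_trans (Finset.card_biUnion_le_card_mul _ _ _ h2) ?_)
  · exact Finset.card_le_card (by convert h1)
  · rw [Finset.card_powersetCard, Finset.card_univ, mul_assoc]

end Pool.Agent.RDS
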