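import Mathlib

/-!
# Cardinals of filtered sets, independent of the instances
-/

set_option autoImplicit false

namespace Pool.Agent.RDS

theorem fcard {α : Type} (f1 f2 : Fintype α) (P Q : α → Prop) (i1 : DecidablePred P)
    (i2 : DecidablePred Q) (h : ∀ a, P a ↔ Q a) :
    (@Finset.filter α P i1 (@Finset.univ α f1)).card =
      (@Finset.filter α Q i2 (@Finset.univ α f2)).card :=
  congrArg Finset.card (Finset.ext fun a =>
    Iff.intro
      (fun ha => (@Finset.mem_filter α Q i2 (@Finset.univ α f2) a).2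
        ⟨@Finset.mem_univ α f2 a, (h a).1 ((@Finset.mem_filter α P i1 (@Finset.univ α f1) a).1 ha).2⟩)
      (fun ha => (@Finset.mem_filter α P i1 (@Finset.univ α f1) a).2
        ⟨@Finset.mem_univ α f1 a,
          (h a).2 ((@Finset.mem_filter α Q i2 (@Finset.univ α f2) a).1 ha).2⟩))

theorem fcard' {α : Type} (f1 f2 : Fintype α) (P Q : α → Prop) (i1 : DecidablePred P)
    (i2 : DecidablePred Q) (h : ∀ a, P a ↔ Q a) :
    ((@Finset.filter α P i1 (@Finset.univ α f1)).card : ℝ) =
      ((@Finset.filter α Q i2 (@Finset.univ α f2)).card : ℝ) :=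
  congrArg Nat.cast (fcard f1 f2 P Q i1 i2 h)

theorem fcard2 {α β : Type} (k : ℕ) (f1 f2 : Fintype α) (g1 g2 : Fintype β)
    (P : α → β → Prop) (i1 i2 : ∀ a, DecidablePred (P a))
    (j1 : DecidablePred fun a => k ≤ (@Finset.filter β (P a) (i1 a) (@Finset.univ β g1)).card)
    (j2 : DecidablePred fun a => k ≤ (@Finset.filter β (P a) (i2 a) (@Finset.univ β g2)).card) :
    (@Finset.filter α (fun a => k ≤ (@Finset.filter β (P a) (i1 a) (@Finset.univ β g1)).card) j1
      (@Finset.univ α f1)).card =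
      (@Finset.filter α (fun a => k ≤ (@Finset.filter β (P a) (i2 a) (@Finset.univ β g2)).card) j2
      (@Finset.univ α f2)).card :=
  fcard f1 f2 _ _ j1 j2 fun a => by rw [fcard g1 g2 (P a) (P a) (i1 a) (i2 a) fun _ => Iff.rfl]

end Pool.Agent.RDS
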