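import Pool.Agent.RDS.Stmts
import Pool.Agent.RDS.Fcd

/-!
# Random digit sets: strips with many digits are rare (module RD)
-/

set_option autoImplicit false

namespace Pool.Agent.RDS

namespace RDM

open Classical

/-- The points of the box in a strip of half width `5`. -/
noncomputable def st (L : ℕ) (u z : ℤ) : Finset (Fin L × Fin L) :=
  Finset.univ.filter fun p : Fin L × Fin L =>
    |(p.1.val : ℤ) * L + u * (p.2.val : ℤ) - z * L| ≤ 5 * L

lemma st_card (L : ℕ) (hL : 1 ≤ L) (u z : ℤ) : (st L u z).card ≤ 11 * L := by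
  have hL' : (1 : ℤ) ≤ L := by exact_mod_cast hL
  have h := Finset.card_le_mul_card_image (f := (Prod.snd : Fin L × Fin L → Fin L)) (st L u z) 11
    (fun b _ => ?_)
  · refine h.trans (Nat.mul_le_mul_left _ ?_)
    exact (Finset.card_le_univ _).trans (by simp)
  · rcases (Finset.filter (fun a : Fin L × Fin L => a.2 = b) (st L u z)).eq_empty_or_nonempty
      with he | hne
    · rw [he]; simp
    · obtain ⟨p0, hp0, hmin⟩ := Finset.exists_min_image _ (fun p : Fin L × Fin L => p.1.val) hne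
      have hc : (Finset.Icc p0.1.val (p0.1.val + 10)).card = 11 := by
        rw [Nat.card_Icc]; omega
      rw [← hc]
      refine Finset.card_le_card_of_injOn (fun p : Fin L × Fin L => p.1.val) (fun p hp => ?_) ?_
      · have hp' : p ∈ Finset.filter (fun a : Fin L × Fin L => a.2 = b) (st L u z) := hp
        have h1 := hmin p hp'
        rw [Finset.mem_filter, st, Finset.mem_filter] at hp' hp0
        obtain ⟨⟨_, h2⟩, h3⟩ := hp'
        obtain ⟨⟨_, h4⟩, h5⟩ := hp0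
        rw [h3] at h2
        rw [h5] at h4
        rw [abs_le] at h2 h4
        have h6 : ((p.1.val : ℤ) - p0.1.val) * L ≤ 10 * L := by nlinarith [h2.2, h4.1]
        have h7 : (p.1.val : ℤ) - p0.1.val ≤ 10 := le_of_mul_le_mul_right h6 (by omega)
        simp only [Finset.coe_Icc, Set.mem_Icc]
        exact ⟨h1, by omega⟩
      · intro p hp q hq hpq
        have hp' : p ∈ Finset.filter (fun a : Fin L × Fin L => a.2 = b) (st L u z) := hp
        have hq' : q ∈ Finset.filter (fun a : Fin L × Fin L => a.2 = b) (st L u z) := hq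
        rw [Finset.mem_filter] at hp' hq'
        exact Prod.ext (Fin.ext hpq) (hp'.2.trans hq'.2.symm)

lemma cover (L M : ℕ) (ω : Fin L → Fin L × Fin L) (h : ¬ Deg (dg ω) M) :
    ∃ u ∈ Finset.Icc (-(L : ℤ)) (2 * L), ∃ z ∈ Finset.Icc (-(L : ℤ) - 2) (3 * L),
      M + 1 ≤ (Finset.univ.filter fun i : Fin L => ω i ∈ st L u z).card := by
  unfold Deg at h
  push Not at h
  obtain ⟨t, ht, z, hz⟩ := h
  obtain ⟨ht1, ht2⟩ := ht
  obtain ⟨i0, hi0⟩ := Finset.card_pos.1 (lt_of_le_of_lt (Nat.zero_le M) hz)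
  have hb : ∀ i : Fin L, (0 : ℝ) ≤ ((dg ω i).1 : ℝ) ∧ ((dg ω i).1 : ℝ) ≤ L - 1 ∧
      (0 : ℝ) ≤ ((dg ω i).2 : ℝ) ∧ ((dg ω i).2 : ℝ) ≤ L - 1 := by
    intro i
    have h1 : ((ω i).1.val : ℝ) + 1 ≤ L := by exact_mod_cast (ω i).1.isLt
    have h2 : ((ω i).2.val : ℝ) + 1 ≤ L := by exact_mod_cast (ω i).2.isLt
    show (0 : ℝ) ≤ ((ω i).1.val : ℝ) ∧ ((ω i).1.val : ℝ) ≤ L - 1 ∧
      (0 : ℝ) ≤ ((ω i).2.val : ℝ) ∧ ((ω i).2.val : ℝ) ≤ L - 1
    exact ⟨Nat.cast_nonneg _, by linarith, Nat.cast_nonneg _, by linarith⟩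
  have hL0 : (0 : ℝ) ≤ L := Nat.cast_nonneg _
  rw [Finset.mem_filter] at hi0
  have hi := abs_le.1 hi0.2
  obtain ⟨b1, b2, b3, b4⟩ := hb i0
  refine ⟨⌊t * L⌋, ?_, ⌊z⌋, ?_, ?_⟩
  · rw [Finset.mem_Icc]
    constructor
    · rw [Int.le_floor]
      push_cast
      nlinarith
    · have h1 : ((⌊t * L⌋ : ℤ) : ℝ) ≤ 2 * L := (Int.floor_le _).trans (by nlinarith)
      exact_mod_cast h1
  · rw [Finset.mem_Icc]
    constructor
    · rw [Int.le_floor]
      push_cast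
      nlinarith [hi.2]
    · have h1 : ((⌊z⌋ : ℤ) : ℝ) ≤ 3 * L := (Int.floor_le _).trans (by nlinarith [hi.1])
      exact_mod_cast h1
  · refine (Nat.succ_le_of_lt hz).trans (Finset.card_le_card fun i hi' => ?_)
    rw [Finset.mem_filter] at hi' ⊢
    refine ⟨Finset.mem_univ _, ?_⟩
    rw [st, Finset.mem_filter]
    refine ⟨Finset.mem_univ _, ?_⟩
    obtain ⟨c1, c2, c3, c4⟩ := hb i
    have h3 := abs_le.1 hi'.2
    have f1 := Int.floor_le (t * (L : ℝ))
    have f2 := Int.lt_floor_add_one (t * (L : ℝ))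
    have f3 := Int.floor_le z
    have f4 := Int.lt_floor_add_one z
    have hx : ((dg ω i).1 : ℝ) = ((ω i).1.val : ℝ) := rfl
    have hy : ((dg ω i).2 : ℝ) = ((ω i).2.val : ℝ) := rfl
    rw [hx] at c1 c2 h3
    rw [hy] at c3 c4 h3
    have key : |((ω i).1.val : ℝ) * L + (⌊t * (L : ℝ)⌋ : ℝ) * ((ω i).2.val : ℝ) - (⌊z⌋ : ℝ) * L| ≤
        5 * L := by
      have e : ((ω i).1.val : ℝ) * L + (⌊t * (L : ℝ)⌋ : ℝ) * ((ω i).2.val : ℝ) - (⌊z⌋ : ℝ) * L =
          (((ω i).1.val : ℝ) + t * ((ω i).2.val : ℝ) - z) * L -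
            (t * (L : ℝ) - (⌊t * (L : ℝ)⌋ : ℝ)) * ((ω i).2.val : ℝ) + (z - (⌊z⌋ : ℝ)) * L := by
        ring
      rw [e]
      have g1 : (((ω i).1.val : ℝ) + t * ((ω i).2.val : ℝ) - z) * L ≤ 3 * L :=
        mul_le_mul_of_nonneg_right h3.2 hL0
      have g2 : -3 * (L : ℝ) ≤ (((ω i).1.val : ℝ) + t * ((ω i).2.val : ℝ) - z) * L :=
        mul_le_mul_of_nonneg_right h3.1 hL0
      have g3 : 0 ≤ (t * (L : ℝ) - (⌊t * (L : ℝ)⌋ : ℝ)) * ((ω i).2.val : ℝ) :=
        mul_nonneg (by linarith) c3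
      have g4 : (t * (L : ℝ) - (⌊t * (L : ℝ)⌋ : ℝ)) * ((ω i).2.val : ℝ) ≤ 1 * ((ω i).2.val : ℝ) :=
        mul_le_mul_of_nonneg_right (by linarith) c3
      have g5 : 0 ≤ (z - (⌊z⌋ : ℝ)) * L := mul_nonneg (by linarith) hL0
      have g6 : (z - (⌊z⌋ : ℝ)) * L ≤ 1 * L := mul_le_mul_of_nonneg_right (by linarith) hL0
      rw [abs_le]
      constructor <;> linarith
    exact_mod_cast key

lemma one (hRC : Stmt_RC) (L M : ℕ) (hL : 4 ≤ L) (hM : M + 1 ≤ L) (u z : ℤ) :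
    ((Finset.univ.filter fun ω : Fin L → Fin L × Fin L =>
      M + 1 ≤ (Finset.univ.filter fun i : Fin L => ω i ∈ st L u z).card).card : ℝ) ≤
      (11 ^ (M + 1) / (Nat.factorial (M + 1) : ℝ)) * (L : ℝ) ^ (2 * L) := by
  have h := hRC (Fin L) (Fin L × Fin L) (st L u z) (M + 1) (by simpa using hM)
  rw [Fintype.card_fin, Fintype.card_prod, Fintype.card_fin] at h
  have h' : ((Finset.univ.filter fun ω : Fin L → Fin L × Fin L =>
      M + 1 ≤ (Finset.univ.filter fun i : Fin L => ω i ∈ st L u z).card).card : ℝ) ≤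
      (L.choose (M + 1) : ℝ) * ((st L u z).card : ℝ) ^ (M + 1) *
        ((L : ℝ) * L) ^ (L - (M + 1)) := by
    have h2 := (Nat.cast_le (α := ℝ)).2 h
    push_cast at h2
    refine le_trans (le_of_eq ?_) h2
    exact congrArg Nat.cast (fcard2 (M + 1) _ _ _ _ (fun (ω : Fin L → Fin L × Fin L) (i : Fin L) =>
      ω i ∈ st L u z) _ _ _ _)
  refine h'.trans ?_
  have h1 : (L.choose (M + 1) : ℝ) ≤ (L : ℝ) ^ (M + 1) / (Nat.factorial (M + 1) : ℝ) :=
    Nat.choose_le_pow_div (M + 1) L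
  have h2 : ((st L u z).card : ℝ) ≤ 11 * L := by
    exact_mod_cast st_card L (by omega) u z
  have hL0 : (0 : ℝ) ≤ L := Nat.cast_nonneg _
  calc (L.choose (M + 1) : ℝ) * ((st L u z).card : ℝ) ^ (M + 1) * ((L : ℝ) * L) ^ (L - (M + 1))
      ≤ ((L : ℝ) ^ (M + 1) / (Nat.factorial (M + 1) : ℝ)) * (11 * (L : ℝ)) ^ (M + 1) *
        ((L : ℝ) * L) ^ (L - (M + 1)) := by
        refine mul_le_mul_of_nonneg_right ?_ (by positivity)
        exact mul_le_mul h1 (pow_le_pow_left₀ (Nat.cast_nonneg _) h2 _) (by positivity)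
          (by positivity)
    _ = (11 ^ (M + 1) / (Nat.factorial (M + 1) : ℝ)) * (L : ℝ) ^ (2 * L) := by
        have e : (L : ℝ) ^ (2 * L) = (L : ℝ) ^ (M + 1) * (L : ℝ) ^ (M + 1) *
            ((L : ℝ) * L) ^ (L - (M + 1)) := by
          rw [← mul_pow, ← pow_two, ← pow_mul, ← pow_mul, ← pow_add]
          congr 1
          omega
        rw [e, mul_pow]
        ring

end RDM

open RDM in
open Classical in
theorem RD_thm : Stmt_RD := by
  intro hRC L M hL hM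
  have hL4 : (4 : ℝ) ≤ L := by exact_mod_cast hL
  have h0 : nb L (fun ω => ¬ Deg (dg ω) M) =
      ((Finset.univ.filter fun ω : Fin L → Fin L × Fin L => ¬ Deg (dg ω) M).card : ℝ) := by
    unfold nb
    congr!
  rw [h0]
  have hsub : (Finset.univ.filter fun ω : Fin L → Fin L × Fin L => ¬ Deg (dg ω) M) ⊆
      ((Finset.Icc (-(L : ℤ)) (2 * L)) ×ˢ (Finset.Icc (-(L : ℤ) - 2) (3 * L))).biUnion
        fun q => Finset.univ.filter fun ω : Fin L → Fin L × Fin L =>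
          M + 1 ≤ (Finset.univ.filter fun i : Fin L => ω i ∈ st L q.1 q.2).card := by
    intro ω hω
    rw [Finset.mem_filter] at hω
    obtain ⟨u, hu, z, hz, h⟩ := cover L M ω hω.2
    rw [Finset.mem_biUnion]
    refine ⟨(u, z), Finset.mem_product.2 ⟨hu, hz⟩, ?_⟩
    rw [Finset.mem_filter]
    exact ⟨Finset.mem_univ _, h⟩
  have h1 : ((Finset.univ.filter fun ω : Fin L → Fin L × Fin L => ¬ Deg (dg ω) M).card : ℝ) ≤
      ∑ q ∈ (Finset.Icc (-(L : ℤ)) (2 * L)) ×ˢ (Finset.Icc (-(L : ℤ) - 2) (3 * L)),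
        ((Finset.univ.filter fun ω : Fin L → Fin L × Fin L =>
          M + 1 ≤ (Finset.univ.filter fun i : Fin L => ω i ∈ st L q.1 q.2).card).card : ℝ) := by
    exact_mod_cast (Finset.card_le_card hsub).trans Finset.card_biUnion_le
  refine h1.trans ?_
  refine (Finset.sum_le_card_nsmul _ _
    ((11 ^ (M + 1) / (Nat.factorial (M + 1) : ℝ)) * (L : ℝ) ^ (2 * L))
    (fun q _ => one hRC L M hL hM q.1 q.2)).trans ?_
  rw [Finset.card_product, Int.card_Icc, Int.card_Icc, nsmul_eq_mul, ← mul_assoc]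
  refine mul_le_mul_of_nonneg_right (mul_le_mul_of_nonneg_right ?_ (by positivity)) (by positivity)
  have e1 : (2 * (L : ℤ) + 1 - (-(L : ℤ))).toNat = 3 * L + 1 := by omega
  have e2 : (3 * (L : ℤ) + 1 - (-(L : ℤ) - 2)).toNat = 4 * L + 3 := by omega
  rw [e1, e2]
  push_cast
  nlinarith

end Pool.Agent.RDS
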