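import Pool.Agent.RDS.Stmts

/-!
# RE: the mean of the additive energy
-/

set_option autoImplicit false

namespace Pool.Agent.RDS

namespace REM

open Finset

variable {L : ℕ}

open Classical in
/-- An equation with a coefficient `≠ 0` has few solutions. -/
theorem card_sol (m : Fin L) (c : Fin L → ℤ) (hc : c m ≠ 0) :
    (univ.filter fun ω : Fin L → Fin L × Fin L => ∑ i, c i * ((ω i).1.val : ℤ) = 0 ∧
      ∑ i, c i * ((ω i).2.val : ℤ) = 0).card ≤ (L * L) ^ (L - 1) := by
  have hcard : (univ : Finset ({i : Fin L // i ≠ m} → Fin L × Fin L)).card = (L * L) ^ (L - 1) := by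
    rw [card_univ, Fintype.card_fun, Fintype.card_prod, Fintype.card_fin, Fintype.card_subtype_compl,
      Fintype.card_fin, Fintype.card_unique]
  rw [← hcard]
  refine card_le_card_of_injOn (fun ω => fun i : {i : Fin L // i ≠ m} => ω i)
    (fun _ _ => mem_coe.2 (mem_univ _)) ?_
  intro ω hω ω' hω' h
  have hω1 := (mem_filter.1 (mem_coe.1 hω)).2
  have hω2 := (mem_filter.1 (mem_coe.1 hω')).2
  have hne : ∀ i : Fin L, i ≠ m → ω i = ω' i := fun i hi => congrFun h ⟨i, hi⟩
  have key : ∀ x y : Fin L → ℤ, (∀ i, i ≠ m → x i = y i) → ∑ i, c i * x i = 0 →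
      ∑ i, c i * y i = 0 → x m = y m := by
    intro x y hxy hx hy
    rw [← add_sum_erase univ _ (mem_univ m)] at hx hy
    have h2 : ∑ i ∈ univ.erase m, c i * x i = ∑ i ∈ univ.erase m, c i * y i :=
      sum_congr rfl fun i hi => by rw [hxy i (ne_of_mem_erase hi)]
    rw [h2] at hx
    have h3 : c m * x m = c m * y m := by linarith
    exact mul_left_cancel₀ hc h3
  have h1 := key (fun i => ((ω i).1.val : ℤ)) (fun i => ((ω' i).1.val : ℤ))
    (fun i hi => by rw [hne i hi]) hω1.1 hω2.1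
  have h2 := key (fun i => ((ω i).2.val : ℤ)) (fun i => ((ω' i).2.val : ℤ))
    (fun i hi => by rw [hne i hi]) hω1.2 hω2.2
  simp only [Nat.cast_inj] at h1 h2
  funext i
  by_cases hi : i = m
  · rw [hi]
    exact Prod.ext (Fin.ext h1) (Fin.ext h2)
  · exact hne i hi

/-- The coefficients of the equation. -/
def co (i j k l : Fin L) (m : Fin L) : ℤ :=
  (if m = i then 1 else 0) + (if m = l then 1 else 0) - (if m = j then 1 else 0) -
    (if m = k then 1 else 0)

theorem sum_co (i j k l : Fin L) (x : Fin L → ℤ) :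
    ∑ m, co i j k l m * x m = x i + x l - x j - x k := by
  unfold co
  simp only [sub_mul, add_mul, ite_mul, one_mul, zero_mul, sum_sub_distrib, sum_add_distrib,
    sum_ite_eq', mem_univ, if_true]

theorem exists_co {i j k l : Fin L} (h1 : ¬ (i = j ∧ k = l)) (h2 : ¬ (i = k ∧ j = l)) :
    ∃ m, co i j k l m ≠ 0 := by
  by_contra h
  push Not at h
  have ha := h i
  have hl := h l
  unfold co at ha hl
  by_cases hij : i = j
  · subst hij
    by_cases hlk : l = k
    · exact h1 ⟨rfl, hlk.symm⟩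
    · simp [hlk] at hl
  · by_cases hik : i = k
    · subst hik
      by_cases hlj : l = j
      · exact h2 ⟨rfl, hlj.symm⟩
      · simp [hlj] at hl
    · simp only [hij, hik, if_true, if_false] at ha
      split_ifs at ha <;> omega

open Classical in
/-- The number of the choices with one equation. -/
theorem card_eq (i j k l : Fin L) :
    (univ.filter fun ω : Fin L → Fin L × Fin L => dx (dg ω) (i, j) = dx (dg ω) (k, l) ∧
      dy (dg ω) (i, j) = dy (dg ω) (k, l)).card ≤
      if (i = j ∧ k = l) ∨ (i = k ∧ j = l) then (L * L) ^ L else (L * L) ^ (L - 1) := by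
  split_ifs with h
  · refine (card_le_univ _).trans (le_of_eq ?_)
    rw [Fintype.card_fun, Fintype.card_prod, Fintype.card_fin]
  · push Not at h
    obtain ⟨m, hm⟩ := exists_co (fun h' => h.1 h'.1 h'.2) (fun h' => h.2 h'.1 h'.2)
    refine (card_le_card ?_).trans (card_sol m (co i j k l) hm)
    intro ω hω
    rw [mem_filter] at hω ⊢
    refine ⟨hω.1, ?_, ?_⟩
    · have h1 := hω.2.1
      rw [sum_co i j k l (fun m => ((ω m).1.val : ℤ))]
      unfold dx dg at h1
      simp only at h1 ⊢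
      linarith
    · have h1 := hω.2.2
      rw [sum_co i j k l (fun m => ((ω m).2.val : ℤ))]
      unfold dy dg at h1
      simp only at h1 ⊢
      linarith

open Classical in
theorem card_triv : (univ.filter fun r : (Fin L × Fin L) × (Fin L × Fin L) =>
    (r.1.1 = r.1.2 ∧ r.2.1 = r.2.2) ∨ (r.1.1 = r.2.1 ∧ r.1.2 = r.2.2)).card ≤ 2 * (L * L) := by
  have h1 : (univ.filter fun r : (Fin L × Fin L) × (Fin L × Fin L) =>
      (r.1.1 = r.1.2 ∧ r.2.1 = r.2.2) ∨ (r.1.1 = r.2.1 ∧ r.1.2 = r.2.2)) ⊆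
      (univ.image fun a : Fin L × Fin L => ((a.1, a.1), (a.2, a.2))) ∪
      (univ.image fun a : Fin L × Fin L => (a, a)) := by
    rintro ⟨⟨i, j⟩, ⟨k, l⟩⟩ hr
    rw [mem_filter] at hr
    rw [mem_union, mem_image, mem_image]
    rcases hr.2 with ⟨h1, h2⟩ | ⟨h1, h2⟩
    · simp only at h1 h2
      subst h1 h2
      exact Or.inl ⟨(i, k), mem_univ _, rfl⟩
    · simp only at h1 h2
      subst h1 h2
      exact Or.inr ⟨(i, j), mem_univ _, rfl⟩
  refine (card_le_card h1).trans ((card_union_le _ _).trans ?_)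
  have h2 : (univ : Finset (Fin L × Fin L)).card = L * L := by
    rw [card_univ, Fintype.card_prod, Fintype.card_fin]
  have h3 := card_image_le (s := (univ : Finset (Fin L × Fin L)))
    (f := fun a : Fin L × Fin L => ((a.1, a.1), (a.2, a.2)))
  have h4 := card_image_le (s := (univ : Finset (Fin L × Fin L)))
    (f := fun a : Fin L × Fin L => (a, a))
  rw [h2] at h3 h4
  omega

open Classical in
theorem main (hL : 1 ≤ L) :
    ∑ ω : Fin L → Fin L × Fin L, eng (dg ω) ≤ 3 * (L * L) * (L * L) ^ L := by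
  have h1 : ∑ ω : Fin L → Fin L × Fin L, eng (dg ω) =
      ∑ r : (Fin L × Fin L) × (Fin L × Fin L), (univ.filter fun ω : Fin L → Fin L × Fin L =>
        dx (dg ω) r.1 = dx (dg ω) r.2 ∧ dy (dg ω) r.1 = dy (dg ω) r.2).card := by
    unfold eng eqp
    simp only [card_filter]
    rw [sum_comm]
  rw [h1]
  have h2 : ∀ r : (Fin L × Fin L) × (Fin L × Fin L),
      (univ.filter fun ω : Fin L → Fin L × Fin L =>
        dx (dg ω) r.1 = dx (dg ω) r.2 ∧ dy (dg ω) r.1 = dy (dg ω) r.2).card ≤
      (if (r.1.1 = r.1.2 ∧ r.2.1 = r.2.2) ∨ (r.1.1 = r.2.1 ∧ r.1.2 = r.2.2) then (L * L) ^ L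
        else 0) + (L * L) ^ (L - 1) := by
    rintro ⟨⟨i, j⟩, ⟨k, l⟩⟩
    refine (card_eq i j k l).trans ?_
    simp only
    split_ifs <;> omega
  refine (sum_le_sum fun r _ => h2 r).trans ?_
  rw [sum_add_distrib, ← sum_filter, sum_const, sum_const, smul_eq_mul, smul_eq_mul, card_univ,
    Fintype.card_prod, Fintype.card_prod, Fintype.card_fin]
  have h3 := Nat.mul_le_mul_right ((L * L) ^ L) (card_triv (L := L))
  have h4 : L * L * (L * L) * (L * L) ^ (L - 1) = L * L * (L * L) ^ L := by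
    obtain ⟨n, rfl⟩ : ∃ n, L = n + 1 := ⟨L - 1, by omega⟩
    rw [Nat.add_sub_cancel, mul_assoc, ← pow_succ']
  rw [h4]
  calc _ ≤ 2 * (L * L) * (L * L) ^ L + L * L * (L * L) ^ L := Nat.add_le_add_right h3 _
    _ = _ := by ring

end REM

theorem RE_thm : Stmt_RE := by
  intro L hL
  have h := REM.main hL
  have h2 : ((∑ ω : Fin L → Fin L × Fin L, eng (dg ω) : ℕ) : ℝ) ≤
      ((3 * (L * L) * (L * L) ^ L : ℕ) : ℝ) := by exact_mod_cast h
  push_cast at h2
  refine h2.trans (le_of_eq ?_)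
  rw [pow_mul, sq]

end Pool.Agent.RDS
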