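import Pool.Agent.RDS.Stmts

/-!
# Random digit sets: the recursion for the length of the projection
-/

set_option autoImplicit false

namespace Pool.Agent.RDS

open MeasureTheory Set

namespace RECM

variable {L : ℕ} {D : Fin L → ℕ × ℕ}

open Classical in
/-- The words of length `N` whose initial part of length `b.1` meets `b.2`. -/
noncomputable def Gb (D : Fin L → ℕ × ℕ) (t : ℝ) (N : ℕ) (b : ℕ × ℤ) : Finset (Wd L N) :=
  Finset.univ.filter fun w : Wd L N => ∃ u : Wd L b.1,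
    (∀ i : Fin b.1, ∀ h : i.val < N, w ⟨i.val, h⟩ = u i) ∧ meets D t u b.2

theorem init_append {n m : ℕ} (u u' : Wd L n) (v : Wd L m)
    (h : ∀ i : Fin n, ∀ h : i.val < n + m,
      (Fin.append u v : Wd L (n + m)) ⟨i.val, h⟩ = u' i) : u = u' := by
  funext i
  have h1 := h i (by omega)
  have h2 : (⟨i.val, by omega⟩ : Fin (n + m)) = Fin.castAdd m i := Fin.ext rfl
  rw [h2, Fin.append_left] at h1
  exact h1

theorem mem_Gb_append (t : ℝ) {n m : ℕ} (j : ℤ) (u : Wd L n) (v : Wd L m) :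
    (Fin.append u v : Wd L (n + m)) ∈ Gb D t (n + m) (n, j) ↔ meets D t u j := by
  unfold Gb
  simp only [Finset.mem_filter, Finset.mem_univ, true_and]
  constructor
  · rintro ⟨u', h1, h2⟩
    rw [init_append u u' v h1]
    exact h2
  · intro h
    refine ⟨u, fun i hi => ?_, h⟩
    have h2 : (⟨i.val, hi⟩ : Fin (n + m)) = Fin.castAdd m i := Fin.ext rfl
    rw [h2, Fin.append_left]

theorem card_Gb (t : ℝ) (n m : ℕ) (j : ℤ) :
    (Gb D t (n + m) (n, j)).card = cnt D t n j * L ^ m := by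
  classical
  have h1 : (Gb D t (n + m) (n, j)).card =
      ∑ w : Wd L (n + m), if w ∈ Gb D t (n + m) (n, j) then 1 else 0 := by
    rw [← Finset.sum_filter, ← Finset.card_eq_sum_ones]
    congr 1
    ext w
    simp
  rw [h1, sum_append]
  have h2 : ∀ u : Wd L n, (∑ v : Wd L m,
      if (Fin.append u v : Wd L (n + m)) ∈ Gb D t (n + m) (n, j)
      then 1 else 0) = if meets D t u j then L ^ m else 0 := by
    intro u
    by_cases h : meets D t u j
    · rw [if_pos h]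
      rw [Finset.sum_congr rfl fun v _ => if_pos ((mem_Gb_append t j u v).2 h)]
      rw [Finset.sum_const, Finset.card_univ, card_Wd, smul_eq_mul, mul_one]
    · rw [if_neg h]
      exact Finset.sum_eq_zero fun v _ => if_neg fun h' => h ((mem_Gb_append t j u v).1 h')
  rw [Finset.sum_congr rfl fun u _ => h2 u, ← Finset.sum_filter, Finset.sum_const, smul_eq_mul]
  unfold cnt
  congr 2

theorem psq_subset_Jst (hD : Ok D) {t : ℝ} (h0 : 0 ≤ t) (h1 : t ≤ 1) {n m : ℕ} (j : ℤ)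
    {w : Wd L (n + m)} (hw : w ∈ Gb D t (n + m) (n, j)) : psq D t w ⊆ Jst L (n, j) := by
  obtain ⟨⟨u, v⟩, rfl⟩ := (Fin.appendEquiv n m).surjective w
  have hm : meets D t u j := (mem_Gb_append t j u v).1 hw
  refine (psq_append_subset hD h0 u v).trans ?_
  unfold psq Jst
  have h4 : (0 : ℝ) < (L : ℝ) ^ n := hD.pw n
  obtain ⟨ha, hb⟩ := hm
  have e1 : (1 + t) / (L : ℝ) ^ n ≤ 2 / (L : ℝ) ^ n :=
    div_le_div_of_nonneg_right (by linarith) h4.le
  refine Icc_subset_Icc ?_ ?_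
  · show ((j : ℝ) - 2) / (L : ℝ) ^ n ≤ pr D t u
    rw [sub_div]
    linarith
  · show pr D t u + (1 + t) / (L : ℝ) ^ n ≤ ((j : ℝ) + 3) / (L : ℝ) ^ n
    have e2 : ((j : ℝ) + 3) / (L : ℝ) ^ n = ((j : ℝ) + 1) / (L : ℝ) ^ n + 2 / (L : ℝ) ^ n := by
      ring
    rw [e2]
    linarith

theorem psq_subset_Jst' (hD : Ok D) {t : ℝ} (h0 : 0 ≤ t) (h1 : t ≤ 1) {N : ℕ} {b : ℕ × ℤ}
    (hb : b.1 ≤ N) {w : Wd L N} (hw : w ∈ Gb D t N b) : psq D t w ⊆ Jst L b := by
  obtain ⟨n, j⟩ := b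
  obtain ⟨m, rfl⟩ := Nat.exists_eq_add_of_le hb
  exact psq_subset_Jst hD h0 h1 j hw

theorem card_Gb' (hD : Ok D) (t : ℝ) {N : ℕ} {b : ℕ × ℤ} (hb : b.1 ≤ N) :
    ((Gb D t N b).card : ℝ) / (L : ℝ) ^ N = (cnt D t b.1 b.2 : ℝ) / (L : ℝ) ^ b.1 := by
  obtain ⟨n, j⟩ := b
  obtain ⟨m, rfl⟩ := Nat.exists_eq_add_of_le hb
  rw [card_Gb]
  have h4 := hD.pw n
  have h5 := hD.pw m
  push_cast
  rw [pow_add]
  field_simp

theorem psq_nonempty (hD : Ok D) {t : ℝ} (h0 : 0 ≤ t) {n : ℕ} (w : Wd L n) :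
    (psq D t w).Nonempty :=
  ⟨pr D t w, left_mem_Icc.2 (by
    have h4 := hD.pw n
    have : 0 ≤ (1 + t) / (L : ℝ) ^ n := by positivity
    linarith)⟩

theorem disj (hD : Ok D) {t : ℝ} (h0 : 0 ≤ t) (h1 : t ≤ 1) {N : ℕ} {B : Finset (ℕ × ℤ)}
    (hB : ∀ b ∈ B, b.1 ≤ N) (hd : (B : Set (ℕ × ℤ)).PairwiseDisjoint (Jst L)) :
    (B : Set (ℕ × ℤ)).PairwiseDisjoint (Gb D t N) := by
  intro b hb c hc hbc
  refine Finset.disjoint_left.2 fun w hw hw' => ?_
  obtain ⟨x, hx⟩ := psq_nonempty hD h0 w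
  exact Set.disjoint_left.1 (hd hb hc hbc) (psq_subset_Jst' hD h0 h1 (hB b hb) hw hx)
    (psq_subset_Jst' hD h0 h1 (hB c hc) hw' hx)

theorem volume_Jst (b : ℕ × ℤ) : volume (Jst L b) = ENNReal.ofReal (5 / (L : ℝ) ^ b.1) := by
  unfold Jst
  rw [Real.volume_Icc]
  congr 1
  ring

/-- the piece of the projection under the word `w` -/
def pc (D : Fin L → ℕ × ℕ) (t : ℝ) {N : ℕ} (M : ℕ) (w : Wd L N) : Set ℝ :=
  {x | (L : ℝ) ^ N * (x - pr D t w) ∈ P D M t}

theorem volume_pc (hD : Ok D) (t : ℝ) {N : ℕ} (M : ℕ) (w : Wd L N) :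
    volume (pc D t M w) = ENNReal.ofReal (1 / (L : ℝ) ^ N) * volume (P D M t) := by
  have h4 : (L : ℝ) ^ N ≠ 0 := (hD.pw N).ne'
  have e : pc D t M w =
      (fun x => x + -pr D t w) ⁻¹' ((fun x => (L : ℝ) ^ N * x) ⁻¹' (P D M t)) := rfl
  rw [e]
  rw [measure_preimage_add_right, Real.volume_preimage_mul_left h4,
    abs_of_pos (inv_pos.2 (hD.pw N))]
  congr 2
  rw [one_div]

theorem pc_subset (hD : Ok D) {t : ℝ} (h0 : 0 ≤ t) {N : ℕ} (M : ℕ) (w : Wd L N) :
    pc D t M w ⊆ psq D t w := by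
  intro x hx
  have h := P_subset hD M h0 hx
  have h4 : (0 : ℝ) < (L : ℝ) ^ N := hD.pw N
  obtain ⟨ha, hb⟩ := h
  constructor
  · have : 0 ≤ x - pr D t w := nonneg_of_mul_nonneg_right ha h4
    linarith
  · have : x - pr D t w ≤ (1 + t) / (L : ℝ) ^ N := by
      rw [le_div_iff₀ h4]
      linarith
    linarith

theorem cover (hD : Ok D) {t : ℝ} (h0 : 0 ≤ t) (h1 : t ≤ 1) {N : ℕ} (M : ℕ)
    {B : Finset (ℕ × ℤ)} (hB : ∀ b ∈ B, b.1 ≤ N) (G : Finset (Wd L N))
    (hG : ∀ w ∈ G, ∃ b ∈ B, w ∈ Gb D t N b) :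
    P D (N + M) t ⊆ (⋃ b ∈ B, Jst L b) ∪
      ⋃ w ∈ (Finset.univ \ G : Finset (Wd L N)), pc D t M w := by
  intro x hx
  rw [P_add hD] at hx
  obtain ⟨w, hw⟩ := mem_iUnion.1 hx
  by_cases hwG : w ∈ G
  · left
    obtain ⟨b, hb, hwb⟩ := hG w hwG
    exact mem_iUnion₂.2 ⟨b, hb, psq_subset_Jst' hD h0 h1 (hB b hb) hwb
      (pc_subset hD h0 M w hw)⟩
  · right
    exact mem_iUnion₂.2 ⟨w, Finset.mem_sdiff.2 ⟨Finset.mem_univ _, hwG⟩, hw⟩

end RECM

open RECM in
theorem REC_thm : Stmt_REC := by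
  classical
  intro L D hD N K t B h0 h1 hB hd
  have hB1 : ∀ b ∈ B, b.1 ≤ N := fun b hb => (hB b hb).1
  have hpw : ∀ n, (0 : ℝ) < (L : ℝ) ^ n := hD.pw
  set G : Finset (Wd L N) := B.biUnion (Gb D t N) with hGdef
  have hcard : (G.card : ℝ) = ∑ b ∈ B, ((Gb D t N b).card : ℝ) := by
    rw [hGdef, Finset.card_biUnion (disj hD h0 h1 hB1 hd)]
    push_cast
    rfl
  have h4N : (0 : ℝ) < (L : ℝ) ^ N := hpw N
  have hGle : (G.card : ℝ) ≤ (L : ℝ) ^ N := by
    have h := Finset.card_le_univ G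
    rw [card_Wd] at h
    exact_mod_cast h
  have hGle' : G.card ≤ L ^ N := by exact_mod_cast hGle
  refine ⟨(G.card : ℝ) / (L : ℝ) ^ N, ?_, (div_le_one h4N).2 hGle, ?_⟩
  · rw [hcard, Finset.sum_div, Finset.mul_sum]
    refine Finset.sum_le_sum fun b hb => ?_
    rw [card_Gb' hD t (hB1 b hb), mul_one_div]
    have : (K : ℝ) ≤ (cnt D t b.1 b.2 : ℝ) := by exact_mod_cast (hB b hb).2
    exact div_le_div_of_nonneg_right this (hpw _).le
  · intro M
    have hcov := cover hD h0 h1 M hB1 G (fun w hw => by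
      obtain ⟨b, hb, hwb⟩ := Finset.mem_biUnion.1 hw
      exact ⟨b, hb, hwb⟩)
    have hv1 : volume (⋃ b ∈ B, Jst L b) ≤ ∑ b ∈ B, ENNReal.ofReal (5 / (L : ℝ) ^ b.1) := by
      refine (measure_biUnion_finset_le _ _).trans ?_
      exact Finset.sum_le_sum fun b _ => (volume_Jst b).le
    have hv2 : volume (⋃ w ∈ (Finset.univ \ G : Finset (Wd L N)), pc D t M w) ≤
        ∑ w ∈ (Finset.univ \ G : Finset (Wd L N)),
          ENNReal.ofReal (1 / (L : ℝ) ^ N) * volume (P D M t) := by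
      refine (measure_biUnion_finset_le _ _).trans ?_
      exact Finset.sum_le_sum fun w _ => (volume_pc hD t M w).le
    have hPM : volume (P D M t) = ENNReal.ofReal (len D M t) := by
      unfold len
      rw [ENNReal.ofReal_toReal (volume_P_ne_top M t)]
    have hcs : ((Finset.univ \ G : Finset (Wd L N)).card : ℝ) = (L : ℝ) ^ N - G.card := by
      rw [Finset.card_sdiff_of_subset (Finset.subset_univ G), Finset.card_univ, card_Wd,
        Nat.cast_sub hGle']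
      push_cast
      ring
    have hL := len_nonneg (D := D) M t
    have hsum : 0 ≤ ∑ b ∈ B, (1 : ℝ) / (L : ℝ) ^ b.1 :=
      Finset.sum_nonneg fun b _ => (div_pos one_pos (hpw _)).le
    have htot : volume (P D (N + M) t) ≤
        ENNReal.ofReal (5 * (∑ b ∈ B, (1 : ℝ) / (L : ℝ) ^ b.1) +
        (1 - (G.card : ℝ) / (L : ℝ) ^ N) * len D M t) := by
      calc volume (P D (N + M) t) ≤ _ := measure_mono hcov
        _ ≤ _ := measure_union_le _ _
        _ ≤ ∑ b ∈ B, ENNReal.ofReal (5 / (L : ℝ) ^ b.1) +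
            ∑ w ∈ (Finset.univ \ G : Finset (Wd L N)),
              ENNReal.ofReal (1 / (L : ℝ) ^ N) * volume (P D M t) :=
          add_le_add hv1 hv2
        _ = _ := by
          have hone : (0 : ℝ) ≤ 1 / (L : ℝ) ^ N := (div_pos one_pos h4N).le
          rw [Finset.sum_const, nsmul_eq_mul, hPM, ← ENNReal.ofReal_mul hone,
            ← ENNReal.ofReal_natCast, ← ENNReal.ofReal_mul (by positivity),
            ← ENNReal.ofReal_sum_of_nonneg (fun b _ => (div_pos (by norm_num) (hpw _)).le),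
            ← ENNReal.ofReal_add
              (Finset.sum_nonneg fun b _ => (div_pos (by norm_num) (hpw _)).le)
              (mul_nonneg (by positivity) (mul_nonneg hone hL))]
          congr 1
          rw [hcs, Finset.mul_sum]
          congr 1
          · exact Finset.sum_congr rfl fun b _ => by ring
          · field_simp
    have hnn : 0 ≤ 5 * (∑ b ∈ B, (1 : ℝ) / (L : ℝ) ^ b.1) +
        (1 - (G.card : ℝ) / (L : ℝ) ^ N) * len D M t := by
      refine add_nonneg (mul_nonneg (by norm_num) hsum) ?_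
      refine mul_nonneg ?_ hL
      have := (div_le_one h4N).2 hGle
      linarith
    calc len D (N + M) t = (volume (P D (N + M) t)).toReal := rfl
      _ ≤ (ENNReal.ofReal _).toReal := ENNReal.toReal_mono ENNReal.ofReal_ne_top htot
      _ = _ := ENNReal.toReal_ofReal hnn

end Pool.Agent.RDS
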