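import Pool.Agent.RDS.Stmts

/-!
# Random digit sets: the size of the regions

An explicit family of at least `L / 12 - 17 / 12` second coordinates: `0, 1, ..` if
`a.1 + t a.2 - z ≤ L - 1 / 2`, and `L - 1, L - 2, ..` otherwise.
-/

set_option autoImplicit false

namespace Pool.Agent.RDS

open Set

namespace RGM

/-- Every second coordinate with a projection in the box is attained. -/
theorem exists_point {L : ℕ} {t z : ℝ} {a : Fin L × Fin L} {y : ℕ} (hy : y < L)
    (h0 : 0 ≤ ((a.1.val : ℝ) + t * (a.2.val : ℝ) - z) - t * (y : ℝ))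
    (h1 : ((a.1.val : ℝ) + t * (a.2.val : ℝ) - z) - t * (y : ℝ) ≤ (L : ℝ) - 1 / 2)
    (h2 : 2 ≤ |(a.2.val : ℤ) - (y : ℤ)|) :
    ∃ p ∈ Rg L t z a, p.2.val = y := by
  set u : ℝ := ((a.1.val : ℝ) + t * (a.2.val : ℝ) - z) - t * (y : ℝ) with hu
  have hc0 : 0 ≤ ⌈u - 1 / 2⌉ := by
    have : (-1 : ℤ) < ⌈u - 1 / 2⌉ := by
      rw [Int.lt_ceil]
      push_cast
      linarith
    omega
  have hc1 : ⌈u - 1 / 2⌉ ≤ (L : ℤ) - 1 := by
    rw [Int.ceil_le]
    push_cast
    linarith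
  obtain ⟨m, hm⟩ := Int.eq_ofNat_of_zero_le hc0
  have hmL : m < L := by
    rw [hm] at hc1
    omega
  have hle : u - 1 / 2 ≤ (m : ℝ) := by
    have := Int.le_ceil (u - 1 / 2)
    rw [hm] at this
    exact_mod_cast this
  have hlt : (m : ℝ) < u - 1 / 2 + 1 := by
    have := Int.ceil_lt_add_one (u - 1 / 2)
    rw [hm] at this
    exact_mod_cast this
  refine ⟨(⟨m, hmL⟩, ⟨y, hy⟩), ?_, rfl⟩
  unfold Rg
  rw [Finset.mem_filter]
  refine ⟨Finset.mem_univ _, h2, ?_⟩
  have e : ((a.1.val : ℝ) - (m : ℝ)) + t * ((a.2.val : ℝ) - (y : ℝ)) - z = u - m := by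
    rw [hu]
    ring
  show |((a.1.val : ℝ) - (m : ℝ)) + t * ((a.2.val : ℝ) - (y : ℝ)) - z| ≤ 1 / 2
  rw [e, abs_le]
  constructor <;> linarith

/-- A family of `K` second coordinates gives at least `K - 3` points. -/
theorem core {L : ℕ} {t z : ℝ} {a : Fin L × Fin L} (K : ℕ) (g : ℕ → ℕ)
    (hg : ∀ k < K, g k < L ∧ 0 ≤ ((a.1.val : ℝ) + t * (a.2.val : ℝ) - z) - t * (g k : ℝ) ∧
      ((a.1.val : ℝ) + t * (a.2.val : ℝ) - z) - t * (g k : ℝ) ≤ (L : ℝ) - 1 / 2)
    (hinj : ∀ k < K, ∀ l < K, g k = g l → k = l) :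
    K ≤ (Rg L t z a).card + 3 := by
  classical
  set S := (Finset.range K).filter fun k => 2 ≤ |(a.2.val : ℤ) - (g k : ℤ)| with hS
  set T := (Finset.range K).filter fun k => ¬ 2 ≤ |(a.2.val : ℤ) - (g k : ℤ)| with hT
  have h1 : S.card + T.card = K := by
    rw [hS, hT, Finset.card_filter_add_card_filter_not, Finset.card_range]
  have h2 : T.card ≤ 3 := by
    have : T.card ≤ (Finset.Icc ((a.2.val : ℤ) - 1) ((a.2.val : ℤ) + 1)).card := by
      refine Finset.card_le_card_of_injOn (fun k => (g k : ℤ)) ?_ ?_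
      · intro k hk
        have hk' := (Finset.mem_filter.1 hk).2
        rw [not_le] at hk'
        have hk2 := abs_lt.1 hk'
        simp only [Finset.coe_Icc, Set.mem_Icc]
        constructor <;> omega
      · intro k hk l hl hkl
        have hk' := Finset.mem_range.1 (Finset.mem_filter.1 hk).1
        have hl' := Finset.mem_range.1 (Finset.mem_filter.1 hl).1
        have hkl' : (g k : ℤ) = (g l : ℤ) := hkl
        exact hinj k hk' l hl' (by exact_mod_cast hkl')
    rw [Int.card_Icc] at this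
    omega
  have h3 : S.card ≤ (Rg L t z a).card := by
    have hsub : S.image g ⊆ (Rg L t z a).image fun p => p.2.val := by
      intro y hy
      obtain ⟨k, hk, rfl⟩ := Finset.mem_image.1 hy
      obtain ⟨hk1, hk2⟩ := Finset.mem_filter.1 hk
      obtain ⟨g1, g2, g3⟩ := hg k (Finset.mem_range.1 hk1)
      obtain ⟨p, hp, hp2⟩ := exists_point g1 g2 g3 hk2
      exact Finset.mem_image.2 ⟨p, hp, hp2⟩
    have hci : (S.image g).card = S.card := by
      refine Finset.card_image_of_injOn ?_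
      intro k hk l hl hkl
      have hk' := Finset.mem_range.1 (Finset.mem_filter.1 hk).1
      have hl' := Finset.mem_range.1 (Finset.mem_filter.1 hl).1
      exact hinj k hk' l hl' hkl
    rw [← hci]
    exact (Finset.card_le_card hsub).trans Finset.card_image_le
  omega

/-- The projection of a digit of the slab. -/
theorem slab {L : ℕ} {t z : ℝ} {a : Fin L × Fin L} (hL : 200 ≤ L) (ht0 : 0 ≤ t)
    (hz : |z| ≤ 2 / 3 * L + 1 / 16) (ha : a ∈ Sl L z) :
    (L : ℝ) / 12 ≤ (a.1.val : ℝ) + t * (a.2.val : ℝ) - z ∧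
      (a.1.val : ℝ) + t * (a.2.val : ℝ) - z ≤ (11 / 12 + t) * L := by
  have hLr : (200 : ℝ) ≤ L := by exact_mod_cast hL
  have h2 : (a.2.val : ℝ) ≤ L := by exact_mod_cast a.2.isLt.le
  have h20 : (0 : ℝ) ≤ (a.2.val : ℝ) := Nat.cast_nonneg _
  have h3 : t * (a.2.val : ℝ) ≤ t * L := mul_le_mul_of_nonneg_left h2 ht0
  have h4 : 0 ≤ t * (a.2.val : ℝ) := mul_nonneg ht0 h20
  have hz' := abs_le.1 hz
  unfold Sl at ha
  rcases (Finset.mem_filter.1 ha).2 with ⟨hz0, h5, h6⟩ | ⟨hz0, h5, h6⟩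
  · constructor <;> linarith [hz'.1, hz'.2]
  · constructor <;> linarith [hz'.1, hz'.2]

end RGM

theorem RG_thm : Stmt_RG := by
  intro L t z a hL ht0 ht1 hz ha
  obtain ⟨hlo, hhi⟩ := RGM.slab hL ht0 hz ha
  have hLr : (200 : ℝ) ≤ L := by exact_mod_cast hL
  obtain ⟨K, hK1, hK2⟩ : ∃ K : ℕ, 12 * K + 6 ≤ L ∧ L ≤ 12 * K + 17 :=
    ⟨(L - 6) / 12, by omega, by omega⟩
  have key : K ≤ (Rg L t z a).card + 3 := by
    by_cases hc : (a.1.val : ℝ) + t * (a.2.val : ℝ) - z ≤ (L : ℝ) - 1 / 2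
    · refine RGM.core K (fun k => k) (fun k hk => ⟨by omega, ?_, ?_⟩) (fun k _ l _ h => h)
      · have hk' : 12 * (k : ℝ) ≤ L := by
          have : 12 * k ≤ L := by omega
          exact_mod_cast this
        have hk0 : (0 : ℝ) ≤ (k : ℝ) := Nat.cast_nonneg _
        have : t * (k : ℝ) ≤ 1 * (k : ℝ) := mul_le_mul_of_nonneg_right ht1 hk0
        linarith
      · have hk0 : (0 : ℝ) ≤ t * (k : ℝ) := mul_nonneg ht0 (Nat.cast_nonneg _)
        linarith
    · rw [not_le] at hc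
      refine RGM.core K (fun k => L - 1 - k) (fun k hk => ⟨by omega, ?_, ?_⟩)
        (fun k hk l hl h => by
          have h' : L - 1 - k = L - 1 - l := h
          omega)
      · have e : ((L - 1 - k : ℕ) : ℝ) ≤ (L : ℝ) - 1 := by
          have : (L - 1 - k) + 1 ≤ L := by omega
          have : (((L - 1 - k) + 1 : ℕ) : ℝ) ≤ (L : ℝ) := by exact_mod_cast this
          push_cast at this
          linarith
        have e0 : (0 : ℝ) ≤ ((L - 1 - k : ℕ) : ℝ) := Nat.cast_nonneg _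
        have : t * ((L - 1 - k : ℕ) : ℝ) ≤ 1 * ((L - 1 - k : ℕ) : ℝ) :=
          mul_le_mul_of_nonneg_right ht1 e0
        linarith
      · have e : ((L - 1 - k : ℕ) : ℝ) = (L : ℝ) - 1 - k := by
          have h1 : (L - 1 - k) + 1 + k = L := by omega
          have h2 : (((L - 1 - k) + 1 + k : ℕ) : ℝ) = (L : ℝ) := by exact_mod_cast h1
          push_cast at h2
          linarith
        rw [e]
        have hk' : 12 * (k : ℝ) + 18 ≤ L := by
          have : 12 * k + 18 ≤ L := by omega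
          exact_mod_cast this
        have hk0 : (0 : ℝ) ≤ (k : ℝ) := Nat.cast_nonneg _
        have h3 : t * (1 + (k : ℝ)) ≤ 1 * (1 + (k : ℝ)) :=
          mul_le_mul_of_nonneg_right ht1 (by linarith)
        nlinarith [h3, hhi]
  have hKr : (L : ℝ) ≤ 12 * K + 17 := by exact_mod_cast hK2
  have hkr : (K : ℝ) ≤ ((Rg L t z a).card : ℝ) + 3 := by exact_mod_cast key
  linarith

end Pool.Agent.RDS
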