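import Pool.Agent.RDS.Stmts
import Pool.Agent.RDS.Fcd

/-!
# Random digit sets: few pairs in one strip of differences (module RH)
-/

set_option autoImplicit false

namespace Pool.Agent.RDS

open MeasureTheory Set

namespace RHM

open Classical in
/-- Counting functions by their restrictions to a set of indices and its complement. -/
theorem card_le {I β : Type} [Fintype I] [DecidableEq I] [Fintype β] (p : I → Prop)
    [DecidablePred p]
    (P : (I → β) → Prop) (B : ℝ)
    (h : ∀ a : {i // p i} → β, ((Finset.univ.filter fun b : {i // ¬ p i} → β =>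
      P ((Equiv.piEquivPiSubtypeProd p (fun _ => β)).symm (a, b))).card : ℝ) ≤ B) :
    ((Finset.univ.filter P).card : ℝ) ≤ Fintype.card ({i // p i} → β) * B := by
  have h1 : ((Finset.univ.filter P).card : ℝ) =
      ∑ a : {i // p i} → β, ((Finset.univ.filter fun b : {i // ¬ p i} → β =>
        P ((Equiv.piEquivPiSubtypeProd p (fun _ => β)).symm (a, b))).card : ℝ) := by
    simp only [Finset.card_filter]
    push_cast
    rw [← Equiv.sum_comp (Equiv.piEquivPiSubtypeProd p (fun _ => β)).symm, Fintype.sum_prod_type]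
  rw [h1]
  calc _ ≤ ∑ _a : {i // p i} → β, B := Finset.sum_le_sum fun a _ => h a
    _ = _ := by rw [Finset.sum_const, Finset.card_univ, nsmul_eq_mul]

theorem symm_of_pos {I β : Type} (p : I → Prop) [DecidablePred p] (a : {i // p i} → β)
    (b : {i // ¬ p i} → β) (i : {i // p i}) :
    (Equiv.piEquivPiSubtypeProd p (fun _ => β)).symm (a, b) i.1 = a i := by
  rw [Equiv.piEquivPiSubtypeProd_symm_apply, dif_pos i.2]

theorem symm_of_neg {I β : Type} (p : I → Prop) [DecidablePred p] (a : {i // p i} → β)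
    (b : {i // ¬ p i} → β) (i : {i // ¬ p i}) :
    (Equiv.piEquivPiSubtypeProd p (fun _ => β)).symm (a, b) i.1 = b i := by
  rw [Equiv.piEquivPiSubtypeProd_symm_apply, dif_neg i.2]

theorem mem_Rg {L : ℕ} {t z : ℝ} {a y : Fin L × Fin L} (h : y ∈ Rg L t z a) :
    2 ≤ |(a.2.val : ℤ) - (y.2.val : ℤ)| ∧
    |((a.1.val : ℝ) - (y.1.val : ℝ)) + t * ((a.2.val : ℝ) - (y.2.val : ℝ)) - z| ≤ 1 / 2 :=
  (Finset.mem_filter.1 h).2

/-- The elementary estimate. -/
theorem bound (L m s s1 M R : ℕ) (hL : 1 ≤ L) (hM : 1 ≤ M) (hs : s ≤ m) (hm : m ≤ L)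
    (hR : (s1 : ℝ) * L ≤ 24 * M * R) (hR' : R ≤ L * L) :
    (((m.choose (m - s)) * (L * L - R) ^ (m - s) * (L * L) ^ (m - (m - s)) : ℕ) : ℝ) ≤
      (L : ℝ) ^ s * Real.exp (-((s1 : ℝ) / (24 * M * L) * ((m : ℝ) - s))) *
        ((L : ℝ) ^ 2) ^ m := by
  have hL0 : (0 : ℝ) < L := by exact_mod_cast hL
  have hM0 : (0 : ℝ) < M := by exact_mod_cast hM
  have h1 : ((m.choose (m - s) : ℕ) : ℝ) ≤ (L : ℝ) ^ s := by
    have h2 : m.choose (m - s) = m.choose s := Nat.choose_symm hs
    rw [h2]
    have h3 : m.choose s ≤ m ^ s := Nat.choose_le_pow m s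
    have h4 : m ^ s ≤ L ^ s := Nat.pow_le_pow_left hm s
    exact_mod_cast h3.trans h4
  have h5 : m - (m - s) = s := by omega
  have h6 : ((L * L - R : ℕ) : ℝ) ≤ (L : ℝ) ^ 2 * Real.exp (-((s1 : ℝ) / (24 * M * L))) := by
    have h7 := Real.add_one_le_exp (-((s1 : ℝ) / (24 * M * L)))
    have h8 : (s1 : ℝ) / (24 * M * L) * (L : ℝ) ^ 2 ≤ R := by
      have h9 : (s1 : ℝ) / (24 * M * L) * (L : ℝ) ^ 2 = (s1 : ℝ) * L / (24 * M) := by
        field_simp
      rw [h9, div_le_iff₀ (by positivity)]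
      linarith
    rw [Nat.cast_sub hR']
    push_cast
    calc (L : ℝ) * L - R ≤ (L : ℝ) ^ 2 * (-((s1 : ℝ) / (24 * M * L)) + 1) := by nlinarith
      _ ≤ _ := mul_le_mul_of_nonneg_left h7 (by positivity)
  have h10 : ((L * L - R : ℕ) : ℝ) ^ (m - s) ≤ ((L : ℝ) ^ 2) ^ (m - s) *
      Real.exp (-((s1 : ℝ) / (24 * M * L) * ((m : ℝ) - s))) := by
    calc _ ≤ ((L : ℝ) ^ 2 * Real.exp (-((s1 : ℝ) / (24 * M * L)))) ^ (m - s) :=
          pow_le_pow_left₀ (Nat.cast_nonneg _) h6 _
      _ = _ := by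
        rw [mul_pow, ← Real.exp_nat_mul, Nat.cast_sub hs]
        congr 2
        ring
  rw [h5]
  push_cast [Nat.cast_sub hR']
  have h11 : ((L * L - R : ℕ) : ℝ) = (L : ℝ) * L - R := by
    rw [Nat.cast_sub hR']; push_cast; rfl
  rw [← h11]
  calc ((m.choose (m - s) : ℕ) : ℝ) * ((L * L - R : ℕ) : ℝ) ^ (m - s) * ((L : ℝ) * L) ^ s
      ≤ (L : ℝ) ^ s * (((L : ℝ) ^ 2) ^ (m - s) *
        Real.exp (-((s1 : ℝ) / (24 * M * L) * ((m : ℝ) - s)))) * ((L : ℝ) * L) ^ s := by
        refine mul_le_mul_of_nonneg_right ?_ (by positivity)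
        exact mul_le_mul h1 h10 (by positivity) (by positivity)
    _ = (L : ℝ) ^ s * Real.exp (-((s1 : ℝ) / (24 * M * L) * ((m : ℝ) - s))) *
        (((L : ℝ) ^ 2) ^ (m - s) * ((L : ℝ) ^ 2) ^ s) := by ring
    _ = _ := by rw [← pow_add, Nat.sub_add_cancel hs]

end RHM

open RHM in
open Classical in
theorem RH_thm : Stmt_RH := by
  intro hRC hRG hRU L h M s s1 t z hL hhs hM hs1 ht0 ht1 hz
  have hhL : h ≤ L := by omega
  have hcA : Fintype.card {i : Fin L // i.val < h} = h := by
    rw [Fintype.card_subtype]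
    have : (Finset.univ.filter fun i : Fin L => i.val < h).card = min L h := by
      exact Fin.card_filter_val_lt
    rw [this]
    omega
  have hcB : Fintype.card {i : Fin L // ¬ i.val < h} = L - h := by
    rw [Fintype.card_subtype_compl, hcA, Fintype.card_fin]
  have hcβ : Fintype.card (Fin L × Fin L) = L * L := by
    rw [Fintype.card_prod, Fintype.card_fin]
  have hm : ((L - h : ℕ) : ℝ) = (L : ℝ) - h := Nat.cast_sub hhL
  set P : (Fin L → Fin L × Fin L) → Prop := fun ω => Deg (dg ω) M ∧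
      s1 ≤ (Finset.univ.filter fun i : Fin L => i.val < h ∧ ω i ∈ Sl L z).card ∧
      (Finset.univ.filter fun p : Fin L × Fin L => 2 ≤ |dy (dg ω) p| ∧
        |dt (dg ω) t p - z| ≤ 1 / 2).card < s with hP
  have key : ∀ a : {i : Fin L // i.val < h} → Fin L × Fin L,
      ((Finset.univ.filter fun b : {i : Fin L // ¬ i.val < h} → Fin L × Fin L =>
        P ((Equiv.piEquivPiSubtypeProd (fun i : Fin L => i.val < h)
          (fun _ => Fin L × Fin L)).symm (a, b))).card : ℝ) ≤
      (L : ℝ) ^ s * Real.exp (-((s1 : ℝ) / (24 * M * L) * (((L - h : ℕ) : ℝ) - s))) *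
        ((L : ℝ) ^ 2) ^ (L - h) := by
    intro a
    by_cases hne : ∃ b, P ((Equiv.piEquivPiSubtypeProd (fun i : Fin L => i.val < h)
          (fun _ => Fin L × Fin L)).symm (a, b))
    swap
    · rw [Finset.filter_false_of_mem fun b _ hb => hne ⟨b, hb⟩, Finset.card_empty]
      push_cast
      positivity
    obtain ⟨b0, hb0⟩ := hne
    -- the region
    set R : Finset (Fin L × Fin L) := Finset.univ.filter fun y : Fin L × Fin L =>
      ∃ i, y ∈ Rg L t z (a i) with hRdef
    have hR : (s1 : ℝ) * L ≤ 24 * M * (R.card : ℝ) := by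
      refine hRU hRG L {i : Fin L // i.val < h} a M s1 t z hL ht0 ht1 hz ?_ ?_
      · intro z'
        refine le_trans ?_ (hb0.1 t ⟨by linarith, by linarith⟩ z')
        refine Finset.card_le_card_of_injOn (fun i => i.1) ?_
          (fun i _ j _ hij => Subtype.ext hij)
        intro i hi
        have hi' := (Finset.mem_filter.1 hi).2
        refine Finset.mem_filter.2 ⟨Finset.mem_univ _, ?_⟩
        show |((((Equiv.piEquivPiSubtypeProd (fun i : Fin L => i.val < h)
          (fun _ => Fin L × Fin L)).symm (a, b0) i.1).1.val : ℕ) : ℝ) + t *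
          ((((Equiv.piEquivPiSubtypeProd (fun i : Fin L => i.val < h)
          (fun _ => Fin L × Fin L)).symm (a, b0) i.1).2.val : ℕ) : ℝ) - z'| ≤ 3
        rw [symm_of_pos]
        exact hi'
      · refine hb0.2.1.trans ?_
        have hsub : (Finset.univ.filter fun i : Fin L => i.val < h ∧
            (Equiv.piEquivPiSubtypeProd (fun i : Fin L => i.val < h)
              (fun _ => Fin L × Fin L)).symm (a, b0) i ∈ Sl L z) ⊆
            (Finset.univ.filter fun i : {i : Fin L // i.val < h} => a i ∈ Sl L z).image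
              (fun i => i.1) := by
          intro i hi
          obtain ⟨-, hi1, hi2⟩ := Finset.mem_filter.1 hi
          refine Finset.mem_image.2 ⟨⟨i, hi1⟩, Finset.mem_filter.2 ⟨Finset.mem_univ _, ?_⟩, rfl⟩
          rw [← symm_of_pos (fun i : Fin L => i.val < h) a b0 ⟨i, hi1⟩]
          exact hi2
        exact (Finset.card_le_card hsub).trans Finset.card_image_le
    have hRc : Rᶜ.card = L * L - R.card := by rw [Finset.card_compl, hcβ]
    have hRle : R.card ≤ L * L := by
      rw [← hcβ]; exact Finset.card_le_univ R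
    have hsm : s ≤ L - h := by omega
    have hrc := hRC {i : Fin L // ¬ i.val < h} (Fin L × Fin L) Rᶜ (L - h - s)
      (by rw [hcB]; omega)
    rw [hcB, hcβ, hRc] at hrc
    have hrc' : (Finset.univ.filter fun ω : {i : Fin L // ¬ i.val < h} → Fin L × Fin L =>
        L - h - s ≤ (Finset.univ.filter fun i => ω i ∈ Rᶜ).card).card ≤
        (L - h).choose (L - h - s) * (L * L - R.card) ^ (L - h - s) *
          (L * L) ^ (L - h - (L - h - s)) := by
      refine le_trans (le_of_eq ?_) hrc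
      exact fcard2 (L - h - s) _ _ _ _ (fun (ω : {i : Fin L // ¬ i.val < h} → Fin L × Fin L)
        (i : {i : Fin L // ¬ i.val < h}) => ω i ∈ Rᶜ) _ _ _ _
    refine le_trans ?_ (bound L (L - h) s s1 M R.card (by omega) hM hsm (by omega) hR hRle)
    refine Nat.cast_le.2 (le_trans (Finset.card_le_card ?_) hrc')
    intro b hb
    have hb' := (Finset.mem_filter.1 hb).2
    refine Finset.mem_filter.2 ⟨Finset.mem_univ _, ?_⟩
    -- the number of the indices with a digit in the region
    have h1 : (Finset.univ.filter fun j : {i : Fin L // ¬ i.val < h} => b j ∈ R).card < s := by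
      refine lt_of_le_of_lt ?_ hb'.2.2
      have hch : ∀ j : {i : Fin L // ¬ i.val < h}, ∃ i : Fin L, b j ∈ R →
          ∃ hi : i.val < h, b j ∈ Rg L t z (a ⟨i, hi⟩) := by
        intro j
        by_cases hj : b j ∈ R
        · obtain ⟨-, i, hi⟩ := Finset.mem_filter.1 hj
          exact ⟨i.1, fun _ => ⟨i.2, hi⟩⟩
        · exact ⟨j.1, fun h => absurd h hj⟩
      choose g hg using hch
      refine Finset.card_le_card_of_injOn (fun j => (g j, j.1)) ?_
        (fun i _ j _ hij => Subtype.ext (congrArg Prod.snd hij))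
      intro j hj
      obtain ⟨hi, hij⟩ := hg j (Finset.mem_filter.1 hj).2
      obtain ⟨hm1, hm2⟩ := mem_Rg hij
      refine Finset.mem_filter.2 ⟨Finset.mem_univ _, ?_⟩
      have e1 := symm_of_pos (fun i : Fin L => i.val < h) a b ⟨g j, hi⟩
      have e2 := symm_of_neg (fun i : Fin L => i.val < h) a b j
      constructor
      · show 2 ≤ |((((Equiv.piEquivPiSubtypeProd (fun i : Fin L => i.val < h)
          (fun _ => Fin L × Fin L)).symm (a, b) (g j)).2.val : ℕ) : ℤ) -
          ((((Equiv.piEquivPiSubtypeProd (fun i : Fin L => i.val < h)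
          (fun _ => Fin L × Fin L)).symm (a, b) j.1).2.val : ℕ) : ℤ)|
        rw [e1, e2]
        exact hm1
      · show |(((((Equiv.piEquivPiSubtypeProd (fun i : Fin L => i.val < h)
          (fun _ => Fin L × Fin L)).symm (a, b) (g j)).1.val : ℕ) : ℤ) -
          ((((Equiv.piEquivPiSubtypeProd (fun i : Fin L => i.val < h)
          (fun _ => Fin L × Fin L)).symm (a, b) j.1).1.val : ℕ) : ℤ) : ℤ) + t *
          (((((Equiv.piEquivPiSubtypeProd (fun i : Fin L => i.val < h)
          (fun _ => Fin L × Fin L)).symm (a, b) (g j)).2.val : ℕ) : ℤ) -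
          ((((Equiv.piEquivPiSubtypeProd (fun i : Fin L => i.val < h)
          (fun _ => Fin L × Fin L)).symm (a, b) j.1).2.val : ℕ) : ℤ) : ℤ) - z| ≤ 1 / 2
        rw [e1, e2]
        push_cast
        exact hm2
    have h2 := Finset.card_filter_add_card_filter_not (s := Finset.univ)
      (fun j : {i : Fin L // ¬ i.val < h} => b j ∈ R)
    rw [Finset.card_univ, hcB] at h2
    have h3 : (Finset.univ.filter fun j : {i : Fin L // ¬ i.val < h} => ¬ b j ∈ R).card ≤
        (Finset.univ.filter fun j : {i : Fin L // ¬ i.val < h} => b j ∈ Rᶜ).card :=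
      Finset.card_le_card fun j hj => Finset.mem_filter.2 ⟨Finset.mem_univ _,
        Finset.mem_compl.2 (Finset.mem_filter.1 hj).2⟩
    omega
  have hfin := card_le (fun i : Fin L => i.val < h) P
    ((L : ℝ) ^ s * Real.exp (-((s1 : ℝ) / (24 * M * L) * (((L - h : ℕ) : ℝ) - s))) *
        ((L : ℝ) ^ 2) ^ (L - h)) (fun a => (le_of_eq (fcard' _ _ _ _ _ _ fun _ => Iff.rfl)).trans (key a))
  rw [Fintype.card_pi, Finset.prod_const, Finset.card_univ, hcA, hcβ, hm] at hfin
  refine le_trans (le_of_eq ?_) (hfin.trans (le_of_eq ?_))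
  · unfold nb
    exact fcard' _ _ _ _ _ _ fun _ => Iff.rfl
  · push_cast
    have e1 : (L : ℝ) ^ (2 * L) = ((L : ℝ) ^ 2) ^ h * ((L : ℝ) ^ 2) ^ (L - h) := by
      rw [← pow_add, Nat.add_sub_cancel' hhL, ← pow_mul]
    rw [e1]
    ring

end Pool.Agent.RDS
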