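import Pool.Agent.RDS.Stmts

set_option autoImplicit false

namespace Pool.Agent.RDS.RLM

open Set Pool.Agent.RDS

theorem nb_mono {L : ℕ} {P Q : (Fin L → Fin L × Fin L) → Prop} (h : ∀ ω, P ω → Q ω) :
    nb L P ≤ nb L Q := by
  classical
  unfold nb
  norm_cast
  apply Finset.card_le_card
  intro ω hω
  rw [Finset.mem_filter] at hω ⊢
  exact ⟨hω.1, h ω hω.2⟩

theorem card_or {α : Type} [Fintype α] (P Q : α → Prop) (i1 : DecidablePred P)
    (i2 : DecidablePred Q) (i3 : DecidablePred fun a => P a ∨ Q a) :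
    (Finset.univ.filter fun a => P a ∨ Q a).card ≤
      (Finset.univ.filter P).card + (Finset.univ.filter Q).card := by
  classical
  refine (Finset.card_le_card (fun a ha => ?_)).trans
    (Finset.card_union_le (Finset.univ.filter P) (Finset.univ.filter Q))
  rw [Finset.mem_filter] at ha
  rw [Finset.mem_union, Finset.mem_filter, Finset.mem_filter]
  exact ha.2.imp (fun h => ⟨ha.1, h⟩) (fun h => ⟨ha.1, h⟩)

theorem nb_or {L : ℕ} (P Q : (Fin L → Fin L × Fin L) → Prop) :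
    nb L (fun ω => P ω ∨ Q ω) ≤ nb L P + nb L Q := by
  unfold nb
  exact_mod_cast card_or P Q _ _ _

theorem nb_ex {L : ℕ} {ι : Type} (J : Finset ι) (P : ι → (Fin L → Fin L × Fin L) → Prop) :
    nb L (fun ω => ∃ i ∈ J, P i ω) ≤ ∑ i ∈ J, nb L (P i) := by
  classical
  induction J using Finset.induction_on with
  | empty =>
    unfold nb
    simp
  | insert a s ha ih =>
    rw [Finset.sum_insert ha]
    refine (nb_mono (Q := fun ω => P a ω ∨ ∃ i ∈ s, P i ω) ?_).trans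
      ((nb_or _ _).trans (add_le_add le_rfl ih))
    rintro ω ⟨i, hi, h⟩
    rcases Finset.mem_insert.1 hi with rfl | hi
    · exact Or.inl h
    · exact Or.inr ⟨i, hi, h⟩

/-- The exponential factor for the slabs. -/
theorem exp1 (L s1 : ℕ) (hL : 200 ≤ L) (h : 4 * s1 ≤ L) :
    ((23 : ℝ) / 24) ^ (L / 2 - s1) ≤ 2 * Real.exp (-((L : ℝ) / 96)) := by
  have h1 : (23 : ℝ) / 24 ≤ Real.exp (-(1 / 24)) := by
    have := Real.add_one_le_exp (-(1 / 24 : ℝ))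
    linarith
  have h2 : ((23 : ℝ) / 24) ^ (L / 2 - s1) ≤ Real.exp (-(1 / 24)) ^ (L / 2 - s1) :=
    pow_le_pow_left₀ (by norm_num) h1 _
  rw [← Real.exp_nat_mul] at h2
  refine h2.trans ?_
  have h3 : (L : ℝ) / 4 - 1 / 2 ≤ ((L / 2 - s1 : ℕ) : ℝ) := by
    have : L ≤ 4 * (L / 2 - s1) + 2 := by omega
    have h' : (L : ℝ) ≤ 4 * ((L / 2 - s1 : ℕ) : ℝ) + 2 := by exact_mod_cast this
    linarith
  have h4 : (2 : ℝ) = Real.exp (Real.log 2) := by rw [Real.exp_log (by norm_num)]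
  rw [h4, ← Real.exp_add]
  apply Real.exp_le_exp.2
  have := Real.log_two_gt_d9
  nlinarith

theorem Sl_pos (L : ℕ) {z : ℝ} (hz : 0 ≤ z) : Sl L z = Sl L 0 := by
  unfold Sl
  apply Finset.filter_congr
  intro a _
  constructor
  · rintro (h | h)
    · exact Or.inl ⟨le_rfl, h.2⟩
    · exact absurd h.1 (not_lt.2 hz)
  · rintro (h | h)
    · exact Or.inl ⟨hz, h.2⟩
    · exact absurd h.1 (lt_irrefl _)

theorem Sl_neg (L : ℕ) {z : ℝ} (hz : z < 0) : Sl L z = Sl L (-1) := by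
  unfold Sl
  apply Finset.filter_congr
  intro a _
  constructor
  · rintro (h | h)
    · exact absurd h.1 (not_le.2 hz)
    · exact Or.inr ⟨by norm_num, h.2⟩
  · rintro (h | h)
    · exact absurd h.1 (by norm_num)
    · exact Or.inr ⟨hz, h.2⟩

theorem dy_le {L : ℕ} (ω : Fin L → Fin L × Fin L) (p : Fin L × Fin L) :
    |(dy (dg ω) p : ℝ)| ≤ L := by
  unfold dy dg
  have h1 := (ω p.1).2.isLt
  have h2 := (ω p.2).2.isLt
  have h1' : (((ω p.1).2.val : ℕ) : ℝ) ≤ L := by exact_mod_cast h1.le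
  have h2' : (((ω p.2).2.val : ℕ) : ℝ) ≤ L := by exact_mod_cast h2.le
  have h3 : (0 : ℝ) ≤ (((ω p.1).2.val : ℕ) : ℝ) := Nat.cast_nonneg _
  have h4 : (0 : ℝ) ≤ (((ω p.2).2.val : ℕ) : ℝ) := Nat.cast_nonneg _
  push_cast
  rw [abs_le]
  constructor <;> linarith

/-- Rounding. -/
theorem rnd {L s : ℕ} (hL : 200 ≤ L) (ω : Fin L → Fin L × Fin L)
    (h : ¬ Low (dg ω) ((s : ℝ) / L)) :
    ∃ i ∈ Finset.range (16 * L + 1), ∃ j ∈ (Finset.Icc (-(11 * L : ℤ)) (11 * L)).filter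
      (fun j : ℤ => |(j : ℝ) / 16| ≤ 2 / 3 * L + 1 / 16),
      (Finset.univ.filter fun p : Fin L × Fin L => 2 ≤ |dy (dg ω) p| ∧
        |dt (dg ω) ((i : ℝ) / (16 * L)) p - (j : ℝ) / 16| ≤ 1 / 2).card < s := by
  have hL0 : (0 : ℝ) < L := by
    have : (200 : ℝ) ≤ L := by exact_mod_cast hL
    linarith
  unfold Low at h
  push Not at h
  obtain ⟨t, ht, z, hz, hc⟩ := h
  rw [div_mul_cancel₀ _ hL0.ne'] at hc
  have hc' : (Finset.univ.filter fun p : Fin L × Fin L => 2 ≤ |dy (dg ω) p| ∧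
    |dt (dg ω) t p - z| ≤ 2 / 3).card < s := by exact_mod_cast hc
  have f1 : (⌊16 * L * t⌋₊ : ℝ) ≤ 16 * L * t := Nat.floor_le (by
    have := ht.1
    positivity)
  have f2 : 16 * L * t < (⌊16 * L * t⌋₊ : ℝ) + 1 := Nat.lt_floor_add_one _
  have g1 : ((⌊16 * z⌋ : ℤ) : ℝ) ≤ 16 * z := Int.floor_le _
  have g2 : 16 * z < ((⌊16 * z⌋ : ℤ) : ℝ) + 1 := Int.lt_floor_add_one _
  have hz' := abs_le.1 hz
  refine ⟨⌊16 * L * t⌋₊, ?_, ⌊16 * z⌋, ?_, ?_⟩
  · rw [Finset.mem_range]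
    have : (⌊16 * L * t⌋₊ : ℝ) ≤ 16 * L := f1.trans (by nlinarith [ht.2])
    have h' : ⌊16 * L * t⌋₊ ≤ 16 * L := by exact_mod_cast this
    omega
  · rw [Finset.mem_filter, Finset.mem_Icc]
    have hL1 : (200 : ℝ) ≤ L := by exact_mod_cast hL
    refine ⟨⟨?_, ?_⟩, ?_⟩
    · have : (-(11 * L : ℝ)) ≤ ((⌊16 * z⌋ : ℤ) : ℝ) := by linarith [hz'.1]
      exact_mod_cast this
    · have : ((⌊16 * z⌋ : ℤ) : ℝ) ≤ 11 * L := by linarith [hz'.2]
      exact_mod_cast this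
    · rw [abs_le]
      constructor <;> linarith [hz'.1, hz'.2]
  · refine lt_of_le_of_lt (Finset.card_le_card ?_) hc'
    intro p hp
    rw [Finset.mem_filter] at hp ⊢
    refine ⟨hp.1, hp.2.1, ?_⟩
    have e1 : |t - (⌊16 * L * t⌋₊ : ℝ) / (16 * L)| ≤ 1 / (16 * L) := by
      rw [abs_le]
      constructor
      · rw [le_sub_iff_add_le, neg_add_eq_sub, ← sub_div, div_le_iff₀ (by positivity)]
        nlinarith
      · rw [sub_le_iff_le_add, ← add_div, le_div_iff₀ (by positivity)]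
        nlinarith
    have e2 : |(t - (⌊16 * L * t⌋₊ : ℝ) / (16 * L)) * (dy (dg ω) p : ℝ)| ≤ 1 / 16 := by
      rw [abs_mul]
      calc _ ≤ 1 / (16 * (L : ℝ)) * L := mul_le_mul e1 (dy_le ω p) (abs_nonneg _) (by positivity)
        _ = 1 / 16 := by field_simp
    have e3 : |z - ((⌊16 * z⌋ : ℤ) : ℝ) / 16| ≤ 1 / 16 := by
      rw [abs_le]
      constructor <;> linarith
    have e4 := hp.2.2
    unfold dt at e4 ⊢
    rw [abs_le] at e2 e3 e4 ⊢
    constructor <;> linarith [e2.1, e2.2, e3.1, e3.2, e4.1, e4.2]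

theorem card_J (L : ℕ) (hL : 200 ≤ L) : ((Finset.range (16 * L + 1)).card : ℝ) *
    (((Finset.Icc (-(11 * L : ℤ)) (11 * L)).filter
      (fun j : ℤ => |(j : ℝ) / 16| ≤ 2 / 3 * L + 1 / 16)).card : ℝ) ≤ 400 * (L : ℝ) ^ 2 := by
  have h1 : ((Finset.Icc (-(11 * L : ℤ)) (11 * L)).filter
      (fun j : ℤ => |(j : ℝ) / 16| ≤ 2 / 3 * L + 1 / 16)).card ≤ 22 * L + 1 := by
    refine (Finset.card_filter_le _ _).trans ?_
    rw [Int.card_Icc]
    omega
  have h2 : (((Finset.Icc (-(11 * L : ℤ)) (11 * L)).filter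
      (fun j : ℤ => |(j : ℝ) / 16| ≤ 2 / 3 * L + 1 / 16)).card : ℝ) ≤ 22 * L + 1 := by
    exact_mod_cast h1
  rw [Finset.card_range]
  push_cast
  have hL1 : (200 : ℝ) ≤ L := by exact_mod_cast hL
  calc _ ≤ (16 * (L : ℝ) + 1) * (22 * L + 1) := mul_le_mul_of_nonneg_left h2 (by positivity)
    _ ≤ _ := by nlinarith

end Pool.Agent.RDS.RLM

namespace Pool.Agent.RDS

open Set RLM

theorem RL_thm (hRC : Stmt_RC) (hRG : Stmt_RG) (hRU : Stmt_RU) (hRS : Stmt_RS) (hRH : Stmt_RH) :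
    ∀ L M s s1 : ℕ, 200 ≤ L → 1 ≤ M → 1 ≤ s → 4 * s ≤ L → 4 * s1 ≤ L →
  nb L (fun ω => Deg (dg ω) M ∧ ¬ Low (dg ω) ((s : ℝ) / L)) ≤
    (4 * (L : ℝ) ^ s1 * Real.exp (-((L : ℝ) / 96)) +
      400 * (L : ℝ) ^ 2 * (L : ℝ) ^ s * Real.exp (-((s1 : ℝ) / (96 * M)))) * (L : ℝ) ^ (2 * L) := by
  classical
  intro L M s s1 hL hM hs hs4 hs14
  have hL0 : (0 : ℝ) < L := by
    have : (200 : ℝ) ≤ L := by exact_mod_cast hL
    linarith
  have hM0 : (0 : ℝ) < M := by exact_mod_cast hM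
  set J := (Finset.Icc (-(11 * L : ℤ)) (11 * L)).filter
      (fun j : ℤ => |(j : ℝ) / 16| ≤ 2 / 3 * L + 1 / 16) with hJ
  -- the slabs
  let A : ℝ → (Fin L → Fin L × Fin L) → Prop := fun z ω =>
    (Finset.univ.filter fun i : Fin L => i.val < L / 2 ∧ ω i ∈ Sl L z).card < s1
  have hA : ∀ z : ℝ, nb L (A z) ≤ 2 * (L : ℝ) ^ s1 * Real.exp (-((L : ℝ) / 96)) *
      (L : ℝ) ^ (2 * L) := by
    intro z
    have h1 := hRS hRC L (L / 2) s1 z hL (by omega) (by omega)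
    refine h1.trans ?_
    apply mul_le_mul_of_nonneg_right _ (by positivity)
    calc (L : ℝ) ^ s1 * (23 / 24) ^ (L / 2 - s1) ≤
        (L : ℝ) ^ s1 * (2 * Real.exp (-((L : ℝ) / 96))) :=
          mul_le_mul_of_nonneg_left (exp1 L s1 hL hs14) (by positivity)
      _ = _ := by ring
  -- the pairs
  let B : ℕ × ℤ → (Fin L → Fin L × Fin L) → Prop := fun q ω => Deg (dg ω) M ∧
      s1 ≤ (Finset.univ.filter fun i : Fin L => i.val < L / 2 ∧ ω i ∈ Sl L ((q.2 : ℝ) / 16)).card ∧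
      (Finset.univ.filter fun p : Fin L × Fin L => 2 ≤ |dy (dg ω) p| ∧
        |dt (dg ω) ((q.1 : ℝ) / (16 * L)) p - (q.2 : ℝ) / 16| ≤ 1 / 2).card < s
  have hB : ∀ q ∈ Finset.range (16 * L + 1) ×ˢ J, nb L (B q) ≤
      (L : ℝ) ^ s * Real.exp (-((s1 : ℝ) / (96 * M))) * (L : ℝ) ^ (2 * L) := by
    intro q hq
    rw [Finset.mem_product, Finset.mem_range, hJ, Finset.mem_filter] at hq
    have hq1 : (q.1 : ℝ) ≤ 16 * L := by
      have : q.1 ≤ 16 * L := by omega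
      exact_mod_cast this
    have h1 := hRH hRC hRG hRU L (L / 2) M s s1 ((q.1 : ℝ) / (16 * L)) ((q.2 : ℝ) / 16) hL
      (by omega) hM (by omega) (by positivity) ((div_le_one (by positivity)).2 hq1) hq.2.2
    refine h1.trans ?_
    apply mul_le_mul_of_nonneg_right _ (by positivity)
    apply mul_le_mul_of_nonneg_left _ (by positivity)
    apply Real.exp_le_exp.2
    apply neg_le_neg
    have h2 : (L : ℝ) / 4 ≤ (L : ℝ) - ((L / 2 : ℕ) : ℝ) - s := by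
      have : L + 4 * (L / 2) + 4 * s ≤ 4 * L := by omega
      have h' : (L : ℝ) + 4 * ((L / 2 : ℕ) : ℝ) + 4 * s ≤ 4 * L := by exact_mod_cast this
      linarith
    calc (s1 : ℝ) / (96 * M) = (s1 : ℝ) / (24 * M * L) * (L / 4) := by
          field_simp
          ring
      _ ≤ _ := mul_le_mul_of_nonneg_left h2 (by positivity)
  have hsub : nb L (fun ω => Deg (dg ω) M ∧ ¬ Low (dg ω) ((s : ℝ) / L)) ≤
      nb L (fun ω => (A 0 ω ∨ A (-1) ω) ∨ ∃ q ∈ Finset.range (16 * L + 1) ×ˢ J, B q ω) := by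
    apply nb_mono
    rintro ω ⟨hd, hl⟩
    obtain ⟨i, hi, j, hj, h⟩ := rnd hL ω hl
    by_cases h0 : A 0 ω
    · exact Or.inl (Or.inl h0)
    by_cases h1 : A (-1) ω
    · exact Or.inl (Or.inr h1)
    refine Or.inr ⟨(i, j), Finset.mem_product.2 ⟨hi, hj⟩, hd, ?_, h⟩
    rcases le_or_gt 0 ((j : ℝ) / 16) with hz | hz
    · simp only [Sl_pos L hz]
      exact not_lt.1 h0
    · simp only [Sl_neg L hz]
      exact not_lt.1 h1
  refine hsub.trans ((nb_or _ _).trans ?_)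
  rw [add_mul]
  apply add_le_add
  · refine (nb_or _ _).trans ((add_le_add (hA 0) (hA (-1))).trans (le_of_eq ?_))
    ring
  · refine (nb_ex _ _).trans ((Finset.sum_le_sum hB).trans ?_)
    rw [Finset.sum_const, Finset.card_product, nsmul_eq_mul]
    push_cast
    have h3 := card_J L hL
    rw [← hJ] at h3
    calc _ ≤ (400 * (L : ℝ) ^ 2) *
        ((L : ℝ) ^ s * Real.exp (-((s1 : ℝ) / (96 * M))) * (L : ℝ) ^ (2 * L)) :=
          mul_le_mul_of_nonneg_right h3 (by positivity)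
      _ = _ := by ring

end Pool.Agent.RDS
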