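import Pool.Agent.RDS.Stmts

/-!
# RND: almost all choices satisfy the criterion (MP_98e313_an)
-/

set_option autoImplicit false

namespace Pool.Agent.RDS

namespace RNDM

theorem nb_mono {L : ℕ} {P Q : (Fin L → Fin L × Fin L) → Prop} (h : ∀ ω, P ω → Q ω) :
    nb L P ≤ nb L Q := by
  classical
  unfold nb
  have h1 : (Finset.univ.filter P).card ≤ (Finset.univ.filter Q).card := by
    apply Finset.card_le_card
    intro ω hω
    rw [Finset.mem_filter] at hω ⊢
    exact ⟨hω.1, h ω hω.2⟩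
  exact_mod_cast h1

theorem nb_or {L : ℕ} (R P Q : (Fin L → Fin L × Fin L) → Prop) (hR : ∀ ω, R ω → P ω ∨ Q ω) :
    nb L R ≤ nb L P + nb L Q := by
  classical
  unfold nb
  rw [← Nat.cast_add]
  refine Nat.cast_le.2 ?_
  refine (Finset.card_le_card (fun ω hω => ?_)).trans (Finset.card_union_le _ _)
  rw [Finset.mem_union, Finset.mem_filter, Finset.mem_filter]
  rcases hR ω (Finset.mem_filter.1 hω).2 with h | h
  · exact Or.inl ⟨Finset.mem_univ _, h⟩
  · exact Or.inr ⟨Finset.mem_univ _, h⟩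

theorem nb_nonneg {L : ℕ} (P : (Fin L → Fin L × Fin L) → Prop) : 0 ≤ nb L P := by
  unfold nb
  exact Nat.cast_nonneg _

theorem nb_sum {L : ℕ} (P : (Fin L → Fin L × Fin L) → Prop) (f : (Fin L → Fin L × Fin L) → ℝ)
    (c : ℝ) (h : ∀ ω, P ω → c ≤ f ω) (hf : ∀ ω, 0 ≤ f ω) : nb L P * c ≤ ∑ ω, f ω := by
  classical
  unfold nb
  rw [← nsmul_eq_mul, ← Finset.sum_const]
  refine (Finset.sum_le_sum (fun ω hω => ?_)).trans (Finset.sum_le_univ_sum_of_nonneg hf)
  exact h ω (Finset.mem_filter.1 hω).2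

theorem markov (hRE : Stmt_RE) (L : ℕ) (hL : 1 ≤ L) (K : ℝ) (hK : 1 ≤ K) :
    nb L (fun ω => ¬ (eng (dg ω) : ℝ) ≤ K * (L : ℝ) ^ 2) ≤ 3 / K * (L : ℝ) ^ (2 * L) := by
  classical
  have h1 := hRE L hL
  have hL0 : (0 : ℝ) < L := by exact_mod_cast hL
  have hK0 : (0 : ℝ) < K := by linarith
  have h2 : nb L (fun ω => ¬ (eng (dg ω) : ℝ) ≤ K * (L : ℝ) ^ 2) * (K * (L : ℝ) ^ 2) ≤
      ∑ ω : Fin L → Fin L × Fin L, (eng (dg ω) : ℝ) :=
    nb_sum _ _ _ (fun ω hω => (not_le.1 hω).le) (fun ω => Nat.cast_nonneg _)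
  have h3 := h2.trans h1
  have h4 : (0 : ℝ) < K * (L : ℝ) ^ 2 := by positivity
  refine le_of_mul_le_mul_right (h3.trans (le_of_eq ?_)) h4
  field_simp

end RNDM

open RNDM in
theorem RND_thm : Stmt_RND := by
  intro hRC hRG hRU hRS hRH hRD hRE hRL hAS
  obtain ⟨M, s, s1, K, δ, hδ, L0, hL0, h⟩ := hAS
  refine tendsto_of_tendsto_of_tendsto_of_le_of_le' tendsto_const_nhds hδ ?_ ?_
  · exact Filter.Eventually.of_forall fun L => div_nonneg (nb_nonneg _) (by positivity)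
  · filter_upwards [Filter.eventually_ge_atTop L0] with L hL
    obtain ⟨h1, h2, h3, h4, h5, h6, h7, h8⟩ := h L hL
    have hL200 : 200 ≤ L := hL0.trans hL
    have hLp : (0 : ℝ) < L := by
      have : 0 < L := by omega
      exact_mod_cast this
    have hP : (0 : ℝ) < (L : ℝ) ^ (2 * L) := by positivity
    have e1 := hRD hRC L (M L) (by omega) h2
    have e2 := markov hRE L (by omega) (K L) h6
    have e3 := hRL hRC hRG hRU hRS hRH L (M L) (s L) (s1 L) hL200 h1 h3 h4 h5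
    have e4 : nb L (fun ω => ¬ ∃ M K c, Crit (dg ω) M K c) ≤
        nb L (fun ω => ¬ Deg (dg ω) (M L) ∨ ¬ (eng (dg ω) : ℝ) ≤ K L * (L : ℝ) ^ 2 ∨
          (Deg (dg ω) (M L) ∧ ¬ Low (dg ω) ((s L : ℝ) / L))) := by
      apply nb_mono
      intro ω hω
      by_contra hcon
      apply hω
      rw [not_or, not_or, not_not, not_not] at hcon
      obtain ⟨c1, c2, c3⟩ := hcon
      have c4 : Low (dg ω) ((s L : ℝ) / L) := by
        by_contra hl
        exact c3 ⟨c1, hl⟩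
      have hs1 : (1 : ℝ) ≤ s L := by exact_mod_cast h3
      have hs4 : 4 * (s L : ℝ) ≤ L := by exact_mod_cast h4
      refine ⟨M L, K L, (s L : ℝ) / L, ?_⟩
      exact
        { four := by omega
          bx := fun i => ⟨(ω i).1.2, (ω i).2.2⟩
          deg := c1
          low := c4
          enr := c2
          hM := h1
          hK := h6
          hc := div_pos (by linarith) hLp
          hc' := by
            rw [div_le_iff₀ hLp]
            linarith
          key := h7 }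
    have e5 := nb_or (L := L) _ (fun ω => ¬ Deg (dg ω) (M L))
      (fun ω => ¬ (eng (dg ω) : ℝ) ≤ K L * (L : ℝ) ^ 2 ∨
          (Deg (dg ω) (M L) ∧ ¬ Low (dg ω) ((s L : ℝ) / L))) (fun ω hω => hω)
    have e6 := nb_or (L := L) _ (fun ω => ¬ (eng (dg ω) : ℝ) ≤ K L * (L : ℝ) ^ 2)
      (fun ω => Deg (dg ω) (M L) ∧ ¬ Low (dg ω) ((s L : ℝ) / L)) (fun ω hω => hω)
    rw [div_le_iff₀ hP]
    refine le_trans ?_ (mul_le_mul_of_nonneg_right h8 hP.le)
    have e7 : nb L (fun ω => ¬ ∃ M K c, Crit (dg ω) M K c) ≤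
        20 * (L : ℝ) ^ 2 * (11 ^ (M L + 1) / (Nat.factorial (M L + 1) : ℝ)) * (L : ℝ) ^ (2 * L) +
        (3 / K L * (L : ℝ) ^ (2 * L) +
        (4 * (L : ℝ) ^ s1 L * Real.exp (-((L : ℝ) / 96)) +
      400 * (L : ℝ) ^ 2 * (L : ℝ) ^ s L * Real.exp (-((s1 L : ℝ) / (96 * M L)))) *
        (L : ℝ) ^ (2 * L)) := by
      linarith
    refine e7.trans (le_of_eq ?_)
    ring

end Pool.Agent.RDS
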