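import Pool.Agent.RDS.Stmts
import Pool.Agent.RDS.Fcd

/-!
# Random digit sets, module RS: the slabs contain many digits of the first indices
-/

set_option autoImplicit false

namespace Pool.Agent.RDS

open MeasureTheory Set

/-- the number of the integers of `{0, .., L-1}` in an interval of length `L / 12` -/
theorem rs_int (L : ℕ) (hL : 200 ≤ L) (u : ℝ) (hu : 0 ≤ u) (hu' : u + (L : ℝ) / 12 ≤ 11 / 12 * L) :
    (L : ℝ) / 24 ≤ ((Finset.univ.filter fun x : Fin L =>
      u ≤ (x.val : ℝ) ∧ (x.val : ℝ) ≤ u + (L : ℝ) / 12).card : ℝ) := by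
  have hLR : (200 : ℝ) ≤ L := by exact_mod_cast hL
  -- the integers `⌈u⌉, .., ⌈u⌉ + k - 1` with `k = ⌊L / 12⌋`
  set a : ℕ := ⌈u⌉₊ with ha
  set k : ℕ := ⌊(L : ℝ) / 12⌋₊ with hk
  have ha1 : u ≤ a := Nat.le_ceil u
  have ha2 : (a : ℝ) < u + 1 := Nat.ceil_lt_add_one hu
  have hk1 : (k : ℝ) ≤ (L : ℝ) / 12 := Nat.floor_le (by positivity)
  have hk2 : (L : ℝ) / 12 < k + 1 := Nat.lt_floor_add_one _
  have hb : ∀ i < k, a + i < L := by
    intro i hi
    have h1 : ((i + 1 : ℕ) : ℝ) ≤ k := by exact_mod_cast hi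
    push_cast at h1
    have h2 : ((a + i : ℕ) : ℝ) < L := by
      push_cast
      linarith
    exact_mod_cast h2
  have hcard : k ≤ (Finset.univ.filter fun x : Fin L =>
      u ≤ (x.val : ℝ) ∧ (x.val : ℝ) ≤ u + (L : ℝ) / 12).card := by
    have h1 : (Finset.univ : Finset (Fin k)).card ≤ (Finset.univ.filter fun x : Fin L =>
        u ≤ (x.val : ℝ) ∧ (x.val : ℝ) ≤ u + (L : ℝ) / 12).card := by
      refine Finset.card_le_card_of_injOn (fun i : Fin k => (⟨a + i.val, hb i.val i.2⟩ : Fin L)) ?_ ?_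
      · intro i _
        rw [Finset.mem_coe, Finset.mem_filter]
        refine ⟨Finset.mem_univ _, ?_, ?_⟩
        · show u ≤ ((a + i.val : ℕ) : ℝ)
          push_cast
          have : (0 : ℝ) ≤ (i.val : ℝ) := Nat.cast_nonneg _
          linarith
        · show ((a + i.val : ℕ) : ℝ) ≤ u + (L : ℝ) / 12
          have h1 : ((i.val + 1 : ℕ) : ℝ) ≤ k := by exact_mod_cast i.2
          push_cast at h1 ⊢
          linarith
      · intro i _ j _ hij
        have h2 : a + i.val = a + j.val := congrArg Fin.val hij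
        exact Fin.ext (by omega)
    rwa [Finset.card_univ, Fintype.card_fin] at h1
  have h3 : (k : ℝ) ≤ ((Finset.univ.filter fun x : Fin L =>
      u ≤ (x.val : ℝ) ∧ (x.val : ℝ) ≤ u + (L : ℝ) / 12).card : ℝ) := by exact_mod_cast hcard
  linarith

/-- the size of the slab -/
theorem rs_Sl (L : ℕ) (hL : 200 ≤ L) (z : ℝ) : (L : ℝ) ^ 2 / 24 ≤ ((Sl L z).card : ℝ) := by
  have hLR : (200 : ℝ) ≤ L := by exact_mod_cast hL
  obtain ⟨u, hu, hu', hsub⟩ : ∃ u : ℝ, 0 ≤ u ∧ u + (L : ℝ) / 12 ≤ 11 / 12 * L ∧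
      (Finset.univ.filter fun x : Fin L => u ≤ (x.val : ℝ) ∧ (x.val : ℝ) ≤ u + (L : ℝ) / 12) ×ˢ
        (Finset.univ : Finset (Fin L)) ⊆ Sl L z := by
    by_cases hz : 0 ≤ z
    · refine ⟨5 / 6 * L, by positivity, by linarith, ?_⟩
      intro a ha
      rw [Finset.mem_product, Finset.mem_filter] at ha
      obtain ⟨⟨-, h1, h2⟩, -⟩ := ha
      unfold Sl
      rw [Finset.mem_filter]
      exact ⟨Finset.mem_univ _, Or.inl ⟨hz, h1, by linarith⟩⟩
    · refine ⟨1 / 12 * L, by positivity, by linarith, ?_⟩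
      intro a ha
      rw [Finset.mem_product, Finset.mem_filter] at ha
      obtain ⟨⟨-, h1, h2⟩, -⟩ := ha
      unfold Sl
      rw [Finset.mem_filter]
      exact ⟨Finset.mem_univ _, Or.inr ⟨not_le.1 hz, h1, by linarith⟩⟩
  have h1 := Finset.card_le_card hsub
  rw [Finset.card_product, Finset.card_univ, Fintype.card_fin] at h1
  have h2 := rs_int L hL u hu hu'
  have h3 : (((Finset.univ.filter fun x : Fin L =>
      u ≤ (x.val : ℝ) ∧ (x.val : ℝ) ≤ u + (L : ℝ) / 12).card * L : ℕ) : ℝ) ≤ ((Sl L z).card : ℝ) := by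
    exact_mod_cast h1
  push_cast at h3
  calc (L : ℝ) ^ 2 / 24 = (L : ℝ) / 24 * L := by ring
    _ ≤ _ := mul_le_mul_of_nonneg_right h2 (by positivity)
    _ ≤ _ := h3

open Classical in
/-- restriction to the first indices -/
theorem rs_split {β : Type} [Fintype β] (L h : ℕ) (Q : ({i : Fin L // i.val < h} → β) → Prop) :
    (Finset.univ.filter fun ω : Fin L → β => Q fun i => ω i.1).card =
      (Finset.univ.filter Q).card * Fintype.card ({i : Fin L // ¬ i.val < h} → β) := by
  rw [← Finset.card_univ (α := {i : Fin L // ¬ i.val < h} → β), ← Finset.card_product]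
  refine Finset.card_equiv (Equiv.piEquivPiSubtypeProd (fun i : Fin L => i.val < h) fun _ => β) ?_
  intro ω
  rw [Finset.mem_filter, Finset.mem_product, Finset.mem_filter]
  constructor
  · rintro ⟨-, h2⟩
    exact ⟨⟨Finset.mem_univ _, h2⟩, Finset.mem_univ _⟩
  · rintro ⟨⟨-, h2⟩, -⟩
    exact ⟨Finset.mem_univ _, h2⟩

theorem rs_card (L h : ℕ) (hh : h ≤ L) : Fintype.card {i : Fin L // i.val < h} = h := by
  have e : {i : Fin L // i.val < h} ≃ Fin h :=
    { toFun := fun i => ⟨i.1.val, i.2⟩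
      invFun := fun i => ⟨⟨i.val, by omega⟩, i.2⟩
      left_inv := fun i => rfl
      right_inv := fun i => rfl }
  rw [Fintype.card_congr e, Fintype.card_fin]

theorem rs_card' (L h : ℕ) (hh : h ≤ L) : Fintype.card {i : Fin L // ¬ i.val < h} = L - h := by
  rw [Fintype.card_subtype_compl, rs_card L h hh, Fintype.card_fin]

theorem RS_thm : Stmt_RS := by
  classical
  intro hRC L h s z hL hh hs
  have hLR : (200 : ℝ) ≤ L := by exact_mod_cast hL
  have hL0 : (0 : ℝ) < L := by linarith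
  -- the complement of the slab
  set Z : Finset (Fin L × Fin L) := Finset.univ \ Sl L z with hZ
  have hZcard : (Z.card : ℝ) ≤ 23 / 24 * (L : ℝ) ^ 2 := by
    have h1 : Z.card + (Sl L z).card = L * L := by
      rw [hZ, Finset.card_sdiff_add_card_eq_card (Finset.subset_univ _), Finset.card_univ,
        Fintype.card_prod, Fintype.card_fin]
    have h2 : (Z.card : ℝ) + ((Sl L z).card : ℝ) = L * L := by exact_mod_cast h1
    have h3 := rs_Sl L hL z
    nlinarith
  set Q : ({i : Fin L // i.val < h} → Fin L × Fin L) → Prop := fun ω =>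
    h - s ≤ (Finset.univ.filter fun i => ω i ∈ Z).card with hQ
  have hrc : (Finset.univ.filter Q).card ≤ h.choose (h - s) * Z.card ^ (h - s) *
      (L * L) ^ (h - (h - s)) := by
    have h1 := hRC {i : Fin L // i.val < h} (Fin L × Fin L) Z (h - s)
      (by rw [rs_card L h hh]; omega)
    rw [rs_card L h hh, Fintype.card_prod, Fintype.card_fin] at h1
    refine le_trans (le_of_eq ?_) h1
    exact fcard2 (h - s) _ _ _ _ (fun (ω : {i : Fin L // i.val < h} → Fin L × Fin L)
      (i : {i : Fin L // i.val < h}) => ω i ∈ Z) _ _ _ _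
  -- the inclusion
  have hsub : (Finset.univ.filter fun ω : Fin L → Fin L × Fin L =>
      (Finset.univ.filter fun i : Fin L => i.val < h ∧ ω i ∈ Sl L z).card < s) ⊆
      (Finset.univ.filter fun ω : Fin L → Fin L × Fin L => Q fun i => ω i.1) := by
    intro ω hω
    rw [Finset.mem_filter] at hω ⊢
    refine ⟨Finset.mem_univ _, ?_⟩
    have h1 : (Finset.univ.filter fun i : {i : Fin L // i.val < h} => ω i.1 ∈ Z).card +
        (Finset.univ.filter fun i : {i : Fin L // i.val < h} => ¬ ω i.1 ∈ Z).card = h := by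
      rw [Finset.card_filter_add_card_filter_not, Finset.card_univ, rs_card L h hh]
    have h2 : (Finset.univ.filter fun i : {i : Fin L // i.val < h} => ¬ ω i.1 ∈ Z).card ≤
        (Finset.univ.filter fun i : Fin L => i.val < h ∧ ω i ∈ Sl L z).card := by
      refine Finset.card_le_card_of_injOn (fun i : {i : Fin L // i.val < h} => i.1) ?_ ?_
      · intro i hi
        rw [Finset.mem_coe, Finset.mem_filter] at hi ⊢
        refine ⟨Finset.mem_univ _, i.2, ?_⟩
        have h3 := hi.2
        rw [hZ, Finset.mem_sdiff, not_and, not_not] at h3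
        exact h3 (Finset.mem_univ _)
      · intro i _ j _ hij
        exact Subtype.ext hij
    show h - s ≤ (Finset.univ.filter fun i : {i : Fin L // i.val < h} => ω i.1 ∈ Z).card
    have h3 := hω.2
    omega
  have hcard : (Finset.univ.filter fun ω : Fin L → Fin L × Fin L =>
      (Finset.univ.filter fun i : Fin L => i.val < h ∧ ω i ∈ Sl L z).card < s).card ≤
      h.choose (h - s) * Z.card ^ (h - s) * (L * L) ^ (h - (h - s)) * (L * L) ^ (L - h) := by
    refine (Finset.card_le_card hsub).trans ?_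
    have e := rs_split (β := Fin L × Fin L) L h Q
    rw [Fintype.card_fun, Fintype.card_prod, Fintype.card_fin, rs_card' L h hh] at e
    refine le_trans (le_of_eq ?_) (Nat.mul_le_mul_right ((L * L) ^ (L - h)) hrc)
    exact (fcard _ _ _ _ _ _ fun _ => Iff.rfl).trans (e.trans
      (congrArg (fun k => k * (L * L) ^ (L - h)) (fcard _ _ _ _ _ _ fun _ => Iff.rfl)))
  have hch : h.choose (h - s) ≤ L ^ s := by
    rw [Nat.choose_symm hs]
    exact (Nat.choose_le_pow h s).trans (Nat.pow_le_pow_left hh s)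
  have hnb : nb L (fun ω => (Finset.univ.filter fun i : Fin L =>
      i.val < h ∧ ω i ∈ Sl L z).card < s) ≤
      ((h.choose (h - s) * Z.card ^ (h - s) * (L * L) ^ (h - (h - s)) *
        (L * L) ^ (L - h) : ℕ) : ℝ) := by
    unfold nb
    refine Nat.cast_le.2 (le_trans (le_of_eq ?_) hcard)
    congr 1
    ext ω
    simp only [Finset.mem_filter]
  refine hnb.trans ?_
  push_cast
  have h1 : (h.choose (h - s) : ℝ) ≤ (L : ℝ) ^ s := by exact_mod_cast hch
  have h2 : (Z.card : ℝ) ^ (h - s) ≤ (23 / 24 * (L : ℝ) ^ 2) ^ (h - s) :=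
    pow_le_pow_left₀ (Nat.cast_nonneg _) hZcard _
  have h3 : h - (h - s) = s := by omega
  rw [h3]
  calc (h.choose (h - s) : ℝ) * (Z.card : ℝ) ^ (h - s) * ((L : ℝ) * L) ^ s * ((L : ℝ) * L) ^ (L - h)
      ≤ (L : ℝ) ^ s * (23 / 24 * (L : ℝ) ^ 2) ^ (h - s) * ((L : ℝ) * L) ^ s *
        ((L : ℝ) * L) ^ (L - h) := by
        refine mul_le_mul_of_nonneg_right (mul_le_mul_of_nonneg_right
          (mul_le_mul h1 h2 (by positivity) (by positivity)) (by positivity)) (by positivity)
    _ = (L : ℝ) ^ s * (23 / 24) ^ (h - s) * (L : ℝ) ^ (2 * L) := by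
        have e1 : (L : ℝ) * L = (L : ℝ) ^ 2 := by ring
        rw [e1, mul_pow, ← pow_mul, ← pow_mul, ← pow_mul]
        have e2 : (L : ℝ) ^ (2 * L) = (L : ℝ) ^ (2 * (h - s)) * (L : ℝ) ^ (2 * s) *
            (L : ℝ) ^ (2 * (L - h)) := by
          rw [← pow_add, ← pow_add]
          congr 1
          omega
        rw [e2]
        ring

end Pool.Agent.RDS
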