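import Pool.Agent.RDS.Stmts

/-!
# RSY: the reflections act on the choices
-/

set_option autoImplicit false

namespace Pool.Agent.RDS

namespace RSYM

variable {L : ℕ}

/-- the reflection of one digit -/
def e1 (L : ℕ) : Fin L × Fin L ≃ Fin L × Fin L := (Equiv.refl (Fin L)).prodCongr Fin.revPerm

/-- the exchange of the coordinates of one digit -/
def e2 (L : ℕ) : Fin L × Fin L ≃ Fin L × Fin L := Equiv.prodComm (Fin L) (Fin L)

theorem fl_dg (ω : Fin L → Fin L × Fin L) : fl (dg ω) = dg (fun i => e1 L (ω i)) := by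
  funext i
  simp only [fl, dg, e1, Equiv.prodCongr_apply, Prod.map_fst, Prod.map_snd, Equiv.refl_apply,
    Fin.revPerm_apply, Fin.val_rev, Prod.mk.injEq, true_and]
  omega

theorem sw_dg (ω : Fin L → Fin L × Fin L) : sw (dg ω) = dg (fun i => e2 L (ω i)) := by
  funext i
  simp only [sw, dg, e2, Equiv.prodComm_apply, Prod.fst_swap, Prod.snd_swap]

theorem nb_equiv (e : Fin L × Fin L ≃ Fin L × Fin L) (Q : (Fin L → Fin L × Fin L) → Prop) :
    nb L (fun ω => Q (fun i => e (ω i))) = nb L Q := by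
  classical
  unfold nb
  congr 1
  refine Finset.card_bij (fun ω _ => fun i => e (ω i)) ?_ ?_ ?_
  · intro ω hω
    simpa using hω
  · intro ω _ ω' _ h
    funext i
    exact e.injective (congrFun h i)
  · intro ω hω
    refine ⟨fun i => e.symm (ω i), ?_, ?_⟩
    · simpa using hω
    · funext i
      simp

end RSYM

open RSYM in
theorem RSY_thm : Stmt_RSY := by
  intro L P
  refine ⟨?_, ?_, ?_⟩
  · rw [← nb_equiv (e1 L) (fun ω => P (dg ω))]
    simp only [fl_dg]
  · rw [← nb_equiv (e2 L) (fun ω => P (dg ω))]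
    simp only [sw_dg]
  · rw [← nb_equiv ((e2 L).trans (e1 L)) (fun ω => P (dg ω))]
    simp only [sw_dg, fl_dg, Equiv.trans_apply]

end Pool.Agent.RDS
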