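import Pool.Agent.RDS.Stmts

/-!
# RU: the union of the regions
-/

set_option autoImplicit false

namespace Pool.Agent.RDS

open MeasureTheory Set

namespace RUM

theorem exists_net {I : Type} [DecidableEq I] (T : Finset I) (u : I → ℝ) :
    ∃ J : Finset I, J ⊆ T ∧ (∀ i ∈ J, ∀ j ∈ J, i ≠ j → 1 < |u i - u j|) ∧
      ∀ i ∈ T, ∃ j ∈ J, |u i - u j| ≤ 1 := by
  classical
  obtain ⟨P, hP⟩ : ∃ P : Finset I → Prop, ∀ J, P J ↔
      ∀ i ∈ J, ∀ j ∈ J, i ≠ j → 1 < |u i - u j| := ⟨_, fun J => Iff.rfl⟩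
  obtain ⟨J, hJ, hmax⟩ := Finset.exists_max_image (T.powerset.filter P) Finset.card
    ⟨∅, by simp [hP]⟩
  rw [Finset.mem_filter, Finset.mem_powerset, hP] at hJ
  refine ⟨J, hJ.1, hJ.2, fun i hi => ?_⟩
  by_contra hcon
  push Not at hcon
  have hiJ : i ∉ J := by
    intro h
    have := hcon i h
    rw [sub_self, abs_zero] at this
    linarith
  have h1 := hmax (insert i J) (by
    rw [Finset.mem_filter, Finset.mem_powerset, hP]
    refine ⟨Finset.insert_subset hi hJ.1, ?_⟩
    intro k hk l hl hkl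
    rw [Finset.mem_insert] at hk hl
    rcases hk with rfl | hk
    · rcases hl with rfl | hl
      · exact absurd rfl hkl
      · exact hcon l hl
    · rcases hl with rfl | hl
      · rw [abs_sub_comm]
        exact hcon k hk
      · exact hJ.2 k hk l hl hkl)
  rw [Finset.card_insert_of_notMem hiJ] at h1
  omega

end RUM

open Classical in
theorem RU_thm : Stmt_RU := by
  intro hRG L I _ a M s t z hL ht0 ht1 hz hdeg hs
  obtain ⟨J, hJT, hJ1, hJ2⟩ := RUM.exists_net
    (Finset.univ.filter fun i : I => a i ∈ Sl L z)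
    (fun i => ((a i).1.val : ℝ) + t * ((a i).2.val : ℝ))
  set T : Finset I := Finset.univ.filter fun i : I => a i ∈ Sl L z with hT
  set U : Finset (Fin L × Fin L) := Finset.univ.filter fun y : Fin L × Fin L =>
    ∃ i, y ∈ Rg L t z (a i) with hU
  have h1 : T.card ≤ M * J.card := by
    have e1 : T ⊆ J.biUnion fun j => Finset.univ.filter fun i : I =>
        |((a i).1.val : ℝ) + t * ((a i).2.val : ℝ) -
          (((a j).1.val : ℝ) + t * ((a j).2.val : ℝ))| ≤ 3 := by
      intro i hi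
      obtain ⟨j, hj, hij⟩ := hJ2 i hi
      rw [Finset.mem_biUnion]
      exact ⟨j, hj, Finset.mem_filter.2 ⟨Finset.mem_univ _, hij.trans (by norm_num)⟩⟩
    calc T.card ≤ _ := Finset.card_le_card e1
      _ ≤ J.card * M := Finset.card_biUnion_le_card_mul _ _ _ fun j _ => hdeg _
      _ = M * J.card := mul_comm _ _
  have hdisj : (J : Set I).PairwiseDisjoint fun j => Rg L t z (a j) := by
    intro i hi j hj hij
    rw [Function.onFun, Finset.disjoint_left]
    intro y hyi hyj
    have e1 := (Finset.mem_filter.1 hyi).2.2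
    have e2 := (Finset.mem_filter.1 hyj).2.2
    have e3 := hJ1 i hi j hj hij
    have e4 : |((a i).1.val : ℝ) + t * ((a i).2.val : ℝ) -
          (((a j).1.val : ℝ) + t * ((a j).2.val : ℝ))| ≤ 1 := by
      rw [abs_le] at e1 e2 ⊢
      constructor <;> linarith [e1.1, e1.2, e2.1, e2.2]
    exact absurd e4 (not_le.2 e3)
  have h2 : (J.card : ℝ) * ((L : ℝ) / 24) ≤ (U.card : ℝ) := by
    have e1 : J.biUnion (fun j => Rg L t z (a j)) ⊆ U := by
      intro y hy
      rw [Finset.mem_biUnion] at hy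
      obtain ⟨j, _, hy⟩ := hy
      exact Finset.mem_filter.2 ⟨Finset.mem_univ _, j, hy⟩
    have e2 := Finset.card_le_card e1
    rw [Finset.card_biUnion hdisj] at e2
    calc (J.card : ℝ) * ((L : ℝ) / 24) = ∑ j ∈ J, (L : ℝ) / 24 := by
          rw [Finset.sum_const, nsmul_eq_mul]
      _ ≤ ∑ j ∈ J, ((Rg L t z (a j)).card : ℝ) := by
          refine Finset.sum_le_sum fun j hj => ?_
          exact hRG L t z (a j) hL ht0 ht1 hz (Finset.mem_filter.1 (hJT hj)).2
      _ ≤ (U.card : ℝ) := by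
          exact_mod_cast e2
  have h3 : (s : ℝ) ≤ M * J.card := by exact_mod_cast hs.trans h1
  have hL0 : (0 : ℝ) ≤ (L : ℝ) := Nat.cast_nonneg _
  have hM0 : (0 : ℝ) ≤ (M : ℝ) := Nat.cast_nonneg _
  calc (s : ℝ) * L ≤ (M * J.card) * L := mul_le_mul_of_nonneg_right h3 hL0
    _ = 24 * M * (J.card * ((L : ℝ) / 24)) := by ring
    _ ≤ 24 * M * (U.card : ℝ) := mul_le_mul_of_nonneg_left h2 (by positivity)

end Pool.Agent.RDS
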