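import Pool.Agent.RDS.Stmts
import Pool.Agent.FCQ.SOB

/-!
# Random digit sets: module STEP, the increments along the moving points
-/

set_option autoImplicit false

namespace Pool.Agent.RDS

open MeasureTheory Set

namespace STEPM

variable {L : ℕ} {D : Fin L → ℕ × ℕ}

/-- The square integral of the increments over the directions near `t0`. -/
noncomputable def HH (D : Fin L → ℕ × ℕ) (r : ℕ) (t0 x : ℝ) : ENNReal :=
  ∫⁻ τ in Icc (t0 - 1 / (2 * (L : ℝ) ^ r)) (t0 + 1 / (2 * (L : ℝ) ^ r)),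
    ENNReal.ofReal (gr D r x τ ^ 2 + dgr D r x τ ^ 2 / (L : ℝ) ^ (2 * r))

theorem aux {x : ℝ} (hx : 0 < x) (m G : ℝ) : x * m * G = m / x * G * x ^ 2 := by
  field_simp

theorem Ediff (p : Fin L × Fin L) (n r : ℕ) (t : ℝ) :
    E D p (n + r + 1) t - E D p (n + r) t =
      (T D t)^[n] (fun x => gr D r x t) (dt D t p) := by
  unfold E gr
  rw [show n + r + 1 = n + (r + 1) from by ring, iter_add_apply t n (r + 1),
    iter_add_apply t n r, iter_sub]

theorem lint_affine (H : ℝ → ENNReal) (hH : Measurable H) (s c : ℝ) (hs : s ≠ 0) :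
    ∫⁻ t, H (s * t + c) = ENNReal.ofReal |s⁻¹| * ∫⁻ x, H x := by
  have h1 : Measurable (fun y => H (y + c)) := hH.comp (measurable_add_const c)
  have h2 : ∫⁻ t, H (s * t + c) = ∫⁻ y, H (y + c) ∂(Measure.map (fun t => s * t) volume) := by
    rw [lintegral_map h1 (measurable_const_mul s)]
  rw [h2, Real.map_volume_mul_left hs, lintegral_smul_measure, smul_eq_mul]
  congr 1
  exact lintegral_add_right_eq_self H c

theorem joint_cont {r : ℕ} (h1 : Continuous (fun q : ℝ × ℝ => gr D r q.1 q.2))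
    (h2 : Continuous (fun q : ℝ × ℝ => dgr D r q.1 q.2)) :
    Continuous (fun p : ℝ × ℝ => gr D r p.1 p.2 ^ 2 +
      dgr D r p.1 p.2 ^ 2 / (L : ℝ) ^ (2 * r)) :=
  (h1.pow 2).add ((h2.pow 2).div_const _)

theorem measurable_HH {r : ℕ} (h1 : Continuous (fun q : ℝ × ℝ => gr D r q.1 q.2))
    (h2 : Continuous (fun q : ℝ × ℝ => dgr D r q.1 q.2)) (t0 : ℝ) :
    Measurable (HH D r t0) := by
  have h := joint_cont h1 h2
  unfold HH
  exact Measurable.lintegral_prod_right' (f := fun p : ℝ × ℝ =>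
    ENNReal.ofReal (gr D r p.1 p.2 ^ 2 + dgr D r p.1 p.2 ^ 2 / (L : ℝ) ^ (2 * r)))
    h.measurable.ennreal_ofReal

theorem measurable_Nr {r : ℕ} (h1 : Continuous (fun q : ℝ × ℝ => gr D r q.1 q.2))
    (h2 : Continuous (fun q : ℝ × ℝ => dgr D r q.1 q.2)) :
    Measurable (Nr D r) := by
  have h := (joint_cont h1 h2).comp continuous_swap
  unfold Nr
  exact Measurable.lintegral_prod_right' (f := fun p : ℝ × ℝ =>
    ENNReal.ofReal (gr D r p.2 p.1 ^ 2 + dgr D r p.2 p.1 ^ 2 / (L : ℝ) ^ (2 * r)))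
    h.measurable.ennreal_ofReal

theorem lint_HH {r : ℕ} (h1 : Continuous (fun q : ℝ × ℝ => gr D r q.1 q.2))
    (h2 : Continuous (fun q : ℝ × ℝ => dgr D r q.1 q.2)) (t0 : ℝ) :
    ∫⁻ x, HH D r t0 x = ∫⁻ τ in Icc (t0 - 1 / (2 * (L : ℝ) ^ r)) (t0 + 1 / (2 * (L : ℝ) ^ r)),
      Nr D r τ := by
  have h := joint_cont h1 h2
  unfold HH Nr
  exact lintegral_lintegral_swap (f := fun x τ =>
    ENNReal.ofReal (gr D r x τ ^ 2 + dgr D r x τ ^ 2 / (L : ℝ) ^ (2 * r)))
    h.measurable.ennreal_ofReal.aemeasurable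

theorem sob_bound (hD : Ok D) {r : ℕ}
    (h1 : Continuous (fun q : ℝ × ℝ => gr D r q.1 q.2))
    (h2 : Continuous (fun q : ℝ × ℝ => dgr D r q.1 q.2))
    (h3 : ∀ x t : ℝ, HasDerivAt (fun τ => gr D r x τ) (dgr D r x t) t)
    (t0 t x : ℝ) (ht : |t - t0| ≤ 1 / (2 * (L : ℝ) ^ r)) :
    ENNReal.ofReal (gr D r x t ^ 2) ≤ ENNReal.ofReal (2 * (L : ℝ) ^ r) * HH D r t0 x := by
  have hc1 : Continuous (fun τ => gr D r x τ) :=
    h1.comp (f := fun τ : ℝ => (x, τ)) (by fun_prop)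
  have hc2 : Continuous (fun τ => dgr D r x τ) :=
    h2.comp (f := fun τ : ℝ => (x, τ)) (by fun_prop)
  have hq : (0 : ℝ) < (L : ℝ) ^ r := hD.pw r
  have h4 : (0 : ℝ) < 1 / (2 * (L : ℝ) ^ r) := by positivity
  have hab : t0 - 1 / (2 * (L : ℝ) ^ r) < t0 + 1 / (2 * (L : ℝ) ^ r) := by linarith
  obtain ⟨ht1, ht2⟩ := abs_le.1 ht
  have hs := FCQ.SOB_thm (fun τ => gr D r x τ) (fun τ => dgr D r x τ) _ _ t hab
    (fun τ => h3 x τ) hc2 ⟨by linarith, by linarith⟩
  have hlen : (t0 + 1 / (2 * (L : ℝ) ^ r)) - (t0 - 1 / (2 * (L : ℝ) ^ r)) =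
      1 / (L : ℝ) ^ r := by
    field_simp
    ring
  rw [hlen] at hs
  have h16 : (L : ℝ) ^ (2 * r) = (L : ℝ) ^ r * (L : ℝ) ^ r := by rw [← pow_add]; congr 1; ring
  have e1 : (2 : ℝ) / (1 / (L : ℝ) ^ r) = 2 * (L : ℝ) ^ r := by field_simp
  have e2 : 2 * (1 / (L : ℝ) ^ r) = 2 * (L : ℝ) ^ r / (L : ℝ) ^ (2 * r) := by
    rw [h16]; field_simp
  rw [e1, e2] at hs
  have hcF : Continuous (fun τ => gr D r x τ ^ 2 + dgr D r x τ ^ 2 / (L : ℝ) ^ (2 * r)) :=
    (hc1.pow 2).add ((hc2.pow 2).div_const _)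
  have hsum : (∫ τ in (t0 - 1 / (2 * (L : ℝ) ^ r))..(t0 + 1 / (2 * (L : ℝ) ^ r)),
      (gr D r x τ ^ 2 + dgr D r x τ ^ 2 / (L : ℝ) ^ (2 * r))) =
      (∫ τ in (t0 - 1 / (2 * (L : ℝ) ^ r))..(t0 + 1 / (2 * (L : ℝ) ^ r)), gr D r x τ ^ 2) +
        (∫ τ in (t0 - 1 / (2 * (L : ℝ) ^ r))..(t0 + 1 / (2 * (L : ℝ) ^ r)),
          dgr D r x τ ^ 2) / (L : ℝ) ^ (2 * r) := by
    have hf1 : Continuous (fun τ => gr D r x τ ^ 2) := hc1.pow 2
    have hf2 : Continuous (fun τ => dgr D r x τ ^ 2 / (L : ℝ) ^ (2 * r)) :=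
      (hc2.pow 2).div_const _
    rw [intervalIntegral.integral_add (hf1.intervalIntegrable _ _)
      (hf2.intervalIntegrable _ _), intervalIntegral.integral_div]
  have hfin : gr D r x t ^ 2 ≤ 2 * (L : ℝ) ^ r *
      ∫ τ in (t0 - 1 / (2 * (L : ℝ) ^ r))..(t0 + 1 / (2 * (L : ℝ) ^ r)),
      (gr D r x τ ^ 2 + dgr D r x τ ^ 2 / (L : ℝ) ^ (2 * r)) := by
    rw [hsum]
    refine hs.trans (le_of_eq ?_)
    ring
  calc ENNReal.ofReal (gr D r x t ^ 2)
      ≤ ENNReal.ofReal (2 * (L : ℝ) ^ r *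
        ∫ τ in (t0 - 1 / (2 * (L : ℝ) ^ r))..(t0 + 1 / (2 * (L : ℝ) ^ r)),
        (gr D r x τ ^ 2 + dgr D r x τ ^ 2 / (L : ℝ) ^ (2 * r))) :=
          ENNReal.ofReal_le_ofReal hfin
    _ = ENNReal.ofReal (2 * (L : ℝ) ^ r) *
        ENNReal.ofReal (∫ τ in Ioc (t0 - 1 / (2 * (L : ℝ) ^ r))
        (t0 + 1 / (2 * (L : ℝ) ^ r)),
          (gr D r x τ ^ 2 + dgr D r x τ ^ 2 / (L : ℝ) ^ (2 * r))) := by
        rw [ENNReal.ofReal_mul (by positivity), intervalIntegral.integral_of_le hab.le]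
    _ = ENNReal.ofReal (2 * (L : ℝ) ^ r) *
        ∫⁻ τ in Ioc (t0 - 1 / (2 * (L : ℝ) ^ r)) (t0 + 1 / (2 * (L : ℝ) ^ r)),
        ENNReal.ofReal (gr D r x τ ^ 2 + dgr D r x τ ^ 2 / (L : ℝ) ^ (2 * r)) := by
        rw [ofReal_integral_eq_lintegral_ofReal hcF.integrableOn_Ioc
          (ae_of_all _ fun τ => by positivity)]
    _ ≤ ENNReal.ofReal (2 * (L : ℝ) ^ r) * HH D r t0 x := by
        apply mul_le_mul_right
        exact lintegral_mono_set Ioc_subset_Icc_self

open Classical in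
/-- The number of the points whose window contains `τ`. -/
theorem count {ι : Type} [Fintype ι] (a b : ι → ℝ) (B1 Λ ρ : ℝ) (hB1 : 0 < B1) (hΛ : 0 ≤ Λ)
    (hb : ∀ q, b q ≠ 0) (hb1 : ∀ q, |b q| ≤ B1) (hδ : 1 / B1 ≤ ρ) (hδ2 : 1 / B1 ≤ 1 / 2)
    (hcard : ∀ s ∈ Icc (-1 : ℝ) 2,
      ((Finset.univ.filter fun q => |a q + b q * s| ≤ 3).card : ℝ) ≤ Λ)
    (τ : ℝ) (Q : Finset ι) (hQ : ∀ q ∈ Q, -a q / b q ∈ Icc (-1 / 2 : ℝ) (3 / 2) ∧
      |τ - (-a q / b q)| ≤ ρ) :
    (Q.card : ℝ) ≤ 2 * ρ * B1 * Λ := by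
  have hδ0 : (0 : ℝ) < 1 / B1 := by positivity
  have hρ : 0 < ρ := lt_of_lt_of_le hδ0 hδ
  have key : (Q.card : ENNReal) * ENNReal.ofReal (2 * (1 / B1)) ≤
      ENNReal.ofReal Λ * ENNReal.ofReal (4 * ρ) := by
    calc (Q.card : ENNReal) * ENNReal.ofReal (2 * (1 / B1))
        = ∑ q ∈ Q, ∫⁻ s, (Icc (-a q / b q - 1 / B1) (-a q / b q + 1 / B1)).indicator
            (fun _ => (1 : ENNReal)) s := by
          have : ∀ q ∈ Q, ∫⁻ s, (Icc (-a q / b q - 1 / B1) (-a q / b q + 1 / B1)).indicator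
              (fun _ => (1 : ENNReal)) s = ENNReal.ofReal (2 * (1 / B1)) := by
            intro q _
            rw [lintegral_indicator measurableSet_Icc, setLIntegral_one, Real.volume_Icc]
            congr 1
            ring
          rw [Finset.sum_congr rfl this, Finset.sum_const, nsmul_eq_mul]
      _ = ∫⁻ s, ∑ q ∈ Q, (Icc (-a q / b q - 1 / B1) (-a q / b q + 1 / B1)).indicator
            (fun _ => (1 : ENNReal)) s := by
          rw [lintegral_finsetSum _ (fun q _ => measurable_const.indicator measurableSet_Icc)]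
      _ ≤ ∫⁻ s, (Icc (τ - 2 * ρ) (τ + 2 * ρ)).indicator (fun _ => ENNReal.ofReal Λ) s := by
          apply lintegral_mono
          intro s
          have hsum : ∑ q ∈ Q, (Icc (-a q / b q - 1 / B1) (-a q / b q + 1 / B1)).indicator
              (fun _ => (1 : ENNReal)) s =
              ((Q.filter fun q => s ∈ Icc (-a q / b q - 1 / B1) (-a q / b q + 1 / B1)).card :
                ENNReal) := by
            rw [Finset.card_filter]
            push_cast
            refine Finset.sum_congr rfl fun q _ => ?_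
            by_cases h : s ∈ Icc (-a q / b q - 1 / B1) (-a q / b q + 1 / B1)
            · rw [indicator_of_mem h, if_pos h]
            · rw [indicator_of_notMem h, if_neg h]
          show ∑ q ∈ Q, (Icc (-a q / b q - 1 / B1) (-a q / b q + 1 / B1)).indicator
              (fun _ => (1 : ENNReal)) s ≤ _
          rw [hsum]
          rcases Finset.eq_empty_or_nonempty
            (Q.filter fun q => s ∈ Icc (-a q / b q - 1 / B1) (-a q / b q + 1 / B1)) with he | he
          · rw [he]; simp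
          · obtain ⟨q0, hq0⟩ := he
            obtain ⟨hq1, hq2⟩ := Finset.mem_filter.1 hq0
            obtain ⟨h3, h4⟩ := hQ q0 hq1
            obtain ⟨h5, h6⟩ := abs_le.1 h4
            have hs1 : s ∈ Icc (τ - 2 * ρ) (τ + 2 * ρ) :=
              ⟨by linarith [hq2.1], by linarith [hq2.2]⟩
            have hs2 : s ∈ Icc (-1 : ℝ) 2 :=
              ⟨by linarith [hq2.1, h3.1], by linarith [hq2.2, h3.2]⟩
            rw [indicator_of_mem hs1]
            have hle : ((Q.filter fun q =>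
                s ∈ Icc (-a q / b q - 1 / B1) (-a q / b q + 1 / B1)).card : ℝ) ≤ Λ := by
              refine le_trans ?_ (hcard s hs2)
              have hsub : (Q.filter fun q =>
                  s ∈ Icc (-a q / b q - 1 / B1) (-a q / b q + 1 / B1)) ⊆
                  (Finset.univ.filter fun q => |a q + b q * s| ≤ 3) := by
                intro q hq
                obtain ⟨-, h7⟩ := Finset.mem_filter.1 hq
                refine Finset.mem_filter.2 ⟨Finset.mem_univ q, ?_⟩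
                have h8 : a q + b q * s = b q * (s - (-a q / b q)) := by
                  have := hb q
                  field_simp
                  ring
                rw [h8, abs_mul]
                have h9 : |s - (-a q / b q)| ≤ 1 / B1 :=
                  abs_le.2 ⟨by linarith [h7.1], by linarith [h7.2]⟩
                calc |b q| * |s - (-a q / b q)| ≤ B1 * (1 / B1) :=
                      mul_le_mul (hb1 q) h9 (abs_nonneg _) hB1.le
                  _ = 1 := by field_simp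
                  _ ≤ 3 := by norm_num
              exact_mod_cast Finset.card_le_card hsub
            rw [← ENNReal.ofReal_natCast]
            exact ENNReal.ofReal_le_ofReal hle
      _ = ENNReal.ofReal Λ * ENNReal.ofReal (4 * ρ) := by
          rw [lintegral_indicator measurableSet_Icc, setLIntegral_const, Real.volume_Icc]
          congr 2
          ring
  rw [← ENNReal.ofReal_natCast, ← ENNReal.ofReal_mul (by positivity),
    ← ENNReal.ofReal_mul hΛ, ENNReal.ofReal_le_ofReal_iff (by positivity)] at key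
  have h1 : (Q.card : ℝ) = (Q.card : ℝ) * (2 * (1 / B1)) * (B1 / 2) := by field_simp
  rw [h1]
  calc (Q.card : ℝ) * (2 * (1 / B1)) * (B1 / 2) ≤ Λ * (4 * ρ) * (B1 / 2) :=
        mul_le_mul_of_nonneg_right key (by positivity)
    _ = 2 * ρ * B1 * Λ := by ring

open Classical in
/-- The sum of the integrals over the windows. -/
theorem sum_windows {ι : Type} [Fintype ι] (c : ι → ℝ) (ρ Z : ℝ) (hρ : ρ ≤ 1 / 2)
    (H : ℝ → ENNReal) (hH : Measurable H) (Q : Finset ι)
    (hQ : ∀ q ∈ Q, c q ∈ Icc (-1 / 2 : ℝ) (3 / 2))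
    (hcount : ∀ τ : ℝ, ((Q.filter fun q => |τ - c q| ≤ ρ).card : ℝ) ≤ Z) :
    ∑ q ∈ Q, ∫⁻ τ in Icc (c q - ρ) (c q + ρ), H τ ≤
      ENNReal.ofReal Z * ∫⁻ τ in Icc (-1 : ℝ) 2, H τ := by
  calc ∑ q ∈ Q, ∫⁻ τ in Icc (c q - ρ) (c q + ρ), H τ
      = ∑ q ∈ Q, ∫⁻ τ, (Icc (c q - ρ) (c q + ρ)).indicator H τ := by
        refine Finset.sum_congr rfl fun q _ => ?_
        rw [lintegral_indicator measurableSet_Icc]
    _ = ∫⁻ τ, ∑ q ∈ Q, (Icc (c q - ρ) (c q + ρ)).indicator H τ := by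
        rw [lintegral_finsetSum _ (fun q _ => hH.indicator measurableSet_Icc)]
    _ ≤ ∫⁻ τ, (Icc (-1 : ℝ) 2).indicator (fun τ => ENNReal.ofReal Z * H τ) τ := by
        apply lintegral_mono
        intro τ
        have hsum : ∑ q ∈ Q, (Icc (c q - ρ) (c q + ρ)).indicator H τ =
            ((Q.filter fun q => |τ - c q| ≤ ρ).card : ENNReal) * H τ := by
          rw [← nsmul_eq_mul, ← Finset.sum_const, Finset.sum_filter]
          refine Finset.sum_congr rfl fun q _ => ?_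
          have hiff : τ ∈ Icc (c q - ρ) (c q + ρ) ↔ |τ - c q| ≤ ρ := by
            rw [abs_le, mem_Icc]
            constructor
            · rintro ⟨h1, h2⟩
              constructor <;> linarith
            · rintro ⟨h1, h2⟩
              constructor <;> linarith
          by_cases h : τ ∈ Icc (c q - ρ) (c q + ρ)
          · rw [indicator_of_mem h, if_pos (hiff.1 h)]
          · rw [indicator_of_notMem h, if_neg (fun h' => h (hiff.2 h'))]
        show ∑ q ∈ Q, (Icc (c q - ρ) (c q + ρ)).indicator H τ ≤ _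
        rw [hsum]
        rcases Finset.eq_empty_or_nonempty (Q.filter fun q => |τ - c q| ≤ ρ) with he | he
        · rw [he]; simp
        · obtain ⟨q0, hq0⟩ := he
          obtain ⟨hq1, hq2⟩ := Finset.mem_filter.1 hq0
          have h3 := hQ q0 hq1
          obtain ⟨h5, h6⟩ := abs_le.1 hq2
          have hs2 : τ ∈ Icc (-1 : ℝ) 2 := ⟨by linarith [h3.1], by linarith [h3.2]⟩
          rw [indicator_of_mem hs2, ← ENNReal.ofReal_natCast]
          exact mul_le_mul_left (ENNReal.ofReal_le_ofReal (hcount τ)) _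
    _ = ENNReal.ofReal Z * ∫⁻ τ in Icc (-1 : ℝ) 2, H τ := by
        rw [lintegral_indicator measurableSet_Icc, lintegral_const_mul _ hH]

end STEPM

open STEPM in
open Classical in
theorem STEP_thm : Stmt_STEP := by
  intro hCSH hEXP hPSI hDER hNOD L D M K c hC hR
  have hOk : Ok D := hC.toOk
  have hL := hOk.pos
  have hL4 := hOk.ge
  obtain ⟨C0, hC0, hC1⟩ := hR
  refine ⟨2 * L * C0, by positivity, ?_⟩
  intro p hp n r hnr
  -- the increments
  obtain ⟨ι', hι', u', v', -, -, -, hexp', -⟩ := hEXP hCSH D hOk r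
  obtain ⟨hder, -, -, hg1, hg2, hzero⟩ := hDER hPSI D hOk r ι' u' v' hexp'
  -- the expansion at the level n
  obtain ⟨ι, hι, u, v, hu, hv, -, hexp, -⟩ := hEXP hCSH D hOk n
  set a : ι → ℝ := fun q => (L : ℝ) ^ n * (dx D p : ℝ) - u q with ha
  set b : ι → ℝ := fun q => (L : ℝ) ^ n * (dy D p : ℝ) - v q with hb
  have hLn : (0 : ℝ) < (L : ℝ) ^ n := hOk.pw n
  have hLn1 : (1 : ℝ) ≤ (L : ℝ) ^ n := hOk.pw1 n
  have hLr : (0 : ℝ) < (L : ℝ) ^ r := hOk.pw r
  have hLr1 : (1 : ℝ) ≤ (L : ℝ) ^ r := hOk.pw1 r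
  have hLnr : 4 * (L : ℝ) ^ r ≤ (L : ℝ) ^ n := by
    have h1 : (L : ℝ) ^ (r + 1) ≤ (L : ℝ) ^ n := pow_le_pow_right₀ (by linarith) hnr
    rw [pow_succ] at h1
    nlinarith
  have hx : ∀ (t : ℝ) (q : ι), (L : ℝ) ^ n * dt D t p - ((u q : ℝ) + t * (v q : ℝ)) =
      a q + b q * t := by
    intro t q
    simp only [ha, hb]
    unfold dt
    ring
  have hdyabs : (2 : ℝ) ≤ |(dy D p : ℝ)| := by exact_mod_cast hp
  have hblow : ∀ q, (L : ℝ) ^ n ≤ |b q| := by
    intro q
    have h1 := hv q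
    have h2 : |(L : ℝ) ^ n * (dy D p : ℝ)| = (L : ℝ) ^ n * |(dy D p : ℝ)| := by
      rw [abs_mul, abs_of_pos hLn]
    have h3 := abs_sub_abs_le_abs_sub ((L : ℝ) ^ n * (dy D p : ℝ)) (v q : ℝ)
    rw [h2] at h3
    have h4 : (L : ℝ) ^ n * 2 ≤ (L : ℝ) ^ n * |(dy D p : ℝ)| :=
      mul_le_mul_of_nonneg_left hdyabs hLn.le
    simp only [hb]
    linarith
  have hbup : ∀ q, |b q| ≤ (L : ℝ) ^ (n + 1) := by
    intro q
    have h1 := hv q
    have h2 : |(L : ℝ) ^ n * (dy D p : ℝ)| = (L : ℝ) ^ n * |(dy D p : ℝ)| := by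
      rw [abs_mul, abs_of_pos hLn]
    have h3 := abs_sub ((L : ℝ) ^ n * (dy D p : ℝ)) (v q : ℝ)
    rw [h2] at h3
    have h4 : (L : ℝ) ^ n * |(dy D p : ℝ)| ≤ (L : ℝ) ^ n * (L - 1) :=
      mul_le_mul_of_nonneg_left (hOk.abs_dy p) hLn.le
    simp only [hb]
    rw [pow_succ]
    linarith
  have hb0 : ∀ q, b q ≠ 0 := fun q => abs_pos.1 (lt_of_lt_of_le hLn (hblow q))
  have hbc : ∀ (q : ι) (s : ℝ), a q + b q * s = b q * (s - (-a q / b q)) := by
    intro q s
    have := hb0 q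
    field_simp
    ring
  -- the number of the points near zero
  have hcard : ∀ s ∈ Icc (-1 : ℝ) 2,
      ((Finset.univ.filter fun q => |a q + b q * s| ≤ 3).card : ℝ) ≤
        (L : ℝ) ^ n * (M : ℝ) ^ n := by
    intro s hs
    have h1 := (hNOD D hOk).1 M hC.deg s hs n (dt D s p)
    rw [hexp, div_le_iff₀ hLn] at h1
    have h2 : ∑ q, ind 3 ((L : ℝ) ^ n * dt D s p - ((u q : ℝ) + s * (v q : ℝ))) =
        ((Finset.univ.filter fun q => |a q + b q * s| ≤ 3).card : ℝ) := by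
      rw [Finset.card_filter]
      push_cast
      refine Finset.sum_congr rfl fun q _ => ?_
      rw [hx]
      unfold ind
      rfl
    rw [h2] at h1
    linarith
  set Q : Finset ι := Finset.univ.filter fun q => -a q / b q ∈ Icc (-1 / 2 : ℝ) (3 / 2) with hQ
  set ρ : ℝ := 1 / (2 * (L : ℝ) ^ r) with hρ
  have hρ0 : 0 < ρ := by rw [hρ]; positivity
  have hρ1 : ρ ≤ 1 / 2 := by
    rw [hρ]
    exact one_div_le_one_div_of_le (by norm_num) (by linarith)
  have h2L : 2 / (L : ℝ) ^ n ≤ ρ := by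
    rw [hρ, div_le_div_iff₀ hLn (by positivity)]
    linarith
  -- the pointwise estimate
  have hpt : ∀ t ∈ Icc (0 : ℝ) 1,
      ENNReal.ofReal ((E D p (n + r + 1) t - E D p (n + r) t) ^ 2) ≤
        ENNReal.ofReal ((M : ℝ) ^ n / (L : ℝ) ^ n) * ∑ q ∈ Q,
          ENNReal.ofReal (2 * (L : ℝ) ^ r) * HH D r (-a q / b q) (b q * t + a q) := by
    intro t ht
    rw [Ediff, hexp]
    have hx' : ∀ q, gr D r ((L : ℝ) ^ n * dt D t p - ((u q : ℝ) + t * (v q : ℝ))) t =
        gr D r (a q + b q * t) t := fun q => by rw [hx]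
    rw [Finset.sum_congr rfl fun q _ => hx' q]
    set A : Finset ι := Finset.univ.filter fun q => |a q + b q * t| ≤ 2 with hA
    have hs1 : ∑ q, gr D r (a q + b q * t) t = ∑ q ∈ A, gr D r (a q + b q * t) t := by
      symm
      apply Finset.sum_subset (Finset.subset_univ _)
      intro q _ hq
      apply hzero _ t ht
      rw [hA, Finset.mem_filter, not_and] at hq
      exact not_le.1 (hq (Finset.mem_univ q))
    have hAc : (A.card : ℝ) ≤ (L : ℝ) ^ n * (M : ℝ) ^ n := by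
      refine le_trans ?_ (hcard t ⟨by linarith [ht.1], by linarith [ht.2]⟩)
      have : A ⊆ Finset.univ.filter fun q => |a q + b q * t| ≤ 3 := by
        intro q hq
        obtain ⟨h1, h2⟩ := Finset.mem_filter.1 hq
        exact Finset.mem_filter.2 ⟨h1, by linarith⟩
      exact_mod_cast Finset.card_le_card this
    have hAd : ∀ q ∈ A, |t - (-a q / b q)| ≤ 2 / (L : ℝ) ^ n := by
      intro q hq
      obtain ⟨-, h2⟩ := Finset.mem_filter.1 hq
      rw [hbc, abs_mul] at h2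
      rw [le_div_iff₀ hLn]
      calc |t - (-a q / b q)| * (L : ℝ) ^ n ≤ |t - (-a q / b q)| * |b q| :=
            mul_le_mul_of_nonneg_left (hblow q) (abs_nonneg _)
        _ = |b q| * |t - (-a q / b q)| := mul_comm _ _
        _ ≤ 2 := h2
    have hAQ : A ⊆ Q := by
      intro q hq
      have h1 := (hAd q hq).trans (h2L.trans hρ1)
      obtain ⟨h3, h4⟩ := abs_le.1 h1
      refine Finset.mem_filter.2 ⟨Finset.mem_univ q, ?_, ?_⟩
      · linarith [ht.1]
      · linarith [ht.2]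
    have hcs : (∑ q ∈ A, gr D r (a q + b q * t) t) ^ 2 ≤
        (A.card : ℝ) * ∑ q ∈ A, gr D r (a q + b q * t) t ^ 2 := sq_sum_le_card_mul_sum_sq
    have hnn : 0 ≤ ∑ q ∈ A, gr D r (a q + b q * t) t ^ 2 :=
      Finset.sum_nonneg fun q _ => sq_nonneg _
    have hreal : ((∑ q, gr D r (a q + b q * t) t) / (L : ℝ) ^ n) ^ 2 ≤
        (M : ℝ) ^ n / (L : ℝ) ^ n * ∑ q ∈ A, gr D r (a q + b q * t) t ^ 2 := by
      rw [hs1, div_pow, div_le_iff₀ (by positivity)]
      calc (∑ q ∈ A, gr D r (a q + b q * t) t) ^ 2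
          ≤ (A.card : ℝ) * ∑ q ∈ A, gr D r (a q + b q * t) t ^ 2 := hcs
        _ ≤ ((L : ℝ) ^ n * (M : ℝ) ^ n) * ∑ q ∈ A, gr D r (a q + b q * t) t ^ 2 :=
            mul_le_mul_of_nonneg_right hAc hnn
        _ = _ := aux hLn _ _
    calc ENNReal.ofReal (((∑ q, gr D r (a q + b q * t) t) / (L : ℝ) ^ n) ^ 2)
        ≤ ENNReal.ofReal ((M : ℝ) ^ n / (L : ℝ) ^ n *
          ∑ q ∈ A, gr D r (a q + b q * t) t ^ 2) := ENNReal.ofReal_le_ofReal hreal
      _ = ENNReal.ofReal ((M : ℝ) ^ n / (L : ℝ) ^ n) *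
          ∑ q ∈ A, ENNReal.ofReal (gr D r (a q + b q * t) t ^ 2) := by
          rw [ENNReal.ofReal_mul (by positivity), ENNReal.ofReal_sum_of_nonneg
            (fun q _ => sq_nonneg _)]
      _ ≤ ENNReal.ofReal ((M : ℝ) ^ n / (L : ℝ) ^ n) * ∑ q ∈ A,
          ENNReal.ofReal (2 * (L : ℝ) ^ r) * HH D r (-a q / b q) (b q * t + a q) := by
          apply mul_le_mul_right
          apply Finset.sum_le_sum
          intro q hq
          rw [add_comm (b q * t) (a q)]
          exact sob_bound hOk hg1 hg2 hder (-a q / b q) t (a q + b q * t)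
            ((hAd q hq).trans h2L)
      _ ≤ _ := by
          apply mul_le_mul_right
          exact Finset.sum_le_sum_of_subset hAQ
  have hHm : ∀ t0, Measurable (HH D r t0) := fun t0 => measurable_HH hg1 hg2 t0
  have hHd : ∀ q, Measurable (fun t => HH D r (-a q / b q) (b q * t + a q)) := fun q =>
    (hHm _).comp (f := fun t => b q * t + a q) (by fun_prop)
  -- integration of one point
  have hone : ∀ q, ∫⁻ t in Icc (0 : ℝ) 1, HH D r (-a q / b q) (b q * t + a q) ≤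
      ENNReal.ofReal (1 / (L : ℝ) ^ n) *
        ∫⁻ τ in Icc (-a q / b q - ρ) (-a q / b q + ρ), Nr D r τ := by
    intro q
    calc ∫⁻ t in Icc (0 : ℝ) 1, HH D r (-a q / b q) (b q * t + a q)
        ≤ ∫⁻ t, HH D r (-a q / b q) (b q * t + a q) := setLIntegral_le_lintegral _ _
      _ = ENNReal.ofReal |(b q)⁻¹| * ∫⁻ x, HH D r (-a q / b q) x :=
          lint_affine _ (hHm _) _ _ (hb0 q)
      _ ≤ ENNReal.ofReal (1 / (L : ℝ) ^ n) * ∫⁻ x, HH D r (-a q / b q) x := by
          apply mul_le_mul_left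
          apply ENNReal.ofReal_le_ofReal
          rw [abs_inv, ← one_div]
          exact one_div_le_one_div_of_le hLn (hblow q)
      _ = _ := by rw [lint_HH hg1 hg2]
  -- the count
  set Z : ℝ := 2 * ρ * (L : ℝ) ^ (n + 1) * ((L : ℝ) ^ n * (M : ℝ) ^ n) with hZ
  have hZ0 : 0 ≤ Z := by rw [hZ]; positivity
  have hd1 : 1 / (L : ℝ) ^ (n + 1) ≤ ρ := by
    refine le_trans ?_ h2L
    rw [div_le_div_iff₀ (by positivity) hLn, pow_succ]
    nlinarith
  have hd2 : 1 / (L : ℝ) ^ (n + 1) ≤ 1 / 2 := hd1.trans hρ1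
  have hcount : ∀ τ : ℝ, ((Q.filter fun q => |τ - (-a q / b q)| ≤ ρ).card : ℝ) ≤ Z := by
    intro τ
    refine count a b ((L : ℝ) ^ (n + 1)) ((L : ℝ) ^ n * (M : ℝ) ^ n) ρ (by positivity)
      (by positivity) hb0 hbup hd1 hd2 hcard τ _ ?_
    intro q hq
    obtain ⟨h1, h2⟩ := Finset.mem_filter.1 hq
    exact ⟨(Finset.mem_filter.1 h1).2, h2⟩
  have hwin := sum_windows (fun q => -a q / b q) ρ Z hρ1 (Nr D r) (measurable_Nr hg1 hg2) Q
    (fun q hq => (Finset.mem_filter.1 hq).2) hcount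
  calc ∫⁻ t in Icc (0 : ℝ) 1, ENNReal.ofReal ((E D p (n + r + 1) t - E D p (n + r) t) ^ 2)
      ≤ ∫⁻ t in Icc (0 : ℝ) 1, ENNReal.ofReal ((M : ℝ) ^ n / (L : ℝ) ^ n) * ∑ q ∈ Q,
          ENNReal.ofReal (2 * (L : ℝ) ^ r) * HH D r (-a q / b q) (b q * t + a q) :=
        setLIntegral_mono' measurableSet_Icc hpt
    _ = ENNReal.ofReal ((M : ℝ) ^ n / (L : ℝ) ^ n) * ∑ q ∈ Q,
          ENNReal.ofReal (2 * (L : ℝ) ^ r) *
            ∫⁻ t in Icc (0 : ℝ) 1, HH D r (-a q / b q) (b q * t + a q) := by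
        rw [lintegral_const_mul _ (Finset.measurable_sum _ fun q _ =>
          ((hHd q).const_mul _)), lintegral_finsetSum _ (fun q _ =>
          ((hHd q).const_mul _))]
        congr 1
        refine Finset.sum_congr rfl fun q _ => ?_
        rw [lintegral_const_mul _ (hHd q)]
    _ ≤ ENNReal.ofReal ((M : ℝ) ^ n / (L : ℝ) ^ n) * ∑ q ∈ Q,
          ENNReal.ofReal (2 * (L : ℝ) ^ r) * (ENNReal.ofReal (1 / (L : ℝ) ^ n) *
            ∫⁻ τ in Icc (-a q / b q - ρ) (-a q / b q + ρ), Nr D r τ) := by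
        apply mul_le_mul_right
        apply Finset.sum_le_sum
        intro q _
        exact mul_le_mul_right (hone q) _
    _ = ENNReal.ofReal ((M : ℝ) ^ n / (L : ℝ) ^ n) * (ENNReal.ofReal (2 * (L : ℝ) ^ r) *
          (ENNReal.ofReal (1 / (L : ℝ) ^ n) * ∑ q ∈ Q,
            ∫⁻ τ in Icc (-a q / b q - ρ) (-a q / b q + ρ), Nr D r τ)) := by
        rw [← Finset.mul_sum, ← Finset.mul_sum]
    _ ≤ ENNReal.ofReal ((M : ℝ) ^ n / (L : ℝ) ^ n) * (ENNReal.ofReal (2 * (L : ℝ) ^ r) *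
          (ENNReal.ofReal (1 / (L : ℝ) ^ n) * (ENNReal.ofReal Z *
            ENNReal.ofReal (C0 * (9 * K / L) ^ r)))) := by
        refine mul_le_mul_right (mul_le_mul_right (mul_le_mul_right (hwin.trans ?_) _) _) _
        exact mul_le_mul_right (hC1 r) _
    _ = ENNReal.ofReal (2 * L * C0 * (M : ℝ) ^ (2 * n) * (9 * K / L) ^ r) := by
        have hK : (0 : ℝ) ≤ 9 * K / L := by
          have := hC.hK
          positivity
        rw [← ENNReal.ofReal_mul hZ0, ← ENNReal.ofReal_mul (by positivity),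
          ← ENNReal.ofReal_mul (by positivity), ← ENNReal.ofReal_mul (by positivity)]
        congr 1
        rw [hZ, hρ, show (M : ℝ) ^ (2 * n) = (M : ℝ) ^ n * (M : ℝ) ^ n from by
          rw [← pow_add]; congr 1; ring, pow_succ]
        field_simp

end Pool.Agent.RDS
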