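import Pool.Agent.RDS.Stmts

/-!
# STOP: stopping intervals
-/

set_option autoImplicit false

namespace Pool.Agent.RDS

open MeasureTheory Set

namespace STOPM

variable {L : ℕ} {D : Fin L → ℕ × ℕ}

/-- The `L`-adic interval. -/
def Iv (L n : ℕ) (j : ℤ) : Set ℝ := {x | ⌊(L : ℝ) ^ n * x⌋ = j}

theorem Iv_eq (hD : Ok D) (n : ℕ) (j : ℤ) :
    Iv L n j = Ico ((j : ℝ) / (L : ℝ) ^ n) ((j + 1) / (L : ℝ) ^ n) := by
  ext x
  have h4 := hD.pw n
  change ⌊(L : ℝ) ^ n * x⌋ = j ↔ _
  rw [Int.floor_eq_iff, mem_Ico, div_le_iff₀ h4, lt_div_iff₀ h4, mul_comm x]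

theorem measurable_Iv (hD : Ok D) (n : ℕ) (j : ℤ) : MeasurableSet (Iv L n j) := by
  rw [Iv_eq hD]
  exact measurableSet_Ico

theorem volume_Iv (hD : Ok D) (n : ℕ) (j : ℤ) :
    volume (Iv L n j) = ENNReal.ofReal (1 / (L : ℝ) ^ n) := by
  rw [Iv_eq hD, Real.volume_Ico]
  congr 1
  ring

/-- The interval of a lower level. -/
theorem floor_coarse (hD : Ok D) (x : ℝ) (m k : ℕ) :
    ⌊(L : ℝ) ^ m * x⌋ = ⌊(L : ℝ) ^ (m + k) * x⌋ / ((L ^ k : ℕ) : ℤ) := by
  rw [← Int.floor_div_natCast]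
  congr 1
  have h4 := hD.pw k
  push_cast
  rw [pow_add]
  field_simp

theorem meets_of_mem (hD : Ok D) {t x : ℝ} {n : ℕ} {w : Wd L n} (h : x ∈ psq D t w) :
    meets D t w ⌊(L : ℝ) ^ n * x⌋ := by
  have h4 := hD.pw n
  have h1 := Int.floor_le ((L : ℝ) ^ n * x)
  have h2 := Int.lt_floor_add_one ((L : ℝ) ^ n * x)
  constructor
  · refine lt_of_le_of_lt h.1 ?_
    rw [lt_div_iff₀ h4, mul_comm x]
    exact h2
  · refine le_trans ?_ h.2
    rw [div_le_iff₀ h4, mul_comm x]
    exact h1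

theorem f_le_cnt (hD : Ok D) (t x : ℝ) (n : ℕ) :
    f D n t x ≤ cnt D t n ⌊(L : ℝ) ^ n * x⌋ := by
  classical
  rw [f_eq_card]
  unfold cnt
  exact_mod_cast Finset.card_le_card (Finset.monotone_filter_right _
    (fun w _ hw => meets_of_mem hD hw))

theorem cnt_zero (t : ℝ) (j : ℤ) : cnt D t 0 j ≤ 1 := by
  classical
  unfold cnt
  calc _ ≤ (Finset.univ : Finset (Wd L 0)).card := Finset.card_filter_le _ _
    _ = 1 := by simp

theorem meets_append (hD : Ok D) {t x : ℝ} (ht : 0 ≤ t) {n : ℕ} {u : Wd L n} {v : Wd L 1}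
    (h : meets D t (Fin.append u v : Wd L (n + 1)) ⌊(L : ℝ) ^ (n + 1) * x⌋) :
    meets D t u ⌊(L : ℝ) ^ n * x⌋ := by
  have h4 := hD.pw n
  have h41 := hD.pw (n + 1)
  have hL := hD.pos
  have hf := floor_coarse hD x n 1
  set j' := ⌊(L : ℝ) ^ (n + 1) * x⌋ with hj'
  set j := ⌊(L : ℝ) ^ n * x⌋ with hj
  have hLz : (0 : ℤ) < ((L ^ 1 : ℕ) : ℤ) := by
    have := hD.four
    rw [pow_one]
    omega
  have e1 : ((L ^ 1 : ℕ) : ℤ) * j ≤ j' := by
    rw [hf]
    exact Int.mul_ediv_self_le hLz.ne'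
  have e2 : j' + 1 ≤ ((L ^ 1 : ℕ) : ℤ) * (j + 1) := by
    rw [hf]
    have := Int.lt_mul_ediv_self_add (x := j') hLz
    rw [mul_add, mul_one]
    omega
  rw [pow_one] at e1 e2
  have e1' : (L : ℝ) * (j : ℝ) ≤ j' := by exact_mod_cast e1
  have e2' : (j' : ℝ) + 1 ≤ L * (j + 1) := by exact_mod_cast e2
  have hsub := psq_append_subset hD ht u v
  unfold psq at hsub
  have hle : pr D t (Fin.append u v : Wd L (n + 1)) ≤
      pr D t (Fin.append u v : Wd L (n + 1)) + (1 + t) / (L : ℝ) ^ (n + 1) := by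
    have : 0 ≤ (1 + t) / (L : ℝ) ^ (n + 1) := by positivity
    linarith
  rw [Icc_subset_Icc_iff hle] at hsub
  obtain ⟨h1, h2⟩ := h
  constructor
  · refine lt_of_le_of_lt hsub.1 (lt_of_lt_of_le h1 ?_)
    rw [div_le_div_iff₀ h41 h4, pow_succ]
    have := mul_le_mul_of_nonneg_right e2' h4.le
    linarith
  · refine le_trans ?_ (h2.trans hsub.2)
    rw [div_le_div_iff₀ h4 h41, pow_succ]
    have := mul_le_mul_of_nonneg_right e1' h4.le
    linarith

theorem cnt_succ (hD : Ok D) {t : ℝ} (ht : 0 ≤ t) (x : ℝ) (n : ℕ) :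
    cnt D t (n + 1) ⌊(L : ℝ) ^ (n + 1) * x⌋ ≤ L * cnt D t n ⌊(L : ℝ) ^ n * x⌋ := by
  classical
  unfold cnt
  rw [Finset.card_filter, Finset.card_filter, sum_append, Finset.mul_sum]
  refine Finset.sum_le_sum fun u _ => ?_
  calc ∑ v : Wd L 1, (if meets D t (Fin.append u v : Wd L (n + 1)) ⌊(L : ℝ) ^ (n + 1) * x⌋
        then 1 else 0)
      ≤ ∑ _v : Wd L 1, (if meets D t u ⌊(L : ℝ) ^ n * x⌋ then 1 else 0) := by
        refine Finset.sum_le_sum fun v _ => ?_
        by_cases h : meets D t (Fin.append u v : Wd L (n + 1)) ⌊(L : ℝ) ^ (n + 1) * x⌋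
        · rw [if_pos h, if_pos (meets_append hD ht h)]
        · rw [if_neg h]
          exact Nat.zero_le _
    _ = L * (if meets D t u ⌊(L : ℝ) ^ n * x⌋ then 1 else 0) := by
        rw [Finset.sum_const, Finset.card_univ, card_Wd, smul_eq_mul, pow_one]

/-- The second moment over one interval of level `n`. -/
theorem main_int (hD : Ok D) {t : ℝ} (ht : 0 ≤ t) {n N K : ℕ} (hn : n ≤ N) (j : ℤ)
    (hc : cnt D t n j ≤ L * K) :
    ∫⁻ x in Iv L n j, ENNReal.ofReal (f D N t x ^ 2) ≤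
      ENNReal.ofReal (((L : ℝ) * K) ^ 2 * S D N t) * volume (Iv L n j) := by
  classical
  obtain ⟨m, rfl⟩ := Nat.exists_eq_add_of_le hn
  have h4 := hD.pw n
  have hL := hD.pos
  set s : Finset (Wd L n) := Finset.univ.filter fun w : Wd L n => meets D t w j with hs
  have hsc : (s.card : ℝ) ≤ L * K := by
    have : s.card = cnt D t n j := rfl
    rw [this]
    exact_mod_cast hc
  set g : ℝ → ℝ := fun x => (s.card : ℝ) * ∑ u ∈ s, f D m t ((L : ℝ) ^ n * (x - pr D t u)) ^ 2
    with hg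
  have hpt : ∀ x ∈ Iv L n j, ENNReal.ofReal (f D (n + m) t x ^ 2) ≤ ENNReal.ofReal (g x) := by
    intro x hx
    apply ENNReal.ofReal_le_ofReal
    have h1 : f D (n + m) t x = ∑ u ∈ s, f D m t ((L : ℝ) ^ n * (x - pr D t u)) := by
      rw [f_add hD]
      symm
      apply Finset.sum_subset (Finset.subset_univ _)
      intro u _ hu
      by_contra hne
      apply hu
      have h2 := mem_Icc_of_f_ne_zero hD ht hne
      have h3 : x ∈ psq D t u := by
        rw [mem_Icc] at h2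
        unfold psq
        rw [mem_Icc]
        constructor
        · have := (mul_nonneg_iff_of_pos_left h4).mp h2.1
          linarith
        · have h5 : x - pr D t u ≤ (1 + t) / (L : ℝ) ^ n := by
            rw [le_div_iff₀ h4, mul_comm]
            exact h2.2
          linarith
      have h6 := meets_of_mem hD h3
      have h7 : ⌊(L : ℝ) ^ n * x⌋ = j := hx
      rw [h7] at h6
      exact Finset.mem_filter.mpr ⟨Finset.mem_univ _, h6⟩
    rw [h1]
    exact sq_sum_le_card_mul_sum_sq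
  have hint : ∀ u ∈ s, Integrable fun x => f D m t ((L : ℝ) ^ n * (x - pr D t u)) ^ 2 :=
    fun u _ => integrable_scale hD (integrable_f_sq m t) n (pr D t u)
  have hgi : Integrable g := (integrable_finsetSum _ hint).const_mul _
  have hg0 : ∀ x, 0 ≤ g x := fun x =>
    mul_nonneg (Nat.cast_nonneg _) (Finset.sum_nonneg fun u _ => sq_nonneg _)
  have hgm : Measurable fun x => ENNReal.ofReal (g x) := by
    apply Measurable.ennreal_ofReal
    apply Measurable.const_mul
    refine Finset.measurable_sum _ fun u _ => ?_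
    exact ((measurable_f m t).comp (by fun_prop)).pow_const 2
  have hgint : ∫ x, g x = (s.card : ℝ) * (s.card * (S D m t / (L : ℝ) ^ n)) := by
    rw [hg, integral_const_mul, integral_finsetSum _ hint]
    congr 1
    rw [Finset.sum_congr rfl fun u _ => integral_scale hD (fun x => f D m t x ^ 2) n (pr D t u),
      Finset.sum_const, nsmul_eq_mul]
    rfl
  calc ∫⁻ x in Iv L n j, ENNReal.ofReal (f D (n + m) t x ^ 2)
      ≤ ∫⁻ x in Iv L n j, ENNReal.ofReal (g x) := setLIntegral_mono hgm hpt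
    _ ≤ ∫⁻ x, ENNReal.ofReal (g x) := setLIntegral_le_lintegral _ _
    _ = ENNReal.ofReal (∫ x, g x) :=
        (ofReal_integral_eq_lintegral_ofReal hgi (Filter.Eventually.of_forall hg0)).symm
    _ ≤ ENNReal.ofReal (((L : ℝ) * K) ^ 2 * S D (n + m) t * (1 / (L : ℝ) ^ n)) := by
        apply ENNReal.ofReal_le_ofReal
        rw [hgint]
        have h1 := S_le hD n m t
        have h2 := S_nonneg (D := D) m t
        have h3 : (0 : ℝ) ≤ s.card := Nat.cast_nonneg _
        have h5 : (s.card : ℝ) * s.card ≤ (L * K) * (L * K) := mul_le_mul hsc hsc h3 (by positivity)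
        have h6 : (s.card : ℝ) * s.card * S D m t ≤ (L * K) * (L * K) * S D (n + m) t :=
          mul_le_mul h5 h1 h2 (by positivity)
        calc (s.card : ℝ) * (s.card * (S D m t / (L : ℝ) ^ n)) =
              (s.card * s.card * S D m t) / (L : ℝ) ^ n := by
              ring
          _ ≤ ((L * K) * (L * K) * S D (n + m) t) / (L : ℝ) ^ n :=
              div_le_div_of_nonneg_right h6 h4.le
          _ = _ := by ring
    _ = _ := by
        rw [volume_Iv hD, ENNReal.ofReal_mul]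
        exact mul_nonneg (by positivity) (S_nonneg _ _)

/-- The sets `A` are measurable. -/
theorem measurable_A (hD : Ok D) (t : ℝ) (N K : ℕ) : MeasurableSet (A D t N K) := by
  have h : A D t N K = ⋃ n : ℕ, ⋃ j : ℤ, if n ≤ N ∧ K ≤ cnt D t n j then Iv L n j else ∅ := by
    ext x
    simp only [mem_iUnion]
    constructor
    · rintro ⟨n, hn, hK⟩
      refine ⟨n, ⌊(L : ℝ) ^ n * x⌋, ?_⟩
      rw [if_pos ⟨hn, hK⟩]
      exact rfl
    · rintro ⟨n, j, hx⟩
      by_cases hc : n ≤ N ∧ K ≤ cnt D t n j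
      · rw [if_pos hc] at hx
        have hx' : ⌊(L : ℝ) ^ n * x⌋ = j := hx
        exact ⟨n, hc.1, by rw [hx']; exact hc.2⟩
      · rw [if_neg hc] at hx
        exact hx.elim
  rw [h]
  refine MeasurableSet.iUnion fun n => MeasurableSet.iUnion fun j => ?_
  split_ifs
  · exact measurable_Iv hD n j
  · exact MeasurableSet.empty

theorem A_zero {t : ℝ} {K : ℕ} (hK : 2 ≤ K) : A D t 0 K = ∅ := by
  ext x
  simp only [mem_empty_iff_false, iff_false]
  rintro ⟨n, hn, h⟩
  have hn0 : n = 0 := Nat.le_zero.mp hn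
  subst hn0
  have := cnt_zero (D := D) t ⌊(L : ℝ) ^ 0 * x⌋
  omega

theorem A_subset_succ (t : ℝ) (n K : ℕ) : A D t n K ⊆ A D t (n + 1) K := by
  rintro x ⟨m, hm, h⟩
  exact ⟨m, hm.trans (Nat.le_succ n), h⟩

/-- Points of the same interval have the same history. -/
theorem same_A (hD : Ok D) {t : ℝ} {n K : ℕ} {x y : ℝ}
    (h : ⌊(L : ℝ) ^ n * x⌋ = ⌊(L : ℝ) ^ n * y⌋) : x ∈ A D t n K → y ∈ A D t n K := by
  rintro ⟨m, hm, hK⟩
  refine ⟨m, hm, ?_⟩
  obtain ⟨k, rfl⟩ := Nat.exists_eq_add_of_le hm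
  rw [floor_coarse hD x m k, h, ← floor_coarse hD y m k] at hK
  exact hK

theorem bound_A (hD : Ok D) {t : ℝ} (ht : 0 ≤ t) {N K : ℕ} (hK : 2 ≤ K) :
    ∀ n ≤ N, ∫⁻ x in A D t n K, ENNReal.ofReal (f D N t x ^ 2) ≤
      ENNReal.ofReal (((L : ℝ) * K) ^ 2 * S D N t) * volume (A D t n K) := by
  intro n
  induction n with
  | zero =>
    intro _
    rw [A_zero hK]
    simp
  | succ n ih =>
    intro hn
    set c := ENNReal.ofReal (((L : ℝ) * K) ^ 2 * S D N t) with hc
    set Z := A D t (n + 1) K \ A D t n K with hZ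
    have hZm : MeasurableSet Z := (measurable_A hD t (n + 1) K).diff (measurable_A hD t n K)
    have hdis : Disjoint (A D t n K) Z := disjoint_sdiff_right
    have hun : A D t (n + 1) K = A D t n K ∪ Z :=
      (union_sdiff_cancel (A_subset_succ t n K)).symm
    have hZb : ∫⁻ x in Z, ENNReal.ofReal (f D N t x ^ 2) ≤ c * volume Z := by
      have hcov : Z = ⋃ j : ℤ, Z ∩ Iv L (n + 1) j := by
        rw [← inter_iUnion]
        refine (inter_eq_left.mpr fun x _ => ?_).symm
        exact mem_iUnion.mpr ⟨⌊(L : ℝ) ^ (n + 1) * x⌋, rfl⟩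
      have hm : ∀ j : ℤ, MeasurableSet (Z ∩ Iv L (n + 1) j) := fun j =>
        hZm.inter (measurable_Iv hD _ _)
      have hd : Pairwise (Function.onFun Disjoint fun j : ℤ => Z ∩ Iv L (n + 1) j) := by
        intro i j hij
        rw [Function.onFun, Set.disjoint_left]
        rintro x ⟨-, h1⟩ ⟨-, h2⟩
        exact hij ((show ⌊(L : ℝ) ^ (n + 1) * x⌋ = i from h1).symm.trans h2)
      have h1 : ∫⁻ x in Z, ENNReal.ofReal (f D N t x ^ 2) =
          ∑' j : ℤ, ∫⁻ x in Z ∩ Iv L (n + 1) j, ENNReal.ofReal (f D N t x ^ 2) := by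
        conv_lhs => rw [hcov]
        exact lintegral_iUnion hm hd _
      have h2 : volume Z = ∑' j : ℤ, volume (Z ∩ Iv L (n + 1) j) := by
        conv_lhs => rw [hcov]
        exact measure_iUnion hd hm
      rw [h1, h2, ← ENNReal.tsum_mul_left]
      refine ENNReal.tsum_le_tsum fun j => ?_
      rcases (Z ∩ Iv L (n + 1) j).eq_empty_or_nonempty with he | ⟨x, hxZ, hxj⟩
      · rw [he]
        simp
      · have hxj' : ⌊(L : ℝ) ^ (n + 1) * x⌋ = j := hxj
        have hxn : ∀ m ≤ n, cnt D t m ⌊(L : ℝ) ^ m * x⌋ < K := by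
          intro m hm
          by_contra hcon
          push Not at hcon
          exact hxZ.2 ⟨m, hm, hcon⟩
        have hsub : Iv L (n + 1) j ⊆ Z := by
          intro y hy
          have hyj : ⌊(L : ℝ) ^ (n + 1) * y⌋ = j := hy
          refine ⟨same_A hD (hxj'.trans hyj.symm) hxZ.1, fun hyA => hxZ.2 ?_⟩
          refine same_A hD ?_ hyA
          rw [floor_coarse hD y n 1, floor_coarse hD x n 1, hyj, hxj']
        have hI : Z ∩ Iv L (n + 1) j = Iv L (n + 1) j := inter_eq_right.mpr hsub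
        rw [hI]
        apply main_int hD ht hn
        have h3 := cnt_succ hD ht x n
        rw [hxj'] at h3
        have h4 := hxn n le_rfl
        exact h3.trans (Nat.mul_le_mul_left L h4.le)
    rw [hun, lintegral_union hZm hdis, measure_union hdis hZm, mul_add]
    exact add_le_add (ih (Nat.le_of_succ_le hn)) hZb

theorem A_bounded (hD : Ok D) {t : ℝ} (ht : 0 ≤ t) (ht1 : t ≤ 1) {N K : ℕ} (hK : 2 ≤ K) :
    A D t N K ⊆ Icc 0 3 := by
  classical
  rintro x ⟨n, -, h⟩
  have hpos : 0 < cnt D t n ⌊(L : ℝ) ^ n * x⌋ := by omega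
  unfold cnt at hpos
  obtain ⟨w, hw⟩ := Finset.card_pos.mp hpos
  obtain ⟨h1, h2⟩ := (Finset.mem_filter.mp hw).2
  have h4 := hD.pw n
  have h41 := hD.pw1 n
  have e1 := Int.floor_le ((L : ℝ) ^ n * x)
  have e2 := Int.lt_floor_add_one ((L : ℝ) ^ n * x)
  have e3 := pr_nonneg (D := D) ht w
  have e4 := pr_le hD ht w
  constructor
  · have e5 : (0 : ℝ) < (⌊(L : ℝ) ^ n * x⌋ + 1) / (L : ℝ) ^ n := lt_of_le_of_lt e3 h1
    have e6 : (0 : ℝ) < ⌊(L : ℝ) ^ n * x⌋ + 1 := by
      by_contra hc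
      push Not at hc
      have := div_nonpos_of_nonpos_of_nonneg hc h4.le
      linarith
    have e7 : (0 : ℤ) < ⌊(L : ℝ) ^ n * x⌋ + 1 := by exact_mod_cast e6
    have e8 : (0 : ℤ) ≤ ⌊(L : ℝ) ^ n * x⌋ := by omega
    have e9 : (0 : ℝ) ≤ ⌊(L : ℝ) ^ n * x⌋ := by exact_mod_cast e8
    exact (mul_nonneg_iff_of_pos_left h4).mp (e9.trans e1)
  · have e5 : (⌊(L : ℝ) ^ n * x⌋ : ℝ) ≤ 2 * (L : ℝ) ^ n := by
      rw [← div_le_iff₀ h4]
      linarith
    have e6 : (L : ℝ) ^ n * x ≤ (L : ℝ) ^ n * 3 := by linarith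
    exact le_of_mul_le_mul_left e6 h4

end STOPM

open STOPM in
/-- Stopping intervals. -/
theorem STOP_thm : Stmt_STOP := by
  intro L D hD N K t ht ht1 hK hS
  have hAm := measurable_A hD t N K
  have hL := hD.pos
  set F : ℝ → ENNReal := fun x => ENNReal.ofReal (f D N t x ^ 2) with hF
  have h1 : ENNReal.ofReal (S D N t) = ∫⁻ x, F x := by
    unfold S
    exact ofReal_integral_eq_lintegral_ofReal (integrable_f_sq N t)
      (Filter.Eventually.of_forall fun x => sq_nonneg _)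
  have h2 : ∫⁻ x in A D t N K, F x ≤
      ENNReal.ofReal (((L : ℝ) * K) ^ 2 * S D N t) * volume (A D t N K) :=
    bound_A hD ht hK N le_rfl
  have hmeasK : Measurable fun x => ENNReal.ofReal (K * f D N t x) :=
    ((measurable_f N t).const_mul _).ennreal_ofReal
  have h3 : ∫⁻ x in (A D t N K)ᶜ, F x ≤ ENNReal.ofReal (2 * K) := by
    calc ∫⁻ x in (A D t N K)ᶜ, F x ≤ ∫⁻ x in (A D t N K)ᶜ, ENNReal.ofReal (K * f D N t x) := by
          refine setLIntegral_mono hmeasK fun x hx => ?_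
          apply ENNReal.ofReal_le_ofReal
          rw [sq]
          refine mul_le_mul_of_nonneg_right ?_ (f_nonneg _ _ _)
          have h4 : cnt D t N ⌊(L : ℝ) ^ N * x⌋ < K := by
            by_contra hc
            push Not at hc
            exact hx ⟨N, le_rfl, hc⟩
          have h5 := f_le_cnt hD t x N
          have h6 : (cnt D t N ⌊(L : ℝ) ^ N * x⌋ : ℝ) ≤ K := by exact_mod_cast h4.le
          linarith
      _ ≤ ∫⁻ x, ENNReal.ofReal (K * f D N t x) := setLIntegral_le_lintegral _ _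
      _ = ENNReal.ofReal (∫ x, K * f D N t x) :=
          (ofReal_integral_eq_lintegral_ofReal ((integrable_f N t).const_mul _)
            (Filter.Eventually.of_forall fun x =>
              mul_nonneg (Nat.cast_nonneg _) (f_nonneg _ _ _))).symm
      _ ≤ _ := by
          apply ENNReal.ofReal_le_ofReal
          rw [integral_const_mul, integral_f hD N ht]
          have : (0 : ℝ) ≤ K := Nat.cast_nonneg _
          nlinarith
  have hfin : volume (A D t N K) ≠ ⊤ := by
    refine ne_top_of_le_ne_top ?_ (measure_mono (A_bounded hD ht ht1 (N := N) hK))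
    rw [Real.volume_Icc]
    exact ENNReal.ofReal_ne_top
  have h4 : ENNReal.ofReal (S D N t) ≤
      ENNReal.ofReal (((L : ℝ) * K) ^ 2 * S D N t * (volume (A D t N K)).toReal + 2 * K) := by
    rw [h1, ← lintegral_add_compl F hAm, ENNReal.ofReal_add, ENNReal.ofReal_mul,
      ENNReal.ofReal_toReal hfin]
    · exact add_le_add h2 h3
    · exact mul_nonneg (by positivity) (S_nonneg _ _)
    · exact mul_nonneg (mul_nonneg (by positivity) (S_nonneg _ _)) ENNReal.toReal_nonneg
    · positivity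
  have h5 : S D N t ≤ ((L : ℝ) * K) ^ 2 * S D N t * (volume (A D t N K)).toReal + 2 * K := by
    rwa [ENNReal.ofReal_le_ofReal_iff] at h4
    have h6 := S_nonneg (D := D) N t
    have h7 : (0 : ℝ) ≤ (volume (A D t N K)).toReal := ENNReal.toReal_nonneg
    positivity
  have hK0 : (0 : ℝ) < K := by
    have : 0 < K := by omega
    exact_mod_cast this
  have hS0 : 0 < S D N t := by linarith
  rw [div_le_iff₀ (by positivity)]
  have h6 : S D N t * 1 ≤
      S D N t * ((volume (A D t N K)).toReal * (2 * ((L : ℝ) * K) ^ 2)) := by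
    nlinarith
  exact le_of_mul_le_mul_left h6 hS0

end Pool.Agent.RDS
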