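import Pool.Agent.RDS.Stmts

/-!
# Random digit sets: the lower tail of the main quantity
-/

set_option autoImplicit false

namespace Pool.Agent.RDS

open MeasureTheory Set

namespace TLEM

variable {L : ℕ} {D : Fin L → ℕ × ℕ}

/-- The level of the `k`-th increment. -/
noncomputable def lev (c : ℝ) (k : ℕ) : ℝ := c ^ k / 2 ^ (k + 2)

theorem lev_pos {c : ℝ} (hc : 0 < c) (k : ℕ) : 0 < lev c k := by unfold lev; positivity

/-- The exceptional directions. -/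
def bad (D : Fin L → ℕ × ℕ) (p : Fin L × Fin L) (c : ℝ) (k : ℕ) : Set ℝ :=
  {t | t ∈ Icc (0 : ℝ) 1 ∧ lev c k < |E D p (k + 1) t - E D p k t|}

theorem cheb (p : Fin L × Fin L) {c : ℝ} (hc : 0 < c) (k : ℕ) {B : ℝ}
    (h : ∫⁻ t in Icc (0 : ℝ) 1, ENNReal.ofReal ((E D p (k + 1) t - E D p k t) ^ 2) ≤
      ENNReal.ofReal B) :
    volume (bad D p c k) ≤ ENNReal.ofReal (B / lev c k ^ 2) := by
  have ha := lev_pos hc k
  have hcont : Continuous fun t => E D p (k + 1) t - E D p k t :=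
    (continuous_E p (k + 1)).sub (continuous_E p k)
  have hm : Measurable fun t => ENNReal.ofReal ((E D p (k + 1) t - E D p k t) ^ 2) :=
    (hcont.measurable.pow_const 2).ennreal_ofReal
  have h1 := mul_meas_ge_le_lintegral (μ := volume.restrict (Icc (0 : ℝ) 1)) hm
    (ENNReal.ofReal (lev c k ^ 2))
  have hS : MeasurableSet {t | ENNReal.ofReal (lev c k ^ 2) ≤
      ENNReal.ofReal ((E D p (k + 1) t - E D p k t) ^ 2)} := measurableSet_le measurable_const hm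
  rw [Measure.restrict_apply hS] at h1
  have h2 : bad D p c k ⊆ {t | ENNReal.ofReal (lev c k ^ 2) ≤
      ENNReal.ofReal ((E D p (k + 1) t - E D p k t) ^ 2)} ∩ Icc (0 : ℝ) 1 := by
    rintro t ⟨ht, h3⟩
    refine ⟨?_, ht⟩
    show ENNReal.ofReal (lev c k ^ 2) ≤ ENNReal.ofReal ((E D p (k + 1) t - E D p k t) ^ 2)
    refine ENNReal.ofReal_le_ofReal ?_
    rw [← sq_abs (E D p (k + 1) t - E D p k t)]
    exact pow_le_pow_left₀ ha.le h3.le 2
  have hpos : 0 < lev c k ^ 2 := by positivity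
  have h4 : ENNReal.ofReal (lev c k ^ 2) * volume (bad D p c k) ≤ ENNReal.ofReal B :=
    (mul_le_mul_right (measure_mono h2) _).trans (h1.trans h)
  rw [ENNReal.ofReal_div_of_pos hpos, ENNReal.le_div_iff_mul_le
    (Or.inl (ENNReal.ofReal_pos.2 hpos).ne') (Or.inl ENNReal.ofReal_ne_top), mul_comm]
  exact h4

theorem bad_le_one (p : Fin L × Fin L) (c : ℝ) (k : ℕ) : volume (bad D p c k) ≤ 1 := by
  have h : bad D p c k ⊆ Icc (0 : ℝ) 1 := fun t ht => ht.1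
  refine (measure_mono h).trans ?_
  rw [Real.volume_Icc]
  simp

/-- The arithmetic of the Chebyshev bound. -/
theorem arith {M : ℕ} {K c C0 l : ℝ} (hl : 0 < l) (hM : 1 ≤ M) (hK : 1 ≤ K) (hc : 0 < c)
    (hc' : c ≤ 1 / 2) (hC : 0 < C0) (key : 144 * K * (M : ℝ) ^ 2 ≤ c ^ 6 * l) {n r : ℕ}
    (h1 : r + 1 ≤ n) (h2 : n ≤ r + 2) :
    C0 * (M : ℝ) ^ (2 * n) * (9 * K / l) ^ r / lev c (n + r) ^ 2 ≤
      256 * C0 * (M : ℝ) ^ 4 / c ^ 6 * c ^ (n + r) := by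
  have hM' : (1 : ℝ) ≤ M := by exact_mod_cast hM
  have hM0 : (0 : ℝ) < M := by linarith
  have hc1 : c ≤ 1 := by linarith
  have hK0 : 0 < K := by linarith
  have e1 : lev c (n + r) ^ 2 = c ^ (2 * n + 2 * r) / (16 * 4 ^ n * 4 ^ r) := by
    unfold lev
    rw [div_pow, ← pow_mul, ← pow_mul]
    have : (2 : ℝ) ^ ((n + r + 2) * 2) = 16 * 4 ^ n * 4 ^ r := by
      rw [mul_comm, pow_mul, pow_add, pow_add]; norm_num; ring
    rw [this]
    congr 2
    ring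
  have e2 : (9 * K / l) ^ r * (M : ℝ) ^ (2 * r) * 16 ^ r ≤ c ^ (6 * r) := by
    have e3 : (9 * K / l) ^ r * (M : ℝ) ^ (2 * r) * 16 ^ r =
        (144 * K * (M : ℝ) ^ 2 / l) ^ r := by
      rw [pow_mul, ← mul_pow, ← mul_pow]; congr 1; ring
    rw [e3, pow_mul]
    refine pow_le_pow_left₀ (by positivity) ?_ r
    rw [div_le_iff₀ hl]
    exact key
  obtain ⟨s, rfl, hs⟩ : ∃ s, n = r + s ∧ (s = 1 ∨ s = 2) := ⟨n - r, by omega, by omega⟩
  rw [e1, div_div_eq_mul_div, div_le_iff₀ (by positivity)]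
  have hMs : (M : ℝ) ^ (2 * s) ≤ (M : ℝ) ^ 4 := pow_le_pow_right₀ hM' (by omega)
  have h4s : (4 : ℝ) ^ s ≤ 16 := by rcases hs with rfl | rfl <;> norm_num
  have e5 : C0 * (M : ℝ) ^ (2 * (r + s)) * (9 * K / l) ^ r * (16 * 4 ^ (r + s) * 4 ^ r) =
      16 * C0 * ((9 * K / l) ^ r * (M : ℝ) ^ (2 * r) * 16 ^ r) * ((M : ℝ) ^ (2 * s) * 4 ^ s) := by
    have : (16 : ℝ) ^ r = 4 ^ r * 4 ^ r := by rw [← mul_pow]; norm_num
    rw [this, mul_add, pow_add, pow_add]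
    ring
  have e6 : 256 * C0 * (M : ℝ) ^ 4 / c ^ 6 * c ^ (r + s + r) * c ^ (2 * (r + s) + 2 * r) =
      16 * C0 * c ^ (6 * r + 3 * s) * ((M : ℝ) ^ 4 * 16) / c ^ 6 := by
    have : c ^ (r + s + r) * c ^ (2 * (r + s) + 2 * r) = c ^ (6 * r + 3 * s) := by
      rw [← pow_add]; congr 1; ring
    rw [mul_assoc (256 * C0 * (M : ℝ) ^ 4 / c ^ 6), this]
    ring
  rw [e5, e6]
  have hc6 : c ^ 6 ≤ c ^ (3 * s) := pow_le_pow_of_le_one hc.le hc1 (by omega)
  have e7 : 16 * C0 * c ^ (6 * r) * ((M : ℝ) ^ 4 * 16) ≤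
      16 * C0 * c ^ (6 * r + 3 * s) * ((M : ℝ) ^ 4 * 16) / c ^ 6 := by
    rw [le_div_iff₀ (by positivity), pow_add]
    have h7 : 0 ≤ 16 * C0 * c ^ (6 * r) * ((M : ℝ) ^ 4 * 16) := by positivity
    calc 16 * C0 * c ^ (6 * r) * ((M : ℝ) ^ 4 * 16) * c ^ 6 ≤
          16 * C0 * c ^ (6 * r) * ((M : ℝ) ^ 4 * 16) * c ^ (3 * s) :=
          mul_le_mul_of_nonneg_left hc6 h7
      _ = _ := by ring
  refine le_trans ?_ e7
  have h8 : (M : ℝ) ^ (2 * s) * 4 ^ s ≤ (M : ℝ) ^ 4 * 16 :=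
    mul_le_mul hMs h4s (by positivity) (by positivity)
  calc 16 * C0 * ((9 * K / l) ^ r * (M : ℝ) ^ (2 * r) * 16 ^ r) * ((M : ℝ) ^ (2 * s) * 4 ^ s)
      ≤ 16 * C0 * c ^ (6 * r) * ((M : ℝ) ^ (2 * s) * 4 ^ s) :=
        mul_le_mul_of_nonneg_right (mul_le_mul_of_nonneg_left e2 (by positivity)) (by positivity)
    _ ≤ 16 * C0 * c ^ (6 * r) * ((M : ℝ) ^ 4 * 16) :=
        mul_le_mul_of_nonneg_left h8 (by positivity)

/-- The measure of the exceptional sets. -/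
theorem vol_bad {M : ℕ} {K c C0 : ℝ} (hD : Crit D M K c) (hC : 0 < C0) {p : Fin L × Fin L}
    (h : ∀ n r : ℕ, r + 1 ≤ n →
      ∫⁻ t in Icc (0 : ℝ) 1, ENNReal.ofReal ((E D p (n + r + 1) t - E D p (n + r) t) ^ 2) ≤
        ENNReal.ofReal (C0 * (M : ℝ) ^ (2 * n) * (9 * K / L) ^ r)) (k : ℕ) :
    volume (bad D p c k) ≤ ENNReal.ofReal ((1 + 256 * C0 * (M : ℝ) ^ 4 / c ^ 6) * c ^ k) := by
  have hc := hD.hc
  have hpos : 0 ≤ 256 * C0 * (M : ℝ) ^ 4 / c ^ 6 := by positivity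
  rcases Nat.eq_zero_or_pos k with rfl | hk
  · refine (bad_le_one p c 0).trans ?_
    rw [pow_zero, mul_one, ← ENNReal.ofReal_one]
    exact ENNReal.ofReal_le_ofReal (by linarith)
  · obtain ⟨n, r, rfl, h1, h2⟩ : ∃ n r, k = n + r ∧ r + 1 ≤ n ∧ n ≤ r + 2 :=
      ⟨k - (k - 1) / 2, (k - 1) / 2, by omega, by omega, by omega⟩
    refine (cheb p hc (n + r) (h n r h1)).trans (ENNReal.ofReal_le_ofReal ?_)
    refine (arith hD.toOk.pos hD.hM hD.hK hc hD.hc' hC hD.key h1 h2).trans ?_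
    exact mul_le_mul_of_nonneg_right (by linarith) (by positivity)

/-- Outside the exceptional sets the main quantity is large. -/
theorem large {c : ℝ} (hc : 0 < c) (hc' : c ≤ 1 / 2) {p : Fin L × Fin L} {t : ℝ}
    (ht : t ∈ Icc (0 : ℝ) 1) (hlow : ∀ n : ℕ, c ^ n ≤ E D p n t) {k0 : ℕ}
    (hb : ∀ k, k0 ≤ k → t ∉ bad D p c k) (m : ℕ) : c ^ k0 / 2 ≤ E D p m t := by
  have hc1 : c ≤ 1 := by linarith
  have h0 : 0 < c ^ k0 := by positivity
  rcases lt_or_ge m k0 with hm | hm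
  · have h1 : c ^ k0 ≤ c ^ m := pow_le_pow_of_le_one hc.le hc1 hm.le
    have := hlow m
    linarith
  · obtain ⟨j, rfl⟩ := Nat.exists_eq_add_of_le hm
    have key : ∀ j : ℕ, c ^ k0 * (1 / 2 + 1 / 2 ^ (j + 1)) ≤ E D p (k0 + j) t := by
      intro j
      induction j with
      | zero => have := hlow k0; norm_num at this ⊢; linarith
      | succ j ih =>
        have h2 : ¬ lev c (k0 + j) < |E D p (k0 + j + 1) t - E D p (k0 + j) t| := fun h3 =>
          hb (k0 + j) (by omega) ⟨ht, h3⟩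
        have h3 := not_lt.1 h2
        have h4 := neg_abs_le (E D p (k0 + j + 1) t - E D p (k0 + j) t)
        have h5 : lev c (k0 + j) ≤ c ^ k0 * (1 / 2 ^ (j + 2)) := by
          unfold lev
          rw [div_eq_mul_one_div]
          refine mul_le_mul (pow_le_pow_of_le_one hc.le hc1 (by omega)) ?_ (by positivity) h0.le
          exact one_div_le_one_div_of_le (by positivity)
            (pow_le_pow_right₀ (by norm_num) (by omega))
        have h6 : c ^ k0 * (1 / 2 + 1 / 2 ^ (j + 1)) =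
            c ^ k0 * (1 / 2 + 1 / 2 ^ (j + 1 + 1)) + c ^ k0 * (1 / 2 ^ (j + 2)) := by
          rw [← mul_add]
          congr 1
          rw [show j + 1 + 1 = j + 2 from rfl, add_assoc]
          congr 1
          rw [pow_succ (2 : ℝ) (j + 1)]
          field_simp
          norm_num
        show _ ≤ E D p (k0 + j + 1) t
        linarith
    have := key j
    have h7 : 0 ≤ c ^ k0 * (1 / 2 ^ (j + 1)) := by positivity
    rw [mul_add] at this
    linarith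

theorem tsum_bound {c B : ℝ} (hc : 0 < c) (hc' : c ≤ 1 / 2) (hB : 0 ≤ B) (k0 : ℕ) :
    ∑' j : ℕ, ENNReal.ofReal (B * c ^ (k0 + j)) ≤ ENNReal.ofReal (2 * B * c ^ k0) := by
  have hc1 : c < 1 := by linarith
  have hs : Summable fun j : ℕ => B * c ^ (k0 + j) := by
    have := (summable_geometric_of_lt_one hc.le hc1).mul_left (B * c ^ k0)
    refine this.congr fun j => ?_
    rw [pow_add]; ring
  rw [← ENNReal.ofReal_tsum_of_nonneg (fun j => by positivity) hs]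
  refine ENNReal.ofReal_le_ofReal ?_
  have e : ∑' j : ℕ, B * c ^ (k0 + j) = B * c ^ k0 * (1 - c)⁻¹ := by
    rw [← tsum_geometric_of_lt_one hc.le hc1, ← tsum_mul_left]
    exact tsum_congr fun j => by rw [pow_add]; ring
  rw [e]
  have h1 : (1 - c)⁻¹ ≤ 2 := by
    rw [inv_le_comm₀ (by linarith) (by norm_num)]; linarith
  have h2 : 0 ≤ B * c ^ k0 := by positivity
  nlinarith

end TLEM

open TLEM in
theorem TLE_thm (hNOD : Stmt_NOD) : Stmt_TLE := by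
  intro _ L D M K c hD hstp
  obtain ⟨C0, hC0, h⟩ := hstp
  have hc := hD.hc
  have hc' := hD.hc'
  have hB : 0 ≤ 1 + 256 * C0 * (M : ℝ) ^ 4 / c ^ 6 := by positivity
  refine ⟨2 * (1 + 256 * C0 * (M : ℝ) ^ 4 / c ^ 6), by positivity, fun p hp k0 => ?_⟩
  have h1 := vol_bad hD hC0 (h p hp)
  have hsub : {t : ℝ | t ∈ Icc (0 : ℝ) 1 ∧ |dt D t p| ≤ 2 / 3 ∧ ∃ m, E D p m t < c ^ k0 / 2} ⊆
      ⋃ j : ℕ, bad D p c (k0 + j) := by
    rintro t ⟨ht, h2, m, hm⟩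
    by_contra h3
    rw [mem_iUnion] at h3
    push Not at h3
    have hlow : ∀ n : ℕ, c ^ n ≤ E D p n t := fun n =>
      (hNOD D hD.toOk).2 c hc hD.low t ht _ h2 n
    have := large hc hc' ht hlow (k0 := k0) (fun k hk => by
      obtain ⟨j, rfl⟩ := Nat.exists_eq_add_of_le hk
      exact h3 j) m
    linarith
  calc volume {t : ℝ | t ∈ Icc (0 : ℝ) 1 ∧ |dt D t p| ≤ 2 / 3 ∧ ∃ m, E D p m t < c ^ k0 / 2}
      ≤ volume (⋃ j : ℕ, bad D p c (k0 + j)) := measure_mono hsub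
    _ ≤ ∑' j : ℕ, volume (bad D p c (k0 + j)) := measure_iUnion_le _
    _ ≤ ∑' j : ℕ, ENNReal.ofReal ((1 + 256 * C0 * (M : ℝ) ^ 4 / c ^ 6) * c ^ (k0 + j)) :=
        ENNReal.tsum_le_tsum fun j => h1 (k0 + j)
    _ ≤ _ := tsum_bound hc hc' hB k0

end Pool.Agent.RDS
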