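import Pool.Agent.RDS.Stmts

/-!
# TLS: the tail estimate for the second moment (module RDS_TLS, MP_98e313_an)
-/

set_option autoImplicit false

namespace Pool.Agent.RDS

open MeasureTheory Set

namespace TLSM

theorem exists_level {c ε : ℝ} (hc : 0 < c) (hc' : c ≤ 1 / 2) (hε : 0 < ε) (hε' : ε < 1 / 2) :
    ∃ k : ℕ, c ^ (k + 1) / 2 ≤ ε ∧ ε < c ^ k / 2 := by
  classical
  have hex : ∃ k : ℕ, c ^ (k + 1) / 2 ≤ ε := by
    obtain ⟨n, hn⟩ := exists_pow_lt_of_lt_one hε (by linarith : c < 1)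
    refine ⟨n, ?_⟩
    have h1 : c ^ (n + 1) ≤ c ^ n := pow_le_pow_of_le_one hc.le (by linarith) (Nat.le_succ n)
    have h2 : 0 < c ^ (n + 1) := pow_pos hc _
    linarith
  refine ⟨Nat.find hex, Nat.find_spec hex, ?_⟩
  rcases Nat.eq_zero_or_pos (Nat.find hex) with h | h
  · rw [h, pow_zero]
    exact hε'
  · have h1 := Nat.find_min hex (m := Nat.find hex - 1) (by omega)
    rw [Nat.sub_add_cancel h] at h1
    exact not_le.1 h1

/-- The pointwise statement: a small second moment forces a small main quantity. -/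
theorem point (hAUT : Stmt_AUT) {L : ℕ} {D : Fin L → ℕ × ℕ} {M : ℕ} {K c : ℝ}
    (hC : Crit D M K c) (N : ℕ) (y ε t : ℝ) (hN : 1 ≤ N) (hε : 4 * L * y / N < ε)
    (ht : t ∈ Icc (0 : ℝ) 1) (hS : S D N t ≤ y) :
    ∃ p : Fin L × Fin L, 2 ≤ |dy D p| ∧ |dt D t p| ≤ 2 / 3 ∧ ∃ m, E D p m t < ε := by
  have hL4 : 4 ≤ L := hC.four
  have hL : (0 : ℝ) < L := by
    have : (4 : ℝ) ≤ L := by exact_mod_cast hL4
    linarith
  have hN0 : (0 : ℝ) < N := by exact_mod_cast hN
  have h1 := hC.low t ht 0 (by rw [abs_zero]; positivity)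
  have h2 : (0 : ℝ) < ((Finset.univ.filter fun p : Fin L × Fin L => 2 ≤ |dy D p| ∧
      |dt D t p - 0| ≤ 2 / 3).card : ℝ) := lt_of_lt_of_le (mul_pos hC.hc hL) h1
  have h3 : 0 < (Finset.univ.filter fun p : Fin L × Fin L => 2 ≤ |dy D p| ∧
      |dt D t p - 0| ≤ 2 / 3).card := by exact_mod_cast h2
  obtain ⟨p, hp⟩ := Finset.card_pos.1 h3
  obtain ⟨hp1, hp2⟩ := (Finset.mem_filter.1 hp).2
  rw [sub_zero] at hp2
  refine ⟨p, hp1, hp2, ?_⟩
  have hne : p.1 ≠ p.2 := by
    intro h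
    have : dy D p = 0 := by
      unfold dy
      rw [h, sub_self]
    rw [this] at hp1
    norm_num at hp1
  have h4 := hAUT D hC.toOk t p ht.1 ht.2 hne N
  by_contra hcon
  push Not at hcon
  have h5 : (N : ℝ) * ε ≤ ∑ m ∈ Finset.range N, E D p m t := by
    calc (N : ℝ) * ε = ∑ m ∈ Finset.range N, ε := by
          rw [Finset.sum_const, Finset.card_range, nsmul_eq_mul]
      _ ≤ _ := Finset.sum_le_sum fun m _ => hcon m
  have h6 : 4 * L * y < (N : ℝ) * ε := by
    rw [div_lt_iff₀ hN0] at hε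
    linarith
  have h7 : y < (∑ m ∈ Finset.range N, E D p m t) / (4 * L) := by
    rw [lt_div_iff₀ (by positivity)]
    linarith
  linarith

end TLSM

open TLSM in
theorem TLS_thm : Stmt_TLS := by
  intro hAUT hNOD hTLE L D M K c hC hS
  obtain ⟨C, hC0, hT⟩ := hTLE hNOD D M K c hC hS
  have hL4 : 4 ≤ L := hC.four
  have hL : (0 : ℝ) < L := by
    have : (4 : ℝ) ≤ L := by exact_mod_cast hL4
    linarith
  have hc := hC.hc
  have hc' := hC.hc'
  refine ⟨8 * L + 8 * L ^ 3 * C / c, by positivity, ?_⟩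
  intro N y hN hy
  have hN0 : (0 : ℝ) < N := by exact_mod_cast hN
  have hq : 0 < y / N := by positivity
  rcases le_or_gt (1 / 2) (4 * L * y / N) with hε | hε
  · calc volume {t : ℝ | t ∈ Icc (0 : ℝ) 1 ∧ S D N t ≤ y}
        ≤ volume (Icc (0 : ℝ) 1) := measure_mono fun t ht => ht.1
      _ = ENNReal.ofReal 1 := by rw [Real.volume_Icc, sub_zero]
      _ ≤ _ := by
        apply ENNReal.ofReal_le_ofReal
        have h1 : 4 * L * y / N = 4 * L * (y / N) := by ring
        rw [h1] at hε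
        have h2 : 0 ≤ 8 * (L : ℝ) ^ 3 * C / c * (y / N) := by positivity
        have h3 : (8 * (L : ℝ) + 8 * L ^ 3 * C / c) * (y / N) =
          8 * L * (y / N) + 8 * (L : ℝ) ^ 3 * C / c * (y / N) := by ring
        rw [h3]
        linarith
  · obtain ⟨k, hk1, hk2⟩ := exists_level hc hc' (by positivity) hε
    classical
    set P := Finset.univ.filter fun p : Fin L × Fin L => 2 ≤ |dy D p| with hP
    have hsub : {t : ℝ | t ∈ Icc (0 : ℝ) 1 ∧ S D N t ≤ y} ⊆ ⋃ p ∈ P,
        {t : ℝ | t ∈ Icc (0 : ℝ) 1 ∧ |dt D t p| ≤ 2 / 3 ∧ ∃ m, E D p m t < c ^ k / 2} := by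
      rintro t ⟨ht, hSt⟩
      obtain ⟨p, hp1, hp2, hp3⟩ := point hAUT hC N y (c ^ k / 2) t hN hk2 ht hSt
      exact mem_iUnion₂.2 ⟨p, Finset.mem_filter.2 ⟨Finset.mem_univ _, hp1⟩, ht, hp2, hp3⟩
    calc volume {t : ℝ | t ∈ Icc (0 : ℝ) 1 ∧ S D N t ≤ y}
        ≤ volume (⋃ p ∈ P, {t : ℝ | t ∈ Icc (0 : ℝ) 1 ∧ |dt D t p| ≤ 2 / 3 ∧
            ∃ m, E D p m t < c ^ k / 2}) := measure_mono hsub
      _ ≤ ∑ p ∈ P, volume {t : ℝ | t ∈ Icc (0 : ℝ) 1 ∧ |dt D t p| ≤ 2 / 3 ∧
            ∃ m, E D p m t < c ^ k / 2} := measure_biUnion_finset_le _ _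
      _ ≤ ∑ p ∈ P, ENNReal.ofReal (C * c ^ k) :=
        Finset.sum_le_sum fun p hp => hT p (Finset.mem_filter.1 hp).2 k
      _ = ENNReal.ofReal (P.card * (C * c ^ k)) := by
        rw [Finset.sum_const, nsmul_eq_mul,
          ENNReal.ofReal_mul (p := (P.card : ℝ)) (Nat.cast_nonneg _), ENNReal.ofReal_natCast]
      _ ≤ _ := by
        apply ENNReal.ofReal_le_ofReal
        have h1 : (P.card : ℝ) ≤ (L : ℝ) ^ 2 := by
          have h2 : P.card ≤ L ^ 2 := by
            calc P.card ≤ (Finset.univ : Finset (Fin L × Fin L)).card :=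
                  Finset.card_le_card (Finset.filter_subset _ _)
              _ = L ^ 2 := by
                  rw [Finset.card_univ, Fintype.card_prod, Fintype.card_fin, sq]
          exact_mod_cast h2
        have h3 : c ^ k ≤ 2 * (4 * L * y / N) / c := by
          rw [le_div_iff₀ hc, ← pow_succ]
          linarith
        calc (P.card : ℝ) * (C * c ^ k) ≤ (L : ℝ) ^ 2 * (C * (2 * (4 * L * y / N) / c)) := by
              apply mul_le_mul h1 _ (by positivity) (by positivity)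
              exact mul_le_mul_of_nonneg_left h3 hC0.le
          _ = 8 * (L : ℝ) ^ 3 * C / c * (y / N) := by
              field_simp
              ring
          _ ≤ (8 * L + 8 * L ^ 3 * C / c) * (y / N) := by
              apply mul_le_mul_of_nonneg_right _ hq.le
              linarith

end Pool.Agent.RDS
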