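import Pool.Agent.RDS.Stmts

/-!
# Random digit sets: a disjoint subfamily (Vitali)
-/

set_option autoImplicit false

namespace Pool.Agent.RDS

open MeasureTheory Set

namespace VITM

/-- The centre of an `L`-adic interval. -/
noncomputable def ctr (L : ℕ) (b : ℕ × ℤ) : ℝ := ((b.2 : ℝ) + 1 / 2) / (L : ℝ) ^ b.1

/-- The radius of the five-fold enlargement. -/
noncomputable def rad (L : ℕ) (b : ℕ × ℤ) : ℝ := (5 / 2) / (L : ℝ) ^ b.1

theorem ball_eq (L : ℕ) (b : ℕ × ℤ) : Metric.closedBall (ctr L b) (rad L b) = Jst L b := by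
  rw [Real.closedBall_eq_Icc]
  unfold ctr rad Jst
  congr 1 <;> ring

theorem rad_le {L : ℕ} {D : Fin L → ℕ × ℕ} (h : Ok D) (b : ℕ × ℤ) : rad L b ≤ 5 / 2 := by
  unfold rad
  exact div_le_self (by norm_num) (h.pw1 _)

/-- The index family. -/
def I {L : ℕ} (D : Fin L → ℕ × ℕ) (N K : ℕ) (t : ℝ) : Set (ℕ × ℤ) :=
  {b | b.1 ≤ N ∧ K ≤ cnt D t b.1 b.2}

theorem finite_I {L : ℕ} {D : Fin L → ℕ × ℕ} (h : Ok D) (N K : ℕ) (t : ℝ) (h0 : 0 ≤ t)
    (h1 : t ≤ 1) (hK : 1 ≤ K) : (I D N K t).Finite := by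
  classical
  refine Set.Finite.subset
    ((Finset.range (N + 1) ×ˢ Finset.Icc (0 : ℤ) (2 * (L : ℤ) ^ N)).finite_toSet) ?_
  rintro ⟨n, j⟩ ⟨hn, hc⟩
  have hn' : n ≤ N := hn
  have hc' : 1 ≤ cnt D t n j := hK.trans hc
  unfold cnt at hc'
  obtain ⟨w, hw⟩ := Finset.card_pos.1 hc'
  obtain ⟨hw1, hw2⟩ := (Finset.mem_filter.1 hw).2
  have h4 : (0 : ℝ) < (L : ℝ) ^ n := h.pw n
  have hp0 := pr_nonneg (D := D) h0 w
  have hp1 := pr_le h h0 w
  have hj0 : (0 : ℝ) < (j : ℝ) + 1 := by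
    have : (0 : ℝ) < ((j : ℝ) + 1) / (L : ℝ) ^ n := lt_of_le_of_lt hp0 hw1
    by_contra hneg
    push Not at hneg
    have : ((j : ℝ) + 1) / (L : ℝ) ^ n ≤ 0 := div_nonpos_of_nonpos_of_nonneg hneg h4.le
    linarith
  have hj0' : 0 ≤ j := by
    have : (0 : ℤ) < j + 1 := by exact_mod_cast hj0
    omega
  have hj1 : (j : ℝ) ≤ 2 * (L : ℝ) ^ n := by
    have h : (j : ℝ) / (L : ℝ) ^ n ≤ 2 := by linarith
    rwa [div_le_iff₀ h4] at h
  have hj1' : j ≤ 2 * (L : ℤ) ^ n := by exact_mod_cast hj1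
  have hj2 : j ≤ 2 * (L : ℤ) ^ N := by
    refine hj1'.trans ?_
    have hL : (1 : ℤ) ≤ (L : ℤ) := by
      have := h.four
      exact_mod_cast (by omega : 1 ≤ L)
    have : (L : ℤ) ^ n ≤ (L : ℤ) ^ N := pow_le_pow_right₀ hL hn'
    linarith
  simp only [Finset.coe_product, Set.mem_prod, Finset.mem_coe, Finset.mem_range, Finset.mem_Icc]
  exact ⟨by omega, hj0', hj2⟩

end VITM

open VITM in
theorem VIT_thm : Stmt_VIT := by
  intro L D hok N K t h0 h1 hK
  classical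
  obtain ⟨u, hu, hdis, hcov⟩ := Vitali.exists_disjoint_subfamily_covering_enlargement_closedBall
    (I D N K t) (ctr L) (rad L) (5 / 2) (fun a _ => rad_le hok a) 4 (by norm_num)
  have hfin : u.Finite := (finite_I hok N K t h0 h1 hK).subset hu
  refine ⟨hfin.toFinset, ?_, ?_, ?_⟩
  · intro b hb
    exact hu (hfin.mem_toFinset.1 hb)
  · rw [hfin.coe_toFinset]
    intro a ha b hb hab
    have := hdis ha hb hab
    simpa only [Function.onFun, ball_eq] using this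
  · have hsub : A D t N K ⊆ ⋃ b ∈ hfin.toFinset, Metric.closedBall (ctr L b) (4 * rad L b) := by
      rintro x ⟨n, hn, hx⟩
      have hmem : ((n, ⌊(L : ℝ) ^ n * x⌋) : ℕ × ℤ) ∈ I D N K t := ⟨hn, hx⟩
      obtain ⟨b, hb, hsb⟩ := hcov _ hmem
      have hxb : x ∈ Metric.closedBall (ctr L (n, ⌊(L : ℝ) ^ n * x⌋))
          (rad L (n, ⌊(L : ℝ) ^ n * x⌋)) := by
        rw [ball_eq]
        unfold Jst
        have h4 : (0 : ℝ) < (L : ℝ) ^ n := hok.pw n
        have hf1 := Int.floor_le ((L : ℝ) ^ n * x)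
        have hf2 := Int.lt_floor_add_one ((L : ℝ) ^ n * x)
        constructor
        · rw [div_le_iff₀ h4]
          simp only
          linarith [mul_comm x ((L : ℝ) ^ n)]
        · rw [le_div_iff₀ h4]
          simp only
          linarith [mul_comm x ((L : ℝ) ^ n)]
      refine mem_iUnion₂.2 ⟨b, hfin.mem_toFinset.2 hb, hsb hxb⟩
    have hvol : volume (A D t N K) ≤
        ∑ b ∈ hfin.toFinset, ENNReal.ofReal (20 / (L : ℝ) ^ b.1) := by
      refine (measure_mono hsub).trans ((measure_biUnion_finset_le _ _).trans ?_)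
      refine Finset.sum_le_sum fun b _ => ?_
      rw [Real.volume_closedBall]
      refine ENNReal.ofReal_le_ofReal (le_of_eq ?_)
      unfold rad
      ring
    have hsum : ∑ b ∈ hfin.toFinset, ENNReal.ofReal (20 / (L : ℝ) ^ b.1) =
        ENNReal.ofReal (∑ b ∈ hfin.toFinset, (20 : ℝ) / (L : ℝ) ^ b.1) :=
      (ENNReal.ofReal_sum_of_nonneg fun b _ => by positivity).symm
    rw [hsum] at hvol
    have h2 := ENNReal.toReal_mono ENNReal.ofReal_ne_top hvol
    rw [ENNReal.toReal_ofReal (Finset.sum_nonneg fun b _ => by positivity)] at h2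
    refine h2.trans (le_of_eq ?_)
    rw [Finset.mul_sum]
    refine Finset.sum_congr rfl fun b _ => ?_
    ring

end Pool.Agent.RDS
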