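import Pool.Agent.RDS.CRI
import Pool.Agent.RDS.FIN
import Pool.Agent.RDS.STOP
import Pool.Agent.RDS.VIT
import Pool.Agent.RDS.REC
import Pool.Agent.RDS.DICH
import Pool.Agent.RDS.INT
import Pool.Agent.RDS.GEO
import Pool.Agent.RDS.FAV
import Pool.Agent.RDS.CONT
import Pool.Agent.RDS.CAP
import Pool.Agent.RDS.AUT
import Pool.Agent.RDS.CSH
import Pool.Agent.RDS.EXP
import Pool.Agent.RDS.NOD
import Pool.Agent.RDS.PAR
import Pool.Agent.RDS.LEMF
import Pool.Agent.RDS.LEMG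
import Pool.Agent.RDS.PSI
import Pool.Agent.RDS.PSB
import Pool.Agent.RDS.DER
import Pool.Agent.RDS.RATE
import Pool.Agent.RDS.STEP
import Pool.Agent.RDS.TLE
import Pool.Agent.RDS.TLS
import Pool.Agent.RDS.RC
import Pool.Agent.RDS.RD
import Pool.Agent.RDS.RE
import Pool.Agent.RDS.RG
import Pool.Agent.RDS.RU
import Pool.Agent.RDS.RS
import Pool.Agent.RDS.RH
import Pool.Agent.RDS.RL
import Pool.Agent.RDS.AS
import Pool.Agent.RDS.RND
import Pool.Agent.RDS.RSY
import Pool.Agent.RDS.RSB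

/-!
# Random digit sets: assembly
-/

set_option autoImplicit false

namespace Pool.Agent.RDS

theorem final : Stmt_FIN :=
  FIN_thm
    (CRI_thm CSH_thm EXP_thm PSI_thm DER_thm PAR_thm LEMF_thm LEMG_thm (PSB_thm LEMG_thm PSI_thm)
      RATE_thm NOD_thm STEP_thm (TLE_thm NOD_thm) AUT_thm TLS_thm (DICH_thm STOP_thm VIT_thm REC_thm) INT_thm GEO_thm FAV_thm
      CONT_thm CAP_thm)
    (RND_thm RC_thm RG_thm RU_thm RS_thm RH_thm RD_thm RE_thm RL_thm AS_thm) RSY_thm RSB_thm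

end Pool.Agent.RDS
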