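import Pool.Agent.RDS.Defs

/-!
# Random digit sets: basic facts
-/

set_option autoImplicit false

namespace Pool.Agent.RDS

open MeasureTheory Set

variable {L : ℕ} {D : Fin L → ℕ × ℕ}

theorem Ok.pos (h : Ok D) : (0 : ℝ) < L := by
  have := h.four
  have : 0 < L := by omega
  exact_mod_cast this

theorem Ok.ge (h : Ok D) : (4 : ℝ) ≤ L := by exact_mod_cast h.four

theorem Ok.pw (h : Ok D) (n : ℕ) : (0 : ℝ) < (L : ℝ) ^ n := pow_pos h.pos n

theorem Ok.pw1 (h : Ok D) (n : ℕ) : (1 : ℝ) ≤ (L : ℝ) ^ n :=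
  one_le_pow₀ (by have := h.ge; linarith)

theorem Ok.d1 (h : Ok D) (i : Fin L) : ((D i).1 : ℝ) ≤ L - 1 := by
  have := (h.bx i).1
  have : (((D i).1 + 1 : ℕ) : ℝ) ≤ L := by exact_mod_cast this
  push_cast at this
  linarith

theorem Ok.d2 (h : Ok D) (i : Fin L) : ((D i).2 : ℝ) ≤ L - 1 := by
  have := (h.bx i).2
  have : (((D i).2 + 1 : ℕ) : ℝ) ≤ L := by exact_mod_cast this
  push_cast at this
  linarith

theorem Ok.abs_dx (h : Ok D) (p : Fin L × Fin L) : |(dx D p : ℝ)| ≤ L - 1 := by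
  have h1 := h.d1 p.1
  have h2 := h.d1 p.2
  have h3 : (0 : ℝ) ≤ ((D p.1).1 : ℝ) := Nat.cast_nonneg _
  have h4 : (0 : ℝ) ≤ ((D p.2).1 : ℝ) := Nat.cast_nonneg _
  unfold dx
  push_cast
  rw [abs_le]
  constructor <;> linarith

theorem Ok.abs_dy (h : Ok D) (p : Fin L × Fin L) : |(dy D p : ℝ)| ≤ L - 1 := by
  have h1 := h.d2 p.1
  have h2 := h.d2 p.2
  have h3 : (0 : ℝ) ≤ ((D p.1).2 : ℝ) := Nat.cast_nonneg _
  have h4 : (0 : ℝ) ≤ ((D p.2).2 : ℝ) := Nat.cast_nonneg _
  unfold dy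
  push_cast
  rw [abs_le]
  constructor <;> linarith

theorem Ok.abs_dt (h : Ok D) (t : ℝ) (p : Fin L × Fin L) : |dt D t p| ≤ (L - 1) * (1 + |t|) := by
  have h1 := h.abs_dx p
  have h2 := h.abs_dy p
  unfold dt
  calc |(dx D p : ℝ) + t * (dy D p : ℝ)| ≤ |(dx D p : ℝ)| + |t * (dy D p : ℝ)| := abs_add_le _ _
    _ ≤ (L - 1) + |t| * (L - 1) := by
        rw [abs_mul]
        exact add_le_add h1 (mul_le_mul_of_nonneg_left h2 (abs_nonneg t))
    _ = _ := by ring

/-! ### Words and projections -/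

/-- A sum over the words of length `n + m` is a double sum. -/
theorem sum_append {M : Type*} [AddCommMonoid M] (n m : ℕ) (g : Wd L (n + m) → M) :
    ∑ w : Wd L (n + m), g w = ∑ u : Wd L n, ∑ v : Wd L m, g (Fin.append u v) := by
  rw [← Fintype.sum_prod_type']
  exact (Fintype.sum_equiv (Fin.appendEquiv n m)
    (fun p : Wd L n × Wd L m => g (Fin.append p.1 p.2)) g (fun p => rfl)).symm

theorem px_append {n m : ℕ} (u : Wd L n) (v : Wd L m) :
    px D (Fin.append u v : Wd L (n + m)) = px D u + px D v / (L : ℝ) ^ n := by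
  unfold px
  rw [Fin.sum_univ_add, Finset.sum_div]
  congr 1
  · exact Finset.sum_congr rfl fun i _ => by rw [Fin.append_left]; rfl
  · refine Finset.sum_congr rfl fun i _ => ?_
    rw [Fin.append_right, Fin.val_natAdd, div_div]
    congr 1
    ring

theorem py_append {n m : ℕ} (u : Wd L n) (v : Wd L m) :
    py D (Fin.append u v : Wd L (n + m)) = py D u + py D v / (L : ℝ) ^ n := by
  unfold py
  rw [Fin.sum_univ_add, Finset.sum_div]
  congr 1
  · exact Finset.sum_congr rfl fun i _ => by rw [Fin.append_left]; rfl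
  · refine Finset.sum_congr rfl fun i _ => ?_
    rw [Fin.append_right, Fin.val_natAdd, div_div]
    congr 1
    ring

theorem pr_append (t : ℝ) {n m : ℕ} (u : Wd L n) (v : Wd L m) :
    pr D t (Fin.append u v : Wd L (n + m)) = pr D t u + pr D t v / (L : ℝ) ^ n := by
  unfold pr
  rw [px_append, py_append]
  ring

theorem px_nonneg {n : ℕ} (w : Wd L n) : 0 ≤ px D w :=
  Finset.sum_nonneg fun i _ => by positivity

theorem py_nonneg {n : ℕ} (w : Wd L n) : 0 ≤ py D w :=
  Finset.sum_nonneg fun i _ => by positivity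

theorem geo (h : Ok D) (n : ℕ) :
    ∑ i : Fin n, ((L : ℝ) - 1) / (L : ℝ) ^ (i.val + 1) = 1 - 1 / (L : ℝ) ^ n := by
  have hL := h.pos
  rw [Fin.sum_univ_eq_sum_range (fun i => ((L : ℝ) - 1) / (L : ℝ) ^ (i + 1)) n]
  induction n with
  | zero => simp
  | succ n ih =>
    rw [Finset.sum_range_succ, ih]
    field_simp
    ring

theorem px_le (h : Ok D) {n : ℕ} (w : Wd L n) : px D w ≤ 1 - 1 / (L : ℝ) ^ n := by
  rw [← geo h]
  exact Finset.sum_le_sum fun i _ => div_le_div_of_nonneg_right (h.d1 _) (h.pw _).le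

theorem py_le (h : Ok D) {n : ℕ} (w : Wd L n) : py D w ≤ 1 - 1 / (L : ℝ) ^ n := by
  rw [← geo h]
  exact Finset.sum_le_sum fun i _ => div_le_div_of_nonneg_right (h.d2 _) (h.pw _).le

theorem pr_nonneg {t : ℝ} (ht : 0 ≤ t) {n : ℕ} (w : Wd L n) : 0 ≤ pr D t w :=
  add_nonneg (px_nonneg w) (mul_nonneg ht (py_nonneg w))

theorem pr_le (h : Ok D) {t : ℝ} (ht : 0 ≤ t) {n : ℕ} (w : Wd L n) :
    pr D t w + (1 + t) / (L : ℝ) ^ n ≤ 1 + t := by
  unfold pr
  have h1 := px_le h w
  have h2 := mul_le_mul_of_nonneg_left (py_le h w) ht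
  have h3 : (1 + t) / (L : ℝ) ^ n = 1 / (L : ℝ) ^ n + t * (1 / (L : ℝ) ^ n) := by ring
  rw [h3]
  linarith

/-- The projection of a square is contained in the projection of its ancestors. -/
theorem psq_append_subset (h : Ok D) {t : ℝ} (ht : 0 ≤ t) {n m : ℕ} (u : Wd L n) (v : Wd L m) :
    psq D t (Fin.append u v : Wd L (n + m)) ⊆ psq D t u := by
  unfold psq
  rw [pr_append]
  have h4 := h.pw n
  have h1 : 0 ≤ pr D t v / (L : ℝ) ^ n := div_nonneg (pr_nonneg ht v) h4.le
  have h2 : pr D t v / (L : ℝ) ^ n + (1 + t) / (L : ℝ) ^ (n + m) ≤ (1 + t) / (L : ℝ) ^ n := by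
    have := div_le_div_of_nonneg_right (pr_le h ht v) h4.le
    calc pr D t v / (L : ℝ) ^ n + (1 + t) / (L : ℝ) ^ (n + m) =
          (pr D t v + (1 + t) / (L : ℝ) ^ m) / (L : ℝ) ^ n := by
          have h5 := h.pw m
          rw [pow_add]; field_simp
      _ ≤ _ := this
  exact Icc_subset_Icc (by linarith) (by linarith)

theorem mem_psq_append (h : Ok D) {t : ℝ} {n m : ℕ} (u : Wd L n) (v : Wd L m) (x : ℝ) :
    x ∈ psq D t (Fin.append u v : Wd L (n + m)) ↔
      (L : ℝ) ^ n * (x - pr D t u) ∈ psq D t v := by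
  unfold psq
  rw [pr_append, mem_Icc, mem_Icc]
  have h4 := h.pw n
  have h5 := h.pw m
  have e : (L : ℝ) ^ n * (pr D t u + pr D t v / (L : ℝ) ^ n) =
      (L : ℝ) ^ n * pr D t u + pr D t v := by
    field_simp
  have e2 : (L : ℝ) ^ n * (pr D t u + pr D t v / (L : ℝ) ^ n + (1 + t) / (L : ℝ) ^ (n + m)) =
      (L : ℝ) ^ n * pr D t u + pr D t v + (1 + t) / (L : ℝ) ^ m := by
    rw [pow_add]; field_simp
  constructor
  · rintro ⟨h1, h2⟩
    have h1' := mul_le_mul_of_nonneg_left h1 h4.le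
    have h2' := mul_le_mul_of_nonneg_left h2 h4.le
    rw [e] at h1'; rw [e2] at h2'
    constructor <;> linarith
  · rintro ⟨h1, h2⟩
    constructor
    · refine le_of_mul_le_mul_left ?_ h4
      rw [e]; linarith
    · refine le_of_mul_le_mul_left ?_ h4
      rw [e2]; linarith

/-- The multiplicity function of generation `n + m` through that of generation `m`. -/
theorem f_add (h : Ok D) (n m : ℕ) (t x : ℝ) :
    f D (n + m) t x = ∑ u : Wd L n, f D m t ((L : ℝ) ^ n * (x - pr D t u)) := by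
  unfold f
  rw [sum_append]
  refine Finset.sum_congr rfl fun u _ => Finset.sum_congr rfl fun v _ => ?_
  by_cases hx : x ∈ psq D t (Fin.append u v : Wd L (n + m))
  · rw [indicator_of_mem hx, indicator_of_mem ((mem_psq_append h u v x).1 hx)]
  · rw [indicator_of_notMem hx,
      indicator_of_notMem (fun h' => hx ((mem_psq_append h u v x).2 h'))]

/-- The projection of generation `n + m` through that of generation `m`. -/
theorem P_add (h : Ok D) (n m : ℕ) (t : ℝ) :
    P D (n + m) t = ⋃ u : Wd L n, {x | (L : ℝ) ^ n * (x - pr D t u) ∈ P D m t} := by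
  ext x
  unfold P
  simp only [mem_iUnion, mem_ofPred_eq]
  constructor
  · rintro ⟨w, hw⟩
    obtain ⟨⟨u, v⟩, rfl⟩ := (Fin.appendEquiv n m).surjective w
    exact ⟨u, v, (mem_psq_append h u v x).1 hw⟩
  · rintro ⟨u, v, hx⟩
    exact ⟨_, (mem_psq_append h u v x).2 hx⟩

/-- The number of the words of length `n`. -/
theorem card_Wd (n : ℕ) : Fintype.card (Wd L n) = L ^ n := by
  simp only [Fintype.card_pi, Finset.prod_const, Finset.card_univ, Fintype.card_fin]

theorem f_nonneg (n : ℕ) (t x : ℝ) : 0 ≤ f D n t x :=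
  Finset.sum_nonneg fun w _ => indicator_nonneg (fun _ _ => zero_le_one) x

theorem f_le (n : ℕ) (t x : ℝ) : f D n t x ≤ (L : ℝ) ^ n := by
  unfold f
  calc ∑ w : Wd L n, (psq D t w).indicator (fun _ => (1 : ℝ)) x ≤ ∑ _ : Wd L n, (1 : ℝ) :=
        Finset.sum_le_sum fun w _ => by
          by_cases h : x ∈ psq D t w
          · rw [indicator_of_mem h]
          · rw [indicator_of_notMem h]; norm_num
    _ = (L : ℝ) ^ n := by
        rw [Finset.sum_const, Finset.card_univ, card_Wd]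
        simp

/-- `f D n t x` is the number of squares over `x`. -/
theorem f_eq_card (n : ℕ) (t x : ℝ) [DecidablePred fun w : Wd L n => x ∈ psq D t w] :
    f D n t x = ((Finset.univ.filter fun w : Wd L n => x ∈ psq D t w).card : ℝ) := by
  unfold f
  rw [Finset.card_filter]
  push_cast
  refine Finset.sum_congr rfl fun w _ => ?_
  by_cases h : x ∈ psq D t w
  · rw [indicator_of_mem h, if_pos h]
  · rw [indicator_of_notMem h, if_neg h]

theorem mem_Icc_of_f_ne_zero (hD : Ok D) {n : ℕ} {t x : ℝ} (ht : 0 ≤ t) (h : f D n t x ≠ 0) :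
    x ∈ Icc 0 (1 + t) := by
  obtain ⟨w, -, hw⟩ := Finset.exists_ne_zero_of_sum_ne_zero h
  have hx : x ∈ psq D t w := by
    by_contra hx
    exact hw (indicator_of_notMem hx _)
  exact ⟨(pr_nonneg ht w).trans hx.1, hx.2.trans (pr_le hD ht w)⟩

theorem measurable_f (n : ℕ) (t : ℝ) : Measurable (f D n t) := by
  unfold f
  exact Finset.measurable_sum _ fun w _ => measurable_const.indicator measurableSet_Icc

theorem measurableSet_psq (t : ℝ) {n : ℕ} (w : Wd L n) : MeasurableSet (psq D t w) :=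
  measurableSet_Icc

theorem volume_psq (t : ℝ) {n : ℕ} (w : Wd L n) :
    volume (psq D t w) = ENNReal.ofReal ((1 + t) / (L : ℝ) ^ n) := by
  unfold psq
  rw [Real.volume_Icc]
  congr 1
  ring

theorem integrable_ind (t : ℝ) {n : ℕ} (w : Wd L n) :
    Integrable ((psq D t w).indicator (fun _ => (1 : ℝ))) :=
  (integrable_indicator_iff (measurableSet_psq t w)).2
    (integrableOn_const (by rw [volume_psq]; exact ENNReal.ofReal_ne_top))

theorem integrable_f (n : ℕ) (t : ℝ) : Integrable (f D n t) := by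
  unfold f
  exact integrable_finsetSum _ fun w _ => integrable_ind t w

theorem integrable_f_sq (n : ℕ) (t : ℝ) : Integrable (fun x => f D n t x ^ 2) := by
  have h : Integrable (fun x => (L : ℝ) ^ n * f D n t x) := (integrable_f n t).const_mul _
  refine h.mono' ((measurable_f n t).pow_const 2).aestronglyMeasurable ?_
  refine Filter.Eventually.of_forall fun x => ?_
  rw [Real.norm_eq_abs, abs_of_nonneg (sq_nonneg _), sq]
  exact mul_le_mul_of_nonneg_right (f_le n t x) (f_nonneg n t x)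

theorem integral_f (hD : Ok D) (n : ℕ) {t : ℝ} (ht : 0 ≤ t) : ∫ x, f D n t x = 1 + t := by
  unfold f
  rw [integral_finsetSum _ fun w _ => integrable_ind t w]
  have h4 := hD.pw n
  have h : ∀ w : Wd L n, ∫ x, (psq D t w).indicator (fun _ => (1 : ℝ)) x =
      (1 + t) / (L : ℝ) ^ n := by
    intro w
    rw [integral_indicator (measurableSet_psq t w), setIntegral_const, Measure.real, volume_psq,
      ENNReal.toReal_ofReal (by positivity), smul_eq_mul, mul_one]
  rw [Finset.sum_congr rfl fun w _ => h w, Finset.sum_const, Finset.card_univ, card_Wd]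
  rw [nsmul_eq_mul]
  push_cast
  field_simp

theorem S_nonneg (n : ℕ) (t : ℝ) : 0 ≤ S D n t := integral_nonneg fun _ => sq_nonneg _

/-- change of variables -/
theorem integral_scale (hD : Ok D) (g : ℝ → ℝ) (n : ℕ) (a : ℝ) :
    ∫ x, g ((L : ℝ) ^ n * (x - a)) = (∫ x, g x) / (L : ℝ) ^ n := by
  have h4 := hD.pw n
  have h1 := integral_sub_right_eq_self (fun x => g ((L : ℝ) ^ n * x)) a (μ := volume)
  rw [h1, Measure.integral_comp_mul_left g ((L : ℝ) ^ n), abs_of_pos (by positivity),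
    smul_eq_mul]
  field_simp

theorem integrable_scale (hD : Ok D) {g : ℝ → ℝ} (hg : Integrable g) (n : ℕ) (a : ℝ) :
    Integrable fun x => g ((L : ℝ) ^ n * (x - a)) :=
  (hg.comp_mul_left' (hD.pw n).ne').comp_sub_right a

theorem sum_sq_le {ι : Type*} (s : Finset ι) (g : ι → ℝ) (hg : ∀ i ∈ s, 0 ≤ g i) :
    ∑ i ∈ s, g i ^ 2 ≤ (∑ i ∈ s, g i) ^ 2 := by
  rw [sq (∑ i ∈ s, g i), Finset.sum_mul]
  refine Finset.sum_le_sum fun i hi => ?_
  rw [sq]
  exact mul_le_mul_of_nonneg_left (Finset.single_le_sum hg hi) (hg i hi)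

/-- The second moment does not decrease. -/
theorem S_le (hD : Ok D) (n m : ℕ) (t : ℝ) : S D m t ≤ S D (n + m) t := by
  have h4 := hD.pw n
  unfold S
  have h1 : ∀ x, ∑ u : Wd L n, f D m t ((L : ℝ) ^ n * (x - pr D t u)) ^ 2 ≤
      f D (n + m) t x ^ 2 := by
    intro x
    rw [f_add hD]
    exact sum_sq_le _ _ fun u _ => f_nonneg _ _ _
  have h2 : ∀ u : Wd L n, Integrable fun x => f D m t ((L : ℝ) ^ n * (x - pr D t u)) ^ 2 :=
    fun u => integrable_scale hD (integrable_f_sq m t) n (pr D t u)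
  have h3 : ∫ x, ∑ u : Wd L n, f D m t ((L : ℝ) ^ n * (x - pr D t u)) ^ 2 =
      ∫ x, f D m t x ^ 2 := by
    rw [integral_finsetSum _ fun u _ => h2 u]
    have : ∀ u : Wd L n, ∫ x, f D m t ((L : ℝ) ^ n * (x - pr D t u)) ^ 2 =
        (∫ x, f D m t x ^ 2) / (L : ℝ) ^ n :=
      fun u => integral_scale hD (fun x => f D m t x ^ 2) n (pr D t u)
    rw [Finset.sum_congr rfl fun u _ => this u, Finset.sum_const, Finset.card_univ, card_Wd,
      nsmul_eq_mul]
    push_cast
    field_simp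
  rw [← h3]
  exact integral_mono (integrable_finsetSum _ fun u _ => h2 u) (integrable_f_sq _ _) h1

theorem S_mono (hD : Ok D) (t : ℝ) : Monotone fun n => S D n t := by
  intro m n h
  obtain ⟨k, rfl⟩ := Nat.exists_eq_add_of_le h
  rw [Nat.add_comm]
  exact S_le hD k m t

theorem measurableSet_P (n : ℕ) (t : ℝ) : MeasurableSet (P D n t) :=
  MeasurableSet.iUnion fun _ => measurableSet_Icc

theorem P_subset (hD : Ok D) (n : ℕ) {t : ℝ} (ht : 0 ≤ t) : P D n t ⊆ Icc 0 (1 + t) := by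
  intro x hx
  obtain ⟨w, hw⟩ := mem_iUnion.1 hx
  exact ⟨(pr_nonneg ht w).trans hw.1, hw.2.trans (pr_le hD ht w)⟩

theorem volume_P_ne_top (n : ℕ) (t : ℝ) : volume (P D n t) ≠ ⊤ := by
  have : volume (P D n t) ≤ ∑ w : Wd L n, volume (psq D t w) := by
    unfold P
    exact measure_iUnion_fintype_le _ _
  refine ne_top_of_le_ne_top ?_ this
  refine ENNReal.sum_ne_top.2 fun w _ => ?_
  unfold psq
  rw [Real.volume_Icc]
  exact ENNReal.ofReal_ne_top

theorem len_nonneg (n : ℕ) (t : ℝ) : 0 ≤ len D n t := ENNReal.toReal_nonneg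

theorem len_le (hD : Ok D) (n : ℕ) {t : ℝ} (ht : 0 ≤ t) : len D n t ≤ 1 + t := by
  unfold len
  have h := measure_mono (μ := volume) (P_subset hD n ht)
  rw [Real.volume_Icc, sub_zero] at h
  calc (volume (P D n t)).toReal ≤ (ENNReal.ofReal (1 + t)).toReal :=
        ENNReal.toReal_mono ENNReal.ofReal_ne_top h
    _ = 1 + t := ENNReal.toReal_ofReal (by linarith)

theorem P_anti (hD : Ok D) {t : ℝ} (ht : 0 ≤ t) (n m : ℕ) : P D (n + m) t ⊆ P D n t := by
  intro x hx
  obtain ⟨w, hw⟩ := mem_iUnion.1 hx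
  obtain ⟨⟨u, v⟩, rfl⟩ := (Fin.appendEquiv n m).surjective w
  exact mem_iUnion.2 ⟨u, psq_append_subset hD ht u v hw⟩

theorem len_anti (hD : Ok D) {t : ℝ} (ht : 0 ≤ t) : Antitone fun n => len D n t := by
  intro m n h
  obtain ⟨k, rfl⟩ := Nat.exists_eq_add_of_le h
  exact ENNReal.toReal_mono (volume_P_ne_top m t) (measure_mono (P_anti hD ht m k))

theorem measurableSet_joint (n : ℕ) (w : Wd L n) :
    MeasurableSet {p : ℝ × ℝ | p.2 ∈ psq D p.1 w} := by
  have : {p : ℝ × ℝ | p.2 ∈ psq D p.1 w} = {p : ℝ × ℝ | px D w + p.1 * py D w ≤ p.2} ∩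
      {p : ℝ × ℝ | p.2 ≤ px D w + p.1 * py D w + (1 + p.1) / (L : ℝ) ^ n} := by
    ext p; rfl
  rw [this]
  exact (measurableSet_le (by fun_prop) (by fun_prop)).inter
    (measurableSet_le (by fun_prop) (by fun_prop))

theorem measurable_f_joint (n : ℕ) : Measurable fun p : ℝ × ℝ => f D n p.1 p.2 := by
  unfold f
  refine Finset.measurable_sum _ fun w _ => ?_
  have : (fun p : ℝ × ℝ => (psq D p.1 w).indicator (fun _ => (1 : ℝ)) p.2) =
      {p : ℝ × ℝ | p.2 ∈ psq D p.1 w}.indicator (fun _ => (1 : ℝ)) := by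
    ext p
    by_cases h : p.2 ∈ psq D p.1 w
    · rw [indicator_of_mem h, indicator_of_mem (show p ∈ {p : ℝ × ℝ | p.2 ∈ psq D p.1 w} from h)]
    · rw [indicator_of_notMem h,
        indicator_of_notMem (show p ∉ {p : ℝ × ℝ | p.2 ∈ psq D p.1 w} from h)]
  rw [this]
  exact measurable_const.indicator (measurableSet_joint n w)

theorem measurable_S (n : ℕ) : Measurable (S D n) := by
  unfold S
  have : StronglyMeasurable fun p : ℝ × ℝ => f D n p.1 p.2 ^ 2 :=
    ((measurable_f_joint n).pow_const 2).stronglyMeasurable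
  exact this.integral_prod_right.measurable

theorem measurable_len (n : ℕ) : Measurable (len D n) := by
  unfold len
  have h : MeasurableSet {p : ℝ × ℝ | p.2 ∈ P D n p.1} := by
    have : {p : ℝ × ℝ | p.2 ∈ P D n p.1} = ⋃ w : Wd L n, {p : ℝ × ℝ | p.2 ∈ psq D p.1 w} := by
      ext p
      simp only [P, mem_iUnion, mem_ofPred_eq]
    rw [this]
    exact MeasurableSet.iUnion fun w => measurableSet_joint n w
  exact (measurable_measure_prodMk_left h).ennreal_toReal

/-! ### The operator -/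

theorem T_nonneg {φ : ℝ → ℝ} (h : ∀ y, 0 ≤ φ y) (t x : ℝ) : 0 ≤ T D t φ x :=
  div_nonneg (Finset.sum_nonneg fun _ _ => h _) (Nat.cast_nonneg _)

theorem T_mono {φ ψ : ℝ → ℝ} (h : ∀ y, φ y ≤ ψ y) (t x : ℝ) : T D t φ x ≤ T D t ψ x :=
  div_le_div_of_nonneg_right (Finset.sum_le_sum fun _ _ => h _) (Nat.cast_nonneg _)

theorem T_sub (φ ψ : ℝ → ℝ) (t x : ℝ) :
    T D t (fun y => φ y - ψ y) x = T D t φ x - T D t ψ x := by
  unfold T
  rw [Finset.sum_sub_distrib, sub_div]

theorem T_smul (c : ℝ) (φ : ℝ → ℝ) (t x : ℝ) : T D t (fun y => c * φ y) x = c * T D t φ x := by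
  unfold T
  rw [← Finset.mul_sum, mul_div_assoc]

theorem iter_succ (t : ℝ) (n : ℕ) (φ : ℝ → ℝ) : (T D t)^[n + 1] φ = (T D t)^[n] (T D t φ) :=
  Function.iterate_succ_apply _ _ _

theorem iter_succ' (t : ℝ) (n : ℕ) (φ : ℝ → ℝ) : (T D t)^[n + 1] φ = T D t ((T D t)^[n] φ) :=
  Function.iterate_succ_apply' _ _ _

theorem iter_add_apply (t : ℝ) (n r : ℕ) (φ : ℝ → ℝ) :
    (T D t)^[n + r] φ = (T D t)^[n] ((T D t)^[r] φ) := Function.iterate_add_apply _ _ _ _

theorem iter_nonneg {φ : ℝ → ℝ} (h : ∀ y, 0 ≤ φ y) (t : ℝ) (n : ℕ) :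
    ∀ x, 0 ≤ (T D t)^[n] φ x := by
  induction n with
  | zero => exact h
  | succ n ih => intro x; rw [iter_succ']; exact T_nonneg ih t x

theorem iter_mono {φ ψ : ℝ → ℝ} (h : ∀ y, φ y ≤ ψ y) (t : ℝ) (n : ℕ) :
    ∀ x, (T D t)^[n] φ x ≤ (T D t)^[n] ψ x := by
  induction n with
  | zero => exact h
  | succ n ih => intro x; rw [iter_succ', iter_succ']; exact T_mono ih t x

theorem iter_sub (φ ψ : ℝ → ℝ) (t : ℝ) (n : ℕ) :
    ∀ x, (T D t)^[n] (fun y => φ y - ψ y) x = (T D t)^[n] φ x - (T D t)^[n] ψ x := by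
  induction n with
  | zero => intro x; rfl
  | succ n ih =>
    intro x
    rw [iter_succ', iter_succ', iter_succ', ← T_sub]
    congr 1
    funext y
    exact ih y

theorem iter_smul (c : ℝ) (φ : ℝ → ℝ) (t : ℝ) (n : ℕ) :
    ∀ x, (T D t)^[n] (fun y => c * φ y) x = c * (T D t)^[n] φ x := by
  induction n with
  | zero => intro x; rfl
  | succ n ih =>
    intro x
    rw [iter_succ', iter_succ', ← T_smul]
    congr 1
    funext y
    exact ih y

theorem continuous_dt (p : Fin L × Fin L) : Continuous fun t => dt D t p := by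
  unfold dt; fun_prop

theorem measurable_T {φ : ℝ → ℝ} (h : Measurable φ) (t : ℝ) : Measurable (T D t φ) := by
  unfold T
  exact (Finset.measurable_sum _ fun p _ => h.comp (by fun_prop)).div_const _

theorem measurable_iter {φ : ℝ → ℝ} (h : Measurable φ) (t : ℝ) (n : ℕ) :
    Measurable ((T D t)^[n] φ) := by
  induction n with
  | zero => exact h
  | succ n ih => rw [iter_succ']; exact measurable_T ih t

/-- Joint measurability of the iterates in the direction and the point. -/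
theorem measurable_iter_joint {φ : ℝ → ℝ} (h : Measurable φ) (n : ℕ) :
    Measurable fun q : ℝ × ℝ => (T D q.1)^[n] φ q.2 := by
  induction n with
  | zero => exact h.comp measurable_snd
  | succ n ih =>
    have : (fun q : ℝ × ℝ => (T D q.1)^[n + 1] φ q.2) = fun q : ℝ × ℝ =>
        (∑ p : Fin L × Fin L, (T D q.1)^[n] φ ((L : ℝ) * q.2 - dt D q.1 p)) / (L : ℝ) := by
      funext q
      rw [iter_succ']
      rfl
    rw [this]
    refine (Finset.measurable_sum _ fun p _ => ?_).div_const _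
    exact ih.comp (f := fun q : ℝ × ℝ => (q.1, (L : ℝ) * q.2 - dt D q.1 p))
      (by unfold dt; fun_prop)

/-- Joint continuity of the iterates in the direction and the point. -/
theorem continuous_iter_joint {φ : ℝ → ℝ} (h : Continuous φ) (n : ℕ) :
    Continuous fun q : ℝ × ℝ => (T D q.1)^[n] φ q.2 := by
  induction n with
  | zero => exact h.comp continuous_snd
  | succ n ih =>
    have : (fun q : ℝ × ℝ => (T D q.1)^[n + 1] φ q.2) = fun q : ℝ × ℝ =>
        (∑ p : Fin L × Fin L, (T D q.1)^[n] φ ((L : ℝ) * q.2 - dt D q.1 p)) / (L : ℝ) := by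
      funext q
      rw [iter_succ']
      rfl
    rw [this]
    refine (continuous_finsetSum _ fun p _ => ?_).div_const _
    exact ih.comp (f := fun q : ℝ × ℝ => (q.1, (L : ℝ) * q.2 - dt D q.1 p))
      (by unfold dt; fun_prop)

/-! ### The base function -/

theorem Phi_nonneg (x : ℝ) : 0 ≤ Phi x := Real.smoothTransition.nonneg _

theorem Phi_le_one (x : ℝ) : Phi x ≤ 1 := Real.smoothTransition.le_one _

theorem Phi_even (x : ℝ) : Phi (-x) = Phi x := by unfold Phi; rw [neg_sq]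

theorem Phi_eq_one {x : ℝ} (hx : |x| ≤ 2 / 3) : Phi x = 1 := by
  unfold Phi
  refine Real.smoothTransition.one_of_one_le ?_
  rw [le_div_iff₀ (by norm_num), one_mul]
  have h1 : x ^ 2 ≤ (2 / 3) ^ 2 := sq_le_sq' (by linarith [neg_abs_le x]) (by
    linarith [le_abs_self x])
  linarith

theorem Phi_eq_zero {x : ℝ} (hx : 3 / 4 ≤ |x|) : Phi x = 0 := by
  unfold Phi
  refine Real.smoothTransition.zero_of_nonpos ?_
  refine div_nonpos_of_nonpos_of_nonneg ?_ (by norm_num)
  have h1 : (3 / 4) ^ 2 ≤ |x| ^ 2 := by nlinarith [abs_nonneg x]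
  rw [sq_abs] at h1
  linarith

theorem contDiff_Phi (n : ℕ∞) : ContDiff ℝ n Phi := by
  unfold Phi
  exact Real.smoothTransition.contDiff.comp (by fun_prop)

theorem continuous_Phi : Continuous Phi := (contDiff_Phi 0).continuous

theorem hasCompactSupport_Phi : HasCompactSupport Phi := by
  refine HasCompactSupport.intro (isCompact_Icc (a := (-1 : ℝ)) (b := 1)) fun x hx => ?_
  refine Phi_eq_zero ?_
  by_contra h
  push Not at h
  exact hx (abs_le.1 (by linarith))

theorem ind_nonneg (c x : ℝ) : 0 ≤ ind c x := by unfold ind; split <;> norm_num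

theorem ind_le_one (c x : ℝ) : ind c x ≤ 1 := by unfold ind; split <;> norm_num

theorem ind_of_le {c x : ℝ} (h : |x| ≤ c) : ind c x = 1 := by unfold ind; rw [if_pos h]

theorem ind_of_lt {c x : ℝ} (h : c < |x|) : ind c x = 0 := by
  unfold ind; rw [if_neg (not_le.2 h)]

theorem measurable_ind (c : ℝ) : Measurable (ind c) := by
  unfold ind
  exact Measurable.ite (measurableSet_le (by fun_prop) (by fun_prop)) measurable_const
    measurable_const

theorem ind_le_Phi (x : ℝ) : ind (2 / 3) x ≤ Phi x := by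
  by_cases h : |x| ≤ 2 / 3
  · rw [Phi_eq_one h]; exact ind_le_one _ _
  · rw [ind_of_lt (not_le.1 h)]; exact Phi_nonneg x

theorem Phi_le_ind (x : ℝ) : Phi x ≤ ind 3 x := by
  by_cases h : |x| ≤ 3
  · rw [ind_of_le h]; exact Phi_le_one x
  · rw [Phi_eq_zero (by linarith [not_le.1 h])]; exact ind_nonneg _ x

/-- The iterates of `Φ` vanish far away. -/
theorem iter_zero (hD : Ok D) {φ : ℝ → ℝ} {t c : ℝ} (hc : 1 + |t| ≤ c)
    (h : ∀ y, c < |y| → φ y = 0) (n : ℕ) : ∀ x, c < |x| → (T D t)^[n] φ x = 0 := by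
  induction n with
  | zero => exact h
  | succ n ih =>
    intro x hx
    rw [iter_succ']
    show (∑ p : Fin L × Fin L, (T D t)^[n] φ ((L : ℝ) * x - dt D t p)) / (L : ℝ) = 0
    rw [Finset.sum_eq_zero, zero_div]
    intro p _
    apply ih
    have h1 := hD.abs_dt t p
    have h2 := hD.ge
    have h3 : |(L : ℝ) * x| = L * |x| := by rw [abs_mul, abs_of_pos hD.pos]
    have h4 := abs_sub_abs_le_abs_sub ((L : ℝ) * x) (dt D t p)
    have h5 : (L - 1 : ℝ) * (1 + |t|) ≤ (L - 1) * c := mul_le_mul_of_nonneg_left hc (by linarith)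
    have h6 : (L : ℝ) * c < L * |x| := mul_lt_mul_of_pos_left hx hD.pos
    nlinarith

theorem E_nonneg (p : Fin L × Fin L) (k : ℕ) (t : ℝ) : 0 ≤ E D p k t := iter_nonneg Phi_nonneg t k _

theorem continuous_E (p : Fin L × Fin L) (k : ℕ) : Continuous (E D p k) :=
  (continuous_iter_joint continuous_Phi k).comp (f := fun t => (t, dt D t p))
    (continuous_id.prodMk (continuous_dt p))

end Pool.Agent.RDS
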