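import Pool.Agent.RDS.Stmts

/-!
# CRI: the criterion
-/

set_option autoImplicit false

namespace Pool.Agent.RDS

open MeasureTheory Set

namespace CRIM

theorem one (hCSH : Stmt_CSH) (hEXP : Stmt_EXP) (hPSI : Stmt_PSI) (hDER : Stmt_DER)
    (hPAR : Stmt_PAR) (hLEMF : Stmt_LEMF) (hLEMG : Stmt_LEMG) (hPSB : Stmt_PSB)
    (hRATE : Stmt_RATE) (hNOD : Stmt_NOD) (hSTEP : Stmt_STEP) (hTLE : Stmt_TLE)
    (hAUT : Stmt_AUT) (hTLS : Stmt_TLS) (hDICH : Stmt_DICH) (hINT : Stmt_INT)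
    {L : ℕ} (D : Fin L → ℕ × ℕ) (h : ∃ M K c, Crit D M K c) :
    ∃ C : ℝ, 0 < C ∧ ∀ n : ℕ, 1 ≤ n → ∫ t in (0 : ℝ)..1, len D n t ≤ C / √n := by
  obtain ⟨M, K, c, hc⟩ := h
  have hr : Rat D K := hRATE hCSH hEXP hPSI hDER hPAR hLEMF hLEMG hPSB D M K c hc
  have hs : Stp D M K := hSTEP hCSH hEXP hPSI hDER hNOD D M K c hc hr
  have ht : Tail D := hTLS hAUT hNOD hTLE D M K c hc hs
  exact hINT hDICH D hc.toOk ht

end CRIM

open CRIM in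
theorem CRI_thm (hCSH : Stmt_CSH) (hEXP : Stmt_EXP) (hPSI : Stmt_PSI) (hDER : Stmt_DER)
    (hPAR : Stmt_PAR) (hLEMF : Stmt_LEMF) (hLEMG : Stmt_LEMG) (hPSB : Stmt_PSB)
    (hRATE : Stmt_RATE) (hNOD : Stmt_NOD) (hSTEP : Stmt_STEP) (hTLE : Stmt_TLE)
    (hAUT : Stmt_AUT) (hTLS : Stmt_TLS) (hDICH : Stmt_DICH) (hINT : Stmt_INT)
    (hGEO : Stmt_GEO) (hFAV : Stmt_FAV) (hCONT : Stmt_CONT) (hCAP : Stmt_CAP) : Stmt_CRI := by
  intro L D hinj h1 h2 h3 h4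
  have hD : Ok D := by
    obtain ⟨M, K, c, h⟩ := h1
    exact h.toOk
  have key := fun (D' : Fin L → ℕ × ℕ) (h : ∃ M K c, Crit D' M K c) =>
    one hCSH hEXP hPSI hDER hPAR hLEMF hLEMG hPSB hRATE hNOD hSTEP hTLE hAUT hTLS hDICH hINT D' h
  obtain ⟨C1, hC1, k1⟩ := key D h1
  obtain ⟨C2, hC2, k2⟩ := key (fl D) h2
  obtain ⟨C3, hC3, k3⟩ := key (sw D) h3
  obtain ⟨C4, hC4, k4⟩ := key (fl (sw D)) h4
  obtain ⟨c, hc, hcap⟩ := hCAP hGEO hCONT D hD hinj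
  have hCs : 0 < C1 + C2 + C3 + C4 := by positivity
  refine ⟨min c (1 / (C1 + C2 + C3 + C4)), lt_min hc (by positivity), fun n hn => ?_⟩
  have hn0 : (0 : ℝ) < √n := Real.sqrt_pos.2 (by exact_mod_cast hn)
  have hfav := hFAV hGEO D hD n
  have hsum : FCC.Fav (gen D n) ≤ (C1 + C2 + C3 + C4) / √n := by
    have e : (C1 + C2 + C3 + C4) / √n = C1 / √n + C2 / √n + C3 / √n + C4 / √n := by ring
    rw [e]
    linarith [k1 n hn, k2 n hn, k3 n hn, k4 n hn]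
  constructor
  · have hm0 : 0 < min c (1 / (C1 + C2 + C3 + C4)) := lt_min hc (by positivity)
    calc min c (1 / (C1 + C2 + C3 + C4)) * FCC.Fav (gen D n)
        ≤ min c (1 / (C1 + C2 + C3 + C4)) * ((C1 + C2 + C3 + C4) / √n) :=
          mul_le_mul_of_nonneg_left hsum hm0.le
      _ ≤ (1 / (C1 + C2 + C3 + C4)) * ((C1 + C2 + C3 + C4) / √n) :=
          mul_le_mul_of_nonneg_right (min_le_right _ _) (by positivity)
      _ = 1 / √n := by field_simp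
  · exact (div_le_div_of_nonneg_right (min_le_left _ _) hn0.le).trans (hcap n hn)

end Pool.Agent.RDS
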