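import Pool.Agent.FCQ.Defs
import Pool.Agent.ANL.Defs

/-!
# Random digit sets: definitions

`L` is the base, `D : Fin L → ℕ × ℕ` lists the `L` digits, `Ok D`: `4 ≤ L` and all the digits lie
in the box `{0, .., L-1}²`. See `Stmts.lean` for the theorem and the plan of the proof.
-/

set_option autoImplicit false

namespace Pool.Agent.RDS

open MeasureTheory Set

variable {L : ℕ}

/-- The digits lie in the box. -/
structure Ok (D : Fin L → ℕ × ℕ) : Prop where
  four : 4 ≤ L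
  bx : ∀ i, (D i).1 + 1 ≤ L ∧ (D i).2 + 1 ≤ L

/-- Words of length `n`. -/
abbrev Wd (L n : ℕ) : Type := Fin n → Fin L

/-- The coordinates of the lower left corner of the square of `w`. -/
noncomputable def px (D : Fin L → ℕ × ℕ) {n : ℕ} (w : Wd L n) : ℝ :=
  ∑ i : Fin n, ((D (w i)).1 : ℝ) / (L : ℝ) ^ (i.val + 1)
noncomputable def py (D : Fin L → ℕ × ℕ) {n : ℕ} (w : Wd L n) : ℝ :=
  ∑ i : Fin n, ((D (w i)).2 : ℝ) / (L : ℝ) ^ (i.val + 1)

/-- The projection `x + t y` of the lower left corner of the square of `w`. -/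
noncomputable def pr (D : Fin L → ℕ × ℕ) (t : ℝ) {n : ℕ} (w : Wd L n) : ℝ := px D w + t * py D w

/-- The projection of the square of `w`. -/
def psq (D : Fin L → ℕ × ℕ) (t : ℝ) {n : ℕ} (w : Wd L n) : Set ℝ :=
  Icc (pr D t w) (pr D t w + (1 + t) / (L : ℝ) ^ n)

/-- The number of squares of generation `n` over the point `x`. -/
noncomputable def f (D : Fin L → ℕ × ℕ) (n : ℕ) (t x : ℝ) : ℝ :=
  ∑ w : Wd L n, (psq D t w).indicator (fun _ => (1 : ℝ)) x

/-- The second moment of the multiplicity. -/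
noncomputable def S (D : Fin L → ℕ × ℕ) (n : ℕ) (t : ℝ) : ℝ := ∫ x, f D n t x ^ 2

/-- The projection of the `n`-th generation. -/
def P (D : Fin L → ℕ × ℕ) (n : ℕ) (t : ℝ) : Set ℝ := ⋃ w : Wd L n, psq D t w

/-- The length of the projection. -/
noncomputable def len (D : Fin L → ℕ × ℕ) (n : ℕ) (t : ℝ) : ℝ := (volume (P D n t)).toReal

/-- The projection of the square of `w` meets the `j`-th `L`-adic interval
`[j L ^ (-n), (j + 1) L ^ (-n))`. -/
def meets (D : Fin L → ℕ × ℕ) (t : ℝ) {n : ℕ} (w : Wd L n) (j : ℤ) : Prop :=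
  pr D t w < (j + 1) / (L : ℝ) ^ n ∧ (j : ℝ) / (L : ℝ) ^ n ≤ pr D t w + (1 + t) / (L : ℝ) ^ n

open Classical in
/-- The number of squares of generation `n` over the `j`-th `L`-adic interval of level `n`. -/
noncomputable def cnt (D : Fin L → ℕ × ℕ) (t : ℝ) (n : ℕ) (j : ℤ) : ℕ :=
  (Finset.univ.filter fun w : Wd L n => meets D t w j).card

/-- The union of the `L`-adic intervals of level at most `N` over which there are at least `K`
squares of their own generation. -/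
def A (D : Fin L → ℕ × ℕ) (t : ℝ) (N K : ℕ) : Set ℝ :=
  {x | ∃ n ≤ N, K ≤ cnt D t n ⌊(L : ℝ) ^ n * x⌋}

/-- The five-fold enlargement of the `L`-adic interval `b`. -/
def Jst (L : ℕ) (b : ℕ × ℤ) : Set ℝ :=
  Icc (((b.2 : ℝ) - 2) / (L : ℝ) ^ b.1) (((b.2 : ℝ) + 3) / (L : ℝ) ^ b.1)

/-! ### The sets in the plane -/

/-- The unit square. -/
def sq1 : Set ℂ := {z | 0 ≤ z.re ∧ z.re ≤ 1 ∧ 0 ≤ z.im ∧ z.im ≤ 1}

/-- The `n`-th generation: `L ^ n` closed squares of side `L ^ (-n)`. -/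
def gen (D : Fin L → ℕ × ℕ) : ℕ → Set ℂ
  | 0 => sq1
  | n + 1 => ⋃ i : Fin L,
      (fun z : ℂ => (z + (((D i).1 : ℂ) + ((D i).2 : ℂ) * Complex.I)) / (L : ℂ)) '' gen D n

/-- Reflection of the second coordinate of the digits. -/
def fl (D : Fin L → ℕ × ℕ) : Fin L → ℕ × ℕ := fun i => ((D i).1, L - 1 - (D i).2)

/-- Exchange of the coordinates of the digits. -/
def sw (D : Fin L → ℕ × ℕ) : Fin L → ℕ × ℕ := fun i => ((D i).2, (D i).1)

/-! ### The operator -/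

/-- The coordinates of the difference of two digits. -/
def dx (D : Fin L → ℕ × ℕ) (p : Fin L × Fin L) : ℤ := ((D p.1).1 : ℤ) - ((D p.2).1 : ℤ)
def dy (D : Fin L → ℕ × ℕ) (p : Fin L × Fin L) : ℤ := ((D p.1).2 : ℤ) - ((D p.2).2 : ℤ)

/-- The difference of the projections of two digits. -/
noncomputable def dt (D : Fin L → ℕ × ℕ) (t : ℝ) (p : Fin L × Fin L) : ℝ :=
  (dx D p : ℝ) + t * (dy D p : ℝ)

/-- One step in the direction `t`; the total weight is `L`. -/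
noncomputable def T (D : Fin L → ℕ × ℕ) (t : ℝ) (φ : ℝ → ℝ) : ℝ → ℝ := fun x =>
  (∑ p : Fin L × Fin L, φ ((L : ℝ) * x - dt D t p)) / (L : ℝ)

/-- The tent function. -/
noncomputable def tent (t x : ℝ) : ℝ := max (1 + t - |x|) 0

/-- The indicator function of `|x| ≤ c`. -/
noncomputable def ind (c x : ℝ) : ℝ := if |x| ≤ c then 1 else 0

/-- A smooth even function, `1` for `|x| ≤ 2/3`, `0` for `|x| ≥ 3/4`. -/
noncomputable def Phi (x : ℝ) : ℝ := Real.smoothTransition ((9 / 16 - x ^ 2) / (9 / 16 - 4 / 9))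

/-- The main quantity, for the pair `p` of digits. -/
noncomputable def E (D : Fin L → ℕ × ℕ) (p : Fin L × Fin L) (k : ℕ) (t : ℝ) : ℝ :=
  (T D t)^[k] Phi (dt D t p)

/-- `T Φ - Φ` and its derivatives in `y` and in `t`. -/
noncomputable def p0 (D : Fin L → ℕ × ℕ) (t y : ℝ) : ℝ := T D t Phi y - Phi y
noncomputable def p1 (D : Fin L → ℕ × ℕ) (t y : ℝ) : ℝ :=
  ∑ p : Fin L × Fin L, deriv Phi ((L : ℝ) * y - dt D t p) - deriv Phi y
noncomputable def p2 (D : Fin L → ℕ × ℕ) (t y : ℝ) : ℝ :=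
  (∑ p : Fin L × Fin L, -(dy D p : ℝ) * deriv Phi ((L : ℝ) * y - dt D t p)) / (L : ℝ)

/-- The increments `T^(r+1) Φ - T^r Φ`. -/
noncomputable def gr (D : Fin L → ℕ × ℕ) (r : ℕ) (x t : ℝ) : ℝ :=
  (T D t)^[r + 1] Phi x - (T D t)^[r] Phi x

/-- The derivative of the increments in the direction. -/
noncomputable def dgr (D : Fin L → ℕ × ℕ) (r : ℕ) (x t : ℝ) : ℝ := deriv (fun τ => gr D r x τ) t

/-- The square norm of the increments and of their derivatives, scaled. -/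
noncomputable def Nr (D : Fin L → ℕ × ℕ) (r : ℕ) (t : ℝ) : ENNReal :=
  ∫⁻ x, ENNReal.ofReal (gr D r x t ^ 2 + dgr D r x t ^ 2 / (L : ℝ) ^ (2 * r))

/-- A trigonometric polynomial in two variables. -/
noncomputable def Tr {ι : Type} [Fintype ι] (u v : ι → ℤ) (b : ι → ℝ) (x y : ℝ) : ℂ :=
  ∑ q, (b q : ℂ) * Complex.exp (((-(x * u q + y * v q) : ℝ) : ℂ) * Complex.I)

open Classical in
/-- The number of the pairs with the same frequencies. -/
noncomputable def eqp {ι : Type} [Fintype ι] (u v : ι → ℤ) : ℕ :=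
  (Finset.univ.filter fun p : ι × ι => u p.1 = u p.2 ∧ v p.1 = v p.2).card

/-- The additive energy of the digits. -/
noncomputable def eng (D : Fin L → ℕ × ℕ) : ℕ := eqp (ι := Fin L × Fin L) (dx D) (dy D)

/-! ### The conditions on the digits -/

/-- At most `M` digits in every strip of half width `3`. -/
def Deg (D : Fin L → ℕ × ℕ) (M : ℕ) : Prop := ∀ t ∈ Icc (-1 : ℝ) 2, ∀ z : ℝ,
  (Finset.univ.filter fun i : Fin L => |((D i).1 : ℝ) + t * ((D i).2 : ℝ) - z| ≤ 3).card ≤ M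

/-- Many differences of digits in every strip of half width `2/3`. -/
def Low (D : Fin L → ℕ × ℕ) (c : ℝ) : Prop := ∀ t ∈ Icc (0 : ℝ) 1, ∀ z : ℝ, |z| ≤ 2 / 3 * L →
  c * L ≤ ((Finset.univ.filter fun p : Fin L × Fin L => 2 ≤ |dy D p| ∧
    |dt D t p - z| ≤ 2 / 3).card : ℝ)

/-- The criterion. -/
structure Crit (D : Fin L → ℕ × ℕ) (M : ℕ) (K c : ℝ) : Prop extends Ok D where
  deg : Deg D M
  low : Low D c
  enr : (eng D : ℝ) ≤ K * (L : ℝ) ^ 2
  hM : 1 ≤ M
  hK : 1 ≤ K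
  hc : 0 < c
  hc' : c ≤ 1 / 2
  key : 144 * K * (M : ℝ) ^ 2 ≤ c ^ 6 * L

/-- The conclusion for the digits `D`. -/
def Conc (D : Fin L → ℕ × ℕ) : Prop := ∃ c : ℝ, 0 < c ∧ ∀ n : ℕ, 1 ≤ n →
  c * FCC.Fav (gen D n) ≤ 1 / √n ∧ c / √n ≤ FCC.gam (gen D n)

/-! ### Random digits -/

/-- The digits `y` with `a - y` in the strip of half width `1/2` about `z`, direction `t`. -/
noncomputable def Rg (L : ℕ) (t z : ℝ) (a : Fin L × Fin L) : Finset (Fin L × Fin L) :=
  Finset.univ.filter fun y : Fin L × Fin L => 2 ≤ |(a.2.val : ℤ) - (y.2.val : ℤ)| ∧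
    |((a.1.val : ℝ) - (y.1.val : ℝ)) + t * ((a.2.val : ℝ) - (y.2.val : ℝ)) - z| ≤ 1 / 2

/-- A slab of digits, on the side given by the sign of `z`. -/
noncomputable def Sl (L : ℕ) (z : ℝ) : Finset (Fin L × Fin L) :=
  Finset.univ.filter fun a : Fin L × Fin L =>
    (0 ≤ z ∧ 5 / 6 * (L : ℝ) ≤ (a.1.val : ℝ) ∧ (a.1.val : ℝ) ≤ 11 / 12 * L) ∨
    (z < 0 ∧ 1 / 12 * (L : ℝ) ≤ (a.1.val : ℝ) ∧ (a.1.val : ℝ) ≤ 1 / 6 * L)

/-- The digits of a random choice. -/
def dg (ω : Fin L → Fin L × Fin L) : Fin L → ℕ × ℕ := fun i => ((ω i).1.val, (ω i).2.val)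

open Classical in
/-- The number of the random choices with the property `P`. -/
noncomputable def nb (L : ℕ) (P : (Fin L → Fin L × Fin L) → Prop) : ℝ :=
  ((Finset.univ.filter P).card : ℝ)

/-! ### Sets of digits -/

/-- The `L`-element subsets of the box. -/
def digitSets (L : ℕ) : Finset (Finset (ℕ × ℕ)) :=
  (Finset.range L ×ˢ Finset.range L).powersetCard L

/-- The `n`-th generation for a set of digits. -/
def gens (L : ℕ) (D : Finset (ℕ × ℕ)) : ℕ → Set ℂ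
  | 0 => sq1
  | n + 1 => ⋃ d ∈ D,
      (fun z : ℂ => (z + ((d.1 : ℂ) + (d.2 : ℂ) * Complex.I)) / (L : ℂ)) '' gens L D n

/-- The conclusion for a set of digits. -/
def Good (L : ℕ) (D : Finset (ℕ × ℕ)) : Prop := ∃ c : ℝ, 0 < c ∧ ∀ n : ℕ, 1 ≤ n →
  c * FCC.Fav (gens L D n) ≤ 1 / √n ∧ c / √n ≤ FCC.gam (gens L D n)

end Pool.Agent.RDS
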