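import Pool.Agent.RDS.Stmts

/-!
# Random digit sets: LEMG, the Fourier transform of a function of mean zero with compact support
-/

set_option autoImplicit false

namespace Pool.Agent.RDS

open MeasureTheory Set

namespace LEMGM

/-- The exponential function. -/
noncomputable def e (ω x : ℝ) : ℂ := Complex.exp (((-(ω * x) : ℝ) : ℂ) * Complex.I)

theorem norm_e (ω x : ℝ) : ‖e ω x‖ = 1 := by
  unfold e
  exact Complex.norm_exp_ofReal_mul_I _

theorem norm_e_sub (ω x : ℝ) : ‖e ω x - 1‖ ≤ |ω * x| := by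
  have h := Real.norm_exp_I_mul_ofReal_sub_one_le (x := -(ω * x))
  unfold e
  rw [mul_comm]
  rw [Real.norm_eq_abs, abs_neg] at h
  exact h

theorem e_deriv {ω : ℝ} (hω : ω ≠ 0) (x : ℝ) :
    HasDerivAt (fun y => e ω y / (-((ω : ℂ) * Complex.I))) (e ω x) x := by
  have h1 : HasDerivAt (fun y : ℝ => (((-(ω * y) : ℝ) : ℂ) * Complex.I))
      (-((ω : ℂ) * Complex.I)) x := by
    have h2 : HasDerivAt (fun y : ℝ => (-(ω * y) : ℝ)) (-ω) x := by
      have h6 := (hasDerivAt_id x).const_mul (-ω)
      have h7 : (fun y : ℝ => (-(ω * y) : ℝ)) = fun y => (-ω) * id y := by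
        funext y
        simp
      rw [h7]
      simpa using h6
    have h3 := (h2.ofReal_comp).mul_const Complex.I
    have h8 : (-((ω : ℂ) * Complex.I)) = ((-ω : ℝ) : ℂ) * Complex.I := by
      push_cast
      ring
    rw [h8]
    exact h3
  have h4 := h1.cexp
  have hne : (-((ω : ℂ) * Complex.I)) ≠ 0 := by
    rw [neg_ne_zero]
    exact mul_ne_zero (by exact_mod_cast hω) Complex.I_ne_zero
  have h5 := h4.div_const (-((ω : ℂ) * Complex.I))
  rw [mul_div_assoc, div_self hne, mul_one] at h5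
  exact h5

theorem e_cont (ω : ℝ) : Continuous (e ω) := by
  unfold e
  fun_prop

theorem zero_right {g : ℝ → ℝ} (hg : Continuous g) {R : ℝ} (h : ∀ x, R < |x| → g x = 0) :
    g R = 0 := by
  have hc : IsClosed {x | g x = 0} := isClosed_eq hg continuous_const
  have hs : Ioi R ⊆ {x | g x = 0} := fun x hx => h x (lt_of_lt_of_le hx (le_abs_self x))
  have h2 : closure (Ioi R) ⊆ {x | g x = 0} := closure_minimal hs hc
  rw [closure_Ioi] at h2
  exact h2 (mem_Ici.2 le_rfl)

theorem zero_left {g : ℝ → ℝ} (hg : Continuous g) {R : ℝ} (h : ∀ x, R < |x| → g x = 0) :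
    g (-R) = 0 := by
  have h3 : (fun x => g (-x)) R = 0 := zero_right (g := fun x => g (-x)) (by fun_prop)
    (fun x hx => h (-x) (by rwa [abs_neg]))
  exact h3

theorem int_eq {f : ℝ → ℂ} {R : ℝ} (hR : 0 ≤ R) (h : ∀ x, R < |x| → f x = 0) :
    ∫ x, f x = ∫ x in (-R)..R, f x := by
  rw [intervalIntegral.integral_of_le (by linarith), ← integral_Icc_eq_integral_Ioc,
    setIntegral_eq_integral_of_forall_compl_eq_zero]
  intro x hx
  apply h
  by_contra hc
  exact hx (abs_le.1 (not_lt.1 hc))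

theorem intble {f : ℝ → ℂ} (hf : Continuous f) {R : ℝ} (h : ∀ x, R < |x| → f x = 0) :
    Integrable f := by
  apply hf.integrable_of_hasCompactSupport
  apply HasCompactSupport.intro (isCompact_Icc (a := -R) (b := R))
  intro x hx
  apply h
  by_contra hc
  exact hx (abs_le.1 (not_lt.1 hc))

end LEMGM

open LEMGM in
theorem LEMG_thm : Stmt_LEMG := by
  intro g g' R B hR hB hd hg' hz hb hb' hi ω
  have hR0 : 0 ≤ R := le_trans zero_le_one hR
  have hgc : Continuous g := continuous_iff_continuousAt.2 fun x => (hd x).continuousAt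
  have hFt : FCQ.Ft g ω = ∫ x, (g x : ℂ) * e ω x := rfl
  have hpos : 0 < 1 + ω ^ 2 := by positivity
  have hzc : ∀ x, R < |x| → (g x : ℂ) * e ω x = 0 := by
    intro x hx
    rw [hz x hx]
    simp
  rcases le_total |ω| 1 with hω | hω
  · have h0 : ∫ x, (g x : ℂ) = 0 := by
      have h9 : ∫ x, ((g x : ℝ) : ℂ) = ((∫ x, g x : ℝ) : ℂ) := integral_ofReal
      rw [h9, hi]
      simp
    have hI1 : Integrable (fun x => (g x : ℂ) * e ω x) :=
      intble (by have := e_cont ω; fun_prop) hzc
    have hI2 : Integrable (fun x => (g x : ℂ)) :=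
      intble (R := R) (by fun_prop) (fun x hx => by rw [hz x hx]; simp)
    have h1 : FCQ.Ft g ω = ∫ x, (g x : ℂ) * (e ω x - 1) := by
      have h2 : ∫ x, ((g x : ℂ) * e ω x - (g x : ℂ)) = FCQ.Ft g ω := by
        rw [integral_sub hI1 hI2, h0, sub_zero, hFt]
      rw [← h2]
      apply integral_congr_ae
      filter_upwards with x
      ring
    rw [h1, int_eq hR0 (fun x hx => by rw [hz x hx]; simp)]
    have h3 : ‖∫ x in (-R)..R, (g x : ℂ) * (e ω x - 1)‖ ≤ (B * (|ω| * R)) * |R - -R| := by
      apply intervalIntegral.norm_integral_le_of_norm_le_const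
      intro x hx
      rw [uIoc_of_le (by linarith)] at hx
      rw [norm_mul, Complex.norm_real, Real.norm_eq_abs]
      have hx1 : |x| ≤ R := abs_le.2 ⟨hx.1.le, hx.2⟩
      apply mul_le_mul (hb x) _ (norm_nonneg _) hB
      refine (norm_e_sub ω x).trans ?_
      rw [abs_mul]
      exact mul_le_mul_of_nonneg_left hx1 (abs_nonneg _)
    refine h3.trans ?_
    have h4 : |R - -R| = 2 * R := by
      rw [abs_of_nonneg (by linarith)]
      ring
    rw [h4, le_div_iff₀ hpos]
    have h5 : ω ^ 2 ≤ 1 := by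
      rw [← sq_abs]
      exact pow_le_one₀ (abs_nonneg _) hω
    have h6 : 0 ≤ R ^ 2 * B * |ω| := by positivity
    nlinarith [mul_nonneg h6 (sub_nonneg.2 h5)]
  · have hω0 : ω ≠ 0 := by
      rintro rfl
      simp at hω
      linarith
    have hωp : 0 < |ω| := abs_pos.2 hω0
    have hcd : ∀ x, HasDerivAt (fun y => (g y : ℂ)) ((g' x : ℝ) : ℂ) x :=
      fun x => (hd x).ofReal_comp
    have hparts := intervalIntegral.integral_mul_deriv_eq_deriv_mul (a := -R) (b := R)
      (u := fun y => (g y : ℂ)) (v := fun y => e ω y / (-((ω : ℂ) * Complex.I)))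
      (u' := fun y => ((g' y : ℝ) : ℂ)) (v' := fun y => e ω y)
      (fun x _ => hcd x) (fun x _ => e_deriv hω0 x)
      ((by fun_prop : Continuous fun y => ((g' y : ℝ) : ℂ)).intervalIntegrable _ _)
      ((e_cont ω).intervalIntegrable _ _)
    rw [hFt, int_eq hR0 hzc, hparts, zero_right hgc hz, zero_left hgc hz]
    simp only [Complex.ofReal_zero, zero_mul, sub_zero, zero_sub, norm_neg]
    have h3 : ‖∫ x in (-R)..R, ((g' x : ℝ) : ℂ) * (e ω x / (-((ω : ℂ) * Complex.I)))‖ ≤
        (B * (1 / |ω|)) * |R - -R| := by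
      apply intervalIntegral.norm_integral_le_of_norm_le_const
      intro x hx
      rw [norm_mul, Complex.norm_real, Real.norm_eq_abs, norm_div, norm_e, norm_neg, norm_mul,
        Complex.norm_I, mul_one, Complex.norm_real, Real.norm_eq_abs]
      exact mul_le_mul_of_nonneg_right (hb' x) (by positivity)
    refine h3.trans ?_
    have h4 : |R - -R| = 2 * R := by
      rw [abs_of_nonneg (by linarith)]
      ring
    rw [h4, le_div_iff₀ hpos]
    have h5 : 1 ≤ ω ^ 2 := by
      rw [← sq_abs]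
      exact one_le_pow₀ hω
    have h7 : B * (1 / |ω|) * (2 * R) * (1 + ω ^ 2) ≤ B * (1 / |ω|) * (2 * R) * (2 * ω ^ 2) := by
      apply mul_le_mul_of_nonneg_left _ (by positivity)
      linarith
    have h8 : B * (1 / |ω|) * (2 * R) * (2 * ω ^ 2) = 4 * R * B * |ω| := by
      rw [← sq_abs ω]
      field_simp
      ring
    rw [h8] at h7
    refine h7.trans ?_
    have h9 : R ≤ R ^ 2 := by nlinarith
    have h10 : 0 ≤ B * |ω| := by positivity
    nlinarith [mul_nonneg h10 (sub_nonneg.2 h9)]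

end Pool.Agent.RDS
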