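import Pool.Agent.RDS.Stmts

/-!
# Random digit sets: RSB, from choices to subsets
-/

set_option autoImplicit false

namespace Pool.Agent.RDS

namespace RSBM

/-- A lower bound for the descending factorials. -/
theorem desc_ge (n : ℕ) (hn : 1 ≤ n) : ∀ k : ℕ, k ≤ n →
    (n : ℝ) ^ k * (1 - (k : ℝ) * (k - 1) / (2 * n)) ≤ (n.descFactorial k : ℝ) := by
  have hn0 : (0 : ℝ) < n := by exact_mod_cast hn
  intro k
  induction k with
  | zero => intro _; simp
  | succ k ih =>
    intro hk
    have h1 := ih (by omega)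
    have hk' : (k : ℝ) ≤ n := by exact_mod_cast (by omega : k ≤ n)
    rw [Nat.descFactorial_succ]
    push_cast [Nat.cast_sub (by omega : k ≤ n)]
    have h2 := mul_le_mul_of_nonneg_left h1 (sub_nonneg.2 hk')
    refine le_trans ?_ h2
    have hk0 : (0 : ℝ) ≤ (k : ℝ) * ((k : ℝ) * (k - 1)) := by
      rcases Nat.eq_zero_or_pos k with h | h
      · rw [h]; simp
      · have h3 : (1 : ℝ) ≤ k := by exact_mod_cast h
        exact mul_nonneg (by linarith) (mul_nonneg (by linarith) (by linarith))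
    have e : ((n : ℝ) - k) * ((n : ℝ) ^ k * (1 - (k : ℝ) * (k - 1) / (2 * n))) -
        (n : ℝ) ^ (k + 1) * (1 - ((k : ℝ) + 1) * ((k : ℝ) + 1 - 1) / (2 * n)) =
        (n : ℝ) ^ k * ((k : ℝ) * ((k : ℝ) * (k - 1))) / (2 * n) := by
      field_simp
      ring
    have h4 : 0 ≤ (n : ℝ) ^ k * ((k : ℝ) * ((k : ℝ) * (k - 1))) / (2 * n) := by positivity
    linarith

theorem pow_le (L : ℕ) (hL : 1 ≤ L) :
    (L : ℝ) ^ (2 * L) ≤ 2 * ((Nat.factorial L : ℝ) * ((L * L).choose L : ℝ)) := by
  have hL0 : (0 : ℝ) < L := by exact_mod_cast hL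
  have h1 := desc_ge (L * L) (Nat.mul_pos hL hL) L (Nat.le_mul_self L)
  rw [Nat.descFactorial_eq_factorial_mul_choose] at h1
  push_cast at h1
  have h2 : (1 : ℝ) / 2 ≤ 1 - (L : ℝ) * (L - 1) / (2 * (L * L)) := by
    have e : (1 : ℝ) - (L : ℝ) * (L - 1) / (2 * (L * L)) = 1 / 2 + 1 / (2 * L) := by
      field_simp
      ring
    rw [e]
    have : (0 : ℝ) ≤ 1 / (2 * L) := by positivity
    linarith
  have h3 : ((L : ℝ) * L) ^ L = (L : ℝ) ^ (2 * L) := by
    rw [pow_mul, sq]
  rw [h3] at h1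
  have h4 := mul_le_mul_of_nonneg_left h2 (pow_pos hL0 (2 * L)).le
  linarith

theorem card_digitSets (L : ℕ) : (digitSets L).card = (L * L).choose L := by
  unfold digitSets
  rw [Finset.card_powersetCard, Finset.card_product, Finset.card_range]

/-- A choice from an element of the box. -/
def mk {L : ℕ} (D : Finset (ℕ × ℕ)) (hD : D ⊆ Finset.range L ×ˢ Finset.range L) (d : D) :
    Fin L × Fin L :=
  (⟨d.1.1, Finset.mem_range.1 (Finset.mem_product.1 (hD d.2)).1⟩,
    ⟨d.1.2, Finset.mem_range.1 (Finset.mem_product.1 (hD d.2)).2⟩)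

/-- At least `L!` choices for each set of digits. -/
theorem fiber {L : ℕ} (P : (Fin L → Fin L × Fin L) → Prop) [DecidablePred P] (D : Finset (ℕ × ℕ))
    (hD : D ∈ digitSets L)
    (hP : ∀ ω : Fin L → Fin L × Fin L, Function.Injective (dg ω) →
      Finset.univ.image (dg ω) = D → P ω) :
    Nat.factorial L ≤ ((Finset.univ.filter P).filter
      (fun ω => Finset.univ.image (dg ω) = D)).card := by
  obtain ⟨hsub, hcard⟩ := Finset.mem_powersetCard.1 hD
  let e : D ≃ Fin L := D.equivFinOfCardEq hcard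
  let g : Equiv.Perm (Fin L) → (Fin L → Fin L × Fin L) := fun σ i => mk D hsub (e.symm (σ i))
  have hg : ∀ σ i, dg (g σ) i = (e.symm (σ i)).1 := fun σ i => rfl
  have hinj : ∀ σ, Function.Injective (dg (g σ)) := by
    intro σ i j hij
    rw [hg, hg] at hij
    exact σ.injective (e.symm.injective (Subtype.ext hij))
  have himg : ∀ σ, Finset.univ.image (dg (g σ)) = D := by
    intro σ
    ext d
    rw [Finset.mem_image]
    constructor
    · rintro ⟨i, -, rfl⟩
      rw [hg]
      exact (e.symm (σ i)).2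
    · intro hd
      refine ⟨σ.symm (e ⟨d, hd⟩), Finset.mem_univ _, ?_⟩
      rw [hg, Equiv.apply_symm_apply, Equiv.symm_apply_apply]
  have h1 : (Finset.univ : Finset (Equiv.Perm (Fin L))).card = Nat.factorial L := by
    rw [Finset.card_univ, Fintype.card_perm, Fintype.card_fin]
  rw [← h1]
  refine Finset.card_le_card_of_injOn g ?_ ?_
  · intro σ _
    rw [Finset.mem_coe, Finset.mem_filter, Finset.mem_filter]
    exact ⟨⟨Finset.mem_univ _, hP _ (hinj σ) (himg σ)⟩, himg σ⟩
  · intro σ _ τ _ h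
    apply Equiv.ext
    intro i
    have h2 : (e.symm (σ i)).1 = (e.symm (τ i)).1 := by
      rw [← hg, ← hg, h]
    exact e.symm.injective (Subtype.ext h2)

open Classical in
theorem bad_le (L : ℕ) (Q : Finset (ℕ × ℕ) → Prop) :
    (((digitSets L).filter fun D => ¬ Q D).card : ℝ) * Nat.factorial L ≤
      nb L (fun ω => Function.Injective (dg ω) ∧ ¬ Q (Finset.univ.image (dg ω))) := by
  unfold nb
  have h1 : ((digitSets L).filter fun D => ¬ Q D).card * Nat.factorial L ≤
      (Finset.univ.filter (fun ω : Fin L → Fin L × Fin L => Function.Injective (dg ω) ∧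
        ¬ Q (Finset.univ.image (dg ω)))).card := by
    rw [Finset.card_eq_sum_card_fiberwise (f := fun ω => Finset.univ.image (dg ω))
      (t := (digitSets L).filter fun D => ¬ Q D)]
    · rw [← smul_eq_mul]
      refine Finset.card_nsmul_le_sum _ _ _ fun D hD => ?_
      obtain ⟨hD1, hD2⟩ := Finset.mem_filter.1 hD
      have h4 := fiber (fun ω : Fin L → Fin L × Fin L => Function.Injective (dg ω) ∧
        ¬ Q (Finset.univ.image (dg ω))) D hD1 (fun ω h2 h3 => ⟨h2, by rw [h3]; exact hD2⟩)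
      convert h4
    · intro ω hω
      obtain ⟨-, h2, h3⟩ := Finset.mem_filter.1 (Finset.mem_coe.1 hω)
      refine Finset.mem_coe.2 (Finset.mem_filter.2 ⟨?_, h3⟩)
      refine Finset.mem_powersetCard.2 ⟨?_, ?_⟩
      · intro d hd
        obtain ⟨i, -, rfl⟩ := Finset.mem_image.1 hd
        exact Finset.mem_product.2 ⟨Finset.mem_range.2 (ω i).1.2, Finset.mem_range.2 (ω i).2.2⟩
      · rw [Finset.card_image_of_injective _ h2, Finset.card_univ, Fintype.card_fin]
  have h2 : (((digitSets L).filter fun D => ¬ Q D).card : ℝ) * Nat.factorial L ≤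
      ((Finset.univ.filter (fun ω : Fin L → Fin L × Fin L => Function.Injective (dg ω) ∧
        ¬ Q (Finset.univ.image (dg ω)))).card : ℝ) := by
    exact_mod_cast h1
  convert h2

end RSBM

theorem RSB_thm : Stmt_RSB := by
  classical
  intro L Q hL
  have hL0 : (0 : ℝ) < L := by exact_mod_cast hL
  have hc : 0 < (digitSets L).card := by
    rw [RSBM.card_digitSets]
    exact Nat.choose_pos (Nat.le_mul_self L)
  refine ⟨?_, hc⟩
  have hcR : (0 : ℝ) < ((digitSets L).card : ℝ) := by exact_mod_cast hc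
  rw [div_le_div_iff₀ hcR (pow_pos hL0 _)]
  have h1 := RSBM.bad_le L Q
  have h2 := RSBM.pow_le L hL
  rw [← RSBM.card_digitSets] at h2
  obtain ⟨b, hb⟩ : ∃ b : ℝ, b = (((digitSets L).filter fun D => ¬ Q D).card : ℝ) := ⟨_, rfl⟩
  obtain ⟨N, hN⟩ : ∃ N : ℝ, N = nb L (fun ω => Function.Injective (dg ω) ∧
      ¬ Q (Finset.univ.image (dg ω))) := ⟨_, rfl⟩
  have hb0 : 0 ≤ b := by rw [hb]; exact Nat.cast_nonneg _
  have h3 : b * Nat.factorial L ≤ N := by
    rw [hb, hN]
    convert h1
  have h4 : b * (L : ℝ) ^ (2 * L) ≤ 2 * N * ((digitSets L).card : ℝ) := by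
    calc b * (L : ℝ) ^ (2 * L) ≤
        b * (2 * ((Nat.factorial L : ℝ) * ((digitSets L).card : ℝ))) :=
          mul_le_mul_of_nonneg_left h2 hb0
      _ = 2 * (b * Nat.factorial L) * ((digitSets L).card : ℝ) := by ring
      _ ≤ 2 * N * ((digitSets L).card : ℝ) := by
          refine mul_le_mul_of_nonneg_right ?_ hcR.le
          linarith
  rw [hb, hN] at h4
  convert h4

end Pool.Agent.RDS
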